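import Pool.Agent.H1.AR.RMc
import Pool.Agent.H63.MA.NormZ
import Pool.Agent.H63.MA.RayC
import Pool.Agent.H63.MA.GHeis
import Pool.Agent.H63.MA.GDef

/-!
# [H1 AR CHA] the ray class character of a Kummer character, 100-150 lines. File Pool/Agent/H1/AR/ChA.lean

`L` a number field with `ζ`, `B` a finite set of places containing those above `p`, `y` of order divisible by `p` outside `B`, `M = span {p} ^ 3 * ∏ w ∈ B, w.asIdeal`.
* `cha_ray`: `f w = if w ∈ B then 0 else lam w * lgv p ζ w (pi w) y`, `pi w` a chosen element of order `1` (`exists_unif`), `lam` from `exists_rec_one L hp hp2 hζ`. `zero`: a prime dividing `M` is in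
  `B` (it divides `p`, so is above `p`, or is one of the `w`; see the proof of `exists_RD0` in H63/MA/RMkA.lean). `ray`: for `x ≡ 1` mod `M`: `x` is `PS` on `B` (`rmc_ray`), so
  `∑ᶠ w, lam w * B w x y = 0` (`IsRec.sum`). `w ∈ B`: the term is `0` (`lam w = 0` above `p`, `Spl` otherwise). `w ∉ B`: `B w x y = lgv w π x * ord w y - ord w x * lgv w π y` (`b_eq`) `= - ord w x * lgv w π y`
  because `ord w y = 0` mod `p`. So `∑ f w * ord w x = 0`.
  Value: `w ∉ B` of prime norm: `lam w = 1`, and `lgv w π y = lgv w (pi w) y` for every `π` of order `1`: `lgv` depends on `π` only through `π ^ (- ord w y)`, `p ∣ ord w y`: `B w y x = ord w x * B w y π`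
  (`B_unram`) and `B w y x = lgv w π y * ord w x` for all `π` (`b_eq`, `ord w y = 0` mod `p`); compare for `x` of order `1`.
* `cha`: `ray_rc` (H63/MA/RayC.lean) with `M ≠ ⊥`; a prime `w ∉ B` does not divide `M`.
-/

set_option autoImplicit false
set_option linter.dupNamespace false

open scoped NumberField
open IsDedekindDomain
open scoped Classical

noncomputable section

namespace H1.AR

open H63.MA

variable {L : Type} [Field L] [NumberField L] {p : ℕ} {ζ : L}

theorem cha_ne (hp : p.Prime) (B : Finset (Pl L)) :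
    Ideal.span {(p : 𝓞 L)} ^ 3 * ∏ w ∈ B, w.asIdeal ≠ ⊥ := by
  rw [← Ideal.zero_eq_bot]
  refine mul_ne_zero (pow_ne_zero 3 ?_) (Finset.prod_ne_zero_iff.2 fun w _ => w.ne_bot)
  rw [Ideal.zero_eq_bot, Ne, Ideal.span_singleton_eq_bot]
  exact_mod_cast hp.ne_zero

theorem cha_dvd (hp : p.Prime) {B : Finset (Pl L)} (hB : ∀ w, Above p w → w ∈ B) {w : Pl L}
    (hw : w.asIdeal ∣ Ideal.span {(p : 𝓞 L)} ^ 3 * ∏ w ∈ B, w.asIdeal) : w ∈ B := by
  rcases (HeightOneSpectrum.prime w).dvd_or_dvd hw with h | h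
  · apply hB
    have h1 : w.asIdeal ∣ Ideal.span {(p : 𝓞 L)} := (HeightOneSpectrum.prime w).dvd_of_dvd_pow h
    have h2 : Ideal.span {(p : 𝓞 L)} ≤ w.asIdeal := Ideal.le_of_dvd h1
    exact h2 (Ideal.mem_span_singleton_self _)
  · obtain ⟨v, hv, h1⟩ := (HeightOneSpectrum.prime w).exists_mem_finset_dvd h
    have h3 : v.asIdeal ≤ w.asIdeal := Ideal.le_of_dvd h1
    have h4 : v = w := HeightOneSpectrum.ext (v.isMaximal.eq_of_le w.isPrime.ne_top h3)
    rw [← h4]
    exact hv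

theorem cha_ray (hp : p.Prime) (hp2 : MOne p L) (hζ : IsPrimitiveRoot ζ p) {B : Finset (Pl L)}
    (hB : ∀ w, Above p w → w ∈ B) {y : Lˣ} (hy : ∀ w, w ∉ B → ((ord w y : ℤ) : ZMod p) = 0) :
    ∃ f : Pl L → ZMod p, IsRay p (Ideal.span {(p : 𝓞 L)} ^ 3 * ∏ w ∈ B, w.asIdeal) f ∧
      ∀ w, w ∉ B → (nm w).Prime → ∀ π : Lˣ, ord w π = 1 → f w = lgv p ζ w π y := by
  have hne : NeZero p := ⟨hp.ne_zero⟩
  obtain ⟨lam, hlam, hone⟩ := exists_rec_one L hp hp2 hζ
  choose pi hpi using fun w : Pl L => exists_unif w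
  have hkey : ∀ w, w ∉ B → ∀ π : Lˣ, ord w π = 1 → ∀ x : Lˣ,
      H63.MA.B p ζ w x y = - ((ord w x : ℤ) : ZMod p) * lgv p ζ w π y := by
    intro w hw π hπ x
    have hwa : ¬ Above p w := fun h => hw (hB w h)
    rw [b_eq hp hζ hwa hπ, hy w hw]
    ring
  have hind : ∀ w, w ∉ B → ∀ π : Lˣ, ord w π = 1 → lgv p ζ w π y = lgv p ζ w (pi w) y := by
    intro w hw π hπ
    have h1 := hkey w hw π hπ π
    have h2 := hkey w hw (pi w) (hpi w) π
    rw [h1, hπ, Int.cast_one] at h2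
    linear_combination -h2
  refine ⟨fun w => if w ∈ B then 0 else lam w * lgv p ζ w (pi w) y, ⟨?_, ?_⟩, ?_⟩
  · intro v hv
    exact if_pos (cha_dvd hp hB hv)
  · intro x a hx ha
    have hPS := rmc_ray hp hζ B hB x a hx ha
    have h1 : ∀ v : Pl L, (if v ∈ B then 0 else lam v * lgv p ζ v (pi v) y) *
        ((ord v x : ℤ) : ZMod p) = -(lam v * H63.MA.B p ζ v x y) := by
      intro v
      by_cases hv : v ∈ B
      · rw [if_pos hv, zero_mul]
        by_cases hva : Above p v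
        · rw [hlam.above v hva]
          ring
        · rw [hPS.2 v hv hva y]
          ring
      · rw [if_neg hv, hkey v hv (pi v) (hpi v) x]
        ring
    rw [finsum_congr h1, finsum_neg_distrib, hlam.sum x hPS.1 y, neg_zero]
  · intro w hw hnm π hπ
    have hwa : ¬ Above p w := fun h => hw (hB w h)
    show (if w ∈ B then 0 else lam w * lgv p ζ w (pi w) y) = _
    rw [if_neg hw, hone w hwa hnm, one_mul, hind w hw π hπ]

theorem cha (hp : p.Prime) (hp2 : MOne p L) (hζ : IsPrimitiveRoot ζ p) {B : Finset (Pl L)}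
    (hB : ∀ w, Above p w → w ∈ B) {y : Lˣ} (hy : ∀ w, w ∉ B → ((ord w y : ℤ) : ZMod p) = 0) :
    ∃ χ : RC L (Ideal.span {(p : 𝓞 L)} ^ 3 * ∏ w ∈ B, w.asIdeal),
      ∀ w, w ∉ B → (nm w).Prime → ∀ π : Lˣ, ord w π = 1 →
        χ.χ w.asIdeal = ep p (lgv p ζ w π y) := by
  obtain ⟨f, hf, hfv⟩ := cha_ray hp hp2 hζ hB hy
  obtain ⟨χ, hχ, -⟩ := ray_rc hp (cha_ne hp B) hf
  refine ⟨χ, fun w hw hnm π hπ => ?_⟩
  rw [hχ w fun h => hw (cha_dvd hp hB h), hfv w hw hnm π hπ]

end H1.AR
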