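import Pool.Agent.H1.AR.ChC
import Pool.Agent.H1.AR.ChA

/-!
# [H1 AR CHD] the phase functions are ray class characters with bounded modulus, 120-180 lines. File Pool/Agent/H1/AR/ChD.lean

`T` a finite set of places of `K`; `ovf F T` the finite set of the places of `F` over `T`.
* `ovf_nm`: `∏ w over v, nm w ≤ nm v ^ [F : K]` (`Σ e f = [F : K]`, Mathlib: `Ideal.sum_ramification_inertia`; grep `sum_ramification_inertia` or `over_card` in the library), so
  `∏ w ∈ ovf F T, nm w ≤ ∏ v ∈ T, nm v ^ [F : K]`.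
* `chd`: `chc` gives `y, z`, `Y = y * z` has order divisible by `p` outside `B = (X.A i).D.S ∪ ovf (F i) (σ.image un)` (`chb_ord`, `ord x z = 0`). `cha` over `F i` with `B` (`fld_mone`, `fld_zeta`;
  `(X.A i).D.above`). Modulus `𝔣 = span {p} ^ 3 * ∏ w ∈ B, w.asIdeal`, `absNorm = p ^ (3 n) * ∏ w ∈ B, nm w`, `n = [F i : ℚ] = [F i : K] [K : ℚ] ≤ d [K : ℚ]`; `B ⊆ ovf (F i) (S0 ∪ σ.image un)` by `hS`, so
  `∏ w ∈ B, nm w ≤ ∏ w ∈ ovf S0 * ∏ w ∈ ovf (image)` and `ovf_nm`. Value at a good label `a = ⟨i, x⟩` with `un a ∉ σ.image un`: `x ∉ B` (`below_unique`, `un_over`), `cf = lgv x (pi x) Y`.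
-/

set_option autoImplicit false
set_option linter.dupNamespace false

open scoped NumberField Pointwise
open IsDedekindDomain
open scoped Classical

noncomputable section

namespace H1.AR

open H63.MA H38.BB H38.BG H57.PC H57.BRA H89.BRG

/-- the places over a finite set of places -/
def ovf {K : Type} [Field K] [NumberField K] (F : Type) [Field F] [NumberField F] [Algebra K F]
    (T : Finset (Pl K)) : Finset (Pl F) :=
  T.biUnion fun v => (over_finite (L := F) v).toFinset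

theorem mem_ovf {K : Type} [Field K] [NumberField K] (F : Type) [Field F] [NumberField F]
    [Algebra K F] (T : Finset (Pl K)) (w : Pl F) : w ∈ ovf F T ↔ ∃ v ∈ T, Over w v := by
  unfold ovf
  rw [Finset.mem_biUnion]
  simp only [Set.Finite.mem_toFinset, Set.mem_ofPred_eq]

/-- the product of the norms of the places over `v` -/
private theorem ovf_one {K : Type} [Field K] [NumberField K] (F : Type) [Field F] [NumberField F]
    [Algebra K F] (v : Pl K) :
    ∏ w ∈ (over_finite (L := F) v).toFinset, nm w ≤ nm v ^ Module.finrank K F := by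
  have hvm : v.asIdeal.IsMaximal := v.isMaximal
  have : Fintype (v.asIdeal.primesOver (𝓞 F)) :=
    Set.Finite.fintype (IsDedekindDomain.primesOver_finite v.asIdeal (𝓞 F))
  have h2 : Module.finrank (𝓞 K) (𝓞 F) = Module.finrank K F :=
    (IsFractionRing.finrank_eq (𝓞 K) K (𝓞 F) F).symm
  have hmem : ∀ w ∈ (over_finite (L := F) v).toFinset, Over w v := fun w hw =>
    (Set.Finite.mem_toFinset (over_finite (L := F) v)).1 hw
  have hnm : ∀ w ∈ (over_finite (L := F) v).toFinset,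
      nm w = nm v ^ w.asIdeal.inertiaDeg (𝓞 K) := by
    intro w hw
    have : w.asIdeal.LiesOver v.asIdeal := ⟨(hmem w hw).symm⟩
    exact (Ideal.absNorm_pow_inertiaDeg v.asIdeal w.asIdeal).symm
  rw [Finset.prod_congr rfl hnm, Finset.prod_pow_eq_pow_sum]
  refine Nat.pow_le_pow_right (one_lt_nm v).le ?_
  rw [← h2, ← Ideal.sum_ramification_inertia_eq_finrank v.asIdeal]
  have h3 : ∀ w ∈ (over_finite (L := F) v).toFinset, w.asIdeal.inertiaDeg (𝓞 K) ≤
      w.asIdeal.ramificationIdx (𝓞 K) * w.asIdeal.inertiaDeg (𝓞 K) := by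
    intro w hw
    exact Nat.le_mul_of_pos_left _ (Ideal.ramificationIdx_pos w.asIdeal (𝓞 K))
  refine (Finset.sum_le_sum h3).trans ?_
  have h4 : ∑ P : v.asIdeal.primesOver (𝓞 F),
      P.1.ramificationIdx (𝓞 K) * P.1.inertiaDeg (𝓞 K) =
      ∑ I ∈ (Finset.univ : Finset (v.asIdeal.primesOver (𝓞 F))).image Subtype.val,
        I.ramificationIdx (𝓞 K) * I.inertiaDeg (𝓞 K) := by
    rw [Finset.sum_image (fun a _ b _ h => Subtype.ext h)]
  have h5 : ∑ w ∈ (over_finite (L := F) v).toFinset,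
      w.asIdeal.ramificationIdx (𝓞 K) * w.asIdeal.inertiaDeg (𝓞 K) =
      ∑ I ∈ (over_finite (L := F) v).toFinset.image (fun w => w.asIdeal),
        I.ramificationIdx (𝓞 K) * I.inertiaDeg (𝓞 K) := by
    rw [Finset.sum_image (fun a _ b _ h => HeightOneSpectrum.ext h)]
  rw [h4, h5]
  refine Finset.sum_le_sum_of_subset ?_
  intro I hI
  obtain ⟨w, hw, rfl⟩ := Finset.mem_image.1 hI
  exact Finset.mem_image.2 ⟨⟨w.asIdeal, w.isPrime, ⟨(hmem w hw).symm⟩⟩, Finset.mem_univ _, rfl⟩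

theorem ovf_nm {K : Type} [Field K] [NumberField K] (F : Type) [Field F] [NumberField F]
    [Algebra K F] (T : Finset (Pl K)) :
    ∏ w ∈ ovf F T, nm w ≤ (∏ v ∈ T, nm v) ^ Module.finrank K F := by
  unfold ovf
  rw [Finset.prod_biUnion, ← Finset.prod_pow]
  · exact Finset.prod_le_prod' fun v _ => ovf_one F v
  · intro v _ v' _ hvv
    refine Finset.disjoint_left.2 fun w hw hw' => hvv ?_
    exact below_unique ((Set.Finite.mem_toFinset (over_finite (L := F) v)).1 hw)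
      ((Set.Finite.mem_toFinset (over_finite (L := F) v')).1 hw')

variable {p u w N : ℕ} {R Q : Type} [Group R] [Group Q]
variable [Fintype Q] {Dg : MG p u w N R Q} {K : Type} [Field K] [NumberField K] {Ω : Type}
  [Field Ω] [Algebra K Ω] [IsAlgClosure K Ω] {ζ : K} (X : AD Dg K Ω ζ)

theorem chd (hp : p.Prime) (hp2 : MOne p K) (hζ : IsPrimitiveRoot ζ p) {φ : Gal(Ω/K) →* R}
    (hφ : X.IsC φ) (i : Fin N) (κ : Fin (X.A i).D.r → ZMod p) {θ₀ : Fin w → ZMod p}
    (hθ₀ : Van Dg i i θ₀) (σ : Finset X.Lb) (hσ : ∀ b ∈ σ, X.Gd b)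
    (θ : X.Lb → Fin w → ZMod p) (d : ℕ) (hd : Module.finrank K (X.F i) ≤ d) :
    ∃ (𝔣 : Ideal (𝓞 (X.F i))) (χ : RC (X.F i) 𝔣), 𝔣 ≠ ⊥ ∧
      Ideal.absNorm 𝔣 ≤ p ^ (3 * (d * Module.finrank ℚ K)) * (∏ v ∈ X.D.S0, nm v) ^ d *
        (∏ v ∈ σ.image X.un, nm v) ^ d ∧
      ∀ x : Pl (X.F i), X.Gd ⟨i, x⟩ → X.un ⟨i, x⟩ ∉ σ.image X.un →
        χ.χ x.asIdeal = ep p (cf X i κ φ θ₀ σ θ x) := by
  obtain ⟨y, z, hy, hz, -, -, hcf⟩ := chc X hp hp2 hζ hφ i κ hθ₀ σ θ
  obtain ⟨χ, hχ⟩ := cha (L := X.F i) hp (fld_mone X hp2 i) (fld_zeta X hζ i)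
    (B := (X.A i).D.S ∪ ovf (X.F i) (σ.image X.un))
    (fun x hx => Finset.mem_union_left _ ((X.A i).D.above x hx)) (y := y * z) (fun x hx => by
      rw [Finset.mem_union, not_or, mem_ovf] at hx
      have h1 := chb_ord X hp hζ hφ i θ₀ σ hσ θ hy hx.1
        (fun b hb h => hx.2 ⟨X.un b, Finset.mem_image_of_mem _ hb, h⟩)
      rw [ord_mul, hz x hx.1, add_zero, h1])
  have hD : (X.A i).D.S = ovf (X.F i) X.D.S0 := by
    ext x
    rw [mem_ovf]
    exact (X.A i).hS x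
  have hn1 : ∀ T : Finset (Pl K), 1 ≤ ∏ v ∈ T, nm v := fun T =>
    Nat.one_le_iff_ne_zero.2 (Finset.prod_ne_zero_iff.2 fun v _ => by
      have := one_lt_nm v
      omega)
  have hn2 : ∀ T : Finset (Pl K), ∏ x ∈ ovf (X.F i) T, nm x ≤ (∏ v ∈ T, nm v) ^ d := fun T =>
    (ovf_nm (X.F i) T).trans (Nat.pow_le_pow_right (hn1 T) hd)
  refine ⟨_, χ, cha_ne hp _, ?_, fun x hx hxs => ?_⟩
  · rw [map_mul, map_pow, map_prod, Ideal.absNorm_span_natCast, ← pow_mul]
    have h3 : Module.finrank ℤ (𝓞 (X.F i)) * 3 ≤ 3 * (d * Module.finrank ℚ K) := by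
      rw [NumberField.RingOfIntegers.rank, ← Module.finrank_mul_finrank ℚ K (X.F i), mul_comm _ 3,
        mul_comm (Module.finrank ℚ K)]
      exact Nat.mul_le_mul_left _ (Nat.mul_le_mul_right _ hd)
    have h4 : ∏ x ∈ (X.A i).D.S ∪ ovf (X.F i) (σ.image X.un), Ideal.absNorm x.asIdeal ≤
        (∏ x ∈ (X.A i).D.S, nm x) * ∏ x ∈ ovf (X.F i) (σ.image X.un), nm x := by
      rw [← Finset.prod_union_inter]
      refine Nat.le_mul_of_pos_right _ (Nat.pos_of_ne_zero (Finset.prod_ne_zero_iff.2 fun x _ => ?_))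
      have := one_lt_nm x
      omega
    rw [mul_assoc]
    refine Nat.mul_le_mul (Nat.pow_le_pow_right hp.pos h3) (h4.trans ?_)
    rw [hD]
    exact Nat.mul_le_mul (hn2 _) (hn2 _)
  · rw [hcf x hx.1 hx.2]
    refine hχ x ?_ hx.2 _ ((X.A i).D.pi_self x hx.1)
    rw [Finset.mem_union, not_or, mem_ovf]
    refine ⟨hx.1, ?_⟩
    rintro ⟨v, hv, hxv⟩
    rw [below_unique hxv (X.un_over ⟨i, x⟩)] at hv
    exact hxs hv

end H1.AR
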