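import Mathlib

/-!
# [H1 AR CLG] finite commutative groups, 80-120 lines. File Pool/Agent/H1/AR/ClG.lean

* `clg`: in the finite group `X = C ⧸ A` the kernel and the cokernel of `x ↦ x ^ p` have the same number of elements (`card_eq`: `#X = #ker * #range = #range * #(X / range)`), and
  `X / X^p ≃ C ⧸ (A ⊔ C^p)` (or only a surjection `X / X^p → C ⧸ (A ⊔ C^p)`, which is enough for `≤`).
* `clg_gen`: induction on `m` (generalising `B`): if `B = ⊤` take `T = ∅`. Otherwise some `g ∈ G0` is not in `B` (`closure G0 = ⊤`), `B' = B ⊔ zpowers g`, `#(C / B') * p = #(C / B)` or at least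
  `#(C / B') * 2 ≤ ..`: the index of `B` in `B'` is at least `p` (the class of `g` in `C / B` has order `p`, since `g ^ p ∈ B`, `g ∉ B`, `p` prime), so `#(C / B') ≤ p ^ (m - 1)`, and `m ≥ 1` because `B ≠ ⊤` gives
  `1 < #(C / B) ≤ p ^ m`. Add `g` to the set for `B'`.
-/

set_option autoImplicit false
set_option linter.dupNamespace false

open scoped Classical

noncomputable section

namespace H1.AR

theorem clg {C : Type} [CommGroup C] [Finite C] (A : Subgroup C) (p M : ℕ)
    (h : Nat.card {c : C ⧸ A // c ^ p = 1} ≤ M) :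
    Nat.card (C ⧸ (A ⊔ (powMonoidHom p : C →* C).range)) ≤ M := by
  obtain ⟨φ, hφ⟩ : ∃ φ : (C ⧸ A) →* (C ⧸ A), φ = powMonoidHom p := ⟨_, rfl⟩
  have h1 : Nat.card φ.ker ≤ M := by
    refine le_trans (le_of_eq ?_) h
    refine Nat.card_congr (Equiv.subtypeEquivRight fun c => ?_)
    rw [MonoidHom.mem_ker, hφ, powMonoidHom_apply]
  have h2 : φ.range.index = Nat.card φ.ker := by
    have h3 := Subgroup.card_mul_index φ.ker
    have h4 := Subgroup.card_mul_index φ.range
    rw [Subgroup.index_ker] at h3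
    rw [← h4, mul_comm] at h3
    exact (Nat.eq_of_mul_eq_mul_left Nat.card_pos h3).symm
  obtain ⟨f, hf⟩ : ∃ f : (C ⧸ A) →* (C ⧸ (A ⊔ (powMonoidHom p : C →* C).range)),
      ∀ c : C, f (c : C ⧸ A) = (c : C ⧸ (A ⊔ (powMonoidHom p : C →* C).range)) :=
    ⟨QuotientGroup.map A _ (MonoidHom.id C) (by
      intro c hc
      exact (le_sup_left : A ≤ A ⊔ (powMonoidHom p : C →* C).range) hc), fun c => rfl⟩
  have hsurj : Function.Surjective f := by
    intro y
    obtain ⟨c, rfl⟩ := QuotientGroup.mk_surjective y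
    exact ⟨c, hf c⟩
  have h3 : φ.range ≤ f.ker := by
    rintro _ ⟨x, rfl⟩
    obtain ⟨c, rfl⟩ := QuotientGroup.mk_surjective x
    rw [MonoidHom.mem_ker, hφ, powMonoidHom_apply, ← QuotientGroup.mk_pow, hf,
      QuotientGroup.eq_one_iff]
    exact (le_sup_right : _ ≤ A ⊔ (powMonoidHom p : C →* C).range) ⟨c, rfl⟩
  have h4 : f.ker.index = Nat.card (C ⧸ (A ⊔ (powMonoidHom p : C →* C).range)) := by
    rw [Subgroup.index_ker, MonoidHom.range_eq_top.2 hsurj]
    exact Nat.card_congr Subgroup.topEquiv.toEquiv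
  have h5 : f.ker.index ≤ φ.range.index := by
    refine Nat.le_of_dvd ?_ (Subgroup.index_dvd_of_le h3)
    exact Nat.pos_of_ne_zero Subgroup.index_ne_zero_of_finite
  rw [← h4]
  exact h5.trans (h2.le.trans h1)

theorem clg_gen {C : Type} [CommGroup C] [Finite C] {p : ℕ} (hp : p.Prime) (G0 : Set C)
    (hG : Subgroup.closure G0 = ⊤) (m : ℕ) (B : Subgroup C) (hB : ∀ c, c ^ p ∈ B)
    (h : Nat.card (C ⧸ B) ≤ p ^ m) :
    ∃ T : Finset C, (T : Set C) ⊆ G0 ∧ T.card ≤ m ∧ B ⊔ Subgroup.closure (T : Set C) = ⊤ := by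
  induction m generalizing B with
  | zero =>
    refine ⟨∅, by simp, by simp, ?_⟩
    have h1 : B.index = 1 := by
      have h2 : B.index ≠ 0 := Subgroup.index_ne_zero_of_finite
      rw [pow_zero] at h
      have h3 : B.index ≤ 1 := h
      omega
    rw [Subgroup.index_eq_one.1 h1, top_sup_eq]
  | succ m ih =>
    by_cases hBt : B = ⊤
    · exact ⟨∅, by simp, by simp, by rw [hBt, top_sup_eq]⟩
    have hex : ∃ g ∈ G0, g ∉ B := by
      by_contra hcon
      push Not at hcon
      apply hBt
      rw [eq_top_iff, ← hG, Subgroup.closure_le]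
      exact hcon
    obtain ⟨g, hg, hgB⟩ := hex
    have hord : orderOf (g : C ⧸ B) = p := by
      have hpf : Fact p.Prime := ⟨hp⟩
      refine orderOf_eq_prime_iff.2 ⟨?_, ?_⟩
      · rw [← QuotientGroup.mk_pow, QuotientGroup.eq_one_iff]
        exact hB g
      · rw [Ne, QuotientGroup.eq_one_iff]
        exact hgB
    obtain ⟨B', hB'⟩ : ∃ B' : Subgroup C,
        B' = (Subgroup.zpowers (g : C ⧸ B)).comap (QuotientGroup.mk' B) := ⟨_, rfl⟩
    have hBB : B ≤ B' := by
      intro c hc
      rw [hB', Subgroup.mem_comap, QuotientGroup.mk'_apply, (QuotientGroup.eq_one_iff c).2 hc]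
      exact one_mem _
    have hidx : B'.index = (Subgroup.zpowers (g : C ⧸ B)).index := by
      rw [hB']
      exact Subgroup.index_comap_of_surjective _ (QuotientGroup.mk'_surjective B)
    have hcard : Nat.card (C ⧸ B') ≤ p ^ m := by
      have h1 := Subgroup.card_mul_index (Subgroup.zpowers (g : C ⧸ B))
      rw [Nat.card_zpowers, hord, ← hidx] at h1
      have h2 : p * B'.index ≤ p * p ^ m := by
        rw [h1, ← pow_succ']
        exact h
      exact Nat.le_of_mul_le_mul_left h2 hp.pos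
    obtain ⟨T, h1, h2, h3⟩ := ih B' (fun c => hBB (hB c)) hcard
    refine ⟨insert g T, ?_, ?_, ?_⟩
    · rw [Finset.coe_insert]
      exact Set.insert_subset hg h1
    · exact (Finset.card_insert_le _ _).trans (Nat.succ_le_succ h2)
    · rw [eq_top_iff, ← h3, Finset.coe_insert]
      refine sup_le ?_ ?_
      · intro c hc
        rw [hB', Subgroup.mem_comap, QuotientGroup.mk'_apply, Subgroup.mem_zpowers_iff] at hc
        obtain ⟨k, hk⟩ := hc
        rw [← QuotientGroup.mk_zpow, QuotientGroup.eq] at hk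
        have h4 : c = (g ^ k)⁻¹⁻¹ * ((g ^ k)⁻¹ * c) := by
          rw [inv_inv, mul_inv_cancel_left]
        rw [h4]
        refine mul_mem ?_ ((le_sup_left : B ≤ _) hk)
        rw [inv_inv]
        exact (le_sup_right : Subgroup.closure (insert g (T : Set C)) ≤ _)
          (zpow_mem (Subgroup.subset_closure (Set.mem_insert _ _)) k)
      · exact (Subgroup.closure_mono (Set.subset_insert _ _)).trans le_sup_right

end H1.AR
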