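import Pool.Agent.H1.AR.ClI
import Pool.Agent.H1.AR.ClG

/-!
# [H1 AR CLA] few auxiliary primes generate the class group modulo `p`, 100-150 lines. File Pool/Agent/H1/AR/ClA.lean

`C = ClassGroup (𝓞 F)` (finite, commutative), `B = AS S ⊔ C^p`. `cli` and `clg`: `#(C / B) ≤ p ^ m`. `G0` = the classes `cls v` of the primes with `nm v ≤ M`: `closure G0 = ⊤`: every class contains an integral ideal
of norm at most `M` (`hM`), a product of primes, each of norm at most `M` (a factor of an ideal has smaller norm; `UniqueFactorizationMonoid.induction_on_prime` or `Ideal` normalizedFactors). `clg_gen`: a finite set of at most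
`m` classes in `G0`; choose a prime for each of them: `T`. So `AS S ⊔ C^p ⊔ AS T = ⊤`.
`ClP`: for `v ∉ S ∪ T`: `cls v = a * c ^ p * a'` with `a ∈ AS S`, `a' ∈ AS T`, `c = mk0 𝔟`; `a a' = mk0 𝔠₁ * (mk0 𝔠₂)⁻¹` with `rcm w 𝔠ᵢ = 0` for `w ∉ S ∪ T` (`cli_as` in ClI.lean, for `S ∪ T`). So
`mk0 (v * 𝔠₂) = mk0 (𝔟 ^ p * 𝔠₁)`, and `cli_ord` gives `x` with `ord v x = 1 - p * rcm v 𝔟`, `ord w x = - p * rcm w 𝔟` for the other `w ∉ S ∪ T`. Multiply by `z ^ p` with `ord v z = rcm v 𝔟` (`exists_unif`, power).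
If `cli_ord`, `cli_as` are private or missing in ClI.lean, prove them here (public names `cla_ord`, `cla_as`).
-/

set_option autoImplicit false
set_option linter.dupNamespace false

open scoped NumberField nonZeroDivisors
open IsDedekindDomain
open scoped Classical

noncomputable section

namespace H1.AR

open H63.MA

private theorem cla_rcm_one {F : Type} [Field F] [NumberField F] (v : Pl F) :
    rcm v (1 : Ideal (𝓞 F)) = 0 := by
  have h := rcm_mul v (I := (1 : Ideal (𝓞 F))) (J := 1) one_ne_zero one_ne_zero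
  rw [one_mul] at h
  omega

private theorem cla_rcm_pow {F : Type} [Field F] [NumberField F] (v : Pl F) {I : Ideal (𝓞 F)}
    (hI : I ≠ ⊥) (n : ℕ) : rcm v (I ^ n) = n * rcm v I := by
  induction n with
  | zero => rw [pow_zero, cla_rcm_one, zero_mul]
  | succ k ih =>
    have hk : I ^ k ≠ ⊥ := pow_ne_zero k hI
    rw [pow_succ, rcm_mul v hk hI, ih]
    ring

/-- ideals in the same class differ by a principal ideal, in terms of exponents -/
theorem cla_ord {F : Type} [Field F] [NumberField F] {I J : (Ideal (𝓞 F))⁰}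
    (h : ClassGroup.mk0 I = ClassGroup.mk0 J) :
    ∃ x : Fˣ, ∀ v : Pl F,
      ord v x = (rcm v (I : Ideal (𝓞 F)) : ℤ) - (rcm v (J : Ideal (𝓞 F)) : ℤ) := by
  obtain ⟨a, b, ha, hb, hab⟩ := ClassGroup.mk0_eq_mk0_iff.1 h
  have ha' : algebraMap (𝓞 F) F a ≠ 0 := fun h0 =>
    ha ((map_eq_zero_iff _ (FaithfulSMul.algebraMap_injective (𝓞 F) F)).1 h0)
  have hb' : algebraMap (𝓞 F) F b ≠ 0 := fun h0 =>
    hb ((map_eq_zero_iff _ (FaithfulSMul.algebraMap_injective (𝓞 F) F)).1 h0)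
  refine ⟨Units.mk0 _ hb' * (Units.mk0 _ ha')⁻¹, fun v => ?_⟩
  have hI : (I : Ideal (𝓞 F)) ≠ ⊥ := nonZeroDivisors.coe_ne_zero I
  have hJ : (J : Ideal (𝓞 F)) ≠ ⊥ := nonZeroDivisors.coe_ne_zero J
  have hsa : Ideal.span {a} ≠ (⊥ : Ideal (𝓞 F)) := by
    rwa [Ne, Ideal.span_singleton_eq_bot]
  have hsb : Ideal.span {b} ≠ (⊥ : Ideal (𝓞 F)) := by
    rwa [Ne, Ideal.span_singleton_eq_bot]
  have h1 := rcm_mul v hsa hI
  have h2 := rcm_mul v hsb hJ
  rw [hab, h2] at h1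
  rw [ord_mul, ord_inv, rcm_ord v hb (x := Units.mk0 _ hb') rfl,
    rcm_ord v ha (x := Units.mk0 _ ha') rfl]
  have h3 : ((rcm v (Ideal.span {b}) + rcm v (J : Ideal (𝓞 F)) : ℕ) : ℤ) =
      ((rcm v (Ideal.span {a}) + rcm v (I : Ideal (𝓞 F)) : ℕ) : ℤ) := by rw [h1]
  push_cast at h3
  linarith

/-- the elements of `AS S` are quotients of classes of ideals supported in `S` -/
theorem cla_as {F : Type} [Field F] [NumberField F] (S : Finset (Pl F)) {c : ClassGroup (𝓞 F)}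
    (hc : c ∈ AS S) : ∃ I J : (Ideal (𝓞 F))⁰,
      (∀ v, v ∉ S → rcm v (I : Ideal (𝓞 F)) = 0 ∧ rcm v (J : Ideal (𝓞 F)) = 0) ∧
      c * ClassGroup.mk0 J = ClassGroup.mk0 I := by
  have hcoe : ∀ I J : (Ideal (𝓞 F))⁰, ((I * J : (Ideal (𝓞 F))⁰) : Ideal (𝓞 F)) =
      (I : Ideal (𝓞 F)) * (J : Ideal (𝓞 F)) := fun _ _ => rfl
  have hcoe1 : ((1 : (Ideal (𝓞 F))⁰) : Ideal (𝓞 F)) = 1 := rfl
  have hne : ∀ I : (Ideal (𝓞 F))⁰, (I : Ideal (𝓞 F)) ≠ ⊥ := fun I =>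
    nonZeroDivisors.coe_ne_zero I
  unfold AS at hc
  induction hc using Subgroup.closure_induction with
  | mem c hc =>
    obtain ⟨w, hw, rfl⟩ := hc
    refine ⟨⟨w.asIdeal, mem_nonZeroDivisors_iff_ne_zero.2 w.ne_bot⟩, 1, fun v hv => ⟨?_, ?_⟩, ?_⟩
    · exact rcm_ne fun hvw => hv (hvw ▸ hw)
    · rw [hcoe1, cla_rcm_one]
    · rw [map_one, mul_one]
      rfl
  | one => exact ⟨1, 1, fun v _ => by rw [hcoe1, cla_rcm_one]; exact ⟨rfl, rfl⟩, one_mul _⟩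
  | mul c d hc hd ihc ihd =>
    obtain ⟨I, J, h1, h2⟩ := ihc
    obtain ⟨I', J', h1', h2'⟩ := ihd
    refine ⟨I * I', J * J', fun v hv => ⟨?_, ?_⟩, ?_⟩
    · rw [hcoe, rcm_mul v (hne I) (hne I'), (h1 v hv).1, (h1' v hv).1]
    · rw [hcoe, rcm_mul v (hne J) (hne J'), (h1 v hv).2, (h1' v hv).2]
    · rw [map_mul, map_mul, ← h2, ← h2']
      exact mul_mul_mul_comm _ _ _ _
  | inv c hc ihc =>
    obtain ⟨I, J, h1, h2⟩ := ihc
    refine ⟨J, I, fun v hv => ⟨(h1 v hv).2, (h1 v hv).1⟩, ?_⟩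
    rw [← h2, inv_mul_cancel_left]

private theorem cla_gen {F : Type} [Field F] [NumberField F] (M : ℝ)
    (hM : ∀ C : ClassGroup (𝓞 F), ∃ I : (Ideal (𝓞 F))⁰, ClassGroup.mk0 I = C ∧
      (Ideal.absNorm (I : Ideal (𝓞 F)) : ℝ) ≤ M) :
    Subgroup.closure {c : ClassGroup (𝓞 F) | ∃ v : Pl F, cls v = c ∧ (nm v : ℝ) ≤ M} = ⊤ := by
  rw [eq_top_iff]
  intro C _
  obtain ⟨I, rfl, hI⟩ := hM C
  have key : ∀ I : Ideal (𝓞 F), ∀ h : I ∈ (Ideal (𝓞 F))⁰, (Ideal.absNorm I : ℝ) ≤ M →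
      ClassGroup.mk0 ⟨I, h⟩ ∈
        Subgroup.closure {c : ClassGroup (𝓞 F) | ∃ v : Pl F, cls v = c ∧ (nm v : ℝ) ≤ M} := by
    intro I
    induction I using UniqueFactorizationMonoid.induction_on_prime with
    | h₁ =>
      intro h
      exact absurd rfl (nonZeroDivisors.ne_zero h)
    | h₂ I hI =>
      intro h _
      have h1 : I = 1 := by rw [Ideal.isUnit_iff] at hI; rw [hI, Ideal.one_eq_top]
      subst h1
      have h2 : (⟨1, h⟩ : (Ideal (𝓞 F))⁰) = 1 := rfl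
      rw [h2, map_one]
      exact one_mem _
    | h₃ I P hI0 hP ih =>
      intro h hn
      have hPI : ((Ideal.absNorm (P * I) : ℕ) : ℝ) = (Ideal.absNorm P : ℝ) * Ideal.absNorm I := by
        rw [map_mul]
        push_cast
        rfl
      have hI1 : (1 : ℝ) ≤ Ideal.absNorm I := by
        have : Ideal.absNorm I ≠ 0 := fun h0 => hI0 (Ideal.absNorm_eq_zero_iff.1 h0)
        exact_mod_cast Nat.one_le_iff_ne_zero.2 this
      have hP1 : (1 : ℝ) ≤ Ideal.absNorm P := by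
        have : Ideal.absNorm P ≠ 0 := fun h0 => hP.ne_zero (Ideal.absNorm_eq_zero_iff.1 h0)
        exact_mod_cast Nat.one_le_iff_ne_zero.2 this
      rw [hPI] at hn
      have hPM : (Ideal.absNorm P : ℝ) ≤ M :=
        le_trans (le_mul_of_one_le_right (by linarith) hI1) hn
      have hIM : (Ideal.absNorm I : ℝ) ≤ M :=
        le_trans (le_mul_of_one_le_left (by linarith) hP1) hn
      have hI' : I ∈ (Ideal (𝓞 F))⁰ := mem_nonZeroDivisors_iff_ne_zero.2 hI0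
      have hP' : P ∈ (Ideal (𝓞 F))⁰ := mem_nonZeroDivisors_iff_ne_zero.2 hP.ne_zero
      have h2 : (⟨P * I, h⟩ : (Ideal (𝓞 F))⁰) = ⟨P, hP'⟩ * ⟨I, hI'⟩ := rfl
      rw [h2, map_mul]
      refine mul_mem (Subgroup.subset_closure ?_) (ih hI' hIM)
      exact ⟨⟨P, Ideal.isPrime_of_prime hP, hP.ne_zero⟩, rfl, hPM⟩
  exact key I.1 I.2 hI

theorem cla {F : Type} [Field F] [NumberField F] {p : ℕ} (hp : p.Prime) (S : Finset (Pl F))
    {m : ℕ} (T₀ : Finset Fˣ) (hT₀ : T₀.card ≤ p ^ m)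
    (h : ∀ x ∈ VS p S, ∃ y ∈ T₀, IsPow p (x * y⁻¹)) (M : ℝ)
    (hM : ∀ C : ClassGroup (𝓞 F), ∃ I : (Ideal (𝓞 F))⁰, ClassGroup.mk0 I = C ∧
      (Ideal.absNorm (I : Ideal (𝓞 F)) : ℝ) ≤ M) :
    ∃ T : Finset (Pl F), T.card ≤ m ∧ (∀ v ∈ T, (nm v : ℝ) ≤ M) ∧ ClP p (S ∪ T) := by
  have hcoe : ∀ I J : (Ideal (𝓞 F))⁰, ((I * J : (Ideal (𝓞 F))⁰) : Ideal (𝓞 F)) =
      (I : Ideal (𝓞 F)) * (J : Ideal (𝓞 F)) := fun _ _ => rfl
  have hcoep : ∀ (I : (Ideal (𝓞 F))⁰) (n : ℕ), ((I ^ n : (Ideal (𝓞 F))⁰) : Ideal (𝓞 F)) =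
      (I : Ideal (𝓞 F)) ^ n := fun _ _ => rfl
  have hne : ∀ I : (Ideal (𝓞 F))⁰, (I : Ideal (𝓞 F)) ≠ ⊥ := fun I =>
    nonZeroDivisors.coe_ne_zero I
  have h1 := clg (AS S) p (p ^ m) (cli hp S T₀ hT₀ h)
  obtain ⟨T', hT'G, hT'm, hT'⟩ := clg_gen hp _ (cla_gen M hM) m
    (AS S ⊔ (powMonoidHom p : ClassGroup (𝓞 F) →* ClassGroup (𝓞 F)).range)
    (fun c => Subgroup.mem_sup_right ⟨c, rfl⟩) h1
  have hf : ∀ c : T', ∃ v : Pl F, cls v = c ∧ (nm v : ℝ) ≤ M := fun c => hT'G c.2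
  choose f hf1 hf2 using hf
  refine ⟨T'.attach.image f, ?_, ?_, ?_⟩
  · exact (Finset.card_image_le.trans (Finset.card_attach).le).trans hT'm
  · intro v hv
    obtain ⟨c, _, rfl⟩ := Finset.mem_image.1 hv
    exact hf2 c
  · intro v hv
    have hvt : cls v ∈ (AS S ⊔ (powMonoidHom p : ClassGroup (𝓞 F) →* ClassGroup (𝓞 F)).range) ⊔
        Subgroup.closure (T' : Set (ClassGroup (𝓞 F))) := by
      rw [hT']
      exact Subgroup.mem_top _
    obtain ⟨y, hy, z, hz, hyz⟩ := Subgroup.mem_sup.1 hvt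
    obtain ⟨a, ha, d, ⟨c, hcd⟩, had⟩ := Subgroup.mem_sup.1 hy
    have hcd' : c ^ p = d := hcd
    obtain ⟨B, hB⟩ := ClassGroup.mk0_surjective c
    have haz : a * z ∈ AS (S ∪ T'.attach.image f) := by
      refine mul_mem ?_ ?_
      · refine Subgroup.closure_mono ?_ ha
        exact Set.image_mono fun w hw => Finset.mem_coe.2 (Finset.mem_union_left _ hw)
      · refine (Subgroup.closure_le _).2 ?_ hz
        intro e he
        refine Subgroup.subset_closure ⟨f ⟨e, he⟩, ?_, hf1 ⟨e, he⟩⟩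
        exact Finset.mem_coe.2 (Finset.mem_union_right _
          (Finset.mem_image.2 ⟨⟨e, he⟩, Finset.mem_attach _ _, rfl⟩))
    obtain ⟨I, J, hIJ, hIJc⟩ := cla_as _ haz
    have hcl : ClassGroup.mk0 ((⟨v.asIdeal, mem_nonZeroDivisors_iff_ne_zero.2 v.ne_bot⟩ :
        (Ideal (𝓞 F))⁰) * J) = ClassGroup.mk0 (B ^ p * I) := by
      rw [map_mul, map_mul, map_pow, ← hIJc, hB, hcd']
      have : ClassGroup.mk0 (⟨v.asIdeal, mem_nonZeroDivisors_iff_ne_zero.2 v.ne_bot⟩ :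
        (Ideal (𝓞 F))⁰) = a * d * z := by rw [had, hyz]; rfl
      rw [this]
      simp only [mul_assoc, mul_left_comm]
    obtain ⟨x, hx⟩ := cla_ord hcl
    obtain ⟨π, hπ⟩ := exists_unif v
    have hx' : ∀ w, w ∉ S ∪ T'.attach.image f →
        ord w x = (rcm w v.asIdeal : ℤ) - (p : ℤ) * (rcm w (B : Ideal (𝓞 F)) : ℤ) := by
      intro w hw
      rw [hx w, hcoe, hcoe, hcoep, rcm_mul w v.ne_bot (hne J),
        rcm_mul w (pow_ne_zero p (hne B)) (hne I), cla_rcm_pow w (hne B), (hIJ w hw).1,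
        (hIJ w hw).2]
      push_cast
      ring
    refine ⟨x * (π ^ (rcm v (B : Ideal (𝓞 F)) : ℤ)) ^ (p : ℤ), ?_, fun w hw hwv => ?_⟩
    · rw [ord_mul, ord_zpow, ord_zpow, hπ, hx' v hv, rcm_self]
      push_cast
      ring
    · rw [ord_mul, ord_zpow, hx' w hw, rcm_ne hwv]
      push_cast
      rw [ZMod.natCast_self]
      ring

end H1.AR
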