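import Pool.Agent.H1.AR.Defs
import Pool.Agent.H38.ML.Disc
import Pool.Agent.H36.QA.ADefs
import Pool.Agent.H51.CUB.DSC

/-!
# [H1 AR DSF] discriminants and the Minkowski bound, 120-180 lines. File Pool/Agent/H1/AR/Dsf.lean

* `dsf`: for every `k ≤ n` take `C k` from `H38.ML.disc_bound Ω k (Sk) ..`, `Sk` = the primes containing `k!` (finite; `gdisu_fin`), see the proof of `dsc` in H51/CUB/DSC.lean; `C` = the sum over `k ≤ n` (times
  `|discr K| ^ n`). For `F` with `[F : K] = k`: `disc_bound` with `T = {v.asIdeal : v ∈ E, not in Sk}` and exponent `w = k` (the condition for `v ∈ T` is trivial, take any prime of `𝓞 Ω` over `v`: `gloc_over` or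
  `exists_DP`); for `v` outside: the inertia group `J` of a prime `𝔓` over `v` satisfies `k ≤ embOrb F J`, because `J` acts trivially on the `k` embeddings: `embOrb F J = k` as in `dsc_orb` (H51/CUB/DSC.lean):
  for an embedding `e`, `e = g` on `F` for some `g ∈ Gal(Ω/K)`, `g⁻¹ τ g` is in the inertia group of `g⁻¹ 𝔓`, a prime over the same `v ∉ E`, so `φ (g⁻¹ τ g) = 1` and it fixes `F`, so `τ e = e`.
  Then `NumberField.natAbs_discr_eq_absNorm_differentIdeal_mul_natAbs_discr_pow` as at the end of `dsc`.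
* `mink`: `NumberField.exists_ideal_in_class_of_norm_le` (Mathlib): norm at most `(4/π)^r₂ * n!/n^n * √|discr F|` with `n = [F : ℚ] ≤ n₀`, bounded by `(4/π)^n₀ * n₀! * √|discr F|`, and
  `√|discr F| ≤ |discr F| = dd F` (`|discr| ≥ 1`).
-/

set_option autoImplicit false
set_option linter.dupNamespace false

open scoped NumberField nonZeroDivisors Pointwise
open IsDedekindDomain
open scoped Classical

noncomputable section

namespace H1.AR

open H63.MA H38.BB H38.BG H57.PC H36.QA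

/-- a subgroup whose conjugates fix `M` acts trivially on the embeddings -/
private theorem dsf_orb {K : Type} [Field K] [NumberField K] {Ω : Type} [Field Ω] [Algebra K Ω]
    [IsAlgClosure K Ω] (M : IntermediateField K Ω) [FiniteDimensional K M]
    (J : Subgroup Gal(Ω/K)) (hJ : ∀ g : Gal(Ω/K), ∀ τ ∈ J, g⁻¹ * τ * g ∈ M.fixingSubgroup) :
    H38.ML.embOrb M J = Module.finrank K M := by
  have hcl : IsAlgClosed Ω := IsAlgClosure.isAlgClosed K
  have hnorm : Normal K Ω := IsAlgClosure.normal K Ω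
  have halg : Algebra.IsAlgebraic K Ω := IsAlgClosure.isAlgebraic
  have key : ∀ τ ∈ J, ∀ φ : M →ₐ[K] Ω, ((τ : Gal(Ω/K)) : Ω →ₐ[K] Ω).comp φ = φ := by
    intro τ hτ φ
    let g : Gal(Ω/K) := AlgEquiv.ofBijective (φ.liftNormal Ω)
      (Algebra.IsAlgebraic.algHom_bijective _)
    have hg : ∀ x : M, g (x : Ω) = φ x := fun x => AlgHom.liftNormal_commutes φ Ω x
    have h1 : g⁻¹ * τ * g ∈ M.fixingSubgroup := hJ g τ hτ
    ext x
    have h2 := (IntermediateField.mem_fixingSubgroup_iff M _).1 h1 x.1 x.2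
    have h3 : g ((g⁻¹ * τ * g) (x : Ω)) = g (x : Ω) := congrArg g h2
    have h4 : g ((g⁻¹ * τ * g) (x : Ω)) = τ (g (x : Ω)) := by
      rw [← AlgEquiv.mul_apply, ← mul_assoc, ← mul_assoc, mul_inv_cancel, one_mul,
        AlgEquiv.mul_apply]
    rw [h4, hg] at h3
    exact h3
  unfold H38.ML.embOrb
  rw [← AlgHom.card K M Ω, ← Nat.card_eq_fintype_card]
  refine Nat.card_congr ?_
  refine ⟨Quot.lift id ?_, Quot.mk _, ?_, ?_⟩
  · rintro φ ψ ⟨τ, hτ, rfl⟩
    exact (key τ hτ φ).symm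
  · intro x
    induction x using Quot.ind with
    | mk φ => rfl
  · intro φ
    rfl

theorem dsf (K : Type) [Field K] [NumberField K] (Ω : Type) [Field Ω] [Algebra K Ω]
    [IsAlgClosure K Ω] (n : ℕ) : ∃ C : ℝ, 1 ≤ C ∧ ∀ (F : IntermediateField K Ω)
      [FiniteDimensional K F] [NumberField F], Module.finrank K F ≤ n →
      ∀ {H : Type} [Group H] (φ : Gal(Ω/K) →* H), (∀ σ, φ σ = 1 → σ ∈ F.fixingSubgroup) →
      ∀ E : Finset (Pl K), (∀ v, v ∉ E → ∀ P : Ideal (𝓞 Ω), P.IsPrime →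
        P.under (𝓞 K) = v.asIdeal → ∀ τ ∈ P.inertia Gal(Ω/K), φ τ = 1) →
      dd F ≤ C * (∏ v ∈ E, (nm v : ℝ)) ^ n := by
  have hex := fun k : ℕ => H38.ML.disc_bound (K := K) Ω k
    {v : Ideal (𝓞 K) | v.IsPrime ∧ v ≠ ⊥ ∧ ((k.factorial : ℕ) : 𝓞 K) ∈ v} (gdisu_fin k)
    (fun v hv hv0 hvS hmem => hvS ⟨hv, hv0, hmem⟩)
  choose Ck hCk hb using hex
  have hK1 : 1 ≤ (NumberField.discr K).natAbs :=
    Nat.one_le_iff_ne_zero.mpr (Int.natAbs_ne_zero.mpr (NumberField.discr_ne_zero K))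
  refine ⟨((∑ k ∈ Finset.range (n + 1), Ck k * (NumberField.discr K).natAbs ^ k : ℕ) : ℝ), ?_, ?_⟩
  · have h1 : Ck 0 * (NumberField.discr K).natAbs ^ 0 ≤
        ∑ k ∈ Finset.range (n + 1), Ck k * (NumberField.discr K).natAbs ^ k :=
      Finset.single_le_sum (f := fun k => Ck k * (NumberField.discr K).natAbs ^ k)
        (fun _ _ => Nat.zero_le _) (Finset.mem_range.2 (Nat.succ_pos n))
    have h2 : 1 ≤ Ck 0 * (NumberField.discr K).natAbs ^ 0 := by
      rw [pow_zero, mul_one]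
      exact hCk 0
    exact_mod_cast h2.trans h1
  intro F hfd hnf hFn H _ φ hφ E hE
  obtain ⟨k, hk⟩ : ∃ k, Module.finrank K F = k := ⟨_, rfl⟩
  obtain ⟨S, hS⟩ : ∃ S : Set (Ideal (𝓞 K)),
    S = {v : Ideal (𝓞 K) | v.IsPrime ∧ v ≠ ⊥ ∧ ((k.factorial : ℕ) : 𝓞 K) ∈ v} := ⟨_, rfl⟩
  have hb1 := hb k F hfd hnf hk
  rw [← hS] at hb1
  obtain ⟨T₀, hT₀⟩ : ∃ T₀ : Finset (Pl K), T₀ = E.filter fun v => v.asIdeal ∉ S := ⟨_, rfl⟩
  have hmain := hb1 (T₀.image fun v => v.asIdeal) k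
    (by
      intro v hv
      obtain ⟨w, -, rfl⟩ := Finset.mem_image.1 hv
      exact ⟨w.isPrime, w.ne_bot⟩)
    (by
      intro v hv
      obtain ⟨w, hw, rfl⟩ := Finset.mem_image.1 hv
      obtain ⟨P, hP, hP'⟩ := gloc_over K Ω w.asIdeal w.isPrime
      exact ⟨P, hP, hP', Nat.le_add_right _ _⟩)
    (by
      intro v hv hv0 hvS hvT
      have hw0 : (⟨v, hv, hv0⟩ : Pl K) ∉ E := by
        intro h
        refine hvT (Finset.mem_image.2 ⟨⟨v, hv, hv0⟩, ?_, rfl⟩)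
        rw [hT₀, Finset.mem_filter]
        exact ⟨h, hvS⟩
      obtain ⟨P, hP, hP'⟩ := gloc_over K Ω v hv
      refine ⟨P, hP, hP', ?_⟩
      rw [dsf_orb F, hk]
      intro g τ hτ
      apply hφ
      have hmem : ∀ x : 𝓞 Ω, x ∈ g⁻¹ • P ↔ g • x ∈ P := fun x => by
        have h1 : x ∈ g⁻¹ • P ↔ g⁻¹⁻¹ • x ∈ P := Ideal.mem_pointwise_smul_iff_inv_smul_mem
        rwa [inv_inv] at h1
      refine hE ⟨v, hv, hv0⟩ hw0 (g⁻¹ • P) (Ideal.IsPrime.smul g⁻¹) ?_ _ ?_
      · change Ideal.under (𝓞 K) (g⁻¹ • P) = v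
        rw [← hP']
        ext x
        change algebraMap (𝓞 K) (𝓞 Ω) x ∈ g⁻¹ • P ↔ algebraMap (𝓞 K) (𝓞 Ω) x ∈ P
        rw [hmem]
        have h1 : g • algebraMap (𝓞 K) (𝓞 Ω) x = algebraMap (𝓞 K) (𝓞 Ω) x := by
          apply NumberField.RingOfIntegers.ext
          exact g.commutes (x : K)
        rw [h1]
      · intro x
        change (g⁻¹ * τ * g) • x - x ∈ g⁻¹ • P
        rw [hmem, smul_sub, mul_smul, mul_smul, smul_inv_smul]
        exact hτ (g • x))
  have hprod : ∏ v ∈ T₀.image (fun v : Pl K => v.asIdeal), Ideal.absNorm v ≤ ∏ v ∈ E, nm v := by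
    rw [Finset.prod_image (fun a _ b _ h => HeightOneSpectrum.ext h), hT₀]
    refine Finset.prod_le_prod_of_subset_of_one_le' (Finset.filter_subset _ _) fun v _ _ => ?_
    exact Nat.one_le_iff_ne_zero.2 fun h => v.ne_bot (Ideal.absNorm_eq_zero_iff.1 h)
  have hone : 1 ≤ ∏ v ∈ E, nm v := by
    refine Nat.one_le_iff_ne_zero.2 (Finset.prod_ne_zero_iff.2 fun v _ h => ?_)
    exact v.ne_bot (Ideal.absNorm_eq_zero_iff.1 h)
  have h1 : Ideal.absNorm (differentIdeal (𝓞 K) (𝓞 F)) ≤ Ck k * (∏ v ∈ E, nm v) ^ n :=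
    le_trans hmain (Nat.mul_le_mul_left _ ((Nat.pow_le_pow_left hprod _).trans
      (Nat.pow_le_pow_right hone (hk ▸ hFn))))
  have h2 := NumberField.natAbs_discr_eq_absNorm_differentIdeal_mul_natAbs_discr_pow
    K (𝓞 K) F (𝓞 F)
  have h4 : dd F = (((NumberField.discr F).natAbs : ℕ) : ℝ) := by
    unfold dd
    rw [Nat.cast_natAbs, Int.cast_abs]
  rw [h4, h2, hk]
  have h5 : Ideal.absNorm (differentIdeal (𝓞 K) (𝓞 F)) * (NumberField.discr K).natAbs ^ k ≤
      (∑ k ∈ Finset.range (n + 1), Ck k * (NumberField.discr K).natAbs ^ k) * (∏ v ∈ E, nm v) ^ n := by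
    refine (Nat.mul_le_mul_right _ h1).trans ?_
    have h6 : Ck k * (NumberField.discr K).natAbs ^ k ≤
        ∑ k ∈ Finset.range (n + 1), Ck k * (NumberField.discr K).natAbs ^ k :=
      Finset.single_le_sum (f := fun k => Ck k * (NumberField.discr K).natAbs ^ k)
        (fun _ _ => Nat.zero_le _) (Finset.mem_range.2 (by omega))
    calc Ck k * (∏ v ∈ E, nm v) ^ n * (NumberField.discr K).natAbs ^ k
        = Ck k * (NumberField.discr K).natAbs ^ k * (∏ v ∈ E, nm v) ^ n := by ring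
      _ ≤ _ := Nat.mul_le_mul_right _ h6
  calc ((Ideal.absNorm (differentIdeal (𝓞 K) (𝓞 F)) * (NumberField.discr K).natAbs ^ k : ℕ) : ℝ)
      ≤ (((∑ k ∈ Finset.range (n + 1), Ck k * (NumberField.discr K).natAbs ^ k) *
          (∏ v ∈ E, nm v) ^ n : ℕ) : ℝ) := by
        exact_mod_cast h5
    _ = _ := by
        push_cast
        rfl

theorem mink (n₀ : ℕ) : ∃ C : ℝ, 1 ≤ C ∧ ∀ (F : Type) [Field F] [NumberField F],
    Module.finrank ℚ F ≤ n₀ → ∀ c : ClassGroup (𝓞 F), ∃ I : (Ideal (𝓞 F))⁰,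
      ClassGroup.mk0 I = c ∧ (Ideal.absNorm (I : Ideal (𝓞 F)) : ℝ) ≤ C * dd F := by
  have hpi : 1 ≤ 4 / Real.pi := by
    rw [one_le_div Real.pi_pos]
    exact Real.pi_le_four
  have hf1 : (1 : ℝ) ≤ (n₀.factorial : ℝ) := by exact_mod_cast Nat.one_le_iff_ne_zero.2 n₀.factorial_ne_zero
  have hp1 : 1 ≤ (4 / Real.pi) ^ n₀ := one_le_pow₀ hpi
  refine ⟨(4 / Real.pi) ^ n₀ * (n₀.factorial : ℝ), by nlinarith, fun F _ _ hn c => ?_⟩
  obtain ⟨I, hI, hI2⟩ := NumberField.exists_ideal_in_class_of_norm_le c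
  refine ⟨I, hI, hI2.trans ?_⟩
  have hdd := one_le_dd F
  have h1 : Real.sqrt |(NumberField.discr F : ℝ)| ≤ dd F := by
    change Real.sqrt (dd F) ≤ dd F
    rw [Real.sqrt_le_left (by linarith)]
    nlinarith
  have h2 : (4 / Real.pi) ^ NumberField.InfinitePlace.nrComplexPlaces F ≤ (4 / Real.pi) ^ n₀ := by
    refine pow_le_pow_right₀ hpi ?_
    have h3 := NumberField.InfinitePlace.card_add_two_mul_card_eq_rank F
    omega
  have h3 : (((Module.finrank ℚ F).factorial : ℝ) / (Module.finrank ℚ F) ^ (Module.finrank ℚ F)) ≤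
      (n₀.factorial : ℝ) := by
    have h4 : (1 : ℝ) ≤ (Module.finrank ℚ F : ℝ) := by
      exact_mod_cast Module.finrank_pos (R := ℚ) (M := F)
    refine (div_le_self (Nat.cast_nonneg _) (one_le_pow₀ h4)).trans ?_
    exact_mod_cast Nat.factorial_le hn
  have h0 : 0 ≤ (4 / Real.pi) ^ NumberField.InfinitePlace.nrComplexPlaces F := by positivity
  rw [← mul_assoc]
  refine mul_le_mul (mul_le_mul h2 h3 (by positivity) (by positivity)) ?_ (Real.sqrt_nonneg _) (by positivity)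
  exact h1

end H1.AR
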