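import Pool.Agent.H1.AR.Defs
import Pool.Agent.H63.MA.RMkA

/-!
# [H1 AR RMA] elements with orders divisible by `p` outside `S` which are locally trivial on `S`, 60-100 lines. File Pool/Agent/H1/AR/RMa.lean

`VS p S = {x : ord v x = 0 mod p for v ∉ S}`.
* `vs_pow`: the proof of `unit_pow` (H63/MA/RMkA.lean): otherwise `rel_exists hp hp2 hζ h.1 hn` gives a nonzero relation `k`. For `v ∈ S`, `k v = 0` (`v ∣ p` or `Spl`). For `v ∉ S` not `Spl`: take `y` from
  `hcl v`: `ord v y = 1`, `ord w y = 0 mod p` for the other `w ∉ S`. For `w ∉ S`: `p ∣ ord w x`, so `B w x y = ord w y * B w x π` (`B_unram` in H63/MA/SymC.lean), which is `0` for `w ≠ v` and `B v x π`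
  (`π` of order `1` at `v`) for `w = v`. The relation gives `k v * B v x π = 0`, and `B v x π ≠ 0` because otherwise `Spl` (`B_unram` again), so `k v = 0`.
* `vs_gen`: every `x` is `∏ g v ^ (ord v x) * w` with `w ∈ VS`, for `g v` with `ord v (g v) = 1`, `ord w (g v) = 0 mod p` (`w ≠ v`, both outside `S`): see `hgen` in the proof of `exists_RD0` in RMkA.lean
  (orders only modulo `p`).
-/

set_option autoImplicit false
set_option linter.dupNamespace false

open scoped NumberField
open IsDedekindDomain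
open scoped Classical

noncomputable section

namespace H1.AR

open H63.MA

variable {F : Type} [Field F] [NumberField F] {p : ℕ} {ζ : F}

/-- the elements whose orders outside `S` are divisible by `p` -/
def VS (p : ℕ) (S : Finset (Pl F)) : Subgroup Fˣ where
  carrier := {x | ∀ v, v ∉ S → ((ord v x : ℤ) : ZMod p) = 0}
  one_mem' := fun v _ => by rw [ord_one, Int.cast_zero]
  mul_mem' := by
    intro x y hx hy v hv
    rw [ord_mul, Int.cast_add, hx v hv, hy v hv, add_zero]
  inv_mem' := by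
    intro x hx v hv
    rw [ord_inv, Int.cast_neg, hx v hv, neg_zero]

theorem vs_pow (hp : p.Prime) (hp2 : MOne p F) (hζ : IsPrimitiveRoot ζ p) (S : Finset (Pl F))
    (hS : ∀ v, Above p v → v ∈ S) (hcl : ClP p S) (x : Fˣ) (hx : x ∈ VS p S) (h : PS p ζ S x) :
    IsPow p x := by
  by_contra hn
  have : Fact p.Prime := ⟨hp⟩
  obtain ⟨k, hk, v, hkv⟩ := rel_exists hp hp2 hζ h.1 hn
  apply hkv
  by_cases hv : Above p v ∨ Spl p ζ v x
  · exact hk.1 v hv
  · rw [not_or] at hv
    have hvS : v ∉ S := fun h1 => hv.2 (h.2 v h1 hv.1)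
    have hdvd : ∀ w, w ∉ S → (p : ℤ) ∣ ord w x := fun w hw =>
      (ZMod.intCast_zmod_eq_zero_iff_dvd _ _).1 (hx w hw)
    obtain ⟨y, hy1, hy2⟩ := hcl v hvS
    obtain ⟨π, hπ⟩ := exists_unif v
    have h1 := hk.2 y
    rw [finsum_eq_single _ v (by
      intro w hw
      by_cases hwS : w ∈ S
      · by_cases hwa : Above p w
        · rw [hk.1 w (Or.inl hwa), zero_mul]
        · rw [hk.1 w (Or.inr (h.2 w hwS hwa)), zero_mul]
      · have hwa : ¬ Above p w := fun h2 => hwS (hS w h2)
        obtain ⟨π', hπ'⟩ := exists_unif w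
        rw [B_unram hp hζ hwa (hdvd w hwS) hπ', hy2 w hwS hw, zero_mul, mul_zero]),
      B_unram hp hζ hv.1 (hdvd v hvS) hπ, hy1, Int.cast_one, one_mul] at h1
    rcases mul_eq_zero.1 h1 with h2 | h2
    · exact h2
    · exfalso
      apply hv.2
      intro z
      rw [B_unram hp hζ hv.1 (hdvd v hvS) hπ, h2, mul_zero]

theorem vs_gen (S : Finset (Pl F)) (g : Pl F → Fˣ)
    (hg : ∀ v, v ∉ S → ord v (g v) = 1 ∧ ∀ w, w ∉ S → w ≠ v → ((ord w (g v) : ℤ) : ZMod p) = 0)
    (x : Fˣ) : ∃ (m : Pl F →₀ ℤ) (w : Fˣ), w ∈ VS p S ∧ (∀ v, m v = if v ∈ S then 0 else ord v x) ∧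
      x = (m.prod fun v n => g v ^ n) * w := by
  obtain ⟨m, hm⟩ : ∃ m : Pl F →₀ ℤ, ∀ v, m v = if v ∈ S then 0 else ord v x := by
    refine ⟨Finsupp.ofSupportFinite (fun v => if v ∈ S then 0 else ord v x) ?_, fun v => rfl⟩
    refine (finite_ord x).subset ?_
    intro v hv
    rw [Function.mem_support] at hv
    intro h0
    apply hv
    split_ifs
    · rfl
    · exact h0
  have hmS : ∀ i ∈ m.support, i ∉ S := by
    intro i hi his
    apply Finsupp.mem_support_iff.1 hi
    rw [hm, if_pos his]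
  refine ⟨m, (m.prod fun v n => g v ^ n)⁻¹ * x, ?_, hm, ?_⟩
  · intro v hv
    rw [ord_mul, ord_inv, Finsupp.prod, ord_prod, Int.cast_add, Int.cast_neg, Int.cast_sum]
    have h1 : ∑ i ∈ m.support, ((ord v (g i ^ m i) : ℤ) : ZMod p) = ((ord v x : ℤ) : ZMod p) := by
      rw [Finset.sum_eq_single v]
      · rw [ord_zpow, (hg v hv).1, mul_one, hm, if_neg hv]
      · intro i hi hiv
        rw [ord_zpow, Int.cast_mul, (hg i (hmS i hi)).2 v hv (Ne.symm hiv), mul_zero]
      · intro h
        rw [Finsupp.notMem_support_iff.1 h, zpow_zero, ord_one, Int.cast_zero]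
    rw [h1, neg_add_cancel]
  · rw [mul_inv_cancel_left]

end H1.AR
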