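import Pool.Agent.H1.AR.RkA
import Pool.Agent.H1.AR.RMa
import Pool.Agent.H51.CUB.DUB
import Pool.Agent.H63.MA.GKus
import Pool.Agent.H63.MA.GLoc

/-!
# [H1 AR RKD] the base: `dim AU (InS S) ⊤ ≤ 2 #S + [K : ℚ]`, 80-130 lines. File Pool/Agent/H1/AR/RkD.lean

For `χ ∈ AU p (InS S) ⊤`: `σ ↦ Multiplicative.ofAdd (χ σ)` is a homomorphism of finite type (`χ u = 0` for `u` in the fixing subgroup of the level, `χ 1 = 0`), so it is `kc p ζ Ω a` (`kc_all`) for some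
`a χ ∈ Kˣ`, i.e. `χ = kk p ζ (a χ)`. `a χ ∈ VS p S`: for `v ∉ S` take local data `L` (`exists_LD` with `π` of order `1`, `exists_unif`), `L.t ∈ InS S`, so `0 = χ L.t = kk (a χ) L.t = ord v (a χ)` (`ld_kk`;
`kk π L.t = 1` from `L.act`, see `kk_pi` in H63/MA/GTw.lean).
`T` from `H51.CUB.dub hp hp2 hζ S hS`: `#T ≤ p ^ (2 #S + n)`, for every `χ` a `y ∈ T` with `PS (a χ * y⁻¹)`. `χ ↦ y` is injective: if `χ, χ'` have the same `y`, then `a χ / a χ'` is `PS` (`RMkA_mul`, `RMkA_inv`) and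
in `VS`, so a `p`-th power (`vs_pow`), so `χ = χ'` (`kk_mul_arg`, `kk_zpow_arg`). So `AU` is finite with at most `p ^ (2 #S + n)` elements; `Module.card_eq_pow_finrank`, `Nat.card_zmod`.
-/

set_option autoImplicit false
set_option linter.dupNamespace false

open scoped NumberField Pointwise
open IsDedekindDomain
open scoped Classical

noncomputable section

namespace H1.AR

open H63.MA H38.BB H38.BG H57.PC H57.BRA H89.BRG

variable {K : Type} [Field K] [NumberField K] {Ω : Type} [Field Ω] [Algebra K Ω]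
  [IsAlgClosure K Ω] {p : ℕ} {ζ : K}

private theorem rkd_ex (hp : p.Prime) (hζ : IsPrimitiveRoot ζ p) (S : Finset (Pl K))
    (hS : ∀ v, Above p v → v ∈ S) {χ : Gal(Ω/K) → ZMod p} (hχ : χ ∈ AU p (InS (Ω := Ω) S) ⊤) :
    ∃ a : Kˣ, a ∈ VS p S ∧ ∀ σ, χ σ = kk p ζ a σ := by
  obtain ⟨⟨E, hE, hlev⟩, -, hadd, hI⟩ := hχ
  have h1 : χ 1 = 0 := by
    have h := hadd 1 (Subgroup.mem_top _) 1 (Subgroup.mem_top _)
    rw [mul_one] at h
    exact left_eq_add.1 h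
  obtain ⟨ψ, hψ⟩ : ∃ ψ : Gal(Ω/K) →* Multiplicative (ZMod p),
      ∀ σ, ψ σ = Multiplicative.ofAdd (χ σ) := by
    refine ⟨{ toFun := fun σ => Multiplicative.ofAdd (χ σ), map_one' := ?_, map_mul' := ?_ },
      fun _ => rfl⟩
    · rw [h1, ofAdd_zero]
    · intro σ τ
      rw [hadd σ (Subgroup.mem_top _) τ (Subgroup.mem_top _), ofAdd_add]
  have hft : H38.ML.FT ψ := by
    refine ⟨E, hE, fun u hu => ?_⟩
    rw [MonoidHom.mem_ker, hψ]
    have h := hlev 1 u hu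
    rw [one_mul, h1] at h
    rw [h, ofAdd_zero]
  obtain ⟨a, ha⟩ := kc_all hp hζ ψ hft
  have hk : ∀ σ, χ σ = kk p ζ a σ := by
    intro σ
    unfold kk
    rw [← ha, hψ]
    rfl
  refine ⟨a, fun v hv => ?_, hk⟩
  have hva : ¬ Above p v := fun h => hv (hS v h)
  obtain ⟨π, hπ⟩ := exists_unif v
  obtain ⟨L⟩ := exists_LD Ω hp hζ hva hπ
  have h2 : L.t ∈ InS (Ω := Ω) S := ⟨v, hv, L.P, L.prime, L.under, L.ht⟩
  have h3 := hI _ h2
  rw [hk, ld_kk_t hp hζ hva hπ L a] at h3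
  exact h3

theorem rk_base (hp : p.Prime) (hp2 : MOne p K) (hζ : IsPrimitiveRoot ζ p) (S : Finset (Pl K))
    (hS : ∀ v, Above p v → v ∈ S) (hcl : ClP p S) :
    Module.Finite (ZMod p) (AU p (InS (Ω := Ω) S) ⊤) ∧
      Module.finrank (ZMod p) (AU p (InS (Ω := Ω) S) ⊤) ≤ 2 * S.card + Module.finrank ℚ K := by
  haveI : Fact p.Prime := ⟨hp⟩
  haveI : NeZero p := ⟨hp.ne_zero⟩
  have hex : ∀ χ : AU p (InS (Ω := Ω) S) ⊤, ∃ a : Kˣ, a ∈ VS p S ∧ ∀ σ, χ.1 σ = kk p ζ a σ :=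
    fun χ => rkd_ex hp hζ S hS χ.2
  choose a ha hk using hex
  obtain ⟨T, hT, hTx⟩ := H51.CUB.dub hp hp2 hζ S hS
  choose y hyT hy using fun χ => hTx (a χ)
  have hinj : Function.Injective fun χ : AU p (InS (Ω := Ω) S) ⊤ => (⟨y χ, hyT χ⟩ : T) := by
    intro χ χ' h
    have h1 : y χ = y χ' := congrArg Subtype.val h
    have h2 : PS p ζ S (a χ * (a χ')⁻¹) := by
      have h3 := RMkA_mul hp hp2 hζ (hy χ) (RMkA_inv hp hp2 hζ (hy χ'))
      rw [← h1] at h3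
      have h4 : a χ * (y χ)⁻¹ * (a χ' * (y χ)⁻¹)⁻¹ = a χ * (a χ')⁻¹ := by
        rw [mul_inv, inv_inv, mul_comm (a χ')⁻¹, mul_assoc, inv_mul_cancel_left]
      rw [h4] at h3
      exact h3
    have h5 : IsPow p (a χ * (a χ')⁻¹) :=
      vs_pow hp hp2 hζ S hS hcl _ ((VS p S).mul_mem (ha χ) ((VS p S).inv_mem (ha χ'))) h2
    apply Subtype.ext
    funext σ
    rw [hk χ σ, hk χ' σ]
    have h6 := (kk_eq_zero_iff hp hζ (a χ * (a χ')⁻¹)).2 h5 σ
    have h7 := kk_mul_arg hp hζ (a χ * (a χ')⁻¹) (a χ') σ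
    rw [inv_mul_cancel_right, h6, zero_add] at h7
    exact h7
  haveI : Finite (AU p (InS (Ω := Ω) S) ⊤) := Finite.of_injective _ hinj
  haveI : Module.Finite (ZMod p) (AU p (InS (Ω := Ω) S) ⊤) := Module.Finite.of_finite
  refine ⟨inferInstance, ?_⟩
  haveI : Fintype (AU p (InS (Ω := Ω) S) ⊤) := Fintype.ofFinite _
  have h1 : Fintype.card (AU p (InS (Ω := Ω) S) ⊤) ≤ p ^ (2 * S.card + Module.finrank ℚ K) := by
    refine (Fintype.card_le_of_injective _ hinj).trans ?_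
    rw [Fintype.card_coe]
    exact hT
  rw [Module.card_eq_pow_finrank (K := ZMod p), ZMod.card] at h1
  exact (Nat.pow_le_pow_iff_right hp.one_lt).1 h1

end H1.AR
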