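import Pool.Agent.H1.AR.RkC

/-!
# [H1 AR RKE] chains of subgroups of index `p`, 100-150 lines. File Pool/Agent/H1/AR/RkE.lean

* `pg_stp`: `W < ⊤` in a finite `p`-group `P0`: there are `W1` and `s` with `Stp p W W1 s` (so `W < W1`). The normaliser of `W` is larger than `W` (a finite `p`-group is nilpotent: `IsPGroup.isNilpotent`,
  `Group.normalizerCondition_of_isNilpotent`); `N(W) / W` is a nontrivial finite `p`-group, so it has an element of order `p` (`exists_prime_orderOf_dvd_card` and `IsPGroup` card); let `s ∈ N(W)` be a lift: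
  `s ∉ W`, `s ^ p ∈ W`; `W1 = W ⊔ zpowers s` `= {x s ^ i}` (`Subgroup.mul_normal`, or define `W1` by hand: carrier `{u | ∃ x ∈ W, ∃ i : ℕ, u = x * s ^ i}`, inverse: `s⁻¹ = s^(p-1) (s^p)⁻¹`).
* `stp_comap`: `Stp p W W1 s` and `ψ` surjective with `ψ σ = s`: `Stp p (W.comap ψ) (W1.comap ψ) σ` (gen: `ψ u = x s ^ i`, `u = (u σ^(-i)) σ^i`).
* `rk_chain`: strong induction on `W.index`. `W = ⊤`: `comap = ⊤`. Otherwise `W1` from `pg_stp`, `W1.index < W.index`, `rk_step` for `U' = W.comap ψ`, `U = W1.comap ψ` (`hop` from `hψ`: `ker ψ ≤ comap`;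
  `hI`): `m' ≤ p * (m1 + 1)`, so `m' + 1 ≤ 2 * p * (m1 + 1)`. Prove `finrank + 1 ≤ (2 * p) ^ W.index * (m + 1)` by this induction, then `W.index ≤ Nat.card P0`.
-/

set_option autoImplicit false
set_option linter.dupNamespace false

open scoped NumberField Pointwise
open IsDedekindDomain
open scoped Classical

noncomputable section

namespace H1.AR

open H63.MA H38.BB H38.BG H57.PC H57.BRA H89.BRG

theorem pg_stp {p : ℕ} (hp : p.Prime) {P0 : Type} [Group P0] [Finite P0] (hP : IsPGroup p P0)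
    (W : Subgroup P0) (hW : W ≠ ⊤) : ∃ (W1 : Subgroup P0) (s : P0), Stp p W W1 s := by
  have : Fact p.Prime := ⟨hp⟩
  have : Group.IsNilpotent P0 := hP.isNilpotent
  have hlt : W < Subgroup.normalizer (W : Set P0) := Group.normalizerCondition_of_isNilpotent W (lt_top_iff_ne_top.2 hW)
  obtain ⟨N, hN⟩ : ∃ N : Subgroup P0, N = Subgroup.normalizer (W : Set P0) := ⟨_, rfl⟩
  have hnorm : (W.subgroupOf N).Normal := by
    rw [hN]
    exact Subgroup.normal_in_normalizer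
  have hNor : ∀ u ∈ N, ∀ x ∈ W, u * x * u⁻¹ ∈ W := by
    intro u hu x hx
    rw [hN, Subgroup.mem_normalizer_iff] at hu
    exact (hu x).1 hx
  have hnt : Nontrivial (N ⧸ W.subgroupOf N) := by
    rw [← not_subsingleton_iff_nontrivial]
    intro h
    have h1 : W.subgroupOf N = ⊤ := QuotientGroup.subsingleton_iff.1 h
    rw [Subgroup.subgroupOf_eq_top] at h1
    exact absurd hlt (not_lt_of_ge (hN ▸ h1))
  have hPQ : IsPGroup p (N ⧸ W.subgroupOf N) := (hP.to_subgroup N).to_quotient _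
  obtain ⟨k, hk⟩ := IsPGroup.iff_card.1 hPQ
  have hk0 : k ≠ 0 := by
    rintro rfl
    rw [pow_zero, Nat.card_eq_one_iff_unique] at hk
    exact (not_subsingleton_iff_nontrivial.2 hnt) hk.1
  have hdvd : p ∣ Nat.card (N ⧸ W.subgroupOf N) := by
    rw [hk]
    exact dvd_pow_self p hk0
  obtain ⟨q, hq⟩ := exists_prime_orderOf_dvd_card' p hdvd
  obtain ⟨t, rfl⟩ := QuotientGroup.mk_surjective q
  obtain ⟨s, hs⟩ : ∃ s : P0, s = (t : P0) := ⟨_, rfl⟩
  have hsN : s ∈ N := hs ▸ t.2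
  have hsW : s ∉ W := by
    intro h
    have h1 : (QuotientGroup.mk t : N ⧸ W.subgroupOf N) = 1 := by
      rw [QuotientGroup.eq_one_iff, Subgroup.mem_subgroupOf, ← hs]
      exact h
    rw [h1, orderOf_one] at hq
    exact hp.one_lt.ne hq
  have hsp : s ^ p ∈ W := by
    have h1 := pow_orderOf_eq_one (QuotientGroup.mk t : N ⧸ W.subgroupOf N)
    rw [hq, ← QuotientGroup.mk_pow, QuotientGroup.eq_one_iff, Subgroup.mem_subgroupOf] at h1
    rw [hs]
    exact h1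
  have hinv : ∀ i : ℕ, (s ^ i)⁻¹ = ((s ^ p) ^ i)⁻¹ * s ^ ((p - 1) * i) := by
    intro i
    rw [← pow_mul, eq_inv_mul_iff_mul_eq, mul_inv_eq_iff_eq_mul, ← pow_add]
    congr 1
    have h1 := hp.one_lt.le
    have h2 : (p - 1) * i + i = (p - 1 + 1) * i := by ring
    rw [h2, Nat.sub_add_cancel h1]
  obtain ⟨W1, hW1⟩ : ∃ W1 : Subgroup P0, ∀ u, u ∈ W1 ↔ ∃ x ∈ W, ∃ i : ℕ, u = x * s ^ i := by
    refine ⟨{ carrier := {u | ∃ x ∈ W, ∃ i : ℕ, u = x * s ^ i}
              one_mem' := ⟨1, W.one_mem, 0, by simp⟩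
              mul_mem' := ?_
              inv_mem' := ?_ }, fun u => Iff.rfl⟩
    · rintro a b ⟨x, hx, i, rfl⟩ ⟨y, hy, j, rfl⟩
      refine ⟨x * (s ^ i * y * (s ^ i)⁻¹), W.mul_mem hx (hNor _ (N.pow_mem hsN i) _ hy), i + j, ?_⟩
      rw [pow_add]
      group
    · rintro a ⟨x, hx, i, rfl⟩
      refine ⟨((s ^ i)⁻¹ * x⁻¹ * ((s ^ i)⁻¹)⁻¹) * ((s ^ p) ^ i)⁻¹, W.mul_mem
        (hNor _ (N.inv_mem (N.pow_mem hsN i)) _ (W.inv_mem hx)) (W.inv_mem (W.pow_mem hsp i)),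
        (p - 1) * i, ?_⟩
      rw [mul_assoc _ ((s ^ p) ^ i)⁻¹, ← hinv i]
      group
  refine ⟨W1, s, ?_, ?_, ?_, hsW, hsp, ?_⟩
  · intro x hx
    exact (hW1 x).2 ⟨x, hx, 0, by simp⟩
  · intro u hu x hx
    obtain ⟨y, hy, i, rfl⟩ := (hW1 u).1 hu
    have h1 : y * s ^ i * x * (y * s ^ i)⁻¹ = y * (s ^ i * x * (s ^ i)⁻¹) * y⁻¹ := by group
    rw [h1]
    exact W.mul_mem (W.mul_mem hy (hNor _ (N.pow_mem hsN i) _ hx)) (W.inv_mem hy)
  · exact (hW1 s).2 ⟨1, W.one_mem, 1, by simp⟩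
  · intro u hu
    exact (hW1 u).1 hu

theorem stp_comap {p : ℕ} {Γ P0 : Type} [Group Γ] [Group P0] (ψ : Γ →* P0) {W W1 : Subgroup P0}
    {s : P0} (h : Stp p W W1 s) {σ : Γ} (hσ : ψ σ = s) :
    Stp p (W.comap ψ) (W1.comap ψ) σ := by
  refine ⟨?_, ?_, ?_, ?_, ?_, ?_⟩
  · intro x hx
    exact h.le hx
  · intro u hu x hx
    rw [Subgroup.mem_comap, map_mul, map_mul, map_inv]
    exact h.nor _ hu _ hx
  · rw [Subgroup.mem_comap, hσ]
    exact h.mem
  · rw [Subgroup.mem_comap, hσ]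
    exact h.nmem
  · rw [Subgroup.mem_comap, map_pow, hσ]
    exact h.pow
  · intro u hu
    obtain ⟨x, hx, i, hi⟩ := h.gen _ hu
    refine ⟨u * (σ ^ i)⁻¹, ?_, i, ?_⟩
    · rw [Subgroup.mem_comap, map_mul, map_inv, map_pow, hσ, hi, mul_inv_cancel_right]
      exact hx
    · rw [inv_mul_cancel_right]

variable {K : Type} [Field K] [NumberField K] {Ω : Type} [Field Ω] [Algebra K Ω]
  [IsAlgClosure K Ω] {p : ℕ}

theorem rk_chain (hp : p.Prime) {P0 : Type} [Group P0] [Finite P0] (hP : IsPGroup p P0)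
    (ψ : Gal(Ω/K) →* P0) (hψ : H38.ML.FT ψ) (hs : Function.Surjective ψ) {I : Set Gal(Ω/K)}
    (hI : ∀ τ ∈ I, ψ τ = 1) (hIc : ∀ τ ∈ I, ∀ g, g * τ * g⁻¹ ∈ I) {m : ℕ}
    (hf : Module.Finite (ZMod p) (AU p I ⊤)) (hm : Module.finrank (ZMod p) (AU p I ⊤) ≤ m)
    (W : Subgroup P0) : Module.Finite (ZMod p) (AU p I (W.comap ψ)) ∧
      Module.finrank (ZMod p) (AU p I (W.comap ψ)) + 1 ≤ (2 * p) ^ Nat.card P0 * (m + 1) := by
  have h2p : 0 < 2 * p := Nat.mul_pos two_pos hp.pos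
  have key : ∀ n : ℕ, ∀ W : Subgroup P0, W.index = n → Module.Finite (ZMod p) (AU p I (W.comap ψ)) ∧
      Module.finrank (ZMod p) (AU p I (W.comap ψ)) + 1 ≤ (2 * p) ^ n * (m + 1) := by
    intro n
    induction n using Nat.strong_induction_on with
    | _ n ih =>
      intro W hn
      by_cases hW : W = ⊤
      · subst hW
        rw [Subgroup.comap_top]
        refine ⟨hf, ?_⟩
        calc Module.finrank (ZMod p) (AU p I ⊤) + 1 ≤ 1 * (m + 1) := by omega
          _ ≤ (2 * p) ^ n * (m + 1) := Nat.mul_le_mul_right _ (Nat.one_le_pow _ _ h2p)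
      · obtain ⟨W1, s, hS⟩ := pg_stp hp hP W hW
        obtain ⟨σ, hσ⟩ := hs s
        have hlt : W < W1 := lt_of_le_of_ne hS.le (fun h => hS.nmem (h ▸ hS.mem))
        have hidx : W1.index < n := by
          rw [← hn]
          exact Subgroup.index_strictAnti hlt
        obtain ⟨hf1, hb1⟩ := ih _ hidx W1 rfl
        obtain ⟨E, hE, hEψ⟩ := hψ
        have hker : ψ.ker ≤ W.comap ψ := by
          intro g hg
          rw [Subgroup.mem_comap, MonoidHom.mem_ker.1 hg]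
          exact W.one_mem
        obtain ⟨hf2, hb2⟩ := rk_step hp (stp_comap ψ hS hσ) (I := I)
          (fun τ hτ => by
            rw [SetLike.mem_coe, Subgroup.mem_comap, hI τ hτ]
            exact W.one_mem) hIc ⟨E, hE, hEψ.trans hker⟩ hf1 le_rfl
        refine ⟨hf2, ?_⟩
        obtain ⟨a, ha⟩ : ∃ a, a = Module.finrank (ZMod p) (AU p I (W1.comap ψ)) := ⟨_, rfl⟩
        rw [← ha] at hb1 hb2
        have h1 : 1 ≤ p * (a + 1) := Nat.mul_pos hp.pos (Nat.succ_pos _)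
        calc Module.finrank (ZMod p) (AU p I (W.comap ψ)) + 1 ≤ p * (a + 1) + 1 := by omega
          _ ≤ p * (a + 1) + p * (a + 1) := by omega
          _ = 2 * p * (a + 1) := by ring
          _ ≤ 2 * p * ((2 * p) ^ W1.index * (m + 1)) := Nat.mul_le_mul_left _ hb1
          _ = (2 * p) ^ (W1.index + 1) * (m + 1) := by ring
          _ ≤ (2 * p) ^ n * (m + 1) :=
            Nat.mul_le_mul_right _ (Nat.pow_le_pow_right h2p hidx)
  obtain ⟨h1, h2⟩ := key _ W rfl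
  refine ⟨h1, h2.trans (Nat.mul_le_mul_right _ (Nat.pow_le_pow_right h2p ?_))⟩
  exact Nat.le_of_dvd Nat.card_pos W.index_dvd_card

end H1.AR
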