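import Pool.Agent.H1.AR.Sel
import Pool.Agent.H1.AR.ClA
import Pool.Agent.H1.AR.Dsf
import Pool.Agent.H1.AR.RkD
import Pool.Agent.H1.AR.RkE
import Pool.Agent.H1.AR.ChD

/-!
# [H1 AR AXS] the set `S`, 150-220 lines. File Pool/Agent/H1/AR/Axs.lean

* `clp_mono`: `ClP p S`, `S ⊆ S'` imply `ClP p S'`. `clp_one`: `ClOne S` implies `ClP p S`.
* `axs`: constants: `q = Nat.card P0` (depends only on `P0`), `n = [K : ℚ]`, `C₁` from `dsf K Ω q`, `C₂` from `mink (q * n)`.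
  Let `ψ`, `E` be given, `k = #E`, `m = (2 p)^q (2 k + n + 1)`. `rk_base` (`S = E`, `ClP` by `clp_one`, `clone_mono`) and `rk_chain` (`I = InS E`, `ins_conj`, `hur`) give for every `W ≤ P0`: `AU p (InS E) (W.comap ψ)` has
  dimension at most `m`. For every `W` let `F_W = fixedField (W.comap ψ)` (finite over `K`, `fixingSubgroup = W.comap ψ`: `H38.ML.fixing_fixedField`, see the use in H48/KV/FldA.lean; `[F_W : K] ≤ q`: the index of
  `W.comap ψ`, `ψ` is surjective); `NumberField F_W` (`NumberField.of_module_finite K F_W`). `sel` with `SF = ovf F_W E`; `dsf` with `φ = ψ`, `n = q`; `mink`; `cla`: a set `T_W` of at most `m` places of norm at most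
  `M = C₂ C₁ (∏ E nm)^q` with `ClP p (ovf F_W E ∪ T_W)`.
  `S = E ∪ ⋃_W (T_W).image (place of K below)` (finitely many `W`, at most `2 ^ q`; `exists_below`), `#S ≤ k + 2^q m ≤ A (k + 1)`; the place `v` below `w` has `nm v ≤ nm w` (`nm_over`), so
  `∏ S nm ≤ ∏ E nm * M ^ (2^q m) ≤ (A ∏ E nm)^(A (k + 1))` for a suitable natural number `A` (all factors `≥ 1`).
  For `F` with `F.fixingSubgroup = W.comap ψ`: `F = F_W` (Galois correspondence: `IntermediateField.fixingSubgroup` is injective, `InfiniteGalois.fixedField_fixingSubgroup`; `subst`), and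
  `ovf F_W E ∪ T_W ⊆ ovf F_W S`: `clp_mono`.
-/

set_option autoImplicit false
set_option linter.dupNamespace false

open scoped NumberField Pointwise
open IsDedekindDomain
open scoped Classical

noncomputable section

namespace H1.AR

open H63.MA H38.BB H38.BG H57.PC H57.BRA H89.BRG H36.QA

theorem clp_mono {F : Type} [Field F] [NumberField F] {p : ℕ} {S S' : Finset (Pl F)}
    (h : ClP p S) (hS : S ⊆ S') : ClP p S' := by
  intro v hv
  obtain ⟨x, hx1, hx2⟩ := h v (fun h' => hv (hS h'))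
  exact ⟨x, hx1, fun w hw hwv => hx2 w (fun h' => hw (hS h')) hwv⟩

theorem clp_one {F : Type} [Field F] [NumberField F] {p : ℕ} {S : Finset (Pl F)}
    (h : ClOne S) : ClP p S := by
  intro v hv
  obtain ⟨x, h1, h2⟩ := h v hv
  exact ⟨x, h1, fun w hw hwv => by rw [h2 w hw hwv, Int.cast_zero]⟩

private theorem axs_fix {K : Type} [Field K] [NumberField K] {Ω : Type} [Field Ω] [Algebra K Ω]
    [IsAlgClosure K Ω] {H : Type} [Group H] (φ : Gal(Ω/K) →* H) (hφ : H38.ML.FT φ)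
    (W : Subgroup H) : ∃ F : IntermediateField K Ω, FiniteDimensional K F ∧
      F.fixingSubgroup = W.comap φ := by
  obtain ⟨E, hE, hle⟩ := hφ
  have h1 : E.fixingSubgroup ≤ W.comap φ := by
    intro σ hσ
    have h2 := hle hσ
    rw [MonoidHom.mem_ker] at h2
    rw [Subgroup.mem_comap, h2]
    exact W.one_mem
  obtain ⟨h2, h3⟩ := H38.ML.fixing_fixedField (W.comap φ) E h1
  exact ⟨IntermediateField.fixedField (W.comap φ), h3, h2⟩

private theorem axs_eq {K : Type} [Field K] [NumberField K] {Ω : Type} [Field Ω] [Algebra K Ω]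
    [IsAlgClosure K Ω] {F F' : IntermediateField K Ω}
    (h : F.fixingSubgroup = F'.fixingSubgroup) : F = F' := by
  haveI : IsGalois K Ω := IsAlgClosure.isGalois K Ω
  rw [← InfiniteGalois.fixedField_fixingSubgroup F, h, InfiniteGalois.fixedField_fixingSubgroup]

private theorem axs_W {K : Type} [Field K] [NumberField K] {Ω : Type} [Field Ω] [Algebra K Ω]
    [IsAlgClosure K Ω] {p : ℕ} {ζ : K} (hp : p.Prime) (hζ : IsPrimitiveRoot ζ p)
    {P0 : Type} [Group P0] [Finite P0] (ψ : Gal(Ω/K) →* P0) (hψ : H38.ML.FT ψ)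
    (hs : Function.Surjective ψ) (E : Finset (Pl K)) (hab : ∀ v, Above p v → v ∈ E)
    (W : Subgroup P0) {m B : ℕ}
    (hf : Module.Finite (ZMod p) (AU p (InS (Ω := Ω) E) (W.comap ψ)))
    (hm : Module.finrank (ZMod p) (AU p (InS (Ω := Ω) E) (W.comap ψ)) ≤ m)
    (hB : ∀ (F : IntermediateField K Ω) [FiniteDimensional K F] [NumberField F],
      Module.finrank K F ≤ Nat.card P0 → (∀ σ, ψ σ = 1 → σ ∈ F.fixingSubgroup) →
      ∀ c : ClassGroup (𝓞 F), ∃ I : nonZeroDivisors (Ideal (𝓞 F)), ClassGroup.mk0 I = c ∧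
        (Ideal.absNorm (I : Ideal (𝓞 F)) : ℝ) ≤ (B : ℝ)) :
    ∃ S : Finset (Pl K), S.card ≤ m ∧ (∀ v ∈ S, nm v ≤ B) ∧
      ∀ (F : IntermediateField K Ω) [NumberField F], F.fixingSubgroup = W.comap ψ →
        ClP p (ovf F (E ∪ S)) := by
  obtain ⟨F, hfd, hF⟩ := axs_fix ψ hψ W
  have hnf : NumberField F := NumberField.of_module_finite K F
  haveI : IsGalois K Ω := IsAlgClosure.isGalois K Ω
  have hdeg : Module.finrank K F ≤ Nat.card P0 := by
    rw [IntermediateField.finrank_eq_fixingSubgroup_index, hF,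
      Subgroup.index_comap_of_surjective W hs]
    exact Nat.le_of_dvd Nat.card_pos W.index_dvd_card
  have hker : ∀ σ, ψ σ = 1 → σ ∈ F.fixingSubgroup := by
    intro σ hσ
    rw [hF, Subgroup.mem_comap, hσ]
    exact W.one_mem
  rw [← hF] at hf hm
  obtain ⟨T₀, hT₀, hT⟩ := sel hp hζ F E hab (ovf F E) (mem_ovf F E) hf hm
  obtain ⟨T, hTc, hTn, hTcl⟩ := cla hp (ovf F E) T₀ hT₀ hT (B : ℝ) (hB F hdeg hker)
  have hbel : ∀ w : Pl F, ∃ v : Pl K, Over w v := fun w => exists_below (K := K) w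
  choose b hb using hbel
  refine ⟨T.image b, Finset.card_image_le.trans hTc, ?_, ?_⟩
  · intro v hv
    obtain ⟨w, hw, rfl⟩ := Finset.mem_image.1 hv
    obtain ⟨f, hf1, hf2⟩ := nm_over (hb w)
    have h1 : nm w ≤ B := by exact_mod_cast hTn w hw
    refine le_trans ?_ h1
    rw [hf2]
    exact Nat.le_self_pow (by omega) _
  · intro F' hnf' hF'
    have h1 : F' = F := axs_eq (hF'.trans hF.symm)
    subst h1
    refine clp_mono hTcl fun w hw => ?_
    rw [mem_ovf]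
    rcases Finset.mem_union.1 hw with hw | hw
    · obtain ⟨v, hv, hwv⟩ := (mem_ovf F' E w).1 hw
      exact ⟨v, Finset.mem_union_left _ hv, hwv⟩
    · exact ⟨b w, Finset.mem_union_right _ (Finset.mem_image_of_mem _ hw), hb w⟩

private theorem axs_ar (k q N r n C A Pr m : ℕ) (hm : m = r * (2 * k + n + 1))
    (hA : A = C + 1 + (q + 1) * N * r * (n + 2)) (hPr : 1 ≤ Pr) :
    k + N * m ≤ A * (k + 1) ∧ Pr * (C * Pr ^ q) ^ (N * m) ≤ (A * Pr) ^ (A * (k + 1)) := by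
  have h0 : 2 * k + n + 1 ≤ (n + 2) * (k + 1) := by nlinarith
  have h1 : N * m ≤ N * r * (n + 2) * (k + 1) := by
    rw [hm]
    calc N * (r * (2 * k + n + 1)) ≤ N * (r * ((n + 2) * (k + 1))) :=
          Nat.mul_le_mul_left _ (Nat.mul_le_mul_left _ h0)
      _ = _ := by ring
  have hCA : C ≤ A := by omega
  have hA1 : 1 ≤ A := by omega
  have h2 : 1 + (q + 1) * (N * m) ≤ A * (k + 1) := by
    calc 1 + (q + 1) * (N * m) ≤ (k + 1) + (q + 1) * (N * r * (n + 2) * (k + 1)) :=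
          Nat.add_le_add (by omega) (Nat.mul_le_mul_left _ h1)
      _ = (1 + (q + 1) * N * r * (n + 2)) * (k + 1) := by ring
      _ ≤ A * (k + 1) := Nat.mul_le_mul_right _ (by omega)
  constructor
  · have h3 : N * r * (n + 2) ≤ (q + 1) * N * r * (n + 2) := by
      calc N * r * (n + 2) = 1 * (N * r * (n + 2)) := by ring
        _ ≤ (q + 1) * (N * r * (n + 2)) := Nat.mul_le_mul_right _ (by omega)
        _ = _ := by ring
    calc k + N * m ≤ (k + 1) + N * r * (n + 2) * (k + 1) := Nat.add_le_add (by omega) h1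
      _ = (1 + N * r * (n + 2)) * (k + 1) := by ring
      _ ≤ A * (k + 1) := Nat.mul_le_mul_right _ (by omega)
  · have hAPr : 1 ≤ A * Pr := Nat.mul_pos hA1 hPr
    have h4 : C * Pr ^ q ≤ (A * Pr) ^ (q + 1) := by
      calc C * Pr ^ q ≤ A * Pr ^ q := Nat.mul_le_mul_right _ hCA
        _ ≤ A ^ (q + 1) * Pr ^ (q + 1) :=
          Nat.mul_le_mul (Nat.le_self_pow (by omega) _) (Nat.pow_le_pow_right hPr (by omega))
        _ = _ := (mul_pow _ _ _).symm
    calc Pr * (C * Pr ^ q) ^ (N * m) ≤ (A * Pr) * ((A * Pr) ^ (q + 1)) ^ (N * m) :=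
          Nat.mul_le_mul (Nat.le_mul_of_pos_left _ hA1) (Nat.pow_le_pow_left h4 _)
      _ = (A * Pr) ^ (1 + (q + 1) * (N * m)) := by
        rw [← pow_mul, pow_add, pow_one]
      _ ≤ _ := Nat.pow_le_pow_right hAPr h2

theorem axs (K : Type) [Field K] [NumberField K] (Ω : Type) [Field Ω] [Algebra K Ω]
    [IsAlgClosure K Ω] {p : ℕ} {ζ : K} (hp : p.Prime) (hp2 : MOne p K)
    (hζ : IsPrimitiveRoot ζ p) (S00 : Finset (Pl K)) (hcl : ClOne S00)
    (hab : ∀ v, Above p v → v ∈ S00) (P0 : Type) [Group P0] [Finite P0] (hP : IsPGroup p P0) :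
    ∃ A : ℕ, 1 ≤ A ∧ ∀ (ψ : Gal(Ω/K) →* P0), H38.ML.FT ψ → Function.Surjective ψ →
      ∀ E : Finset (Pl K), S00 ⊆ E → (∀ v, v ∉ E → ∀ P : Ideal (𝓞 Ω), P.IsPrime →
        P.under (𝓞 K) = v.asIdeal → ∀ τ ∈ P.inertia Gal(Ω/K), ψ τ = 1) →
      ∃ S : Finset (Pl K), E ⊆ S ∧ S.card ≤ A * (E.card + 1) ∧
        ∏ v ∈ S, nm v ≤ (A * ∏ v ∈ E, nm v) ^ (A * (E.card + 1)) ∧
        ∀ (W : Subgroup P0) (F : IntermediateField K Ω) [NumberField F],
          F.fixingSubgroup = W.comap ψ → ClP p (ovf F S) := by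
  obtain ⟨C₁, hC₁, hds⟩ := dsf K Ω (Nat.card P0)
  obtain ⟨C₂, hC₂, hmk⟩ := mink (Nat.card P0 * Module.finrank ℚ K)
  have hft : Fintype (Subgroup P0) := Fintype.ofFinite _
  obtain ⟨C, hC⟩ : ∃ C : ℕ, C = ⌈C₂ * C₁⌉₊ := ⟨_, rfl⟩
  have hCC : C₂ * C₁ ≤ (C : ℝ) := by
    rw [hC]
    exact Nat.le_ceil _
  obtain ⟨A, hA⟩ : ∃ A : ℕ, A = C + 1 + (Nat.card P0 + 1) * Fintype.card (Subgroup P0) *
    (2 * p) ^ Nat.card P0 * (Module.finrank ℚ K + 2) := ⟨_, rfl⟩
  refine ⟨A, by omega, fun ψ hψ hs E hE hur => ?_⟩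
  obtain ⟨m, hm⟩ : ∃ m : ℕ, m = (2 * p) ^ Nat.card P0 * (2 * E.card + Module.finrank ℚ K + 1) :=
    ⟨_, rfl⟩
  have habE : ∀ v, Above p v → v ∈ E := fun v hv => hE (hab v hv)
  obtain ⟨hb1, hb2⟩ := rk_base (Ω := Ω) hp hp2 hζ E habE (clp_one (clone_mono hcl hE))
  have hI : ∀ τ ∈ InS (Ω := Ω) E, ψ τ = 1 := by
    rintro τ ⟨v, hv, P, hP, hPv, hτ⟩
    exact hur v hv P hP hPv τ hτ
  have hch := rk_chain hp hP ψ hψ hs hI (fun τ hτ g => ins_conj E hτ g) hb1 hb2
  have hPr : 1 ≤ ∏ v ∈ E, nm v := Nat.one_le_iff_ne_zero.2 (Finset.prod_ne_zero_iff.2 fun v _ => by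
    have := one_lt_nm v
    omega)
  have hex : ∀ W : Subgroup P0, ∃ S : Finset (Pl K), S.card ≤ m ∧
      (∀ v ∈ S, nm v ≤ C * (∏ v ∈ E, nm v) ^ Nat.card P0) ∧
      ∀ (F : IntermediateField K Ω) [NumberField F], F.fixingSubgroup = W.comap ψ →
        ClP p (ovf F (E ∪ S)) := by
    intro W
    refine axs_W hp hζ ψ hψ hs E habE W (hch W).1 ?_ ?_
    · rw [hm]
      exact (Nat.le_succ _).trans (hch W).2
    · intro F _ _ hdeg hker c
      obtain ⟨I, hI1, hI2⟩ := hmk F (by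
        rw [← Module.finrank_mul_finrank ℚ K F, mul_comm]
        exact Nat.mul_le_mul_right _ hdeg) c
      refine ⟨I, hI1, hI2.trans ?_⟩
      have h1 := hds F hdeg ψ hker E hur
      have h2 : (0 : ℝ) ≤ (∏ v ∈ E, (nm v : ℝ)) ^ Nat.card P0 := by positivity
      calc C₂ * dd F ≤ C₂ * (C₁ * (∏ v ∈ E, (nm v : ℝ)) ^ Nat.card P0) :=
            mul_le_mul_of_nonneg_left h1 (by linarith)
        _ = (C₂ * C₁) * (∏ v ∈ E, (nm v : ℝ)) ^ Nat.card P0 := by ring
        _ ≤ (C : ℝ) * (∏ v ∈ E, (nm v : ℝ)) ^ Nat.card P0 := mul_le_mul_of_nonneg_right hCC h2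
        _ = _ := by push_cast; rfl
  choose SW hSW1 hSW2 hSW3 using hex
  obtain ⟨U, hU⟩ : ∃ U : Finset (Pl K), U = Finset.univ.biUnion SW := ⟨_, rfl⟩
  have hUc : U.card ≤ Fintype.card (Subgroup P0) * m := by
    rw [hU]
    exact Finset.card_biUnion_le_card_mul _ _ _ fun W _ => hSW1 W
  have hUn : ∀ v ∈ U, nm v ≤ C * (∏ v ∈ E, nm v) ^ Nat.card P0 := by
    intro v hv
    rw [hU, Finset.mem_biUnion] at hv
    obtain ⟨W, _, hW⟩ := hv
    exact hSW2 W v hW
  have hC1 : 1 ≤ C := by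
    have h1 : (1 : ℝ) ≤ (C : ℝ) := le_trans (by nlinarith) hCC
    exact_mod_cast h1
  obtain ⟨ha1, ha2⟩ := axs_ar E.card (Nat.card P0) (Fintype.card (Subgroup P0))
    ((2 * p) ^ Nat.card P0) (Module.finrank ℚ K) C A (∏ v ∈ E, nm v) m hm hA hPr
  refine ⟨E ∪ U, Finset.subset_union_left, ?_, ?_, ?_⟩
  · exact ((Finset.card_union_le _ _).trans (Nat.add_le_add_left hUc _)).trans ha1
  · have h1 : ∏ v ∈ E ∪ U, nm v ≤ (∏ v ∈ E, nm v) * ∏ v ∈ U, nm v := by
      rw [← Finset.prod_union_inter]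
      refine Nat.le_mul_of_pos_right _ (Nat.pos_of_ne_zero (Finset.prod_ne_zero_iff.2 fun x _ => ?_))
      have := one_lt_nm x
      omega
    have h2 : ∏ v ∈ U, nm v ≤
        (C * (∏ v ∈ E, nm v) ^ Nat.card P0) ^ (Fintype.card (Subgroup P0) * m) := by
      refine (Finset.prod_le_pow_card U _ _ hUn).trans (Nat.pow_le_pow_right ?_ hUc)
      exact Nat.mul_pos hC1 (pow_pos hPr _)
    exact (h1.trans (Nat.mul_le_mul_left _ h2)).trans ha2
  · intro W F hnf hF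
    refine clp_mono (hSW3 W F hF) fun w hw => ?_
    rw [mem_ovf] at hw ⊢
    obtain ⟨v, hv, hwv⟩ := hw
    refine ⟨v, ?_, hwv⟩
    rcases Finset.mem_union.1 hv with hv | hv
    · exact Finset.mem_union_left _ hv
    · refine Finset.mem_union_right _ ?_
      rw [hU, Finset.mem_biUnion]
      exact ⟨W, Finset.mem_univ _, hv⟩

end H1.AR
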