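import Pool.Agent.H1.AR.ChC
import Pool.Agent.H51.MM.Defs

/-!
# [H1 AR CDG] the combinatorial data of `Dg`, 100-160 lines. File Pool/Agent/H1/AR/Cdg.lean

* `annS Dg i`: the `θ` which vanish on `om (y i) V`; `thS`: a complement of it (`Submodule.exists_isCompl`), as a finite set.
* `van_symm'`: `om (y j) (act q (y i)) = om (act q⁻¹ (y j)) (y i) = - om (y i) (act q⁻¹ (y j))`: `om_act`, `Dg.act_mul`, `Dg.act_one`; `om x y = - om y x` (`iv_om`, `iv_swap`).
* `th_ann`: `θ` is in `annS ⊓ thS = ⊥`.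
* `th_wt`: for `E = om (y i) x`, `E ≠ 0`: the linear form `θ ↦ dt θ E` is nonzero on some `θ` and zero on `annS`, so nonzero on some `θ₁ ∈ thS`; shift the sum by `θ₁` (`ep_add`): the sum is `0`. (`ep_zero`.)
* `th_card`: `θ ↦ (x ↦ dt θ x)` is an isomorphism of the complement of the annihilator with the dual of `range (om (y i))`; dimensions: `finrank (annS) = w - finrank (range)` (Mathlib: dualAnnihilator,
  `Subspace.finrank_add_finrank_dualAnnihilator_eq`, with `dotProduct` pairing / `LinearMap.toMatrix`, or count: `∑ over θ, E` double sum of `ep (dt θ E)`), `Submodule.finrank_add_eq_of_isCompl`,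
  `Module.card_eq_pow_finrank`.
* `cl_univ`: `θ ∈ thS i`, `Van i j θ` for all `j`: `M = {x : dt θ (om (y i) (act q x)) = 0 for all q}` is a stable submodule containing all `y j`, so `M = ⊤` (`Dg.gen`), and `θ = 0` by `th_ann` (`q = 1`).
-/

set_option autoImplicit false
set_option linter.dupNamespace false

open scoped NumberField
open IsDedekindDomain
open scoped Classical

noncomputable section

namespace H1.AR

open H63.MA H38.BB H38.BG H57.PC H57.BRA H89.BRG

variable {p u w N : ℕ} {R Q : Type} [Group R] [Group Q]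

theorem dt_add (θ x y : Fin w → ZMod p) : dt θ (x + y) = dt θ x + dt θ y := by
  unfold dt
  rw [← Finset.sum_add_distrib]
  exact Finset.sum_congr rfl fun k _ => mul_add _ _ _

theorem dt_add' (θ θ' x : Fin w → ZMod p) : dt (θ + θ') x = dt θ x + dt θ' x := by
  unfold dt
  rw [← Finset.sum_add_distrib]
  exact Finset.sum_congr rfl fun k _ => add_mul _ _ _

theorem dt_smul (c : ZMod p) (θ x : Fin w → ZMod p) : dt (c • θ) x = c * dt θ x := by
  unfold dt
  rw [Finset.mul_sum]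
  exact Finset.sum_congr rfl fun k _ => mul_assoc _ _ _

/-- the annihilator of `om (y i) V` -/
def annS (Dg : MG p u w N R Q) (i : Fin N) : Submodule (ZMod p) (Fin w → ZMod p) where
  carrier := {θ | ∀ x, dt θ (Dg.om (Dg.y i) x) = 0}
  add_mem' := by
    intro θ θ' h h' x
    rw [dt_add', h x, h' x, add_zero]
  zero_mem' := by
    intro x
    unfold dt
    simp
  smul_mem' := by
    intro c θ h x
    rw [dt_smul, h x, mul_zero]

theorem thS_ex (Dg : MG p u w N R Q) (hp : p.Prime) (i : Fin N) :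
    ∃ C : Submodule (ZMod p) (Fin w → ZMod p), IsCompl (annS Dg i) C := by
  have : Fact p.Prime := ⟨hp⟩
  exact Submodule.exists_isCompl _

/-- a complement of the annihilator -/
def thS (Dg : MG p u w N R Q) (hp : p.Prime) (i : Fin N) : Finset (Fin w → ZMod p) :=
  haveI : NeZero p := ⟨hp.ne_zero⟩
  Finset.univ.filter fun θ => θ ∈ (thS_ex Dg hp i).choose

theorem mem_thS (Dg : MG p u w N R Q) (hp : p.Prime) (i : Fin N) (θ : Fin w → ZMod p) :
    θ ∈ thS Dg hp i ↔ θ ∈ (thS_ex Dg hp i).choose := by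
  have : NeZero p := ⟨hp.ne_zero⟩
  unfold thS
  simp

theorem th_ann (Dg : MG p u w N R Q) (hp : p.Prime) (i : Fin N) {θ : Fin w → ZMod p}
    (hθ : θ ∈ thS Dg hp i) (h : ∀ x, dt θ (Dg.om (Dg.y i) x) = 0) : θ = 0 := by
  have h1 : θ ∈ annS Dg i := h
  exact (Submodule.disjoint_def.1 (thS_ex Dg hp i).choose_spec.disjoint) θ h1 ((mem_thS Dg hp i θ).1 hθ)

private theorem dt_zr (θ : Fin w → ZMod p) : dt θ (0 : Fin w → ZMod p) = 0 := by
  unfold dt
  exact Finset.sum_eq_zero fun k _ => mul_zero _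

private theorem dt_smul' (c : ZMod p) (θ x : Fin w → ZMod p) : dt θ (c • x) = c * dt θ x := by
  unfold dt
  rw [Finset.mul_sum]
  refine Finset.sum_congr rfl fun k _ => ?_
  rw [Pi.smul_apply, smul_eq_mul]
  ring

/-- an element of the complement which does not kill `E` -/
private theorem th_ne (Dg : MG p u w N R Q) (hp : p.Prime) (i : Fin N) (x : Fin u → ZMod p)
    (hE : Dg.om (Dg.y i) x ≠ 0) : ∃ θ ∈ thS Dg hp i, dt θ (Dg.om (Dg.y i) x) ≠ 0 := by
  obtain ⟨k, hk⟩ := Function.ne_iff.1 hE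
  have h1 : dt (Pi.single k 1) (Dg.om (Dg.y i) x) = Dg.om (Dg.y i) x k := by
    unfold dt
    rw [Finset.sum_eq_single k, Pi.single_eq_same, one_mul]
    · intro l _ hl
      rw [Pi.single_eq_of_ne hl, zero_mul]
    · intro h
      exact absurd (Finset.mem_univ k) h
  have h2 : (Pi.single k 1 : Fin w → ZMod p) ∈ annS Dg i ⊔ (thS_ex Dg hp i).choose := by
    rw [(thS_ex Dg hp i).choose_spec.sup_eq_top]
    exact Submodule.mem_top
  obtain ⟨a, ha, c, hc, hac⟩ := Submodule.mem_sup.1 h2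
  refine ⟨c, (mem_thS Dg hp i c).2 hc, fun h3 => hk ?_⟩
  have h4 : dt a (Dg.om (Dg.y i) x) = 0 := ha x
  rw [← h1, ← hac, dt_add', h4, h3, add_zero, Pi.zero_apply]

theorem th_wt (Dg : MG p u w N R Q) (hp : p.Prime) (i : Fin N) (x : Fin u → ZMod p) :
    ∑ θ ∈ thS Dg hp i, ep p (dt θ (Dg.om (Dg.y i) x)) =
      if Dg.om (Dg.y i) x = 0 then ((thS Dg hp i).card : ℂ) else 0 := by
  split_ifs with hE
  · rw [hE]
    have h1 : ∀ θ ∈ thS Dg hp i, ep p (dt θ (0 : Fin w → ZMod p)) = 1 := fun θ _ => by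
      rw [dt_zr, ep_zero]
    rw [Finset.sum_congr rfl h1, Finset.sum_const, nsmul_eq_mul, mul_one]
  · obtain ⟨θ₁, h1, h2⟩ := th_ne Dg hp i x hE
    have h3 : ∑ θ ∈ thS Dg hp i, ep p (dt θ (Dg.om (Dg.y i) x)) =
        ∑ θ ∈ thS Dg hp i, ep p (dt (θ₁ + θ) (Dg.om (Dg.y i) x)) := by
      refine (Finset.sum_bij (fun θ _ => θ₁ + θ) (fun θ hθ => ?_) (fun θ _ θ' _ h => add_left_cancel h)
        (fun θ hθ => ⟨θ - θ₁, ?_, add_sub_cancel _ _⟩) (fun θ _ => rfl)).symm
      · exact (mem_thS Dg hp i _).2 (Submodule.add_mem _ ((mem_thS Dg hp i _).1 h1)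
          ((mem_thS Dg hp i _).1 hθ))
      · exact (mem_thS Dg hp i _).2 (Submodule.sub_mem _ ((mem_thS Dg hp i _).1 hθ)
          ((mem_thS Dg hp i _).1 h1))
    have h4 : ∀ θ ∈ thS Dg hp i, ep p (dt (θ₁ + θ) (Dg.om (Dg.y i) x)) =
        ep p (dt θ₁ (Dg.om (Dg.y i) x)) * ep p (dt θ (Dg.om (Dg.y i) x)) := fun θ _ => by
      rw [dt_add', ep_add hp]
    rw [Finset.sum_congr rfl h4, ← Finset.mul_sum] at h3
    have h5 : ep p (dt θ₁ (Dg.om (Dg.y i) x)) ≠ 1 := fun h => h2 ((ep_eq_one hp _).1 h)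
    have h6 : (1 - ep p (dt θ₁ (Dg.om (Dg.y i) x))) *
        ∑ θ ∈ thS Dg hp i, ep p (dt θ (Dg.om (Dg.y i) x)) = 0 := by
      rw [sub_mul, one_mul, ← h3, sub_self]
    exact (mul_eq_zero.1 h6).resolve_left (sub_ne_zero.2 (Ne.symm h5))

theorem th_card (Dg : MG p u w N R Q) (hp : p.Prime) (i : Fin N) :
    (thS Dg hp i).card = Nat.card (LinearMap.range (Dg.om (Dg.y i))) := by
  have hpf : Fact p.Prime := ⟨hp⟩
  obtain ⟨C, hC⟩ : ∃ C, C = (thS_ex Dg hp i).choose := ⟨_, rfl⟩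
  obtain ⟨W, hW⟩ : ∃ W, W = LinearMap.range (Dg.om (Dg.y i)) := ⟨_, rfl⟩
  have h1 : (thS Dg hp i).card = Nat.card C := by
    rw [Nat.card_eq_fintype_card, Fintype.card_subtype]
    congr 1
    ext θ
    rw [mem_thS, Finset.mem_filter, hC]
    simp
  rw [h1, ← hW, Module.natCard_eq_pow_finrank (K := ZMod p) (V := C),
    Module.natCard_eq_pow_finrank (K := ZMod p) (V := W)]
  congr 1
  let B : C →ₗ[ZMod p] W →ₗ[ZMod p] ZMod p :=
    LinearMap.mk₂ (ZMod p) (fun θ E => dt (θ : Fin w → ZMod p) (E : Fin w → ZMod p))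
      (fun a b c => dt_add' _ _ _) (fun c a b => dt_smul _ _ _) (fun a b c => dt_add _ _ _)
      (fun c a b => dt_smul' _ _ _)
  have hB : ∀ θ E, B θ E = dt (θ : Fin w → ZMod p) (E : Fin w → ZMod p) := fun _ _ => rfl
  have i1 : Function.Injective B := by
    rw [← LinearMap.ker_eq_bot, LinearMap.ker_eq_bot']
    intro θ hθ
    apply Subtype.ext
    refine th_ann Dg hp i ((mem_thS Dg hp i _).2 (hC ▸ θ.2)) fun x => ?_
    have h2 := LinearMap.congr_fun hθ ⟨Dg.om (Dg.y i) x, by rw [hW]; exact ⟨x, rfl⟩⟩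
    rw [hB] at h2
    exact h2
  have i2 : Function.Injective B.flip := by
    rw [← LinearMap.ker_eq_bot, LinearMap.ker_eq_bot']
    rintro ⟨E, hE⟩ h
    apply Subtype.ext
    rw [hW] at hE
    obtain ⟨x, rfl⟩ := hE
    by_contra h3
    obtain ⟨θ, h4, h5⟩ := th_ne Dg hp i x h3
    rw [mem_thS, ← hC] at h4
    exact h5 (LinearMap.congr_fun h ⟨θ, h4⟩)
  apply le_antisymm
  · have h2 := LinearMap.finrank_le_finrank_of_injective i1
    have h3 : Module.finrank (ZMod p) (W →ₗ[ZMod p] ZMod p) = Module.finrank (ZMod p) W :=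
      Subspace.dual_finrank_eq
    rwa [h3] at h2
  · have h2 := LinearMap.finrank_le_finrank_of_injective i2
    have h3 : Module.finrank (ZMod p) (C →ₗ[ZMod p] ZMod p) = Module.finrank (ZMod p) C :=
      Subspace.dual_finrank_eq
    rwa [h3] at h2

theorem van_symm' (Dg : MG p u w N R Q) (i j : Fin N) (θ : Fin w → ZMod p) (h : Van Dg i j θ) :
    Van Dg j i θ := by
  intro q
  have h1 : Dg.om (Dg.y j) (Dg.act q (Dg.y i)) = -Dg.om (Dg.y i) (Dg.act q⁻¹ (Dg.y j)) := by
    rw [← om_act Dg q⁻¹ (Dg.y j), ← Dg.act_mul, inv_mul_cancel, Dg.act_one]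
    funext k
    rw [Pi.neg_apply, ← Dg.iv_om, ← Dg.iv_om, iv_swap]
  have h2 : -Dg.om (Dg.y i) (Dg.act q⁻¹ (Dg.y j)) = (-1 : ZMod p) • Dg.om (Dg.y i) (Dg.act q⁻¹ (Dg.y j)) := by
    rw [neg_one_smul]
  rw [h1, h2, dt_smul', h q⁻¹, mul_zero]

/-- the combinatorial data of `Dg` -/
def cdg (Dg : MG p u w N R Q) (hp : p.Prime) : H51.MM.CD where
  p := p
  hp := hp
  N := N
  w := w
  van := Van Dg
  van_symm := van_symm' Dg
  van_zero := by
    intro i j q
    unfold dt
    simp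
  van_sub := by
    intro i j θ θ' h h' q
    rw [sub_eq_add_neg, dt_add', h q, zero_add, ← neg_one_smul (ZMod p) θ', dt_smul, h' q, mul_zero]
  Th := thS Dg hp
  Th_zero := fun i => (mem_thS Dg hp i 0).2 (Submodule.zero_mem _)
  Th_sub := fun i θ h θ' h' => (mem_thS Dg hp i _).2
    (Submodule.sub_mem _ ((mem_thS Dg hp i _).1 h) ((mem_thS Dg hp i _).1 h'))

private theorem cl_aux (Dg : MG p u w N R Q) (hp : p.Prime) (i : Fin N) (θ : Fin w → ZMod p)
    (hθ : θ ∈ thS Dg hp i) (h : ∀ j, Van Dg i j θ) : θ = 0 := by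
  let M : Submodule (ZMod p) (Fin u → ZMod p) :=
    { carrier := {x | ∀ q, dt θ (Dg.om (Dg.y i) (Dg.act q x)) = 0}
      add_mem' := by
        intro x y hx hy q
        rw [map_add, map_add, dt_add, hx q, hy q, add_zero]
      zero_mem' := by
        intro q
        rw [map_zero, map_zero, dt_zr]
      smul_mem' := by
        intro c x hx q
        rw [map_smul, map_smul, dt_smul', hx q, mul_zero] }
  have hM : M = ⊤ := Dg.gen M (fun q x hx q' => by
    rw [← Dg.act_mul]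
    exact hx (q' * q)) h
  refine th_ann Dg hp i hθ fun x => ?_
  have h1 : x ∈ M := by
    rw [hM]
    exact Submodule.mem_top
  have h2 := h1 1
  rwa [Dg.act_one] at h2

theorem cl_univ (Dg : MG p u w N R Q) (hp : p.Prime) : (cdg Dg hp).Cl Finset.univ :=
  fun i _ θ hθ h => cl_aux Dg hp i θ hθ fun j => h j (Finset.mem_univ j)

end H1.AR
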