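import Pool.Agent.H1.AR.ParA
import Pool.Agent.H63.MA.GKus

/-!
# [H1 AR CHB] the homomorphism of a phase function on class `i`, 120-180 lines. File Pool/Agent/H1/AR/ChB.lean

Fix `φ` (`IsC`), `i`, `θ₀`, a finite set `σ` of labels and `θ`. `hh X φ i θ₀ σ θ γ = θ₀ . cm (e y_i) (φ γ) + ∑ b ∈ σ, θ b . om y_i (bt b γ)`, a function on `Gal(Ω/K)`.
* `om_act`: `om (act q x) (act q y) = om x y`: `iv_om`, `iv_conj` (H57/BRA/Grp.lean) for the commuting elements `e x`, `e y` and `r` with `π r = q` (`Dg.πs`, `Dg.conj`, `Dg.coc`). `e x`, `e y` commute by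
  `Dg.eadd`.
* `chb_com`: `π r ∈ H i` implies `e y_i * r = r * e y_i` (`Dg.conj`, `Dg.fixy`). `cm_mul`: `cm (e y_i) (r r') = cm (e y_i) r + cm (e y_i) r'` for such `r, r'` (`iv_mul_right` in Grp.lean or
  `iv_swap` and `iv_mul_left`).
* `chb_hom`: on `Gal(Ω/F i)`: `hh (rsK (γ δ)) = hh (rsK γ) + hh (rsK δ)`: `φQ (rsK γ) ∈ H i` (`fld_phi`), `bt b (γ δ) = bt b γ + act (φQ γ) (bt b δ)` (`bt_cy`, `Cy.co`) and
  `om y_i (act q x) = om (act q y_i) (act q x) = om y_i x` for `q ∈ H i`.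
* `chb_lev`: `hh ∘ rsK` is of finite level on `Gal(Ω/F i)`: `φ` is of finite type (`IsL.ft`), `bt b` of finite level (`Cy.lev`); `bca_ft`, and the analogous statement for `Lev` (H57/BRA/Bca.lean).
* `chb_ex`: so `γ ↦ Multiplicative.ofAdd (hh (rsK γ))` is a homomorphism of finite type and `kc_all` (H63/MA/GKus.lean, over `F i`: `fld_clo`, `fld_zeta`) gives `y` with `kk y γ = hh (rsK γ)`.
-/

set_option autoImplicit false
set_option linter.dupNamespace false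

open scoped NumberField Pointwise
open IsDedekindDomain
open scoped Classical

noncomputable section

namespace H1.AR

open H63.MA H38.BB H38.BG H57.PC H57.BRA H89.BRG

variable {p u w N : ℕ} {R Q : Type} [Group R] [Group Q]

private theorem e_comm (Dg : MG p u w N R Q) (x y : Fin u → ZMod p) :
    Dg.e x * Dg.e y = Dg.e y * Dg.e x := by
  rw [← Dg.eadd, ← Dg.eadd, add_comm]

theorem om_act (Dg : MG p u w N R Q) (q : Q) (x y : Fin u → ZMod p) :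
    Dg.om (Dg.act q x) (Dg.act q y) = Dg.om x y := by
  obtain ⟨r, rfl⟩ := Dg.πs q
  funext k
  rw [← Dg.iv_om, ← Dg.iv_om, ← Dg.conj, ← Dg.conj]
  exact iv_conj (Dg.coc k) (e_comm Dg x y) r

theorem chb_com (Dg : MG p u w N R Q) (i : Fin N) {r : R} (hr : Dg.π r ∈ Dg.H i) :
    Dg.e (Dg.y i) * r = r * Dg.e (Dg.y i) := by
  have h1 := Dg.conj r (Dg.y i)
  rw [Dg.fixy i _ hr] at h1
  exact (mul_inv_eq_iff_eq_mul.1 h1).symm

theorem cm_mul (Dg : MG p u w N R Q) (i : Fin N) {r r' : R} (hr : Dg.π r ∈ Dg.H i)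
    (hr' : Dg.π r' ∈ Dg.H i) : Dg.cm (Dg.e (Dg.y i)) (r * r') =
      Dg.cm (Dg.e (Dg.y i)) r + Dg.cm (Dg.e (Dg.y i)) r' := by
  funext k
  exact iv_mul_right (Dg.coc k) (chb_com Dg i hr) (chb_com Dg i hr')

theorem cm_e (Dg : MG p u w N R Q) (x y : Fin u → ZMod p) :
    Dg.cm (Dg.e x) (Dg.e y) = Dg.om x y := by
  funext k
  exact Dg.iv_om k x y

variable [Fintype Q] {Dg : MG p u w N R Q} {K : Type} [Field K] [NumberField K] {Ω : Type}
  [Field Ω] [Algebra K Ω] [IsAlgClosure K Ω] {ζ : K} (X : AD Dg K Ω ζ)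

/-- the homomorphism of a phase function -/
def hh (φ : Gal(Ω/K) →* R) (i : Fin N) (θ₀ : Fin w → ZMod p) (σ : Finset X.Lb)
    (θ : X.Lb → Fin w → ZMod p) (γ : Gal(Ω/K)) : ZMod p :=
  dt θ₀ (Dg.cm (Dg.e (Dg.y i)) (φ γ)) + ∑ b ∈ σ, dt (θ b) (Dg.om (Dg.y i) (X.bt b γ))

private theorem dt_add' {m : ℕ} (θ x y : Fin m → ZMod p) : dt θ (x + y) = dt θ x + dt θ y := by
  unfold dt
  rw [← Finset.sum_add_distrib]
  refine Finset.sum_congr rfl fun k _ => ?_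
  rw [Pi.add_apply, mul_add]

theorem chb_hom (hp : p.Prime) (hζ : IsPrimitiveRoot ζ p) {φ : Gal(Ω/K) →* R} (hφ : X.IsL φ)
    (i : Fin N) (θ₀ : Fin w → ZMod p) (σ : Finset X.Lb) (θ : X.Lb → Fin w → ZMod p)
    (γ δ : Gal(Ω/(X.F i))) : hh X φ i θ₀ σ θ (rsK K (X.F i) Ω (γ * δ)) =
      hh X φ i θ₀ σ θ (rsK K (X.F i) Ω γ) + hh X φ i θ₀ σ θ (rsK K (X.F i) Ω δ) := by
  have hγ := fld_phi X i γ
  have hδ := fld_phi X i δ
  have h1 : Dg.π (φ (rsK K (X.F i) Ω γ)) ∈ Dg.H i := by rw [hφ.pi]; exact hγ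
  have h2 : Dg.π (φ (rsK K (X.F i) Ω δ)) ∈ Dg.H i := by rw [hφ.pi]; exact hδ
  unfold hh
  rw [map_mul, map_mul, cm_mul Dg i h1 h2, dt_add']
  have h3 : ∀ b, dt (θ b) (Dg.om (Dg.y i) (X.bt b (rsK K (X.F i) Ω γ * rsK K (X.F i) Ω δ))) =
      dt (θ b) (Dg.om (Dg.y i) (X.bt b (rsK K (X.F i) Ω γ))) +
        dt (θ b) (Dg.om (Dg.y i) (X.bt b (rsK K (X.F i) Ω δ))) := by
    intro b
    have h4 : Dg.om (Dg.y i) (Dg.act (X.φQ (rsK K (X.F i) Ω γ)) (X.bt b (rsK K (X.F i) Ω δ))) =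
        Dg.om (Dg.y i) (X.bt b (rsK K (X.F i) Ω δ)) := by
      have h5 := om_act Dg (X.φQ (rsK K (X.F i) Ω γ)) (Dg.y i) (X.bt b (rsK K (X.F i) Ω δ))
      rw [Dg.fixy i _ hγ] at h5
      exact h5
    rw [(bt_cy X hp hζ b).co, map_add, dt_add', h4]
  rw [Finset.sum_congr rfl fun b _ => h3 b, Finset.sum_add_distrib]
  ring

section lev

variable {K' : Type} [Field K'] {Ω' : Type} [Field Ω'] [Algebra K' Ω']

private theorem lev_comp {X Y : Type} {f : Gal(Ω'/K') → X} (hf : Lev f) (F : X → Y) :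
    Lev (fun σ => F (f σ)) := by
  obtain ⟨E, hE, h⟩ := hf
  exact ⟨E, hE, fun σ u hu => congrArg F (h σ u hu)⟩

private theorem lev_add {f g : Gal(Ω'/K') → ZMod p} (hf : Lev f) (hg : Lev g) :
    Lev (fun σ => f σ + g σ) := by
  obtain ⟨E, hE, h⟩ := hf
  obtain ⟨E', hE', h'⟩ := hg
  refine ⟨E ⊔ E', IntermediateField.finiteDimensional_sup E E', fun σ u hu => ?_⟩
  have h1 : f (σ * u) = f σ := h σ u (IntermediateField.fixingSubgroup_antitone le_sup_left hu)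
  have h2 : g (σ * u) = g σ := h' σ u (IntermediateField.fixingSubgroup_antitone le_sup_right hu)
  show f (σ * u) + g (σ * u) = f σ + g σ
  rw [h1, h2]

private theorem lev_const {X : Type} (c : X) : Lev (fun _ : Gal(Ω'/K') => c) :=
  ⟨⊥, inferInstance, fun _ _ _ => rfl⟩

private theorem lev_sum {ι : Type} (s : Finset ι) (f : ι → Gal(Ω'/K') → ZMod p)
    (hf : ∀ i ∈ s, Lev (f i)) : Lev (fun σ => ∑ i ∈ s, f i σ) := by
  induction s using Finset.induction_on with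
  | empty =>
    simp only [Finset.sum_empty]
    exact lev_const 0
  | insert a s ha ih =>
    simp only [Finset.sum_insert ha]
    exact lev_add (hf a (Finset.mem_insert_self _ _)) (ih fun i hi => hf i (Finset.mem_insert_of_mem hi))

private theorem lev_ft {G : Type} [Group G] {φ : Gal(Ω'/K') →* G} (hφ : H38.ML.FT φ) :
    Lev (fun σ => φ σ) := by
  obtain ⟨E, hE, h⟩ := hφ
  refine ⟨E, hE, fun σ u hu => ?_⟩
  have h1 : φ u = 1 := h hu
  show φ (σ * u) = φ σ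
  rw [map_mul, h1, mul_one]

private theorem ft_lev {G : Type} [Group G] {φ : Gal(Ω'/K') →* G} (hφ : Lev (fun σ => φ σ)) :
    H38.ML.FT φ := by
  obtain ⟨E, hE, h⟩ := hφ
  refine ⟨E, hE, fun u hu => ?_⟩
  have h1 : φ (1 * u) = φ 1 := h 1 u hu
  rw [one_mul, map_one] at h1
  exact h1

end lev

theorem chb_ex (hp : p.Prime) (hζ : IsPrimitiveRoot ζ p) {φ : Gal(Ω/K) →* R} (hφ : X.IsL φ)
    (i : Fin N) (θ₀ : Fin w → ZMod p) (σ : Finset X.Lb) (θ : X.Lb → Fin w → ZMod p) :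
    ∃ y : (X.F i)ˣ, ∀ γ : Gal(Ω/(X.F i)),
      kk p (algebraMap K (X.F i) ζ) y γ = hh X φ i θ₀ σ θ (rsK K (X.F i) Ω γ) := by
  have hclo : IsAlgClosure (X.F i) Ω := fld_clo X i
  have hlev : Lev (hh X φ i θ₀ σ θ) := by
    unfold hh
    refine lev_add ?_ ?_
    · exact lev_comp (lev_ft hφ.ft) (fun r => dt θ₀ (Dg.cm (Dg.e (Dg.y i)) r))
    · refine lev_sum σ _ fun b _ => ?_
      exact lev_comp (bt_cy X hp hζ b).lev (fun z => dt (θ b) (Dg.om (Dg.y i) z))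
  have hlev2 := bca_lev (K := K) (L := X.F i) (Ω := Ω) hlev
  obtain ⟨χ, hχ⟩ : ∃ χ : Gal(Ω/(X.F i)) →* Multiplicative (ZMod p), ∀ γ,
      χ γ = Multiplicative.ofAdd (hh X φ i θ₀ σ θ (rsK K (X.F i) Ω γ)) := by
    refine ⟨MonoidHom.mk' (fun γ => Multiplicative.ofAdd (hh X φ i θ₀ σ θ (rsK K (X.F i) Ω γ))) ?_, fun γ => rfl⟩
    intro γ δ
    rw [chb_hom X hp hζ hφ i θ₀ σ θ γ δ, ofAdd_add]
  have hft : H38.ML.FT χ := by
    apply ft_lev
    have h1 : (fun γ => χ γ) = fun γ => Multiplicative.ofAdd (hh X φ i θ₀ σ θ (rsK K (X.F i) Ω γ)) :=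
      funext hχ
    rw [h1]
    exact lev_comp hlev2 Multiplicative.ofAdd
  obtain ⟨a, ha⟩ := kc_all (K := X.F i) (Ω := Ω) hp (fld_zeta X hζ i) χ hft
  refine ⟨a, fun γ => ?_⟩
  unfold kk
  rw [← ha, hχ]
  rfl

end H1.AR
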