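import Pool.Agent.H1.AR.Knn
import Pool.Agent.H51.CUB.DUC
import Pool.Agent.H63.MA.NormZ
import Pool.Agent.H63.MA.GHeis

/-!
# [H1 AR DUA] duality: every class function `κ . q` is given by an `S`-unit, 120-180 lines. File Pool/Agent/H1/AR/Dua.lean

`G = {v : v ∉ D.S, nm v prime}`. Work in `V = G →₀ ZMod p` (or `{v // ..} →₀ ZMod p`).
* `T j : V → ZMod p`, `c ↦ ∑ c v * q v j` (`j : Fin D.r`), and for `z ∈ UT D.S`: `l z : V → ZMod p`, `c ↦ ∑ c v * lg p ζ v z` (linear maps, `Finsupp.lsum` or `Finsupp.linearCombination`). `l` is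
  additive in `z` (`lg_mul`, orders `0`), `l (∏ u i ^ a i) = ∑ a i • l (u i)`.
* (1) `⋂ ker (T j) ≤ ker (l z)`: let `∑ c v q v = 0`, `m v = (c v).val` (as `Pl F →₀ ℤ`, `0` outside `G`), `A = m.prod fun v n => D.pi v ^ n` is `PS` by `D.prim_of`. `lam` from `exists_rec_one F hp hp2 hζ`
  (`IsRec`, `lam v = 1` for `v ∈ G`): `∑ᶠ w, lam w * B w A z = 0` (`IsRec.sum`, `A` is `Prim`). `w ∈ D.S`: `0` (`lam w = 0` above `p`, `Spl` otherwise). `w ∉ D.S`: `B w A z = - ord w A * lg w z` (`b_eq` in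
  H63/MA/GHeis.lean with `ord w z = 0`, `lgv = lg`), `ord w A = m w` mod `p` (`D.pi_self`, `D.pi_ne`), `0` if `w ∉ G`. So `∑ v, c v * lg v z = 0`.
* (2) by `mem_span_of_iInf_ker_le_ker` (Mathlib): `l z ∈ W := span (range T)`, `finrank W ≤ D.r` (`finrank_range_le_card`).
* (3) `k, u` from `H51.CUB.duc hp hp2 hζ D.S`: `2 * k = 2 * #S + n`, so `D.r ≤ k` (`D.two_r`). The `l (u i)`, `i < k`, are linearly independent: if `∑ a i • l (u i) = 0`, then `z = ∏ u i ^ (a i).val` has
  `lg v z = 0` for all `v ∈ G`; by `knn` (with `E = D.S`) `z` is a `p`-th power; by `duc` `p ∣ (a i).val`, `a i = 0`. So `k ≤ finrank W ≤ D.r ≤ k`: the `l (u i)` span `W`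
  (`Submodule.eq_of_le_of_finrank_eq`), and `T` is linearly independent (`linearIndependent_of_top_le_span_of_card_eq_finrank` or `linearIndependent_iff_card_eq_finrank_span`).
* `dua`: `∑ j, κ j • T j ∈ W`, so it is `∑ a i • l (u i) = l z`, `z = ∏ u i ^ (a i).val`. If `z` is a `p`-th power `y ^ p`: `ord v y = 0` for `v ∈ G`, `lg v z = p * lg v y = 0`, so `∑ κ j • T j = 0` and
  `κ = 0`. Evaluate at `Finsupp.single v 1`.
-/

set_option autoImplicit false
set_option linter.dupNamespace false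

open scoped NumberField
open IsDedekindDomain
open scoped Classical

noncomputable section

namespace H1.AR

open H63.MA

variable {F : Type} [Field F] [NumberField F] {p : ℕ} {ζ : F}

private theorem dua_ord (D : RM F p ζ) (m : Pl F →₀ ℤ) (hm : ∀ v ∈ D.S, m v = 0) {w : Pl F}
    (hw : w ∉ D.S) : ((ord w (m.prod fun v n => D.pi v ^ n) : ℤ) : ZMod p) = ((m w : ℤ) : ZMod p) := by
  have hmS : ∀ v ∈ m.support, v ∉ D.S := fun v hv h => (Finsupp.mem_support_iff.1 hv) (hm v h)
  rw [Finsupp.prod, ord_prod, Int.cast_sum]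
  have h4 : ∀ v ∈ m.support, v ≠ w → ((ord w (D.pi v ^ m v) : ℤ) : ZMod p) = 0 := by
    intro v hv hvw
    rw [ord_zpow, Int.cast_mul, D.pi_ne v w (hmS v hv) hw (Ne.symm hvw), mul_zero]
  by_cases hwm : w ∈ m.support
  · rw [Finset.sum_eq_single w h4 (fun h => absurd hwm h), ord_zpow, D.pi_self w hw, mul_one]
  · rw [Finset.sum_eq_zero (fun v hv => h4 v hv (fun h => hwm (h ▸ hv)))]
    rw [Finsupp.notMem_support_iff] at hwm
    rw [hwm, Int.cast_zero]

private theorem dua_rec (hp : p.Prime) (hζ : IsPrimitiveRoot ζ p) (D : RM F p ζ)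
    {lam : Pl F → ZMod p} (hlam : IsRec p ζ lam)
    (hone : ∀ v : Pl F, ¬ Above p v → (nm v).Prime → lam v = 1) {z : Fˣ}
    (hz : ∀ v, v ∉ D.S → ord v z = 0) (m : Pl F →₀ ℤ)
    (hm : ∀ v, ¬ (v ∉ D.S ∧ (nm v).Prime) → m v = 0)
    (hq : (m.sum fun v n => (n : ZMod p) • D.q v) = 0) :
    (m.sum fun v n => (n : ZMod p) * lg p ζ v z) = 0 := by
  have hmS : ∀ v ∈ D.S, m v = 0 := fun v hv => hm v fun h => h.1 hv
  have hPS := D.prim_of m hmS hq
  have h0 := hlam.sum _ hPS.1 z
  have hterm : ∀ v, lam v * B p ζ v (m.prod fun v n => D.pi v ^ n) z =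
      -(((m v : ℤ) : ZMod p) * lg p ζ v z) := by
    intro v
    by_cases hv : v ∈ D.S
    · rw [hmS v hv, Int.cast_zero, zero_mul, neg_zero]
      by_cases ha : Above p v
      · rw [hlam.above v ha, zero_mul]
      · rw [hPS.2 v hv ha z, mul_zero]
    · have hva : ¬ Above p v := fun h => hv (D.above v h)
      have hlz : lgv p ζ v (D.pi v) z = lg p ζ v z := by
        unfold lgv
        rw [hz v hv, neg_zero, zpow_zero, mul_one]
      rw [b_eq hp hζ hva (D.pi_self v hv), hz v hv, dua_ord D m hmS hv, hlz, Int.cast_zero, mul_zero,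
        zero_sub]
      by_cases hvp : (nm v).Prime
      · rw [hone v hva hvp, one_mul]
      · rw [hm v fun h => hvp h.2, Int.cast_zero, zero_mul, neg_zero, mul_zero]
  rw [finsum_congr hterm, finsum_eq_sum_of_support_subset (s := m.support) _ (by
    intro v hv
    rw [Function.mem_support] at hv
    rw [Finset.mem_coe]
    by_contra h
    rw [Finsupp.notMem_support_iff] at h
    apply hv
    rw [h, Int.cast_zero, zero_mul, neg_zero]), Finset.sum_neg_distrib, neg_eq_zero] at h0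
  exact h0

private theorem dua_span (hp : p.Prime) (hζ : IsPrimitiveRoot ζ p) (D : RM F p ζ)
    {lam : Pl F → ZMod p} (hlam : IsRec p ζ lam)
    (hone : ∀ v : Pl F, ¬ Above p v → (nm v).Prime → lam v = 1) {z : Fˣ}
    (hz : ∀ v, v ∉ D.S → ord v z = 0) :
    (fun v : {v : Pl F // v ∉ D.S ∧ (nm v).Prime} => lg p ζ v.1 z) ∈
      Submodule.span (ZMod p) (Set.range fun (j : Fin D.r)
        (v : {v : Pl F // v ∉ D.S ∧ (nm v).Prime}) => D.q v.1 j) := by
  obtain ⟨κ, hκ⟩ := rmkC_lin hp (fun v : {v : Pl F // v ∉ D.S ∧ (nm v).Prime} => D.q v.1)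
    (fun v => lg p ζ v.1 z) (by
      intro m hm
      have h1 := dua_rec hp hζ D hlam hone hz (m.mapDomain Subtype.val) (by
        intro v hv
        apply Finsupp.mapDomain_notin_range
        rintro ⟨u, rfl⟩
        exact hv u.2) (by
        rw [Finsupp.sum_mapDomain_index_inj Subtype.val_injective]
        exact hm)
      rw [Finsupp.sum_mapDomain_index_inj Subtype.val_injective] at h1
      exact h1)
  rw [Submodule.mem_span_range_iff_exists_fun]
  refine ⟨κ, funext fun v => ?_⟩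
  rw [hκ v, Finset.sum_apply]
  exact Finset.sum_congr rfl fun i _ => rfl

private theorem dua_lg (hp : p.Prime) (hζ : IsPrimitiveRoot ζ p) {k : ℕ} (u : Fin k → Fˣ)
    (a : Fin k → ZMod p) {v : Pl F} (hv : ¬ Above p v) (hu : ∀ i, ord v (u i) = 0) :
    lg p ζ v (∏ i, u i ^ (a i).val) = ∑ i, a i * lg p ζ v (u i) := by
  haveI : NeZero p := ⟨hp.ne_zero⟩
  have key : ∀ s : Finset (Fin k), ord v (∏ i ∈ s, u i ^ (a i).val) = 0 ∧
      lg p ζ v (∏ i ∈ s, u i ^ (a i).val) = ∑ i ∈ s, a i * lg p ζ v (u i) := by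
    intro s
    induction s using Finset.induction_on with
    | empty => exact ⟨by rw [Finset.prod_empty, ord_one],
        by rw [Finset.prod_empty, Finset.sum_empty, lg_one hp hζ hv]⟩
    | insert i s hi ih =>
      have h1 : ord v (u i ^ (a i).val) = 0 := by rw [ord_pow, hu i, mul_zero]
      have h2 : lg p ζ v (u i ^ (a i).val) = a i * lg p ζ v (u i) := by
        have h3 := lg_zpow hp hζ hv (hu i) ((a i).val : ℤ)
        rw [zpow_natCast, Int.cast_natCast, ZMod.natCast_val, ZMod.cast_id] at h3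
        exact h3
      rw [Finset.prod_insert hi, Finset.sum_insert hi]
      exact ⟨by rw [ord_mul, h1, ih.1, add_zero], by rw [lg_mul hp hζ hv h1 ih.1, h2, ih.2]⟩
  exact (key Finset.univ).2

theorem dua (hp : p.Prime) (hp2 : MOne p F) (hζ : IsPrimitiveRoot ζ p) (D : RM F p ζ)
    (κ : Fin D.r → ZMod p) : ∃ z : Fˣ, (∀ v, v ∉ D.S → ord v z = 0) ∧
      (∀ v, v ∉ D.S → (nm v).Prime → ∑ i, κ i * D.q v i = lg p ζ v z) ∧
      (κ ≠ 0 → ¬ IsPow p z) := by
  haveI : Fact p.Prime := ⟨hp⟩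
  obtain ⟨lam, hlam, hone⟩ := exists_rec_one F hp hp2 hζ
  obtain ⟨k, u, hk, huS, hind⟩ := H51.CUB.duc hp hp2 hζ D.S
  have hu0 : ∀ i v, v ∉ D.S → ord v (u i) = 0 := fun i v hv => huS i v hv
  have hna : ∀ v, v ∉ D.S → ¬ Above p v := fun v hv h => hv (D.above v h)
  have hrk : D.r ≤ k := by
    have := D.two_r
    omega
  obtain ⟨q', hq'⟩ : ∃ q' : Fin D.r → {v : Pl F // v ∉ D.S ∧ (nm v).Prime} → ZMod p,
      q' = fun j v => D.q v.1 j := ⟨_, rfl⟩
  obtain ⟨l, hl⟩ : ∃ l : Fin k → {v : Pl F // v ∉ D.S ∧ (nm v).Prime} → ZMod p,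
      l = fun i v => lg p ζ v.1 (u i) := ⟨_, rfl⟩
  have hzord : ∀ a : Fin k → ZMod p, ∀ v, v ∉ D.S → ord v (∏ i, u i ^ (a i).val) = 0 := by
    intro a v hv
    rw [ord_prod]
    refine Finset.sum_eq_zero fun i _ => ?_
    rw [ord_pow, hu0 i v hv, mul_zero]
  have hlz : ∀ a : Fin k → ZMod p, (∑ i, a i • l i) =
      fun v => lg p ζ v.1 (∏ i, u i ^ (a i).val) := by
    intro a
    funext v
    rw [dua_lg hp hζ u a (hna v.1 v.2.1) (fun i => hu0 i v.1 v.2.1), Finset.sum_apply, hl]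
    exact Finset.sum_congr rfl fun i _ => rfl
  -- independence of the `l i`
  have hli : LinearIndependent (ZMod p) l := by
    rw [Fintype.linearIndependent_iff]
    intro a ha
    rw [hlz a] at ha
    have h1 : IsPow p (∏ i, u i ^ (a i).val) := by
      by_contra hb
      obtain ⟨v, hvS, -, hvp, -, hv0⟩ := knn hp hp2 hζ hb D.S
      exact hv0 (congrFun ha ⟨v, hvS, hvp⟩)
    intro i
    have h2 := hind (fun i => (a i).val) h1 i
    rw [← ZMod.natCast_eq_zero_iff, ZMod.natCast_val, ZMod.cast_id] at h2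
    exact h2
  have hsub : Submodule.span (ZMod p) (Set.range l) ≤ Submodule.span (ZMod p) (Set.range q') := by
    rw [Submodule.span_le]
    rintro _ ⟨i, rfl⟩
    rw [hl, hq']
    exact dua_span hp hζ D hlam hone (hu0 i)
  have hd1 : Module.finrank (ZMod p) (Submodule.span (ZMod p) (Set.range l)) = k := by
    rw [finrank_span_eq_card hli, Fintype.card_fin]
  have hd2 : Module.finrank (ZMod p) (Submodule.span (ZMod p) (Set.range q')) ≤ D.r := by
    have h1 := finrank_range_le_card (R := ZMod p) (b := q')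
    rw [Fintype.card_fin] at h1
    exact h1
  haveI hfd : FiniteDimensional (ZMod p) (Submodule.span (ZMod p) (Set.range q')) :=
    FiniteDimensional.span_of_finite (ZMod p) (Set.finite_range q')
  have heq : Submodule.span (ZMod p) (Set.range l) = Submodule.span (ZMod p) (Set.range q') :=
    Submodule.eq_of_le_of_finrank_le hsub (by omega)
  have hqi : LinearIndependent (ZMod p) q' := by
    rw [linearIndependent_iff_card_eq_finrank_span, Fintype.card_fin, Set.finrank, ← heq, hd1]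
    rw [heq] at hd1
    omega
  have hmem : (∑ j, κ j • q' j) ∈ Submodule.span (ZMod p) (Set.range l) := by
    rw [heq, Submodule.mem_span_range_iff_exists_fun]
    exact ⟨κ, rfl⟩
  rw [Submodule.mem_span_range_iff_exists_fun] at hmem
  obtain ⟨a, ha⟩ := hmem
  rw [hlz a] at ha
  refine ⟨∏ i, u i ^ (a i).val, hzord a, ?_, ?_⟩
  · intro v hv hvp
    have h1 := congrFun ha ⟨v, hv, hvp⟩
    rw [Finset.sum_apply, hq'] at h1
    exact h1.symm
  · intro hκ hpow
    apply hκ
    obtain ⟨y, hy⟩ := hpow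
    have h1 : (∑ j, κ j • q' j) = 0 := by
      rw [← ha]
      funext v
      have hy0 : ord v.1 y = 0 := by
        have h2 : (p : ℤ) * ord v.1 y = 0 := by
          rw [← ord_pow, hy, hzord a v.1 v.2.1]
        rcases mul_eq_zero.1 h2 with h | h
        · exfalso
          exact hp.ne_zero (by exact_mod_cast h)
        · exact h
      have h3 := lg_zpow hp hζ (hna v.1 v.2.1) hy0 (p : ℤ)
      rw [zpow_natCast, hy, Int.cast_natCast, ZMod.natCast_self, zero_mul] at h3
      exact h3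
    exact funext fun j => Fintype.linearIndependent_iff.1 hqi κ h1 j

end H1.AR
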