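import Pool.Agent.H1.AR.Defs
import Pool.Agent.H38.ML.Coset
import Pool.Agent.H38.ML.EmbOrb

/-!
# [H1 AR STB] primes of degree one which are unramified: the decomposition group is in the subgroup, 120-200 lines. File Pool/Agent/H1/AR/Stb.lean

`φ : Gal(Ω/K) →* H` of finite type, `F` between `K` and `Ω` finite with `ker φ ≤ F.fixingSubgroup`, `P` a prime of `𝓞 Ω` over the prime `v` of `K` and over `w` of `F`, `φ = 1` on the inertia group
of `P`, `nm w = nm v`.
* `M := IntermediateField.fixedField φ.ker` (`H38.ML.fixing_fixedField` in H38/ML/Factor.lean: finite over `K` (level of `φ`), `M.fixingSubgroup = ker φ`; `M/K` is Galois: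
  `InfiniteGalois.normal_iff_isGalois`, see `factor` in the same file or `fd_ex` in H48/KV/FldA.lean). `F ≤ M` (`ker φ ≤ F.fixingSubgroup`, Galois correspondence). Let `Q = P.under (𝓞 M)`.
* The inertia group of `Q` in `Gal(M/K)` is trivial: `exists_inertia` (H38/ML/EmbOrb.lean) lifts its elements to the inertia group of `P`, where `φ = 1`, so they are the identity on `M`.
* `|stabilizer Gal(M/K) Q| = f(Q|v)` (`Ideal.card_stabilizer_eq_card_inertia_mul_finrank` or as in H38/ML/Coset.lean, `cs_stab_le`), `|stabilizer Gal(M/F) Q| = f(Q|w)` (`M` as extension of `F`: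
  `IntermediateField.inclusion (F ≤ M)` as algebra structure, or `F' = IntermediateField.restrict (F ≤ M)`; or apply `cs_stab_le`-type statements of Coset.lean with `D` = the subgroup of
  `Gal(M/K)` fixing `F`, `fixedField D` isomorphic to `F`), and `nm w = nm v` gives `f(Q|v) = f(Q|w)` (norms in towers), so every element of the stabilizer of `Q` in `Gal(M/K)` fixes `F`.
* `stb`: `δ ∈ dec P` restricts to the stabilizer of `Q`, so it fixes `F`.
* `stb_ord`: `e(Q|v) = |inertia| = 1` (`Ideal.card_inertia_eq_ramificationIdxIn`), so `e(w|v) = 1` (`Ideal.ramificationIdx_tower`, see H38/AS/QLa.lean lines 150-190; here `nm w = nm v` is not needed),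
  and `ord w (inc x) = e(w|v) * ord v x` (`od_iU` in H38/TD/LocT.lean, `ord_eq_od`).
-/

set_option autoImplicit false

open scoped NumberField Pointwise
open IsDedekindDomain

noncomputable section

namespace H1.AR

open H63.MA H57.BRA H89.BRG

variable {K : Type} [Field K] [NumberField K] {Ω : Type} [Field Ω] [Algebra K Ω] [IsAlgClosure K Ω]

private theorem stb_fd (F : IntermediateField K Ω) [NumberField F] : FiniteDimensional K F :=
  Module.Finite.of_restrictScalars_finite ℚ K F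

private theorem stb_under (F : IntermediateField K Ω) [NumberField F]
    {v : Pl K} {w : Pl F} {P : Ideal (𝓞 Ω)} (hv : P.under (𝓞 K) = v.asIdeal)
    (hw : P.under (𝓞 F) = w.asIdeal) : w.asIdeal.under (𝓞 K) = v.asIdeal := by
  rw [← hw, ← hv]
  exact Ideal.under_under P

/-- residue degree one: every integer of `F` is congruent to an integer of `K` -/
private theorem stb_res (F : IntermediateField K Ω) [NumberField F] {v : Pl K} {w : Pl F}
    (h : w.asIdeal.under (𝓞 K) = v.asIdeal) (hn : nm w = nm v) (x : 𝓞 F) :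
    ∃ a : 𝓞 K, x - algebraMap (𝓞 K) (𝓞 F) a ∈ w.asIdeal := by
  have hle : v.asIdeal ≤ w.asIdeal.comap (algebraMap (𝓞 K) (𝓞 F)) := h.ge
  have hinj : Function.Injective (Ideal.quotientMap w.asIdeal (algebraMap (𝓞 K) (𝓞 F)) hle) :=
    Ideal.quotientMap_injective' h.le
  have hfin : Finite (𝓞 F ⧸ w.asIdeal) := Ideal.finiteQuotientOfFreeOfNeBot _ w.ne_bot
  have hc : Nat.card (𝓞 F ⧸ w.asIdeal) ≤ Nat.card (𝓞 K ⧸ v.asIdeal) := by
    have h1 : nm w = Nat.card (𝓞 F ⧸ w.asIdeal) := by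
      unfold nm
      rw [Ideal.absNorm_apply, Submodule.cardQuot_apply]
    have h2 : nm v = Nat.card (𝓞 K ⧸ v.asIdeal) := by
      unfold nm
      rw [Ideal.absNorm_apply, Submodule.cardQuot_apply]
    rw [← h1, ← h2, hn]
  obtain ⟨y, hy⟩ := (hinj.bijective_of_nat_card_le hc).2 (Ideal.Quotient.mk _ x)
  obtain ⟨a, rfl⟩ := Ideal.Quotient.mk_surjective y
  refine ⟨a, ?_⟩
  rw [Ideal.quotientMap_mk] at hy
  exact (Ideal.Quotient.eq.1 hy.symm)

theorem stb {H : Type} [Group H] [Finite H] (φ : Gal(Ω/K) →* H) (hφ : H38.ML.FT φ)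
    (F : IntermediateField K Ω) [NumberField F] (hF : ∀ σ, φ σ = 1 → σ ∈ F.fixingSubgroup)
    {v : Pl K} {w : Pl F} {P : Ideal (𝓞 Ω)} (hP : P.IsPrime) (hv : P.under (𝓞 K) = v.asIdeal)
    (hw : P.under (𝓞 F) = w.asIdeal) (hI : ∀ τ ∈ P.inertia Gal(Ω/K), φ τ = 1)
    (hn : nm w = nm v) (δ : Gal(Ω/K)) (hδ : δ ∈ dec (K := K) P) : δ ∈ F.fixingSubgroup := by
  have hfd := stb_fd F
  have hun := stb_under F hv hw
  have hδ' : ∀ x : 𝓞 Ω, δ • x ∈ P ↔ x ∈ P := hδ
  have key : ∀ x : 𝓞 F, algebraMap (𝓞 F) (𝓞 Ω) x - δ • algebraMap (𝓞 F) (𝓞 Ω) x ∈ P := by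
    intro x
    obtain ⟨a, ha⟩ := stb_res F hun hn x
    rw [← hw] at ha
    have h1 : algebraMap (𝓞 F) (𝓞 Ω) x - algebraMap (𝓞 K) (𝓞 Ω) a ∈ P := by
      have h2 : algebraMap (𝓞 F) (𝓞 Ω) (x - algebraMap (𝓞 K) (𝓞 F) a) ∈ P := ha
      rw [map_sub, ← IsScalarTower.algebraMap_apply (𝓞 K) (𝓞 F) (𝓞 Ω)] at h2
      exact h2
    have h3 := (hδ' _).2 h1
    have h4 : δ • algebraMap (𝓞 K) (𝓞 Ω) a = algebraMap (𝓞 K) (𝓞 Ω) a := by
      apply NumberField.RingOfIntegers.ext
      exact δ.commutes (a : K)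
    rw [smul_sub, h4] at h3
    have h5 := P.sub_mem h1 h3
    rwa [sub_sub_sub_cancel_right] at h5
  obtain ⟨τ, hτ, hτδ⟩ := H38.ML.exists_inertia F P hP F.val ((δ : Ω →ₐ[K] Ω).comp F.val) (by
    intro x hx
    exact ⟨_, key ⟨x, hx⟩, rfl⟩)
  have h6 := (IntermediateField.mem_fixingSubgroup_iff _ _).1 (hF τ (hI τ hτ))
  rw [IntermediateField.mem_fixingSubgroup_iff]
  intro x hx
  have h7 : τ x = δ x := DFunLike.congr_fun hτδ ⟨x, hx⟩
  rw [← h7]
  exact h6 x hx

/-- the ramification index is one -/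
private theorem stb_ram {H : Type} [Group H] [Finite H] (φ : Gal(Ω/K) →* H)
    (F : IntermediateField K Ω) [NumberField F] (hF : ∀ σ, φ σ = 1 → σ ∈ F.fixingSubgroup)
    {w : Pl F} {P : Ideal (𝓞 Ω)} (hP : P.IsPrime)
    (hw : P.under (𝓞 F) = w.asIdeal) (hI : ∀ τ ∈ P.inertia Gal(Ω/K), φ τ = 1) :
    w.asIdeal.ramificationIdx (𝓞 K) = 1 := by
  classical
  have hfd := stb_fd F
  have hGal : IsGalois K Ω := IsAlgClosure.isGalois K Ω
  obtain ⟨N, hN⟩ : ∃ N : IntermediateField K Ω, N = IntermediateField.normalClosure K F Ω := ⟨_, rfl⟩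
  have hFN : F ≤ N := by
    rw [hN]
    exact IntermediateField.le_normalClosure F
  have hNfd : FiniteDimensional K N := by
    rw [hN]
    infer_instance
  have hNn : Normal K N := by
    rw [hN]
    infer_instance
  have hNG : IsGalois K N := ⟨⟩
  have hNN : NumberField N := NumberField.of_module_finite K N
  letI : Algebra F N := (IntermediateField.inclusion hFN).toRingHom.toAlgebra
  have hT1 : IsScalarTower K F N := IsScalarTower.of_algebraMap_eq fun x => rfl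
  have hT2 : IsScalarTower F N Ω := IsScalarTower.of_algebraMap_eq fun x => rfl
  obtain ⟨Q, hQ⟩ : ∃ Q : Ideal (𝓞 N), Q = P.under (𝓞 N) := ⟨_, rfl⟩
  have hQp : Q.IsPrime := by
    rw [hQ]
    exact Ideal.IsPrime.under (𝓞 N) P
  have hQF : Q.under (𝓞 F) = w.asIdeal := by
    rw [hQ, ← hw]
    exact Ideal.under_under P
  have hQ0 : Q ≠ ⊥ := by
    intro h0
    apply w.ne_bot
    rw [← hQF, h0]
    exact Ideal.under_bot _ _
  have hfix : ∀ g : Gal(N/K), (∀ x : 𝓞 N, g • x - x ∈ Q) → ∀ m : F,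
      g (algebraMap F N m) = algebraMap F N m := by
    intro g hg m
    obtain ⟨τ, hτ, hτg⟩ := H38.ML.exists_inertia N P hP N.val (N.val.comp (g : N →ₐ[K] N)) (by
      intro x hx
      have h1 := hg ⟨x, hx⟩
      rw [hQ] at h1
      have h2 : algebraMap (𝓞 N) (𝓞 Ω) (g • (⟨x, hx⟩ : 𝓞 N) - (⟨x, hx⟩ : 𝓞 N)) ∈ P := h1
      refine ⟨_, P.neg_mem h2, ?_⟩
      show -(((g x : N) : Ω) - (x : Ω)) = (x : Ω) - ((g x : N) : Ω)
      ring)
    have h6 := (IntermediateField.mem_fixingSubgroup_iff _ _).1 (hF τ (hI τ hτ))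
    have h7 : τ (algebraMap F N m : Ω) = (g (algebraMap F N m) : Ω) :=
      DFunLike.congr_fun hτg (algebraMap F N m)
    apply Subtype.ext
    rw [← h7]
    exact h6 m m.2
  have hGF : IsGalois F N := IsGalois.tower_top_of_isGalois K F N
  have hLp : (Q.under (𝓞 K)).IsPrime := Ideal.IsPrime.under (𝓞 K) Q
  have hMp : (Q.under (𝓞 F)).IsPrime := Ideal.IsPrime.under (𝓞 F) Q
  have hL0 : Q.under (𝓞 K) ≠ ⊥ := fun h => hQ0 (Ideal.eq_bot_of_comap_eq_bot h)
  have hM0 : Q.under (𝓞 F) ≠ ⊥ := fun h => hQ0 (Ideal.eq_bot_of_comap_eq_bot h)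
  have : (Q.under (𝓞 K)).IsMaximal := hLp.isMaximal hL0
  have : (Q.under (𝓞 F)).IsMaximal := hMp.isMaximal hM0
  have h1 := Ideal.card_inertia_eq_ramificationIdxIn (G := Gal(N/K)) (Q.under (𝓞 K)) Q
  have h2 := Ideal.card_inertia_eq_ramificationIdxIn (G := Gal(N/F)) (Q.under (𝓞 F)) Q
  rw [Ideal.ramificationIdxIn_eq_ramificationIdx (Q.under (𝓞 K)) Q Gal(N/K)] at h1
  rw [Ideal.ramificationIdxIn_eq_ramificationIdx (Q.under (𝓞 F)) Q Gal(N/F)] at h2
  have h3 : Nat.card (Q.inertia Gal(N/K)) ≤ Nat.card (Q.inertia Gal(N/F)) := by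
    let f : Q.inertia Gal(N/K) → Q.inertia Gal(N/F) := fun g =>
      ⟨AlgEquiv.ofRingEquiv (f := (g.1 : N ≃+* N)) (fun m => hfix g.1 g.2 m), fun x => g.2 x⟩
    refine Nat.card_le_card_of_injective f ?_
    intro g g' hgg
    apply Subtype.ext
    apply AlgEquiv.ext
    intro x
    exact DFunLike.congr_fun (congrArg Subtype.val hgg) x
  have hLM : Q.LiesOver (Q.under (𝓞 F)) := ⟨rfl⟩
  have h4 := Ideal.ramificationIdx_tower (R := 𝓞 K) (Q.under (𝓞 F)) Q
  have h5 : 0 < Q.ramificationIdx (𝓞 F) := Ideal.ramificationIdx_pos Q (𝓞 F)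
  have h6 : 0 < Q.ramificationIdx (𝓞 K) := Ideal.ramificationIdx_pos Q (𝓞 K)
  rw [h1, h2, h4] at h3
  rw [← hQF]
  rw [h4] at h6
  have h8 : 0 < (Q.under (𝓞 F)).ramificationIdx (𝓞 K) := Nat.pos_of_mul_pos_right h6
  nlinarith

theorem stb_ord {H : Type} [Group H] [Finite H] (φ : Gal(Ω/K) →* H) (hφ : H38.ML.FT φ)
    (F : IntermediateField K Ω) [NumberField F] (hF : ∀ σ, φ σ = 1 → σ ∈ F.fixingSubgroup)
    {v : Pl K} {w : Pl F} {P : Ideal (𝓞 Ω)} (hP : P.IsPrime) (hv : P.under (𝓞 K) = v.asIdeal)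
    (hw : P.under (𝓞 F) = w.asIdeal) (hI : ∀ τ ∈ P.inertia Gal(Ω/K), φ τ = 1) (x : Kˣ) :
    ord w (inc K F x) = ord v x := by
  have h1 := stb_ram φ F hF hP hw hI
  have h2 := H38.TD.od_iU_ram w v (stb_under F hv hw) x
  rw [h1, Nat.cast_one, one_mul] at h2
  rw [ord_eq_od, ord_eq_od]
  exact h2

end H1.AR
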