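import Pool.Agent.H1.AR.Ine
import Pool.Agent.H1.AR.Stb

/-!
# [H1 AR LTB] inertia and Frobenius elements of a good label, 150-220 lines. File Pool/Agent/H1/AR/Ltb.lean

`a = (j, w)` good: `w ∉ S_j`, `nm w` prime. `PL a` is the prime of the local data at `w` (`LF.P`).
* `ltb_prime`, `ltb_underF`, `ltb_under`: `LD.prime`, `LD.under`, `bcp_under` with `un_over`. `ltb_na`: `w ∤ p` (`RM.above`), `un a ∤ p` (`above_over`).
* `ltb_t`: `t a ∈ (PL a).inertia Gal(Ω/K)` (`LD.ht`, `bcp_inertia`).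
* `ltb_nm`: `nm w = nm (un a) ^ f`, `f ≥ 1` (`nm_over`), `nm w` prime, so `f = 1`: `nm w = nm (un a)` (`1 < nm (un a)`: `one_lt_nm`).
* `ltb_fb`: `fb a • x - x ^ nm (un a) ∈ PL a` (`IsFr`, first part, `bcp_smul`, `ltb_nm`).
* `ltb_com`: `ρ (fb a)`, `ρ (t a)` commute: `IsFr`, third part, for `ρ.comp rsK` (`bca_ft`), inertia of `Gal(Ω/F)` is mapped into the inertia of `Gal(Ω/K)` (`bcp_inertia`).
* `ltb_coset` (degree one): if `g : Gal(Ω/K)` and `g⁻¹ • PL a` lies over `w`, then `φQ g ∈ H j`. Proof: `PL a` and `g⁻¹ • PL a` both lie over `w`, so (`ltr_conj` over the field `F j`,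
  `fld_clo`) there is `γ = rsK γ'` with `g⁻¹ • PL a = γ • PL a`, i.e. `δ = g γ` is in `dec (PL a)`. `stb` (Stb.lean) for `φ = φQ` (`Finite Q`), `F = F j` (`X.fix`: `φQ σ = 1 ∈ H j`), `ine_phi`, `ltb_nm`: `δ` fixes
  `F j`, so `φQ δ ∈ H j` (`X.fix`), and `φQ γ ∈ H j` (`fld_phi`).
* `ltb_ord`: `stb_ord`. `ltb_pik`: `bca_kk`, `ld_kk_t` (over `F j`), `ltb_ord`.
* `ltb_self`: `φQ (rsK τ) = 1` (`ine_phi`, `bcp_inertia`), so `bt a (rsK τ) = ∑ c, kx ((r c)⁻¹ τ (r c)) • act (φQ (r c)) (y j)`. For `c` let `P'' = (r c)⁻¹ • PL a`, `z = P''.under (𝓞 (F j))` (a prime over `un a`),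
  `(r c)⁻¹ τ (r c) = rsK τ''`, `τ''` in the inertia group of `P''` (`ine_res`), `kx = ord z (pi w) * kk π'' τ''` (`ine_kk`). `z ≠ w`: `ord z (pi w) = 0` in `ZMod p` (`RM.pi_ne`; `z ∉ S_j` by `hS`). `z = w`:
  `φQ (r c) ∈ H j` (`ltb_coset`), so `c = 1`, `r c = 1` (`X.rep_one`), and the term is `kk (pi w) τ • act 1 (y j)`. `ltb_y`: `kk (pi w) t = 1` (`ld_kk_t`; `ord w (pi w) = 1`).
-/

set_option autoImplicit false
set_option linter.dupNamespace false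

open scoped NumberField Pointwise
open IsDedekindDomain
open scoped Classical

noncomputable section

namespace H1.AR

open H63.MA H38.BB H38.BG H57.PC H57.BRA H89.BRG

variable {p u w N : ℕ} {R Q : Type} [Group R] [Group Q] {Dg : MG p u w N R Q}
  {K : Type} [Field K] [NumberField K] {Ω : Type} [Field Ω] [Algebra K Ω] [IsAlgClosure K Ω]
  {ζ : K} (X : AD Dg K Ω ζ)

/-- the chosen prime of a label -/
def PL (a : X.Lb) : Ideal (𝓞 Ω) := (X.A a.1).P a.2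

omit [IsAlgClosure K Ω] in
private theorem ltb_pl {a : X.Lb} (ha : X.Gd a) : PL X a = ((X.A a.1).ld a.2 ha.1).P := by
  unfold PL LF.P
  rw [dif_pos ha.1]

omit [IsAlgClosure K Ω] in
private theorem ltb_tt {a : X.Lb} (ha : X.Gd a) :
    (X.A a.1).t a.2 = ((X.A a.1).ld a.2 ha.1).t := by
  unfold LF.t
  rw [dif_pos ha.1]

omit [NumberField K] [IsAlgClosure K Ω] in
private theorem ltb_gact (g : Gal(Ω/K)) (x : 𝓞 K) :
    g • algebraMap (𝓞 K) (𝓞 Ω) x = algebraMap (𝓞 K) (𝓞 Ω) x := by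
  apply NumberField.RingOfIntegers.ext
  exact g.commutes (x : K)

omit [NumberField K] [IsAlgClosure K Ω] in
private theorem ltb_under_smul (g : Gal(Ω/K)) (P : Ideal (𝓞 Ω)) :
    (g⁻¹ • P).under (𝓞 K) = P.under (𝓞 K) := by
  ext x
  change algebraMap (𝓞 K) (𝓞 Ω) x ∈ g⁻¹ • P ↔ algebraMap (𝓞 K) (𝓞 Ω) x ∈ P
  rw [Ideal.mem_inv_pointwise_smul_iff, ltb_gact]

omit [NumberField K] [IsAlgClosure K Ω] in
private theorem ltb_in_smul {P : Ideal (𝓞 Ω)} {τ : Gal(Ω/K)} (h : τ ∈ P.inertia Gal(Ω/K))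
    (g : Gal(Ω/K)) : g⁻¹ * τ * g ∈ (g⁻¹ • P).inertia Gal(Ω/K) := by
  intro x
  have h1 := h (g • x)
  change (g⁻¹ * τ * g) • x - x ∈ g⁻¹ • P
  rw [Ideal.mem_inv_pointwise_smul_iff, smul_sub, mul_smul, mul_smul, smul_inv_smul]
  exact h1

omit [IsAlgClosure K Ω] in
private theorem ltb_tow (F : IntermediateField K Ω) [NumberField F] (P : Ideal (𝓞 Ω)) (x : 𝓞 K) :
    algebraMap (𝓞 K) (𝓞 F) x ∈ P.under (𝓞 F) ↔ x ∈ P.under (𝓞 K) := by
  change algebraMap (𝓞 F) (𝓞 Ω) (algebraMap (𝓞 K) (𝓞 F) x) ∈ P ↔ algebraMap (𝓞 K) (𝓞 Ω) x ∈ P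
  have h1 : algebraMap (𝓞 K) (𝓞 Ω) x = algebraMap (𝓞 F) (𝓞 Ω) (algebraMap (𝓞 K) (𝓞 F) x) := by
    apply NumberField.RingOfIntegers.ext
    exact IsScalarTower.algebraMap_apply K F Ω (x : K)
  rw [h1]

omit [IsAlgClosure K Ω] in
private theorem ltb_z (F : IntermediateField K Ω) [NumberField F] {v : Pl K} {P : Ideal (𝓞 Ω)}
    (hP : P.IsPrime) (h : P.under (𝓞 K) = v.asIdeal) :
    ∃ z : Pl F, P.under (𝓞 F) = z.asIdeal ∧ Over z v := by
  have hb : P.under (𝓞 F) ≠ ⊥ := by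
    intro h0
    obtain ⟨x, hx, hx0⟩ := Submodule.exists_mem_ne_zero_of_ne_bot v.ne_bot
    have h1 : algebraMap (𝓞 K) (𝓞 F) x ∈ P.under (𝓞 F) := (ltb_tow F P x).2 (by rw [h]; exact hx)
    rw [h0, Ideal.mem_bot] at h1
    exact hx0 (FaithfulSMul.algebraMap_injective (𝓞 K) (𝓞 F) (h1.trans (map_zero _).symm))
  have hpr : (P.under (𝓞 F)).IsPrime := Ideal.IsPrime.under (𝓞 F) P
  refine ⟨⟨P.under (𝓞 F), hpr, hb⟩, rfl, ?_⟩
  unfold Over
  rw [← h]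
  ext x
  exact ltb_tow F P x

theorem ltb_prime {a : X.Lb} (ha : X.Gd a) : (PL X a).IsPrime := by
  rw [ltb_pl X ha]
  exact ((X.A a.1).ld a.2 ha.1).prime

theorem ltb_underF {a : X.Lb} (ha : X.Gd a) : (PL X a).under (𝓞 (X.F a.1)) = a.2.asIdeal := by
  rw [ltb_pl X ha]
  exact ((X.A a.1).ld a.2 ha.1).under

theorem ltb_under {a : X.Lb} (ha : X.Gd a) : (PL X a).under (𝓞 K) = (X.un a).asIdeal :=
  bcp_under (X.un_over a) (ltb_underF X ha)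

theorem ltb_na {a : X.Lb} (ha : X.Gd a) : ¬ Above p a.2 ∧ ¬ Above p (X.un a) := by
  have h : ¬ Above p a.2 := fun h => ha.1 ((X.A a.1).D.above _ h)
  exact ⟨h, fun h' => h ((above_over (X.un_over a) p).2 h')⟩

theorem ltb_t {a : X.Lb} (ha : X.Gd a) : X.t a ∈ (PL X a).inertia Gal(Ω/K) := by
  unfold AD.t
  rw [ltb_tt X ha, ltb_pl X ha]
  exact bcp_inertia ((X.A a.1).ld a.2 ha.1).ht

theorem ltb_nm {a : X.Lb} (ha : X.Gd a) : nm a.2 = nm (X.un a) := by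
  obtain ⟨f, -, h⟩ := nm_over (X.un_over a)
  have h1 := ha.2
  rw [h] at h1
  rw [h, h1.eq_one_of_pow, pow_one]

theorem ltb_fb {a : X.Lb} (ha : X.Gd a) (x : 𝓞 Ω) :
    X.fb a • x - x ^ nm (X.un a) ∈ PL X a := by
  rw [ltb_pl X ha, ← ltb_nm X ha]
  unfold AD.fb
  rw [bcp_smul]
  exact ((X.A a.1).fr a.2 ha.1).1 x

theorem ltb_com {a : X.Lb} (ha : X.Gd a) {H : Type} [Group H] [Finite H]
    (ρ : Gal(Ω/K) →* H) (hρ : H38.ML.FT ρ)
    (h : ∀ τ ∈ (PL X a).inertia Gal(Ω/K), ρ τ ^ (p ^ 2) = 1) :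
    ρ (X.fb a) * ρ (X.t a) = ρ (X.t a) * ρ (X.fb a) := by
  have := fld_clo X a.1
  have h1 := ((X.A a.1).fr a.2 ha.1).2.2 H (ρ.comp (rsK K (X.F a.1) Ω)) (bca_ft hρ)
    (fun τ hτ => h _ (by rw [ltb_pl X ha]; exact bcp_inertia hτ))
  rw [← ltb_tt X ha] at h1
  exact h1

theorem ltb_coset [Finite Q] {a : X.Lb} (ha : X.Gd a) (g : Gal(Ω/K))
    (h : ∀ x : 𝓞 (X.F a.1), algebraMap (𝓞 (X.F a.1)) (𝓞 Ω) x ∈ g⁻¹ • PL X a ↔ x ∈ a.2.asIdeal) :
    X.φQ g ∈ Dg.H a.1 := by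
  have := fld_clo X a.1
  have hP := ltb_prime X ha
  have hP' : (g⁻¹ • PL X a).IsPrime := Ideal.IsPrime.smul g⁻¹
  have hu : (g⁻¹ • PL X a).under (𝓞 (X.F a.1)) = a.2.asIdeal := by
    ext x
    exact h x
  obtain ⟨γ, hγ⟩ := ltr_conj (K := X.F a.1) hP hP' (ltb_underF X ha) hu
  have hd : g * rsK K (X.F a.1) Ω γ ∈ dec (K := K) (PL X a) := by
    intro x
    have h1 := hγ (rsK K (X.F a.1) Ω γ • x)
    rw [Ideal.mem_inv_pointwise_smul_iff, bcp_smul, inv_smul_smul] at h1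
    rw [mul_smul, bcp_smul]
    exact h1
  have h2 := stb X.φQ X.ft (X.F a.1) (fun σ hσ => (X.fix a.1 σ).2 (by rw [hσ]; exact one_mem _)) hP
    (ltb_under X ha) (ltb_underF X ha) (fun τ hτ => ine_phi X (un_not X ha.1) hP (ltb_under X ha) hτ)
    (ltb_nm X ha) _ hd
  have h3 := (X.fix a.1 _).1 h2
  rw [map_mul] at h3
  exact (mul_mem_cancel_right (fld_phi X a.1 γ)).1 h3

theorem ltb_ord [Finite Q] {a : X.Lb} (ha : X.Gd a) (x : Kˣ) :
    ord a.2 (inc K (X.F a.1) x) = ord (X.un a) x :=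
  stb_ord X.φQ X.ft (X.F a.1) (fun σ hσ => (X.fix a.1 σ).2 (by rw [hσ]; exact one_mem _))
    (ltb_prime X ha) (ltb_under X ha) (ltb_underF X ha)
    (fun τ hτ => ine_phi X (un_not X ha.1) (ltb_prime X ha) (ltb_under X ha) hτ) x

theorem ltb_pik [Finite Q] (hp : p.Prime) (hζ : IsPrimitiveRoot ζ p) {a : X.Lb} (ha : X.Gd a) (x : Kˣ) :
    kk p ζ x (X.t a) = ord (X.un a) x := by
  have := fld_clo X a.1
  unfold AD.t
  rw [← bca_kk hp hζ x, ltb_tt X ha, ld_kk_t hp (fld_zeta X hζ a.1) (ltb_na X ha).1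
    ((X.A a.1).D.pi_self a.2 ha.1), ltb_ord X ha]

variable [Fintype Q]

theorem ltb_self (hp : p.Prime) (hζ : IsPrimitiveRoot ζ p) {a : X.Lb} (ha : X.Gd a)
    {τ : Gal(Ω/(X.F a.1))} (hτ : τ ∈ (PL X a).inertia Gal(Ω/(X.F a.1))) :
    X.bt a (rsK K (X.F a.1) Ω τ) =
      kk p (algebraMap K (X.F a.1) ζ) ((X.A a.1).D.pi a.2) τ • Dg.y a.1 := by
  have := fld_clo X a.1
  have hP := ltb_prime X ha
  have hv := un_not X ha.1
  have hin : rsK K (X.F a.1) Ω τ ∈ (PL X a).inertia Gal(Ω/K) := bcp_inertia hτ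
  have hq : X.φQ (rsK K (X.F a.1) Ω τ) = 1 := ine_phi X hv hP (ltb_under X ha) hin
  unfold AD.bt AD.cor
  rw [hq, inv_one]
  rw [Finset.sum_eq_single (QuotientGroup.mk 1 : Q ⧸ Dg.H a.1)]
  · rw [one_smul, X.rep_one, inv_one, one_mul, mul_one, map_one, Dg.act_one, kx_apply]
  · intro c _ hc
    rw [one_smul]
    obtain ⟨r, hr⟩ : ∃ r, r = X.rep a.1 c := ⟨_, rfl⟩
    rw [← hr]
    have hP' : (r⁻¹ • PL X a).IsPrime := Ideal.IsPrime.smul r⁻¹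
    have hu : (r⁻¹ • PL X a).under (𝓞 K) = (X.un a).asIdeal := by
      rw [ltb_under_smul, ltb_under X ha]
    obtain ⟨τ', h1, h2⟩ := ine_res X hv hP' hu (ltb_in_smul hin r) a.1
    obtain ⟨z, hz, hzv⟩ := ltb_z (X.F a.1) hP' hu
    obtain ⟨π, hπ⟩ := exists_unif z
    have hna : ¬ Above p z := fun h => (ltb_na X ha).2 ((above_over hzv p).1 h)
    have hza : z ≠ a.2 := by
      intro h3
      rw [h3] at hz
      have h4 := ltb_coset X ha r fun x => by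
        rw [← hz]
        exact Iff.rfl
      apply hc
      have h5 := X.rep_mk a.1 c
      rw [← hr] at h5
      rw [← h5, QuotientGroup.eq, mul_one]
      exact inv_mem h4
    have hzS : z ∉ (X.A a.1).D.S := by
      intro h3
      obtain ⟨v, h4, h5⟩ := ((X.A a.1).hS z).1 h3
      rw [below_unique h5 hzv] at h4
      exact hv h4
    rw [← h1, kx_apply, ine_kk hp (fld_zeta X hζ a.1) hna hπ hP' hz h2,
      (X.A a.1).D.pi_ne a.2 z ha.1 hzS hza, zero_mul, zero_smul]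
  · intro h
    exact absurd (Finset.mem_univ _) h

theorem ltb_y (hp : p.Prime) (hζ : IsPrimitiveRoot ζ p) {a : X.Lb} (ha : X.Gd a) :
    X.bt a (X.t a) = Dg.y a.1 := by
  have := fld_clo X a.1
  unfold AD.t
  rw [ltb_self X hp hζ ha (by rw [ltb_tt X ha, ltb_pl X ha]; exact ((X.A a.1).ld a.2 ha.1).ht),
    ltb_tt X ha, ld_kk_t hp (fld_zeta X hζ a.1) (ltb_na X ha).1 ((X.A a.1).D.pi_self a.2 ha.1),
    (X.A a.1).D.pi_self a.2 ha.1, Int.cast_one, one_smul]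

end H1.AR
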