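import Pool.Agent.H1.AR.Cor

/-!
# [H1 AR TWS] twists of a homomorphism by a cocycle, 80-140 lines. File Pool/Agent/H1/AR/Tws.lean

* `tws`: `ρ σ = e (b σ) * φ σ` is a homomorphism: `e (b (σ τ)) φ σ φ τ = e (b σ) e (act (φQ σ) (b τ)) φ σ φ τ = e (b σ) (φ σ e (b τ) (φ σ)⁻¹) φ σ φ τ` (`Dg.conj`, `hφ.pi`). Finite type: `b` and `φ` are of
  finite level: for `u` fixing both levels `b u = b 1 = 0` (`Lev b` with `σ = 1`, `cy_one`). `Dg.π (e x) = 1` (`Dg.eker`).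
* `tws_add`: twist by `b`, then by `b'`, is the twist by `b + b'` (`Dg.eadd`). `tws_back`: `e (-b σ) * ρ σ = φ σ`.
* `tws_diff`: two homomorphisms over `φQ` differ by a cocycle: `ρ σ (φ σ)⁻¹ ∈ ker π = e (V)`, `b σ` its coordinates (`Dg.eker`, `Dg.einj`); the cocycle identity from `Dg.conj`, `Dg.einj`;
  finite level: `b (σ u) = b σ` for `u` in the kernels of `ρ` and `φ`.
* `tws_uniq`: clear.
* `ev_tw`: `fb a` is mapped by `φQ` into `H j` (`fld_phi`), which fixes `y j` (`Dg.fixy`), so `φ (fb a)` commutes with `e (y j)` (`Dg.conj`), `e (b ..)` also (`Dg.eadd`); `iv_mul_right` and `Dg.iv_om`: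
  `ev ρ a = om (y j) (b (fb a)) + ev φ a`.
-/

set_option autoImplicit false
set_option linter.dupNamespace false

open scoped NumberField
open IsDedekindDomain
open scoped Classical

noncomputable section

namespace H1.AR

open H63.MA H38.BB H38.BG H57.PC H57.BRA H89.BRG

variable {p u w N : ℕ} {R Q : Type} [Group R] [Group Q] {Dg : MG p u w N R Q}
  {K : Type} [Field K] [NumberField K] {Ω : Type} [Field Ω] [Algebra K Ω] [IsAlgClosure K Ω]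
  {ζ : K} (X : AD Dg K Ω ζ)

private theorem e_zero (Dg : MG p u w N R Q) : Dg.e 0 = 1 := by
  have h := Dg.eadd 0 0
  rw [add_zero] at h
  exact (mul_eq_left.1 h.symm)

private theorem pi_e (Dg : MG p u w N R Q) (x : Fin u → ZMod p) : Dg.π (Dg.e x) = 1 :=
  (Dg.eker _).2 ⟨x, rfl⟩

omit [IsAlgClosure K Ω] in
private theorem cy1 {b : Gal(Ω/K) → Fin u → ZMod p} (hb : X.Cy b) : b 1 = 0 := by
  have h := hb.co 1 1
  rw [mul_one, map_one, Dg.act_one] at h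
  exact (left_eq_add.1 h)

private theorem conj' (Dg : MG p u w N R Q) (r : R) (x : Fin u → ZMod p) :
    r * Dg.e x = Dg.e (Dg.act (Dg.π r) x) * r := by
  rw [← Dg.conj]
  group

omit [IsAlgClosure K Ω] in
private theorem fix_sup {E1 E2 : IntermediateField K Ω} {τ : Gal(Ω/K)}
    (h : τ ∈ (E1 ⊔ E2).fixingSubgroup) : τ ∈ E1.fixingSubgroup ∧ τ ∈ E2.fixingSubgroup :=
  ⟨IntermediateField.fixingSubgroup_antitone le_sup_left h,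
    IntermediateField.fixingSubgroup_antitone le_sup_right h⟩

theorem tws {φ : Gal(Ω/K) →* R} (hφ : X.IsL φ) {b : Gal(Ω/K) → Fin u → ZMod p} (hb : X.Cy b) :
    ∃ ρ : Gal(Ω/K) →* R, Dg.Tw φ b ρ ∧ X.IsL ρ := by
  have hmul : ∀ σ τ : Gal(Ω/K), Dg.e (b (σ * τ)) * φ (σ * τ) =
      (Dg.e (b σ) * φ σ) * (Dg.e (b τ) * φ τ) := by
    intro σ τ
    rw [hb.co, Dg.eadd, map_mul, ← hφ.pi σ]
    have h := conj' Dg (φ σ) (b τ)
    calc Dg.e (b σ) * Dg.e (Dg.act (Dg.π (φ σ)) (b τ)) * (φ σ * φ τ)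
        = Dg.e (b σ) * (Dg.e (Dg.act (Dg.π (φ σ)) (b τ)) * φ σ) * φ τ := by group
      _ = Dg.e (b σ) * (φ σ * Dg.e (b τ)) * φ τ := by rw [h]
      _ = (Dg.e (b σ) * φ σ) * (Dg.e (b τ) * φ τ) := by group
  let ρ : Gal(Ω/K) →* R := MonoidHom.mk' (fun σ => Dg.e (b σ) * φ σ) hmul
  have hρ : ∀ σ, ρ σ = Dg.e (b σ) * φ σ := fun σ => rfl
  refine ⟨ρ, hρ, ⟨?_, fun σ => ?_⟩⟩
  · obtain ⟨E1, hE1, h1⟩ := hb.lev
    obtain ⟨E2, hE2, h2⟩ := hφ.ft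
    refine ⟨E1 ⊔ E2, IntermediateField.finiteDimensional_sup E1 E2, fun τ hτ => ?_⟩
    obtain ⟨ht1, ht2⟩ := fix_sup hτ
    rw [MonoidHom.mem_ker, hρ]
    have h3 := h1 1 τ ht1
    rw [one_mul, cy1 X hb] at h3
    have h4 : φ τ = 1 := h2 ht2
    rw [h3, h4, e_zero, mul_one]
  · rw [hρ, map_mul, pi_e, one_mul, hφ.pi]

theorem tws_uniq {φ ρ ρ' : Gal(Ω/K) →* R} {b : Gal(Ω/K) → Fin u → ZMod p} (h : Dg.Tw φ b ρ)
    (h' : Dg.Tw φ b ρ') : ρ = ρ' := by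
  ext σ
  rw [h σ, h' σ]

theorem tws_isL {φ ρ : Gal(Ω/K) →* R} (hφ : X.IsL φ) {b : Gal(Ω/K) → Fin u → ZMod p}
    (hb : X.Cy b) (h : Dg.Tw φ b ρ) : X.IsL ρ := by
  obtain ⟨ρ', h1, h2⟩ := tws X hφ hb
  have h3 : ρ = ρ' := MonoidHom.ext fun σ => by rw [h σ, h1 σ]
  rw [h3]
  exact h2

theorem tws_back {φ ρ : Gal(Ω/K) →* R} {b : Gal(Ω/K) → Fin u → ZMod p} (h : Dg.Tw φ b ρ) :
    Dg.Tw ρ (fun σ => -b σ) φ := by
  intro σ
  rw [h σ, ← mul_assoc, ← Dg.eadd, neg_add_cancel, e_zero, one_mul]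

theorem tws_add {φ ρ ρ' : Gal(Ω/K) →* R} {b b' : Gal(Ω/K) → Fin u → ZMod p} (h : Dg.Tw φ b ρ)
    (h' : Dg.Tw ρ b' ρ') : Dg.Tw φ (fun σ => b σ + b' σ) ρ' := by
  intro σ
  rw [h' σ, h σ, ← mul_assoc, ← Dg.eadd, add_comm (b' σ)]

theorem tws_diff {φ ρ : Gal(Ω/K) →* R} (hφ : X.IsL φ) (hρ : X.IsL ρ) :
    ∃ b, X.Cy b ∧ Dg.Tw φ b ρ := by
  have hex : ∀ σ, ∃ x, Dg.e x = ρ σ * (φ σ)⁻¹ := fun σ => by
    rw [← Dg.eker, map_mul, map_inv, hφ.pi, hρ.pi, mul_inv_cancel]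
  choose b hb using hex
  have hT : Dg.Tw φ b ρ := fun σ => by rw [hb σ]; group
  refine ⟨b, ⟨?_, fun σ τ => ?_⟩, hT⟩
  · obtain ⟨E1, hE1, h1⟩ := hρ.ft
    obtain ⟨E2, hE2, h2⟩ := hφ.ft
    refine ⟨E1 ⊔ E2, IntermediateField.finiteDimensional_sup E1 E2, fun σ τ hτ => ?_⟩
    obtain ⟨ht1, ht2⟩ := fix_sup hτ
    have h3 : ρ τ = 1 := h1 ht1
    have h4 : φ τ = 1 := h2 ht2
    apply Dg.einj
    rw [hb, hb, map_mul, map_mul, h3, h4, mul_one, mul_one]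
  · apply Dg.einj
    rw [Dg.eadd, ← hφ.pi σ, ← Dg.conj, hb, hb, hb, map_mul, map_mul]
    group

theorem ev_com {φ : Gal(Ω/K) →* R} (hφ : X.IsL φ) (a : X.Lb) :
    Dg.e (Dg.y a.1) * φ (X.fb a) = φ (X.fb a) * Dg.e (Dg.y a.1) := by
  have h1 : X.φQ (X.fb a) ∈ Dg.H a.1 := fld_phi X a.1 ((X.A a.1).Fr a.2)
  rw [conj' Dg (φ (X.fb a)), hφ.pi, Dg.fixy a.1 _ h1]

theorem ev_tw {φ ρ : Gal(Ω/K) →* R} (hφ : X.IsL φ) {b : Gal(Ω/K) → Fin u → ZMod p}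
    (h : Dg.Tw φ b ρ) (a : X.Lb) : X.ev ρ a = Dg.om (Dg.y a.1) (b (X.fb a)) + X.ev φ a := by
  funext k
  show iv (Dg.c k) (Dg.e (Dg.y a.1)) (ρ (X.fb a)) = Dg.om (Dg.y a.1) (b (X.fb a)) k +
    iv (Dg.c k) (Dg.e (Dg.y a.1)) (φ (X.fb a))
  rw [h, iv_mul_right (Dg.coc k) ?_ (ev_com X hφ a), Dg.iv_om]
  rw [← Dg.eadd, ← Dg.eadd, add_comm]

theorem ev_bet [Fintype Q] {φ ρ : Gal(Ω/K) →* R} (hφ : X.IsL φ) {g : Finset X.Lb}
    (h : Dg.Tw φ (X.bet g) ρ) (a : X.Lb) : X.ev ρ a = X.ev φ a + ∑ b ∈ g, X.sy a b := by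
  rw [ev_tw X hφ h, add_comm]
  congr 1
  unfold AD.bet AD.sy
  rw [map_sum]

end H1.AR
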