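import Pool.Agent.H1.AR.ChE
import Pool.Agent.H1.AR.Dua
import Pool.Agent.H1.AR.Tws
import Pool.Agent.H1.AR.Ltb

/-!
# [H1 AR CHC] phase functions on class `i` as Kummer characters, 100-150 lines. File Pool/Agent/H1/AR/ChC.lean

`cf X κ φ θ₀ σ θ i z = κ . q z + θ₀ . (ev φ a + sy a a) + ∑ b ∈ σ, θ b . sy a b`, `a = ⟨i, z⟩` (`X.van θ₀ i i`: `θ₀ . om y_i (act q y_i) = 0` for all `q`).
* `chc_self`: `θ . sy a b = 0` if `θ . om y_a (act q y_b) = 0` for all `q`: `sy a b = om y_a (bt b (fb a))`, `bt b (fb a)` is in every submodule `M` stable under `act` containing `y_b` (`cor_mem`), take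
  `M = {x : θ . om y_a (act q x) = 0 for all q}` (`Dg.act_mul`, linear); `q = 1`, `Dg.act_one`.
* `chc`: `y` from `chb_ex`, `z` from `dua` for `(X.A i).D` (over `F i`: `fld_zeta`, `fld_mone`) and `κ`. For a good label `a = ⟨i, x⟩`: `θ₀ . ev φ a + ∑ θ b . sy a b = hh (fb a)` (definitions of `ev`, `sy`, `fb`,
  `cm`), `= kk y (Fr x) = lgv x (pi x) y` (`chb_fr`), `κ . q x = lg x z = lgv x (pi x) z` (`ord x z = 0`), and `lgv` is additive: `lgv x π (y z) = lgv x π y + lgv x π z` (`lg_mul`, both arguments of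
  order `0`; `¬ Above p x` because `x ∉ S`).
-/

set_option autoImplicit false
set_option linter.dupNamespace false

open scoped NumberField Pointwise
open IsDedekindDomain
open scoped Classical

noncomputable section

namespace H1.AR

open H63.MA H38.BB H38.BG H57.PC H57.BRA H89.BRG

variable {p u w N : ℕ} {R Q : Type} [Group R] [Group Q]

/-- `θ` vanishes on all `om (y i) (act q (y j))` -/
def Van (Dg : MG p u w N R Q) (i j : Fin N) (θ : Fin w → ZMod p) : Prop :=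
  ∀ q, dt θ (Dg.om (Dg.y i) (Dg.act q (Dg.y j))) = 0

variable [Fintype Q] {Dg : MG p u w N R Q} {K : Type} [Field K] [NumberField K] {Ω : Type}
  [Field Ω] [Algebra K Ω] [IsAlgClosure K Ω] {ζ : K} (X : AD Dg K Ω ζ)

/-- the phase function -/
def cf (i : Fin N) (κ : Fin (X.A i).D.r → ZMod p) (φ : Gal(Ω/K) →* R) (θ₀ : Fin w → ZMod p)
    (σ : Finset X.Lb) (θ : X.Lb → Fin w → ZMod p) (z : Pl (X.F i)) : ZMod p :=
  ∑ k, κ k * (X.A i).D.q z k + dt θ₀ (X.ev φ ⟨i, z⟩ + X.sy ⟨i, z⟩ ⟨i, z⟩) +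
    ∑ b ∈ σ, dt (θ b) (X.sy ⟨i, z⟩ b)

private theorem chc_dadd {m : ℕ} (θ x y : Fin m → ZMod p) : dt θ (x + y) = dt θ x + dt θ y := by
  unfold dt
  rw [← Finset.sum_add_distrib]
  exact Finset.sum_congr rfl fun k _ => mul_add _ _ _

private theorem chc_dsmul {m : ℕ} (θ : Fin m → ZMod p) (c : ZMod p) (x : Fin m → ZMod p) :
    dt θ (c • x) = c * dt θ x := by
  unfold dt
  rw [Finset.mul_sum]
  refine Finset.sum_congr rfl fun k _ => ?_
  rw [Pi.smul_apply, smul_eq_mul]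
  ring

private theorem chc_dzero {m : ℕ} (θ : Fin m → ZMod p) : dt θ (0 : Fin m → ZMod p) = 0 := by
  unfold dt
  exact Finset.sum_eq_zero fun k _ => mul_zero _

theorem chc_van (a b : X.Lb) {θ : Fin w → ZMod p} (h : Van Dg a.1 b.1 θ) :
    dt θ (X.sy a b) = 0 := by
  let M : Submodule (ZMod p) (Fin u → ZMod p) :=
    { carrier := {x | ∀ q, dt θ (Dg.om (Dg.y a.1) (Dg.act q x)) = 0}
      add_mem' := by
        intro x y hx hy q
        rw [map_add, map_add, chc_dadd, hx q, hy q, add_zero]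
      zero_mem' := by
        intro q
        rw [map_zero, map_zero, chc_dzero]
      smul_mem' := by
        intro c x hx q
        rw [map_smul, map_smul, chc_dsmul, hx q, mul_zero] }
  have hM : ∀ q, ∀ x ∈ M, Dg.act q x ∈ M := by
    intro q x hx q'
    rw [← Dg.act_mul]
    exact hx (q' * q)
  have hy : Dg.y b.1 ∈ M := h
  have h1 : X.bt b (X.fb a) ∈ M := cor_mem X b.1 _ M hM hy _
  have h2 := h1 1
  rw [Dg.act_one] at h2
  exact h2

theorem chc (hp : p.Prime) (hp2 : MOne p K) (hζ : IsPrimitiveRoot ζ p) {φ : Gal(Ω/K) →* R}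
    (hφ : X.IsC φ) (i : Fin N) (κ : Fin (X.A i).D.r → ZMod p) {θ₀ : Fin w → ZMod p}
    (hθ₀ : Van Dg i i θ₀) (σ : Finset X.Lb) (θ : X.Lb → Fin w → ZMod p) :
    ∃ y z : (X.F i)ˣ, (∀ γ : Gal(Ω/(X.F i)),
        kk p (algebraMap K (X.F i) ζ) y γ = hh X φ i θ₀ σ θ (rsK K (X.F i) Ω γ)) ∧
      (∀ x, x ∉ (X.A i).D.S → ord x z = 0) ∧ (κ ≠ 0 → ¬ IsPow p z) ∧ (κ = 0 → z = 1) ∧
      ∀ x, x ∉ (X.A i).D.S → (nm x).Prime → cf X i κ φ θ₀ σ θ x =
        lgv p (algebraMap K (X.F i) ζ) x ((X.A i).D.pi x) (y * z) := by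
  obtain ⟨y, hy⟩ := chb_ex X hp hζ hφ.toIsL i θ₀ σ θ
  -- the value for a unit `z`
  have key : ∀ z : (X.F i)ˣ, (∀ x, x ∉ (X.A i).D.S → ord x z = 0) →
      (∀ x, x ∉ (X.A i).D.S → (nm x).Prime → ∑ k, κ k * (X.A i).D.q x k = lg p (algebraMap K (X.F i) ζ) x z) →
      ∀ x, x ∉ (X.A i).D.S → (nm x).Prime → cf X i κ φ θ₀ σ θ x =
        lgv p (algebraMap K (X.F i) ζ) x ((X.A i).D.pi x) (y * z) := by
    intro z hz1 hz2 x hx hxp
    have hab : ¬ Above p x := fun h => hx ((X.A i).D.above x h)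
    have hπ := (X.A i).D.pi_self x hx
    have hzx := hz1 x hx
    have e1 : lgv p (algebraMap K (X.F i) ζ) x ((X.A i).D.pi x) (y * z) =
        lgv p (algebraMap K (X.F i) ζ) x ((X.A i).D.pi x) y + lg p (algebraMap K (X.F i) ζ) x z := by
      unfold lgv
      have e2 : ord x (y * ((X.A i).D.pi x) ^ (-ord x y)) = 0 := by
        rw [ord_mul, ord_zpow, hπ]
        ring
      rw [← lg_mul hp (fld_zeta X hζ i) hab e2 hzx, ord_mul, hzx, add_zero]
      congr 1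
      exact mul_right_comm _ _ _
    rw [e1, ← chb_fr X i y hx, hy, ← hz2 x hx hxp]
    have e3 : hh X φ i θ₀ σ θ (rsK K (X.F i) Ω ((X.A i).Fr x)) =
        dt θ₀ (X.ev φ ⟨i, x⟩) + ∑ b ∈ σ, dt (θ b) (X.sy ⟨i, x⟩ b) := rfl
    have e4 : dt θ₀ (X.sy ⟨i, x⟩ ⟨i, x⟩) = 0 := chc_van X ⟨i, x⟩ ⟨i, x⟩ hθ₀
    rw [e3]
    unfold cf
    rw [chc_dadd, e4, add_zero]
    ring
  by_cases hκ : κ = 0
  · refine ⟨y, 1, hy, fun x _ => ord_one x, fun h => absurd hκ h, fun _ => rfl, ?_⟩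
    refine key 1 (fun x _ => ord_one x) fun x hx _ => ?_
    have hab : ¬ Above p x := fun h => hx ((X.A i).D.above x h)
    rw [lg_one hp (fld_zeta X hζ i) hab, hκ]
    exact Finset.sum_eq_zero fun k _ => by rw [Pi.zero_apply, zero_mul]
  · obtain ⟨z, hz1, hz2, hz3⟩ := dua hp (fld_mone X hp2 i) (fld_zeta X hζ i) (X.A i).D κ
    exact ⟨y, z, hy, hz1, hz3, fun h => absurd h hκ, key z hz1 hz2⟩

end H1.AR
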