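import Pool.Agent.H1.AR.ChB

/-!
# [H1 AR CHE] ramification and Frobenius values of the homomorphism of a phase function, 100-150 lines. File Pool/Agent/H1/AR/ChE.lean

* `chb_one`: `φ τ = 1` and `bt b τ = 0` for all `b ∈ σ` give `hh τ = 0` (`iv (c k) x 1 = 0` by `Dg.coc`).
* `chb_ord`: for `w ∉ (X.A i).D.S` not over any `un b`, `b ∈ σ`: let `T = (X.A i).t w` (the inertia generator at `P = (X.A i).P w`; `LF.t`, `LF.P`, `dif_pos`), `rsK T` is in the inertia group of `P` over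
  `K` (`bcp_inertia`), `P` is over the place `v` of `K` under `w`, `v ∉ S0` (`hS`, `below_unique`), `v ≠ un b`. `isc_all`, `ine_bt` and `chb_one`: `hh (rsK T) = 0`. And `kk y T = ord w y` (`ld_kk` and `kk (pi w) T = 1`,
  field of `LD`, see the proof of `ltb_y` / `par_t`), so `ord w y = 0` in `ZMod p`.
* `chb_fr`: `kk y ((X.A i).Fr w) = lgv w (pi w) y` for `w ∉ S` (`LF.fr`, `IsFr`, second component).
-/

set_option autoImplicit false
set_option linter.dupNamespace false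

open scoped NumberField Pointwise
open IsDedekindDomain
open scoped Classical

noncomputable section

namespace H1.AR

open H63.MA H38.BB H38.BG H57.PC H57.BRA H89.BRG

variable {p u w N : ℕ} {R Q : Type} [Group R] [Group Q]

variable [Fintype Q] {Dg : MG p u w N R Q} {K : Type} [Field K] [NumberField K] {Ω : Type}
  [Field Ω] [Algebra K Ω] [IsAlgClosure K Ω] {ζ : K} (X : AD Dg K Ω ζ)

theorem chb_one {φ : Gal(Ω/K) →* R} (i : Fin N) (θ₀ : Fin w → ZMod p) (σ : Finset X.Lb)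
    (θ : X.Lb → Fin w → ZMod p) {τ : Gal(Ω/K)} (h1 : φ τ = 1) (h2 : ∀ b ∈ σ, X.bt b τ = 0) :
    hh X φ i θ₀ σ θ τ = 0 := by
  have h3 : Dg.cm (Dg.e (Dg.y i)) 1 = 0 := by
    funext k
    change iv (Dg.c k) (Dg.e (Dg.y i)) 1 = 0
    rw [iv_swap, iv_one_left (Dg.coc k), neg_zero]
  have h4 : ∀ η : Fin w → ZMod p, dt η 0 = 0 := fun η => by
    unfold dt
    simp
  unfold hh
  rw [h1, h3, h4, zero_add]
  refine Finset.sum_eq_zero fun b hb => ?_
  rw [h2 b hb, map_zero, h4]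

theorem chb_ord (hp : p.Prime) (hζ : IsPrimitiveRoot ζ p) {φ : Gal(Ω/K) →* R} (hφ : X.IsC φ)
    (i : Fin N) (θ₀ : Fin w → ZMod p) (σ : Finset X.Lb) (hσ : ∀ b ∈ σ, X.Gd b)
    (θ : X.Lb → Fin w → ZMod p) {y : (X.F i)ˣ} (hy : ∀ γ : Gal(Ω/(X.F i)),
      kk p (algebraMap K (X.F i) ζ) y γ = hh X φ i θ₀ σ θ (rsK K (X.F i) Ω γ))
    {z : Pl (X.F i)} (hz : z ∉ (X.A i).D.S) (hzb : ∀ b ∈ σ, ¬ Over z (X.un b)) :
    ((ord z y : ℤ) : ZMod p) = 0 := by
  have := fld_clo X i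
  have hna : ¬ Above p z := fun h => hz ((X.A i).D.above z h)
  obtain ⟨v, hzv⟩ := exists_below (K := K) z
  have hv : v ∉ X.D.S0 := fun h => hz (((X.A i).hS z).2 ⟨v, h, hzv⟩)
  have hP := ((X.A i).ld z hz).prime
  have hPv : ((X.A i).ld z hz).P.under (𝓞 K) = v.asIdeal := bcp_under hzv ((X.A i).ld z hz).under
  have hin : rsK K (X.F i) Ω ((X.A i).ld z hz).t ∈ ((X.A i).ld z hz).P.inertia Gal(Ω/K) :=
    bcp_inertia ((X.A i).ld z hz).ht
  have h1 := hy ((X.A i).ld z hz).t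
  rw [ld_kk_t hp (fld_zeta X hζ i) hna ((X.A i).D.pi_self z hz),
    chb_one X i θ₀ σ θ (isc_all X hφ hv hP hPv hin) (fun b hb =>
      ine_bt X hp hζ hv (hσ b hb).1 (fun h => hzb b hb (by rw [h]; exact hzv)) hP hPv hin)] at h1
  exact h1

theorem chb_fr (i : Fin N) (y : (X.F i)ˣ) {z : Pl (X.F i)} (hz : z ∉ (X.A i).D.S) :
    kk p (algebraMap K (X.F i) ζ) y ((X.A i).Fr z) =
      lgv p (algebraMap K (X.F i) ζ) z ((X.A i).D.pi z) y :=
  ((X.A i).fr z hz).2.1 y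

end H1.AR
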