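import Pool.Agent.H1.AR.RMa
import Pool.Agent.H63.MA.RayC

/-!
# [H1 AR CLI] classes of order `p` modulo the classes of the primes in `S`, 120-180 lines. File Pool/Agent/H1/AR/ClI.lean

`cls v` the class of the prime `v`; `AS S` the subgroup generated by the `cls v`, `v ∈ S`.
* `cli_ord`: a nonzero integral ideal `𝔞` and `x : Fˣ`, exponents: for nonzero integral ideals `𝔞, 𝔟` with `mk0 𝔞 = mk0 𝔟` there is `x : Fˣ` with `ord v x = rcm v 𝔞 - rcm v 𝔟` for all `v` (`rcm v I` = the exponent of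
  `v` in `I`, H63/MA/RayC.lean): `ClassGroup.mk0_eq_mk0_iff`: `span {a} * 𝔞 = span {b} * 𝔟`, `x = b / a`; `rcm_mul`, `rcm_ord`.
* `cli_as`: `c ∈ AS S` iff `c = mk0 𝔟₁ * (mk0 𝔟₂)⁻¹` with `𝔟₁, 𝔟₂` products of primes in `S`, so with `rcm v 𝔟ᵢ = 0` for `v ∉ S` (`Subgroup.closure_induction`; `rcm_mul`, `rcm_self`, `rcm_ne`); conversely an ideal `𝔟`
  with `rcm v 𝔟 = 0` for all `v ∉ S` has `mk0 𝔟 ∈ AS S` (`𝔟` is the product of its prime factors, all in `S`: induction on the ideal, `UniqueFactorizationMonoid.induction_on_prime`).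
* `cli`: for `q : C ⧸ AS S` with `q ^ p = 1` choose `c` and an integral ideal `𝔞` with `mk0 𝔞 = c`, `q = mk c`; `c ^ p = mk0 (𝔞 ^ p) ∈ AS S`: `mk0 (𝔞 ^ p * 𝔟₂) = mk0 𝔟₁`, so (`cli_ord`) `x` with
  `ord v x = p * rcm v 𝔞` for `v ∉ S`: `x ∈ VS p S`; `y ∈ T₀` with `IsPow p (x * y⁻¹)`. The map `q ↦ y` is injective: same `y`: `x * x'⁻¹ = b ^ p`, `rcm v 𝔞 - rcm v 𝔞' = ord v b` for `v ∉ S`. Write `b` as a quotient of
  integers `b = b₁ / b₂`: the ideals `𝔞 * span {b₂}` and `𝔞' * span {b₁}` have the same exponents at all `v ∉ S`; so their quotient is a quotient of products of primes in `S`, `c * c'⁻¹ ∈ AS S`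
  (divide both by their common part outside `S`: e.g. `𝔠 = 𝔞 span {b₂}`, `𝔡 = 𝔞' span {b₁}`, `𝔤 = 𝔠 ⊔ 𝔡` (gcd), `𝔠 = 𝔤 𝔠'`, `𝔡 = 𝔤 𝔡'`, `rcm v 𝔠' = rcm v 𝔡' = 0` for `v ∉ S`).
-/

set_option autoImplicit false
set_option linter.dupNamespace false

open scoped NumberField nonZeroDivisors
open IsDedekindDomain
open scoped Classical

noncomputable section

namespace H1.AR

open H63.MA

variable {F : Type} [Field F] [NumberField F]

/-- the class of a prime -/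
def cls (v : Pl F) : ClassGroup (𝓞 F) :=
  ClassGroup.mk0 ⟨v.asIdeal, mem_nonZeroDivisors_iff_ne_zero.2 v.ne_bot⟩

/-- the subgroup of the class group generated by the primes in `S` -/
def AS (S : Finset (Pl F)) : Subgroup (ClassGroup (𝓞 F)) :=
  Subgroup.closure (cls '' (S : Set (Pl F)))

private theorem cli_top (v : Pl F) : rcm v (1 : Ideal (𝓞 F)) = 0 := by
  have h := rcm_mul v (I := (1 : Ideal (𝓞 F))) (J := 1) one_ne_zero one_ne_zero
  rw [one_mul] at h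
  omega

private theorem cli_mem (S : Finset (Pl F)) {v : Pl F} (hv : v ∈ S) :
    (QuotientGroup.mk' (AS S) (cls v)) = 1 := by
  rw [QuotientGroup.mk'_apply, QuotientGroup.eq_one_iff]
  exact Subgroup.subset_closure ⟨v, hv, rfl⟩

private theorem cli_fin (S : Finset (Pl F)) {I : Ideal (𝓞 F)} (hI : I ≠ ⊥) :
    (Function.mulSupport fun v : Pl F => (QuotientGroup.mk' (AS S) (cls v)) ^ rcm v I).Finite := by
  refine (rcm_finite hI).subset fun v hv h0 => hv ?_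
  have h1 : rcm v I = 0 := h0
  change (QuotientGroup.mk' (AS S) (cls v)) ^ rcm v I = 1
  rw [h1, pow_zero]

private theorem cli_prod (S : Finset (Pl F)) (I : Ideal (𝓞 F)) (hI : I ≠ 0) :
    QuotientGroup.mk' (AS S) (ClassGroup.mk0 ⟨I, mem_nonZeroDivisors_iff_ne_zero.2 hI⟩) =
      ∏ᶠ v : Pl F, (QuotientGroup.mk' (AS S) (cls v)) ^ rcm v I := by
  revert hI
  refine UniqueFactorizationMonoid.induction_on_prime
    (P := fun I : Ideal (𝓞 F) => ∀ hI : I ≠ 0,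
      QuotientGroup.mk' (AS S) (ClassGroup.mk0 ⟨I, mem_nonZeroDivisors_iff_ne_zero.2 hI⟩) =
        ∏ᶠ v : Pl F, (QuotientGroup.mk' (AS S) (cls v)) ^ rcm v I) I ?_ ?_ ?_
  · intro h
    exact absurd rfl h
  · intro x hx hx0
    obtain rfl : x = 1 := by
      rw [Ideal.one_eq_top]
      exact Ideal.isUnit_iff.1 hx
    rw [finprod_eq_one_of_forall_eq_one fun v => by rw [cli_top, pow_zero]]
    have h1 : (⟨(1 : Ideal (𝓞 F)), mem_nonZeroDivisors_iff_ne_zero.2 hx0⟩ : (Ideal (𝓞 F))⁰) = 1 := rfl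
    rw [h1, map_one, map_one]
  · intro a q ha hq ih hqa
    have hv : ∃ w : Pl F, w.asIdeal = q := ⟨⟨q, Ideal.isPrime_of_prime hq, hq.ne_zero⟩, rfl⟩
    obtain ⟨w, rfl⟩ := hv
    have h1 : (⟨w.asIdeal * a, mem_nonZeroDivisors_iff_ne_zero.2 hqa⟩ : (Ideal (𝓞 F))⁰) =
        ⟨w.asIdeal, mem_nonZeroDivisors_iff_ne_zero.2 w.ne_bot⟩ *
          ⟨a, mem_nonZeroDivisors_iff_ne_zero.2 ha⟩ := rfl
    rw [h1, map_mul, map_mul, ih ha]
    have h2 : ∀ v : Pl F, (QuotientGroup.mk' (AS S) (cls v)) ^ rcm v (w.asIdeal * a) =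
        (QuotientGroup.mk' (AS S) (cls v)) ^ rcm v w.asIdeal *
          (QuotientGroup.mk' (AS S) (cls v)) ^ rcm v a := fun v => by
      rw [rcm_mul v w.ne_bot ha, pow_add]
    rw [finprod_congr h2, finprod_mul_distrib (cli_fin S w.ne_bot) (cli_fin S ha)]
    congr 1
    rw [finprod_eq_single _ w (fun v hv => by rw [rcm_ne hv, pow_zero]), rcm_self, pow_one]
    rfl

private theorem cli_eq (S : Finset (Pl F)) {I J : Ideal (𝓞 F)} (hI : I ≠ 0) (hJ : J ≠ 0)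
    (h : ∀ v, v ∉ S → rcm v I = rcm v J) :
    QuotientGroup.mk' (AS S) (ClassGroup.mk0 ⟨I, mem_nonZeroDivisors_iff_ne_zero.2 hI⟩) =
      QuotientGroup.mk' (AS S) (ClassGroup.mk0 ⟨J, mem_nonZeroDivisors_iff_ne_zero.2 hJ⟩) := by
  rw [cli_prod S I hI, cli_prod S J hJ]
  refine finprod_congr fun v => ?_
  by_cases hv : v ∈ S
  · rw [cli_mem S hv, one_pow, one_pow]
  · rw [h v hv]

private theorem cli_as {S : Finset (Pl F)} {c : ClassGroup (𝓞 F)} (hc : c ∈ AS S) :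
    ∃ I J : (Ideal (𝓞 F))⁰, c * ClassGroup.mk0 I = ClassGroup.mk0 J ∧
      ∀ v, v ∉ S → rcm v (I : Ideal (𝓞 F)) = 0 ∧ rcm v (J : Ideal (𝓞 F)) = 0 := by
  unfold AS at hc
  induction hc using Subgroup.closure_induction with
  | mem x hx =>
    obtain ⟨w, hw, rfl⟩ := hx
    refine ⟨1, ⟨w.asIdeal, mem_nonZeroDivisors_iff_ne_zero.2 w.ne_bot⟩, by rw [map_one, mul_one]; rfl,
      fun v hv => ⟨cli_top v, rcm_ne ?_⟩⟩
    rintro rfl
    exact hv hw
  | one => exact ⟨1, 1, by rw [map_one, mul_one], fun v _ => ⟨cli_top v, cli_top v⟩⟩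
  | mul x y _ _ ihx ihy =>
    obtain ⟨I, J, h1, h2⟩ := ihx
    obtain ⟨I', J', h1', h2'⟩ := ihy
    refine ⟨I * I', J * J', ?_, fun v hv => ⟨?_, ?_⟩⟩
    · rw [map_mul, map_mul, ← h1, ← h1', mul_mul_mul_comm]
    · change rcm v ((I : Ideal (𝓞 F)) * (I' : Ideal (𝓞 F))) = 0
      rw [rcm_mul v (nonZeroDivisors.coe_ne_zero I) (nonZeroDivisors.coe_ne_zero I'), (h2 v hv).1,
        (h2' v hv).1]
    · change rcm v ((J : Ideal (𝓞 F)) * (J' : Ideal (𝓞 F))) = 0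
      rw [rcm_mul v (nonZeroDivisors.coe_ne_zero J) (nonZeroDivisors.coe_ne_zero J'), (h2 v hv).2,
        (h2' v hv).2]
  | inv x _ ih =>
    obtain ⟨I, J, h1, h2⟩ := ih
    refine ⟨J, I, ?_, fun v hv => ⟨(h2 v hv).2, (h2 v hv).1⟩⟩
    rw [← h1, inv_mul_cancel_left]

private theorem cli_frac (b : Fˣ) : ∃ n d : 𝓞 F, n ≠ 0 ∧ d ≠ 0 ∧
    ∀ v : Pl F, ord v b = rcm v (Ideal.span {n}) - rcm v (Ideal.span {d}) := by
  obtain ⟨n, d, hd, hnd⟩ := IsFractionRing.div_surjective (A := 𝓞 F) (b : F)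
  have hd0 : d ≠ 0 := nonZeroDivisors.ne_zero hd
  have hdF : algebraMap (𝓞 F) F d ≠ 0 := by
    rw [Ne, FaithfulSMul.algebraMap_eq_zero_iff]
    exact hd0
  have hn0 : n ≠ 0 := by
    rintro rfl
    rw [map_zero, zero_div] at hnd
    exact b.ne_zero hnd.symm
  have hnF : algebraMap (𝓞 F) F n ≠ 0 := by
    rw [Ne, FaithfulSMul.algebraMap_eq_zero_iff]
    exact hn0
  refine ⟨n, d, hn0, hd0, fun v => ?_⟩
  have h1 : b = Units.mk0 _ hnF * (Units.mk0 _ hdF)⁻¹ := by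
    apply Units.ext
    rw [Units.val_mul, Units.val_inv_eq_inv_val, Units.val_mk0, Units.val_mk0, ← hnd, div_eq_mul_inv]
  rw [h1, ord_mul, ord_inv, rcm_ord v hn0 (Units.val_mk0 hnF), rcm_ord v hd0 (Units.val_mk0 hdF)]
  ring

private theorem cli_pow (v : Pl F) {I : Ideal (𝓞 F)} (hI : I ≠ ⊥) (n : ℕ) :
    rcm v (I ^ n) = n * rcm v I := by
  induction n with
  | zero => rw [pow_zero, cli_top, zero_mul]
  | succ n ih => rw [pow_succ, rcm_mul v (pow_ne_zero n hI) hI, ih]; ring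

private theorem cli_x {p : ℕ} {S : Finset (Pl F)} (I : (Ideal (𝓞 F))⁰)
    (h : (ClassGroup.mk0 I) ^ p ∈ AS S) :
    ∃ x : Fˣ, ∀ v, v ∉ S → ord v x = (p : ℤ) * rcm v (I : Ideal (𝓞 F)) := by
  obtain ⟨J, J', h1, h2⟩ := cli_as h
  rw [← map_pow, ← map_mul, ClassGroup.mk0_eq_mk0_iff] at h1
  obtain ⟨x, y, hx, hy, h3⟩ := h1
  have hxF : algebraMap (𝓞 F) F x ≠ 0 := by
    rw [Ne, FaithfulSMul.algebraMap_eq_zero_iff]
    exact hx
  have hyF : algebraMap (𝓞 F) F y ≠ 0 := by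
    rw [Ne, FaithfulSMul.algebraMap_eq_zero_iff]
    exact hy
  have hsx : Ideal.span {x} ≠ ⊥ := by rwa [Ne, Ideal.span_singleton_eq_bot]
  have hsy : Ideal.span {y} ≠ ⊥ := by rwa [Ne, Ideal.span_singleton_eq_bot]
  have hI := nonZeroDivisors.coe_ne_zero I
  refine ⟨Units.mk0 _ hyF * (Units.mk0 _ hxF)⁻¹, fun v hv => ?_⟩
  have h4 := congrArg (rcm v) h3
  change rcm v (Ideal.span {x} * ((I : Ideal (𝓞 F)) ^ p * (J : Ideal (𝓞 F)))) = _ at h4
  rw [rcm_mul v hsx (mul_ne_zero (pow_ne_zero p hI) (nonZeroDivisors.coe_ne_zero J)),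
    rcm_mul v (pow_ne_zero p hI) (nonZeroDivisors.coe_ne_zero J),
    rcm_mul v hsy (nonZeroDivisors.coe_ne_zero J'), cli_pow v hI, (h2 v hv).1, (h2 v hv).2, add_zero,
    add_zero] at h4
  rw [ord_mul, ord_inv, rcm_ord v hy (Units.val_mk0 hyF), rcm_ord v hx (Units.val_mk0 hxF), ← h4]
  push_cast
  ring

theorem cli {p : ℕ} (hp : p.Prime) (S : Finset (Pl F)) {m : ℕ} (T₀ : Finset Fˣ)
    (hT₀ : T₀.card ≤ p ^ m) (h : ∀ x ∈ VS p S, ∃ y ∈ T₀, IsPow p (x * y⁻¹)) :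
    Nat.card {c : ClassGroup (𝓞 F) ⧸ AS S // c ^ p = 1} ≤ p ^ m := by
  have hex : ∀ c : {c : ClassGroup (𝓞 F) ⧸ AS S // c ^ p = 1}, ∃ (I : (Ideal (𝓞 F))⁰) (x : Fˣ),
      QuotientGroup.mk' (AS S) (ClassGroup.mk0 I) = c.1 ∧
        ∀ v, v ∉ S → ord v x = (p : ℤ) * rcm v (I : Ideal (𝓞 F)) := by
    rintro ⟨c, hc⟩
    obtain ⟨g, rfl⟩ := QuotientGroup.mk'_surjective (AS S) c
    obtain ⟨I, rfl⟩ := ClassGroup.mk0_surjective g
    rw [← map_pow, QuotientGroup.mk'_apply, QuotientGroup.eq_one_iff] at hc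
    obtain ⟨x, hx⟩ := cli_x I hc
    exact ⟨I, x, rfl, hx⟩
  choose I x hI hx using hex
  have hy : ∀ c, ∃ y ∈ T₀, IsPow p (x c * y⁻¹) := fun c => h (x c) fun v hv => by
    rw [hx c v hv, Int.cast_mul, Int.cast_natCast, ZMod.natCast_self, zero_mul]
  choose y hyT hyp using hy
  have hinj : Function.Injective fun c => (⟨y c, hyT c⟩ : T₀) := by
    intro c c' hcc
    have hyy : y c = y c' := congrArg Subtype.val hcc
    obtain ⟨b1, hb1⟩ := hyp c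
    obtain ⟨b2, hb2⟩ := hyp c'
    obtain ⟨n, d, hn, hd, hnd⟩ := cli_frac (b1 * b2⁻¹)
    have hsn : Ideal.span {n} ≠ ⊥ := by rwa [Ne, Ideal.span_singleton_eq_bot]
    have hsd : Ideal.span {d} ≠ ⊥ := by rwa [Ne, Ideal.span_singleton_eq_bot]
    have hord : ∀ v, v ∉ S → ord v (b1 * b2⁻¹) =
        (rcm v (I c : Ideal (𝓞 F)) : ℤ) - rcm v (I c' : Ideal (𝓞 F)) := by
      intro v hv
      have h1 : (b1 * b2⁻¹) ^ p = x c * (x c')⁻¹ := by
        rw [mul_pow, inv_pow, hb1, hb2, hyy, mul_inv, inv_inv]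
        rw [mul_mul_mul_comm, inv_mul_cancel, mul_one]
      have h2 : (p : ℤ) * ord v (b1 * b2⁻¹) =
          (p : ℤ) * ((rcm v (I c : Ideal (𝓞 F)) : ℤ) - rcm v (I c' : Ideal (𝓞 F))) := by
        rw [← ord_pow, h1, ord_mul, ord_inv, hx c v hv, hx c' v hv]
        ring
      exact mul_left_cancel₀ (by exact_mod_cast hp.ne_zero) h2
    have hI0 := fun c => nonZeroDivisors.coe_ne_zero (I c)
    have h3 := cli_eq S (I := (I c : Ideal (𝓞 F)) * Ideal.span {d})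
      (J := (I c' : Ideal (𝓞 F)) * Ideal.span {n}) (mul_ne_zero (hI0 c) hsd)
      (mul_ne_zero (hI0 c') hsn) (fun v hv => by
        have h4 := hord v hv
        rw [hnd v] at h4
        rw [rcm_mul v (hI0 c) hsd, rcm_mul v (hI0 c') hsn]
        omega)
    have h5 : ∀ (c : {c : ClassGroup (𝓞 F) ⧸ AS S // c ^ p = 1}) (z : 𝓞 F) (hz : Ideal.span {z} ≠ ⊥)
        (hz' : (I c : Ideal (𝓞 F)) * Ideal.span {z} ≠ 0),
        ClassGroup.mk0 (⟨(I c : Ideal (𝓞 F)) * Ideal.span {z},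
          mem_nonZeroDivisors_iff_ne_zero.2 hz'⟩ : (Ideal (𝓞 F))⁰) = ClassGroup.mk0 (I c) := by
      intro c z hz hz'
      have h6 : (⟨(I c : Ideal (𝓞 F)) * Ideal.span {z},
          mem_nonZeroDivisors_iff_ne_zero.2 hz'⟩ : (Ideal (𝓞 F))⁰) =
          I c * ⟨Ideal.span {z}, mem_nonZeroDivisors_iff_ne_zero.2 hz⟩ := rfl
      have h7 : ClassGroup.mk0 (⟨Ideal.span {z}, mem_nonZeroDivisors_iff_ne_zero.2 hz⟩ :
          (Ideal (𝓞 F))⁰) = 1 := by
        rw [ClassGroup.mk0_eq_one_iff]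
        exact ⟨⟨z, rfl⟩⟩
      rw [h6, map_mul, h7, mul_one]
    rw [h5 c d hsd (mul_ne_zero (hI0 c) hsd), h5 c' n hsn (mul_ne_zero (hI0 c') hsn), hI c, hI c'] at h3
    exact Subtype.ext h3
  have h8 := Nat.card_le_card_of_injective _ hinj
  rw [Nat.card_eq_fintype_card (α := T₀), Fintype.card_coe] at h8
  exact h8.trans hT₀

end H1.AR
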