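import Pool.Agent.H1.AR.ChC

/-!
# [H1 AR NTA] nontriviality of the phase functions (1), 80-120 lines. File Pool/Agent/H1/AR/Nta.lean

* `nta`: if `Y = y * z` (from `chc`) is not a `p`-th power, `knn` (over `F i`) with `E = (X.A i).D.S ∪ {places over B}` (finite, `over_finite`) gives `x ∉ E` of prime norm with `ord x Y = 0`,
  `lg x Y ≠ 0`; `cf x = lgv x (pi x) Y = lg x Y ≠ 0` (`ord x Y = 0`), `⟨i, x⟩` is good, `un ⟨i, x⟩ ∉ B` (`un_over`).
* `nt3`: `σ = ∅`, `θ₀ = 0`: `y` is a `p`-th power (all `kk y γ = 0`, `kk_eq_zero_iff`) and `z` not: so `Y` not.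
-/

set_option autoImplicit false
set_option linter.dupNamespace false

open scoped NumberField Pointwise
open IsDedekindDomain
open scoped Classical

noncomputable section

namespace H1.AR

open H63.MA H38.BB H38.BG H57.PC H57.BRA H89.BRG

variable {p u w N : ℕ} {R Q : Type} [Group R] [Group Q]
variable [Fintype Q] {Dg : MG p u w N R Q} {K : Type} [Field K] [NumberField K] {Ω : Type}
  [Field Ω] [Algebra K Ω] [IsAlgClosure K Ω] {ζ : K} (X : AD Dg K Ω ζ)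

/-- strongly nontrivial functions on the labels of class `i` -/
def Ntr (i : Fin N) (f : Pl (X.F i) → ZMod p) : Prop :=
  ∀ B : Finset (Pl K), ∃ x : Pl (X.F i), X.Gd ⟨i, x⟩ ∧ X.un ⟨i, x⟩ ∉ B ∧ f x ≠ 0

theorem nta (hp : p.Prime) (hp2 : MOne p K) (hζ : IsPrimitiveRoot ζ p) (i : Fin N)
    {f : Pl (X.F i) → ZMod p} {Y : (X.F i)ˣ} (hY : ¬ IsPow p Y)
    (hf : ∀ x, x ∉ (X.A i).D.S → (nm x).Prime →
      f x = lgv p (algebraMap K (X.F i) ζ) x ((X.A i).D.pi x) Y) : Ntr X i f := by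
  intro B
  obtain ⟨v, hv, -, hv2, hv3, hv4⟩ := knn hp (fld_mone X hp2 i) (fld_zeta X hζ i) hY
    ((X.A i).D.S ∪ B.biUnion fun b => (over_finite (L := X.F i) b).toFinset)
  rw [Finset.mem_union, not_or] at hv
  refine ⟨v, ⟨hv.1, hv2⟩, fun hB => hv.2 ?_, ?_⟩
  · rw [Finset.mem_biUnion]
    refine ⟨X.un ⟨i, v⟩, hB, ?_⟩
    rw [Set.Finite.mem_toFinset]
    exact X.un_over ⟨i, v⟩
  · rw [hf v hv.1 hv2]
    unfold lgv
    rw [hv3, neg_zero, zpow_zero, mul_one]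
    exact hv4

theorem nt3 (hp : p.Prime) (hp2 : MOne p K) (hζ : IsPrimitiveRoot ζ p) (i : Fin N)
    {κ : Fin (X.A i).D.r → ZMod p} (hκ : κ ≠ 0) :
    Ntr X i fun x => ∑ k, κ k * (X.A i).D.q x k := by
  obtain ⟨z, hz1, hz2, hz3⟩ := dua hp (fld_mone X hp2 i) (fld_zeta X hζ i) (X.A i).D κ
  refine nta X hp hp2 hζ i (hz3 hκ) fun x hx hx2 => ?_
  unfold lgv
  rw [hz1 x hx, neg_zero, zpow_zero, mul_one]
  exact hz2 x hx hx2

end H1.AR
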