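import Pool.Agent.H1.AR.Cdg
import Pool.Agent.H1.AR.Nta

/-!
# [H1 AR FRA] the data of the frame of `X : AD Dg K Ω ζ`, dictionary, 100-150 lines. File Pool/Agent/H1/AR/FrA.lean

`FI` are the standing hypotheses and the sizes. `frm0` is the data. The axioms and `frm` are in Frm.lean.
* `frm_gd`: `a.2 ∈ (X.A a.1).D.S ↔ un a ∈ S0` (`LF.hS`, `un_over`, `below_unique`).
* `frm_k`: `∑ r : R, κ r * qv ⟨i, z⟩ r = ∑ k, κ ⟨i, k⟩ * q z k` (`Fintype.sum_sigma`, only `j = i` contributes).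
* `frm_ch`: `dotProduct` is `dt` by `rfl` (`dt θ x = ∑ k, θ k * x k`); `frm_k`.
* `frm_E`: for `c` with twist `ρ` by `bet g`, `a ∈ g`: `E c g a = ev c a + sy a a + ∑ b ∈ g.erase a, sy a b = ev ρ a` (`ev_bet`, `Finset.add_sum_erase`).
* `frm_tot`: `tot g = tot g'` implies `qt g j = qt g' j` for all `j` (evaluate at `⟨j, k⟩`).
* `frm_tc`: a number field containing a primitive `p`-th root of unity, `MOne p`, is totally complex: private theorem `duc_tc` in H51/CUB/DUC.lean, copy; `fld_zeta`, `fld_mone`.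
* `frm_univ`: `Sp φ univ`: `M` contains all `y j`, so `M = ⊤` by `Dg.gen`.
-/

set_option autoImplicit false
set_option linter.dupNamespace false

open scoped NumberField Pointwise
open IsDedekindDomain NumberField
open scoped Classical

noncomputable section

namespace H1.AR

open H63.MA H38.BB H38.BG H57.PC H57.BRA H89.BRG H36.QA

variable {p u w N : ℕ} {R Q : Type} [Group R] [Group Q]
variable [Fintype Q] {Dg : MG p u w N R Q} {K : Type} [Field K] [NumberField K] {Ω : Type}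
  [Field Ω] [Algebra K Ω] {ζ : K} (X : AD Dg K Ω ζ)

/-- the homomorphisms over `φQ` unramified outside `S`, as a type -/
abbrev Co : Type := {φ : Gal(Ω/K) →* R // X.IsC φ}

/-- standing hypotheses and sizes -/
structure FI [Fintype (Co X)] (d : ℕ) (D qq : ℝ) : Prop where
  hp : p.Prime
  hp2 : MOne p K
  hζ : IsPrimitiveRoot ζ p
  hz : Z2 p K
  one_le_D : 1 ≤ D
  one_le_qq : 1 ≤ qq
  deg : ∀ i, Module.finrank K (X.F i) ≤ d
  dis : ∀ i, dd (X.F i) ≤ D
  mod : ((p ^ (3 * (d * Module.finrank ℚ K)) * (∏ v ∈ X.D.S0, nm v) ^ d : ℕ) : ℝ) ≤ D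
  card_C : (Fintype.card (Co X) : ℝ) ≤ qq
  card_R : (p : ℝ) ^ (∑ j, (X.A j).D.r) ≤ qq
  card_bad : (2 : ℝ) ^ X.D.S0.card ≤ qq

/-- the class vector of a label -/
def qvec (a : X.Lb) : (Σ j : Fin N, Fin (X.A j).D.r) → ZMod p :=
  fun r => if h : a.1 = r.1 then (X.A r.1).D.q (h ▸ a.2) r.2 else 0

variable [Fintype (Co X)] {d : ℕ} {D qq : ℝ}

/-- the data of the frame -/
def frm0 (hp : p.Prime) (d : ℕ) (D qq : ℝ) : H51.MM.Fr0 (cdg Dg hp) K where
  L := fun i => X.F i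
  bad := X.D.S0
  un := X.un
  C := Co X
  R := Σ j : Fin N, Fin (X.A j).D.r
  qv := qvec X
  e := fun c a => X.ev c.1 a + X.sy a a
  s := X.sy
  Sp := fun c J => X.Sp c.1 J
  d := d
  D := D
  qq := qq

theorem frm_gd (hp : p.Prime) (a : X.Lb) : (frm0 X hp d D qq).Gd a ↔ X.Gd a := by
  have h1 : X.un a ∉ X.D.S0 ↔ a.2 ∉ (X.A a.1).D.S := by
    rw [not_iff_not, (X.A a.1).hS a.2]
    constructor
    · intro h
      exact ⟨X.un a, h, X.un_over a⟩
    · rintro ⟨v, hv, h⟩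
      rw [below_unique (X.un_over a) h]
      exact hv
  exact and_congr h1 Iff.rfl

theorem frm_ok (hp : p.Prime) (g : Finset X.Lb) : (frm0 X hp d D qq).Ok g ↔ X.Ok g :=
  and_congr (forall_congr' fun a => imp_congr Iff.rfl (frm_gd X hp a)) Iff.rfl

private theorem frm_k (κ : (Σ j : Fin N, Fin (X.A j).D.r) → ZMod p) (i : Fin N) (z : Pl (X.F i)) :
    ∑ r, κ r * qvec X ⟨i, z⟩ r = ∑ k, κ ⟨i, k⟩ * (X.A i).D.q z k := by
  rw [Fintype.sum_sigma, Finset.sum_eq_single i]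
  · refine Finset.sum_congr rfl fun k _ => ?_
    unfold qvec
    rw [dif_pos rfl]
  · intro j _ hj
    refine Finset.sum_eq_zero fun k _ => ?_
    unfold qvec
    rw [dif_neg (fun h => hj h.symm), mul_zero]
  · intro h
    exact absurd (Finset.mem_univ i) h

theorem frm_ch (hp : p.Prime) (κ : (Σ j : Fin N, Fin (X.A j).D.r) → ZMod p) (c : Co X)
    (θ₀ : Fin w → ZMod p) (σ : Finset X.Lb) (θ : X.Lb → Fin w → ZMod p) (i : Fin N)
    (z : Pl (X.F i)) : (frm0 X hp d D qq).ch κ c θ₀ σ θ ⟨i, z⟩ =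
      cf X i (fun k => κ ⟨i, k⟩) c.1 θ₀ σ θ z := by
  unfold cf
  rw [← frm_k X κ i z]
  rfl

theorem frm_nt (hp : p.Prime) (i : Fin N) (f : X.Lb → ZMod p) :
    (frm0 X hp d D qq).NT i f ↔ Ntr X i fun z => f ⟨i, z⟩ :=
  forall_congr' fun B => exists_congr fun x => and_congr (frm_gd X hp ⟨i, x⟩) Iff.rfl

theorem frm_tot (hp : p.Prime) {g g' : Finset X.Lb}
    (h : (frm0 X hp d D qq).tot g = (frm0 X hp d D qq).tot g') (j : Fin N) :
    X.qt g j = X.qt g' j := by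
  have key : ∀ (g : Finset X.Lb) (k : Fin (X.A j).D.r), X.qt g j k = ∑ a ∈ g, qvec X a ⟨j, k⟩ := by
    intro g k
    unfold AD.qt
    rw [Finset.sum_apply]
    refine Finset.sum_congr rfl fun a _ => ?_
    unfold qvec
    by_cases h1 : a.1 = j
    · rw [dif_pos h1, dif_pos h1]
    · rw [dif_neg h1, dif_neg h1]
      rfl
  funext k
  rw [key, key]
  have h1 : (∑ a ∈ g, qvec X a) = ∑ a ∈ g', qvec X a := h
  have h2 := congrFun h1 ⟨j, k⟩
  rw [Finset.sum_apply, Finset.sum_apply] at h2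
  exact h2

variable [IsAlgClosure K Ω]

theorem frm_E (hp : p.Prime) (c : Co X) {ρ : Gal(Ω/K) →* R} {g : Finset X.Lb}
    (hρ : Dg.Tw c.1 (X.bet g) ρ) {a : X.Lb} (ha : a ∈ g) :
    (frm0 X hp d D qq).E c g a = X.ev ρ a := by
  rw [ev_bet X c.2.toIsL hρ a]
  have h1 : ∑ b ∈ g, X.sy a b = X.sy a a + ∑ b ∈ g.erase a, X.sy a b :=
    (Finset.add_sum_erase g _ ha).symm
  rw [h1, ← add_assoc]
  rfl

private theorem fr_tc {E : Type} [Field E] [NumberField E] {ξ : E} (hp : p.Prime) (hp2 : MOne p E)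
    (hξ : IsPrimitiveRoot ξ p) : NumberField.IsTotallyComplex E := by
  refine ⟨fun w => ?_⟩
  rw [← NumberField.InfinitePlace.not_isReal_iff_isComplex]
  intro hw
  set σ : E →+* ℝ := NumberField.InfinitePlace.embedding_of_isReal hw with hσ
  rcases hp.eq_two_or_odd' with h2 | hodd
  · obtain ⟨i, hi⟩ := hp2
    have h1 : σ i ^ 2 = -1 := by
      rw [← map_pow, ← h2, hi, map_neg, map_one]
    nlinarith [sq_nonneg (σ i)]
  · have h1 : σ ξ ^ p = 1 := by
      rw [← map_pow, hξ.pow_eq_one, map_one]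
    have h2 : σ ξ = 1 := by
      have h3 : σ ξ ^ p = (1 : ℝ) ^ p := by rw [h1, one_pow]
      exact hodd.strictMono_pow.injective h3
    have h3 : ξ = 1 := by
      apply σ.injective
      rw [h2, map_one]
    exact hξ.ne_one hp.one_lt h3

theorem frm_tc (hI : FI X d D qq) (i : Fin N) : IsTotallyComplex (X.F i) :=
  fr_tc hI.hp (fld_mone X hI.hp2 i) (fld_zeta X hI.hζ i)

end H1.AR
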