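import Pool.Agent.H1.AR.Tws
import Pool.Agent.H1.AR.Ltb

/-!
# [H1 AR PARA] the homomorphism of a family: ramification, 80-140 lines. File Pool/Agent/H1/AR/ParA.lean

`φ` unramified outside `S0` (`IsC`), `g` an `Ok` family, `ρ = e (bet g) φ`.
* `isc_all`: `IsC` says `φ = 1` on `inr L v`; for an arbitrary prime `P'` over `v ∉ S0`: `ltr_conj` with `(X.L.ld v hv).P`, conjugation.
* `par_ur`: for `v` not under `g`, `P'` over `v`, `τ` in the inertia group of `P'`: `bet g τ = ∑ b, bt b τ = 0` (`ine_bt`), `φ τ = 1`.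
* `par_t`: `bet g (t a) = bt a (t a) = y` (`ltb_y`; `ine_bt` for `b ≠ a`, `un b ≠ un a`, with `P' = PL a`, `ltb_t`, `ltb_under`), `φ (t a) = 1`.
* `par_pow`: `ρ τ = e (bet g τ)`, `e x ^ p = 1` (`e_pow`: `e (p • x) = e 0 = 1` by `Dg.eadd`, `e 0 = 1`).
* `par_mem`: if `Dg.y a.1 ∈ M` for all `a ∈ g` (`M` stable), then `bet g σ ∈ M` (`cor_mem`).
-/

set_option autoImplicit false
set_option linter.dupNamespace false

open scoped NumberField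
open IsDedekindDomain
open scoped Classical

noncomputable section

namespace H1.AR

open H63.MA H38.BB H38.BG H57.PC H57.BRA H89.BRG

variable {p u w N : ℕ} {R Q : Type} [Group R] [Group Q] {Dg : MG p u w N R Q}
  {K : Type} [Field K] [NumberField K] {Ω : Type} [Field Ω] [Algebra K Ω] [IsAlgClosure K Ω]
  {ζ : K} (X : AD Dg K Ω ζ)

theorem e_zero (Dg : MG p u w N R Q) : Dg.e 0 = 1 := by
  have h := Dg.eadd 0 0
  rw [add_zero] at h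
  exact (mul_eq_left.1 h.symm)

theorem e_pow (Dg : MG p u w N R Q) (x : Fin u → ZMod p) : Dg.e x ^ p = 1 := by
  have key : ∀ n : ℕ, Dg.e x ^ n = Dg.e (n • x) := by
    intro n
    induction n with
    | zero => rw [pow_zero, zero_smul, e_zero]
    | succ n ih => rw [pow_succ, ih, ← Dg.eadd, succ_nsmul]
  rw [key, ← e_zero Dg]
  congr 1
  funext i
  rw [Pi.smul_apply, nsmul_eq_mul, CharP.cast_eq_zero, zero_mul, Pi.zero_apply]

theorem isc_all {φ : Gal(Ω/K) →* R} (hφ : X.IsC φ) {v : Pl K} (hv : v ∉ X.D.S0)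
    {P' : Ideal (𝓞 Ω)} (hP' : P'.IsPrime) (h' : P'.under (𝓞 K) = v.asIdeal) {τ : Gal(Ω/K)}
    (hτ : τ ∈ P'.inertia Gal(Ω/K)) : φ τ = 1 := by
  obtain ⟨g, hg⟩ := ltr_conj (X.L.ld v hv).prime hP' (X.L.ld v hv).under h'
  have h1 : g⁻¹ * τ * g ∈ (X.L.ld v hv).P.inertia Gal(Ω/K) := by
    intro x
    have h2 := (hg _).1 (hτ (g • x))
    rw [smul_sub, inv_smul_smul] at h2
    rw [mul_smul, mul_smul]
    exact h2
  have h2 : g⁻¹ * τ * g ∈ inr X.L v := by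
    unfold inr
    rw [dif_pos hv]
    exact h1
  have h3 := hφ.ur v hv _ h2
  have h4 : φ τ = φ g * φ (g⁻¹ * τ * g) * φ g⁻¹ := by
    rw [← map_mul, ← map_mul]
    congr 1
    group
  rw [h4, h3, mul_one, ← map_mul, mul_inv_cancel, map_one]

variable [Fintype Q]

theorem bet_ur (hp : p.Prime) (hζ : IsPrimitiveRoot ζ p) {g : Finset X.Lb} (hg : X.Ok g)
    {v : Pl K} (hv : v ∉ X.D.S0) (h : ∀ a ∈ g, X.un a ≠ v) {P' : Ideal (𝓞 Ω)} (hP' : P'.IsPrime)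
    (h' : P'.under (𝓞 K) = v.asIdeal) {τ : Gal(Ω/K)} (hτ : τ ∈ P'.inertia Gal(Ω/K)) :
    X.bet g τ = 0 := by
  unfold AD.bet
  exact Finset.sum_eq_zero fun b hb => ine_bt X hp hζ hv (hg.1 b hb).1 (h b hb) hP' h' hτ

theorem bet_t (hp : p.Prime) (hζ : IsPrimitiveRoot ζ p) {g : Finset X.Lb} (hg : X.Ok g)
    {a : X.Lb} (ha : a ∈ g) : X.bet g (X.t a) = Dg.y a.1 := by
  unfold AD.bet
  rw [Finset.sum_eq_single_of_mem a ha, ltb_y X hp hζ (hg.1 a ha)]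
  intro b hb hba
  exact ine_bt X hp hζ (un_not X (hg.1 a ha).1) (hg.1 b hb).1 (hg.2 b hb a ha hba)
    (ltb_prime X (hg.1 a ha)) (ltb_under X (hg.1 a ha)) (ltb_t X (hg.1 a ha))

theorem par_ur (hp : p.Prime) (hζ : IsPrimitiveRoot ζ p) {φ ρ : Gal(Ω/K) →* R} (hφ : X.IsC φ)
    {g : Finset X.Lb} (hg : X.Ok g) (hρ : Dg.Tw φ (X.bet g) ρ) {v : Pl K} (hv : v ∉ X.D.S0)
    (h : ∀ a ∈ g, X.un a ≠ v) {P' : Ideal (𝓞 Ω)} (hP' : P'.IsPrime)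
    (h' : P'.under (𝓞 K) = v.asIdeal) {τ : Gal(Ω/K)} (hτ : τ ∈ P'.inertia Gal(Ω/K)) : ρ τ = 1 := by
  rw [hρ τ, bet_ur X hp hζ hg hv h hP' h' hτ, isc_all X hφ hv hP' h' hτ, e_zero, mul_one]

theorem par_t (hp : p.Prime) (hζ : IsPrimitiveRoot ζ p) {φ ρ : Gal(Ω/K) →* R} (hφ : X.IsC φ)
    {g : Finset X.Lb} (hg : X.Ok g) (hρ : Dg.Tw φ (X.bet g) ρ) {a : X.Lb} (ha : a ∈ g) :
    ρ (X.t a) = Dg.e (Dg.y a.1) := by
  rw [hρ, bet_t X hp hζ hg ha, isc_all X hφ (un_not X (hg.1 a ha).1) (ltb_prime X (hg.1 a ha))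
    (ltb_under X (hg.1 a ha)) (ltb_t X (hg.1 a ha)), mul_one]

theorem par_pow (hp : p.Prime) (hζ : IsPrimitiveRoot ζ p) {φ ρ : Gal(Ω/K) →* R} (hφ : X.IsC φ)
    {g : Finset X.Lb} (hρ : Dg.Tw φ (X.bet g) ρ) {v : Pl K} (hv : v ∉ X.D.S0)
    {P' : Ideal (𝓞 Ω)} (hP' : P'.IsPrime) (h' : P'.under (𝓞 K) = v.asIdeal) {τ : Gal(Ω/K)}
    (hτ : τ ∈ P'.inertia Gal(Ω/K)) : ρ τ ^ p = 1 := by
  rw [hρ, isc_all X hφ hv hP' h' hτ, mul_one, e_pow]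

theorem par_mem (g : Finset X.Lb) (M : Submodule (ZMod p) (Fin u → ZMod p))
    (hM : ∀ q, ∀ y ∈ M, Dg.act q y ∈ M) (hj : ∀ a ∈ g, Dg.y a.1 ∈ M) (σ : Gal(Ω/K)) :
    X.bet g σ ∈ M := by
  unfold AD.bet AD.bt
  exact M.sum_mem fun a ha => cor_mem X a.1 _ M hM (hj a ha) σ

end H1.AR
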