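import Pool.Agent.H1.AR.RkE
import Pool.Agent.H1.AR.Tws
import Pool.Agent.H1.AR.ParA
import Pool.Agent.H1.AR.FrA

/-!
# [H1 AR COC] the number of homomorphisms over `φQ` unramified outside `S`, 120-180 lines. File Pool/Agent/H1/AR/CoC.lean

`ψ = f ∘ φQ : Γ → P0`, `Γ1 = ker ψ` (`= (⊥).comap ψ`), `I = InS S0`.
* `coc_act`: `f q = 1` implies `act q x = x` for all `x`: `M = {x : act q x = x for all q ∈ ker f}` is a submodule stable under `act` (`ker f` is normal: `act q (act q' x) = act q' (act (q'⁻¹ q q') x)`) and contains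
  all `y j` (`hf`, `Dg.fixy`), so `M = ⊤` (`Dg.gen`).
* If `Co X` is empty or has one element nothing is to be proved (`p ≥ 1`). Fix `φ₀ ∈ Co X`. For `φ ∈ Co X` let `b` be the cocycle with `Tw φ₀ b φ` (`tws_diff`), `b τ = 0` for `τ ∈ I` (`isc_all` for both; `Dg.einj`,
  `e 0 = 1`). For `k < u` the function `χ_k σ = b σ k` for `σ ∈ Γ1`, `0` outside, is in `AU p I Γ1` (`coc_act`: additive on `Γ1`; finite level: `b` and `φQ` are of finite level).
* `φ` is determined by the `χ_k` and the values `b (r c)`, `r c` a representative of every element `c` of the range of `ψ`: `σ = r c * γ`, `γ ∈ Γ1`, `b σ = b (r c) + act (φQ (r c)) (b γ)`, and `Tw φ₀ b φ` determines `φ`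
  (`tws_uniq`). So the number of `φ` is at most `(p ^ m) ^ u * (p ^ u) ^ (Nat.card P0)` (injection of `Co X` into `(Fin u → AU p I Γ1) × (P0 → Fin u → ZMod p)`; `Module.card_eq_pow_finrank`).
-/

set_option autoImplicit false
set_option linter.dupNamespace false

open scoped NumberField Pointwise
open IsDedekindDomain
open scoped Classical

noncomputable section

namespace H1.AR

open H63.MA H38.BB H38.BG H57.PC H57.BRA H89.BRG

variable {p u w N : ℕ} {R Q : Type} [Group R] [Group Q]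

theorem coc_act (Dg : MG p u w N R Q) {P0 : Type} [Group P0] (f : Q →* P0)
    (hf : ∀ j, f.ker ≤ Dg.H j) {q : Q} (hq : f q = 1) (x : Fin u → ZMod p) : Dg.act q x = x := by
  obtain ⟨M, hM⟩ : ∃ M : Submodule (ZMod p) (Fin u → ZMod p),
      ∀ x, x ∈ M ↔ ∀ q, f q = 1 → Dg.act q x = x := by
    refine ⟨{ carrier := {x | ∀ q, f q = 1 → Dg.act q x = x}
              add_mem' := ?_
              zero_mem' := ?_
              smul_mem' := ?_ }, fun x => Iff.rfl⟩
    · intro a b ha hb q hq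
      rw [map_add, ha q hq, hb q hq]
    · intro q _
      rw [map_zero]
    · intro c a ha q hq
      rw [map_smul, ha q hq]
  have htop : M = ⊤ := by
    refine Dg.gen M (fun q' x hx => ?_) (fun j => ?_)
    · rw [hM] at hx ⊢
      intro q hq
      rw [← Dg.act_mul]
      have h1 : q * q' = q' * (q'⁻¹ * q * q') := by group
      rw [h1, Dg.act_mul, hx]
      rw [map_mul, map_mul, hq, mul_one, ← map_mul, inv_mul_cancel, map_one]
    · rw [hM]
      intro q hq
      exact Dg.fixy j q (hf j (MonoidHom.mem_ker.2 hq))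
  exact (hM x).1 (by rw [htop]; exact Submodule.mem_top) q hq

theorem coc {Dg : MG p u w N R Q} {K : Type} [Field K] [NumberField K] {Ω : Type} [Field Ω]
    [Algebra K Ω] [IsAlgClosure K Ω] {ζ : K} (X : AD Dg K Ω ζ) (hp : p.Prime) {P0 : Type}
    [Group P0] [Finite P0] (f : Q →* P0) (hf : ∀ j, f.ker ≤ Dg.H j) {m : ℕ}
    (hfin : Module.Finite (ZMod p)
      (AU p (InS (Ω := Ω) X.D.S0) ((⊥ : Subgroup P0).comap (f.comp X.φQ))))
    (hm : Module.finrank (ZMod p)
      (AU p (InS (Ω := Ω) X.D.S0) ((⊥ : Subgroup P0).comap (f.comp X.φQ))) ≤ m) :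
    Finite (Co X) ∧ Nat.card (Co X) ≤ p ^ (u * m + u * Nat.card P0) := by
  have : Fact p.Prime := ⟨hp⟩
  have hne0 : NeZero p := ⟨hp.ne_zero⟩
  obtain ⟨U, hU⟩ : ∃ U : Subgroup Gal(Ω/K), U = (⊥ : Subgroup P0).comap (f.comp X.φQ) := ⟨_, rfl⟩
  have hUm : ∀ σ, σ ∈ U ↔ f (X.φQ σ) = 1 := fun σ => by
    rw [hU, Subgroup.mem_comap, Subgroup.mem_bot, MonoidHom.comp_apply]
  obtain ⟨I, hI⟩ : ∃ I : Set Gal(Ω/K), I = InS (Ω := Ω) X.D.S0 := ⟨_, rfl⟩
  rw [← hU, ← hI] at hfin hm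
  have : Module.Finite (ZMod p) (AU p I U) := hfin
  have hfinA : Finite (AU p I U) := Module.finite_of_finite (ZMod p)
  rcases isEmpty_or_nonempty (Co X) with he | ⟨⟨φ₀, hφ₀⟩⟩
  · exact ⟨inferInstance, by rw [Nat.card_of_isEmpty]; exact Nat.zero_le _⟩
  have hex : ∀ φ : Co X, ∃ b, X.Cy b ∧ Dg.Tw φ₀ b φ.1 := fun φ => tws_diff X hφ₀.toIsL φ.2.toIsL
  choose b hb hT using hex
  have hbI : ∀ φ : Co X, ∀ τ ∈ I, b φ τ = 0 := by
    intro φ τ hτ
    rw [hI] at hτ
    obtain ⟨v, hv, P, hP, hPv, hτP⟩ := hτ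
    have h1 := hT φ τ
    rw [isc_all X φ.2 hv hP hPv hτP, isc_all X hφ₀ hv hP hPv hτP, mul_one] at h1
    apply Dg.einj
    rw [← h1, e_zero]
  have hχ : ∀ (φ : Co X) (k : Fin u),
      (fun σ => if f (X.φQ σ) = 1 then b φ σ k else 0) ∈ AU p I U := by
    intro φ k
    refine ⟨?_, ?_, ?_, ?_⟩
    · obtain ⟨E1, hE1, h1⟩ := (hb φ).lev
      obtain ⟨E2, hE2, h2⟩ := X.ft
      refine ⟨E1 ⊔ E2, IntermediateField.finiteDimensional_sup E1 E2, fun σ τ hτ => ?_⟩
      have h3 := h1 σ τ (IntermediateField.fixingSubgroup_antitone le_sup_left hτ)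
      have h4 : X.φQ τ = 1 := h2 (IntermediateField.fixingSubgroup_antitone le_sup_right hτ)
      show (if f (X.φQ (σ * τ)) = 1 then b φ (σ * τ) k else 0) =
        if f (X.φQ σ) = 1 then b φ σ k else 0
      rw [map_mul, h4, mul_one, h3]
    · intro σ hσ
      exact if_neg fun h => hσ ((hUm σ).2 h)
    · intro σ hσ τ hτ
      have h1 := (hUm σ).1 hσ
      have h2 := (hUm τ).1 hτ
      have h3 := (hUm _).1 (mul_mem hσ hτ)
      show (if f (X.φQ (σ * τ)) = 1 then b φ (σ * τ) k else 0) =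
        (if f (X.φQ σ) = 1 then b φ σ k else 0) + if f (X.φQ τ) = 1 then b φ τ k else 0
      rw [if_pos h1, if_pos h2, if_pos h3, (hb φ).co, coc_act Dg f hf h1]
      rfl
    · intro σ hσ
      show (if f (X.φQ σ) = 1 then b φ σ k else 0) = 0
      rw [hbI φ σ hσ]
      exact ite_self _
  obtain ⟨rp, hrp⟩ : ∃ rp : P0 → Gal(Ω/K), ∀ σ, f (X.φQ (rp (f (X.φQ σ)))) = f (X.φQ σ) := by
    refine ⟨fun c => if h : ∃ σ, f (X.φQ σ) = c then h.choose else 1, fun σ => ?_⟩
    have h : ∃ τ, f (X.φQ τ) = f (X.φQ σ) := ⟨σ, rfl⟩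
    show f (X.φQ (if h : ∃ τ, f (X.φQ τ) = f (X.φQ σ) then h.choose else 1)) = _
    rw [dif_pos h]
    exact h.choose_spec
  obtain ⟨Φ, hΦ⟩ : ∃ Φ : Co X → (Fin u → AU p I U) × (P0 → Fin u → ZMod p),
      Φ = fun φ => (fun k => ⟨_, hχ φ k⟩, fun c => b φ (rp c)) := ⟨_, rfl⟩
  have hinj : Function.Injective Φ := by
    intro φ φ' h
    rw [hΦ] at h
    have h1 : ∀ σ, f (X.φQ σ) = 1 → b φ σ = b φ' σ := by
      intro σ hσ
      funext k
      have h2 := congrFun (congrArg Subtype.val (congrFun (congrArg Prod.fst h) k)) σ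
      have h3 : (if f (X.φQ σ) = 1 then b φ σ k else 0) =
        if f (X.φQ σ) = 1 then b φ' σ k else 0 := h2
      rw [if_pos hσ, if_pos hσ] at h3
      exact h3
    have h2 : ∀ c, b φ (rp c) = b φ' (rp c) := fun c => congrFun (congrArg Prod.snd h) c
    have h3 : b φ = b φ' := by
      funext σ
      have h4 : σ = rp (f (X.φQ σ)) * ((rp (f (X.φQ σ)))⁻¹ * σ) := by group
      rw [h4, (hb φ).co, (hb φ').co, h2, h1]
      rw [map_mul, map_mul, map_inv, map_inv, hrp, inv_mul_cancel]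
    apply Subtype.ext
    have h5 := hT φ
    rw [h3] at h5
    exact tws_uniq h5 (hT φ')
  refine ⟨Finite.of_injective Φ hinj, (Nat.card_le_card_of_injective Φ hinj).trans ?_⟩
  rw [Nat.card_prod, Nat.card_fun, Nat.card_fun, Nat.card_fun, Nat.card_fin, Nat.card_zmod,
    Module.natCard_eq_pow_finrank (K := ZMod p), Nat.card_zmod, pow_add, mul_comm u m, pow_mul, pow_mul]
  exact Nat.mul_le_mul_right _ (Nat.pow_le_pow_left (Nat.pow_le_pow_right hp.pos hm) _)

end H1.AR
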