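import Pool.Agent.H1.AR.Fld

/-!
# [H1 AR COR] the corestriction cocycle, 120-200 lines. File Pool/Agent/H1/AR/Cor.lean

Write `r c = X.rep j c`, `c ∈ Q ⧸ H j`, `Γ` acts on `Q ⧸ H j` through `φQ`; `φQ (r c) H = c` (`X.rep_mk`). For `σ : Γ`, `c`: `(r c)⁻¹ * σ * r (σ⁻¹ • c)` is mapped by `φQ` into `H j` (the class of
`φQ (σ * r (σ⁻¹ c))` is `σ • σ⁻¹ • c = c`; `QuotientGroup.eq`).
* `cor_co`: `(r c)⁻¹ σ τ r ((σ τ)⁻¹ c) = ((r c)⁻¹ σ r (σ⁻¹ c)) ((r (σ⁻¹ c))⁻¹ τ r (τ⁻¹ σ⁻¹ c))`, `kx_mul`. In the second sum substitute `c = σ • d` (`Finset.sum_equiv`, `MulAction.toPerm`):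
  `∑ d, kx ((r d)⁻¹ τ r (τ⁻¹ d)) • act (φQ (r (σ d))) y`, and `φQ (r (σ d))`, `φQ σ φQ (r d)` are in the same coset of `H j`, so `act (φQ (r (σ d))) y = act (φQ σ) (act (φQ (r d)) y)` (`Dg.fixy`,
  `Dg.act_mul`). `map_sum`, `map_smul`.
* `cor_arg`, `cor_pow`: `kx_arg`, `kx_pow`. `cor_lev`: a finite sum of functions `σ ↦ kx ((r c)⁻¹ σ r (σ⁻¹ c)) • const`: for `u` in the kernel of `φQ` and in a normal open subgroup contained in the
  fixing subgroup of the level of `kx` (take a finite Galois extension of `K` containing the levels, e.g. the normal closure; as in `bqa` (H57/BRA/BQa.lean)): `r (u⁻¹ σ⁻¹ c) = r (σ⁻¹ c)` and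
  `(r c)⁻¹ σ u r' = ((r c)⁻¹ σ r') (r'⁻¹ u r')`.
* `cor_mem`: all summands are in `M`.
* `bt_cy`, `bet_cy` (finite sum of cocycles; `cy_add`), `cy_one`: `b 1 = b 1 + b 1`. `cy_inv`: `0 = b (σ σ⁻¹)`. `cy_conj`: expand `b (g τ g⁻¹)`, `φQ τ = 1`.
-/

set_option autoImplicit false
set_option linter.dupNamespace false

open scoped NumberField
open IsDedekindDomain
open scoped Classical

noncomputable section

namespace H1.AR

open H63.MA H38.BB H38.BG H57.PC H57.BRA H89.BRG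

variable {p u w N : ℕ} {R Q : Type} [Group R] [Group Q] [Fintype Q] {Dg : MG p u w N R Q}
  {K : Type} [Field K] [NumberField K] {Ω : Type} [Field Ω] [Algebra K Ω] [IsAlgClosure K Ω]
  {ζ : K} (X : AD Dg K Ω ζ)

private theorem cor_mk (j : Fin N) (g : Q) (c : Q ⧸ Dg.H j) :
    (QuotientGroup.mk (g * X.φQ (X.rep j c)) : Q ⧸ Dg.H j) = g • c := by
  conv_rhs => rw [← X.rep_mk j c]
  rfl

theorem cor_phi (j : Fin N) (σ : Gal(Ω/K)) (c : Q ⧸ Dg.H j) :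
    X.φQ ((X.rep j c)⁻¹ * σ * X.rep j ((X.φQ σ)⁻¹ • c)) ∈ Dg.H j := by
  rw [map_mul, map_mul, map_inv, mul_assoc, ← QuotientGroup.eq, cor_mk, X.rep_mk, smul_inv_smul]

private theorem cor_act (j : Fin N) (g : Q) (d : Q ⧸ Dg.H j) :
    Dg.act (X.φQ (X.rep j (g • d))) (Dg.y j) = Dg.act g (Dg.act (X.φQ (X.rep j d)) (Dg.y j)) := by
  have h1 : (g * X.φQ (X.rep j d))⁻¹ * X.φQ (X.rep j (g • d)) ∈ Dg.H j := by
    rw [← QuotientGroup.eq, cor_mk, X.rep_mk]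
  have h2 : X.φQ (X.rep j (g • d)) =
      g * X.φQ (X.rep j d) * ((g * X.φQ (X.rep j d))⁻¹ * X.φQ (X.rep j (g • d))) := by
    rw [mul_inv_cancel_left]
  rw [h2, Dg.act_mul, Dg.fixy j _ h1, Dg.act_mul]

private theorem cor_split (j : Fin N) (x : (X.F j)ˣ) (σ τ : Gal(Ω/K)) (c : Q ⧸ Dg.H j) :
    X.kx j x ((X.rep j c)⁻¹ * (σ * τ) * X.rep j ((X.φQ (σ * τ))⁻¹ • c)) =
      X.kx j x ((X.rep j c)⁻¹ * σ * X.rep j ((X.φQ σ)⁻¹ • c)) +
        X.kx j x ((X.rep j ((X.φQ σ)⁻¹ • c))⁻¹ * τ *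
          X.rep j ((X.φQ τ)⁻¹ • (X.φQ σ)⁻¹ • c)) := by
  rw [← kx_mul X j x (cor_phi X j σ c) (cor_phi X j τ _)]
  congr 1
  have h1 : (X.φQ (σ * τ))⁻¹ • c = (X.φQ τ)⁻¹ • (X.φQ σ)⁻¹ • c := by
    rw [map_mul, mul_inv_rev, mul_smul]
  rw [h1]
  group

theorem cor_co (j : Fin N) (x : (X.F j)ˣ) (σ τ : Gal(Ω/K)) :
    X.cor j x (σ * τ) = X.cor j x σ + Dg.act (X.φQ σ) (X.cor j x τ) := by
  unfold AD.cor
  simp only [cor_split, add_smul]
  rw [Finset.sum_add_distrib, map_sum]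
  congr 1
  refine Finset.sum_equiv (MulAction.toPerm (X.φQ σ)⁻¹) (fun _ => by simp) fun c _ => ?_
  rw [MulAction.toPerm_apply, map_smul, ← cor_act, smul_inv_smul]

theorem cor_arg (hp : p.Prime) (hζ : IsPrimitiveRoot ζ p) (j : Fin N) (x y : (X.F j)ˣ)
    (σ : Gal(Ω/K)) : X.cor j (x * y) σ = X.cor j x σ + X.cor j y σ := by
  unfold AD.cor
  rw [← Finset.sum_add_distrib]
  exact Finset.sum_congr rfl fun c _ => by rw [kx_arg X hp hζ, add_smul]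

theorem cor_pow (hp : p.Prime) (hζ : IsPrimitiveRoot ζ p) (j : Fin N) (x : (X.F j)ˣ)
    (σ : Gal(Ω/K)) : X.cor j (x ^ p) σ = 0 := by
  unfold AD.cor
  exact Finset.sum_eq_zero fun c _ => by rw [kx_pow X hp hζ, zero_smul]

private theorem cor_inl {E M : IntermediateField K Ω} (h : E ≤ M) {u : Gal(Ω/K)}
    (hu : u ∈ M.fixingSubgroup) : u ∈ E.fixingSubgroup := by
  rw [IntermediateField.mem_fixingSubgroup_iff] at hu ⊢
  exact fun x hx => hu x (h hx)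

theorem cor_lev (hp : p.Prime) (hζ : IsPrimitiveRoot ζ p) (j : Fin N) (x : (X.F j)ˣ) :
    Lev (X.cor j x) := by
  obtain ⟨E1, hE1, h1⟩ := X.ft
  obtain ⟨E2, hE2, h2⟩ := kx_lev X hp hζ j x
  have hf : FiniteDimensional K (E1 ⊔ E2 : IntermediateField K Ω) :=
    IntermediateField.finiteDimensional_sup E1 E2
  obtain ⟨M, hMf, hMn, hM, -⟩ := gtriv_field (E1 ⊔ E2) (fun _ => (0 : Ω)) fun _ _ _ => rfl
  have mc : ∀ s : Gal(Ω/K), ∀ u ∈ M.fixingSubgroup, s⁻¹ * u * s ∈ M.fixingSubgroup := by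
    intro s u hu
    rw [← IntermediateField.restrictNormalHom_ker] at hu ⊢
    have h := (MonoidHom.normal_ker (AlgEquiv.restrictNormalHom (F := K) (K₁ := Ω) M)).conj_mem
      u hu s⁻¹
    rwa [inv_inv] at h
  refine ⟨M, hMf, fun σ u hu => ?_⟩
  have hu1 : X.φQ u = 1 := h1 (cor_inl (le_sup_left.trans hM) hu)
  unfold AD.cor
  refine Finset.sum_congr rfl fun c _ => ?_
  have e1 : X.φQ (σ * u) = X.φQ σ := by rw [map_mul, hu1, mul_one]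
  rw [e1]
  congr 1
  have e2 : (X.rep j c)⁻¹ * (σ * u) * X.rep j ((X.φQ σ)⁻¹ • c) =
      (X.rep j c)⁻¹ * σ * X.rep j ((X.φQ σ)⁻¹ • c) *
        ((X.rep j ((X.φQ σ)⁻¹ • c))⁻¹ * u * X.rep j ((X.φQ σ)⁻¹ • c)) := by
    group
  rw [e2]
  exact h2 _ _ (cor_inl (le_sup_right.trans hM) (mc _ u hu))

theorem cor_mem (j : Fin N) (x : (X.F j)ˣ) (M : Submodule (ZMod p) (Fin u → ZMod p))
    (hM : ∀ q, ∀ y ∈ M, Dg.act q y ∈ M) (hj : Dg.y j ∈ M) (σ : Gal(Ω/K)) : X.cor j x σ ∈ M := by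
  unfold AD.cor
  exact Submodule.sum_mem _ fun c _ => M.smul_mem _ (hM _ _ hj)

theorem cy_add {b b' : Gal(Ω/K) → Fin u → ZMod p} (hb : X.Cy b) (hb' : X.Cy b') :
    X.Cy (fun σ => b σ + b' σ) := by
  refine ⟨gtriv_lev hb.lev hb'.lev (fun x y => x + y), fun σ τ => ?_⟩
  simp only [hb.co σ τ, hb'.co σ τ, map_add]
  abel

theorem cy_smul (k : ZMod p) {b : Gal(Ω/K) → Fin u → ZMod p} (hb : X.Cy b) :
    X.Cy (fun σ => k • b σ) := by
  refine ⟨gtriv_lev hb.lev hb.lev (fun x _ => k • x), fun σ τ => ?_⟩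
  simp only [hb.co σ τ, map_smul, smul_add]

theorem cy_zero : X.Cy (fun _ => 0) :=
  ⟨gtriv_const 0, fun σ τ => by rw [map_zero, add_zero]⟩

theorem cy_one {b : Gal(Ω/K) → Fin u → ZMod p} (hb : X.Cy b) : b 1 = 0 := by
  have h := hb.co 1 1
  rw [mul_one, map_one, Dg.act_one] at h
  exact left_eq_add.1 h

theorem cy_inv {b : Gal(Ω/K) → Fin u → ZMod p} (hb : X.Cy b) (σ : Gal(Ω/K)) :
    b σ⁻¹ = -Dg.act (X.φQ σ)⁻¹ (b σ) := by
  have h := hb.co σ⁻¹ σ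
  rw [inv_mul_cancel, cy_one X hb, map_inv] at h
  exact eq_neg_of_add_eq_zero_left h.symm

theorem cy_conj {b : Gal(Ω/K) → Fin u → ZMod p} (hb : X.Cy b) (g : Gal(Ω/K)) {τ : Gal(Ω/K)}
    (hτ : X.φQ τ = 1) : b (g * τ * g⁻¹) = Dg.act (X.φQ g) (b τ) := by
  rw [hb.co, hb.co, map_mul, hτ, mul_one, cy_inv X hb, map_neg, ← Dg.act_mul, mul_inv_cancel,
    Dg.act_one]
  abel

theorem bt_cy (hp : p.Prime) (hζ : IsPrimitiveRoot ζ p) (a : X.Lb) : X.Cy (X.bt a) :=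
  ⟨cor_lev X hp hζ a.1 _, fun σ τ => cor_co X a.1 _ σ τ⟩

theorem bet_cy (hp : p.Prime) (hζ : IsPrimitiveRoot ζ p) (g : Finset X.Lb) : X.Cy (X.bet g) := by
  induction g using Finset.induction_on with
  | empty =>
    have h : X.bet ∅ = fun _ => 0 := by
      funext σ
      exact Finset.sum_empty
    rw [h]
    exact cy_zero X
  | insert a g hag ih =>
    have h : X.bet (insert a g) = fun σ => X.bt a σ + X.bet g σ := by
      funext σ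
      exact Finset.sum_insert hag
    rw [h]
    exact cy_add X (bt_cy X hp hζ a) ih

end H1.AR
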