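import Pool.Agent.H89.BRG.BR3
import Pool.Agent.H63.MC.CDef

/-!
# H1-AR: arithmetic of a fibre for theorem (M) (MP_b39724_nt), definitions (text: think, helper1, AR)

`R = G' = G / Z` is a finite group (not assumed to be a `p`-group), `Z = (ZMod p)^w` central (the extension `G` of `R` is given by the cocycles `c k`, `k < w`), `T' = e (V)`,
`V = (ZMod p)^u`, an elementary abelian normal subgroup of `R`, `Q = R / T'`.
* `MG`: these data. `act q` is the action of `Q` on `V`, `om x y ∈ Z` the commutator of lifts of `e x`, `e y`, `cm r r'` the commutator of lifts of commuting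
  `r, r'`. `y j ∈ V` (`j < N`) the images of the class representatives, `H j ≤ Q` the subgroup of the `q` which fix `y j` and for which the commutator of
  `y j` with elements over `q` is in `om (y j) V`.
* `RM F p ζ`: reciprocity data of a field `F` as `RD0`, but the orders outside `S` are only prescribed modulo `p`.
* `AD Dg K Ω ζ`: arithmetic data of a fibre: `φQ : Γ → Q` surjective, unramified outside `S = D.S0`, the field `F j` of `φQ⁻¹ (H j)`, data `A j` over `F j`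
  (primes over `S`, `RM`, local data, Frobenius elements), coset representatives `rep j` of `Γ / φQ⁻¹ (H j) = Q / H j`.
* `X.Lb`: labels: pairs `(j, w)`, `w` a prime of `F j`. `Gd a`: `w` is not over `S` and has prime norm. `un a` the prime of `K` under `w`.
* `cor j x`: the corestriction of (Kummer character of `x ∈ F j`) `⊗ y j`, a cocycle `Γ → V`. `bt a`: for `x = pi w`. `bet g = ∑ a ∈ g, bt a`.
* `IsL`, `IsC`: the homomorphisms `Γ → R` of finite type over `φQ`, those unramified outside `S`. `Dg.Tw φ b ρ`: `ρ` is the twist of `φ` by a cocycle `b`.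
* `Ok g`: good labels over different primes of `K`. `qt g j`: the total class of `g` in class `j`.
-/

set_option autoImplicit false
set_option linter.dupNamespace false

open scoped NumberField
open IsDedekindDomain
open scoped Classical

noncomputable section

namespace H1.AR

open H63.MA H38.BB H38.BG H57.PC H57.BRA H89.BRG

/-- the group data -/
structure MG (p u w N : ℕ) (R Q : Type) [Group R] [Group Q] where
  π : R →* Q
  πs : Function.Surjective π
  e : (Fin u → ZMod p) → R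
  einj : Function.Injective e
  eadd : ∀ x y, e (x + y) = e x * e y
  eker : ∀ r, π r = 1 ↔ ∃ x, e x = r
  act : Q → (Fin u → ZMod p) →ₗ[ZMod p] (Fin u → ZMod p)
  act_one : ∀ x, act 1 x = x
  act_mul : ∀ q q' x, act (q * q') x = act q (act q' x)
  conj : ∀ r x, r * e x * r⁻¹ = e (act (π r) x)
  c : Fin w → R → R → ZMod p
  coc : ∀ k, Coc p (c k)
  om : (Fin u → ZMod p) →ₗ[ZMod p] (Fin u → ZMod p) →ₗ[ZMod p] (Fin w → ZMod p)
  iv_om : ∀ k x y, iv (c k) (e x) (e y) = om x y k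
  y : Fin N → Fin u → ZMod p
  H : Fin N → Subgroup Q
  fixy : ∀ j, ∀ q ∈ H j, act q (y j) = y j
  mem_om : ∀ j (r : R), π r ∈ H j → ∃ x, ∀ k, iv (c k) (e (y j)) r = om (y j) x k
  gen : ∀ M : Submodule (ZMod p) (Fin u → ZMod p), (∀ q, ∀ x ∈ M, act q x ∈ M) →
    (∀ j, y j ∈ M) → M = ⊤

/-- the commutator of lifts of commuting elements -/
def MG.cm {p u w N : ℕ} {R Q : Type} [Group R] [Group Q] (Dg : MG p u w N R Q) (r r' : R) :
    Fin w → ZMod p := fun k => iv (Dg.c k) r r'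

/-- `ρ` is the twist of `φ` by `b` -/
def MG.Tw {p u w N : ℕ} {R Q : Type} [Group R] [Group Q] (Dg : MG p u w N R Q) {Γ : Type} [Group Γ]
    (φ : Γ →* R) (b : Γ → Fin u → ZMod p) (ρ : Γ →* R) : Prop := ∀ σ, ρ σ = Dg.e (b σ) * φ σ

/-- the class group modulo `p`-th powers is generated by the primes in `T` -/
def ClP {F : Type} [Field F] [NumberField F] (p : ℕ) (T : Finset (Pl F)) : Prop :=
  ∀ v, v ∉ T → ∃ x : Fˣ, ord v x = 1 ∧ ∀ w, w ∉ T → w ≠ v → ((ord w x : ℤ) : ZMod p) = 0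

/-- reciprocity data modulo `p` -/
structure RM (F : Type) [Field F] [NumberField F] (p : ℕ) (ζ : F) where
  S : Finset (Pl F)
  above : ∀ v, Above p v → v ∈ S
  pi : Pl F → Fˣ
  pi_self : ∀ v, v ∉ S → ord v (pi v) = 1
  pi_ne : ∀ v w, v ∉ S → w ∉ S → w ≠ v → ((ord w (pi v) : ℤ) : ZMod p) = 0
  r : ℕ
  q : Pl F → Fin r → ZMod p
  q_zero : ∀ v ∈ S, q v = 0
  prim_of : ∀ m : Pl F →₀ ℤ, (∀ v ∈ S, m v = 0) → (m.sum fun v n => (n : ZMod p) • q v) = 0 →
    PS p ζ S (m.prod fun v n => pi v ^ n)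
  ray_q : ∀ κ : Fin r → ZMod p, IsRay p (Ideal.span {(p : 𝓞 F)} ^ 3 * ∏ v ∈ S, v.asIdeal)
    fun v => ∑ i, κ i * q v i
  q_non : ∀ κ : Fin r → ZMod p, κ ≠ 0 → ∃ v, ∑ i, κ i * q v i ≠ 0
  two_r : 2 * r ≤ 2 * S.card + Module.finrank ℚ F

section fields

variable {K : Type} [Field K] [NumberField K] {Ω : Type} [Field Ω] [Algebra K Ω]

/-- data over a field `F` between `K` and `Ω`: the primes over `S` -/
structure LF (p : ℕ) (ζ : K) (S : Finset (Pl K)) (F : IntermediateField K Ω) [NumberField F] where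
  D : RM F p (algebraMap K F ζ)
  hS : ∀ w, w ∈ D.S ↔ ∃ v ∈ S, Over w v
  ld : ∀ w, w ∉ D.S → LD p (algebraMap K F ζ) Ω w (D.pi w)
  Fr : Pl F → Gal(Ω/F)
  fr : ∀ w (hw : w ∉ D.S), IsFr (ld w hw) (Fr w)

/-- the inertia generators -/
def LF.t {p : ℕ} {ζ : K} {S : Finset (Pl K)} {F : IntermediateField K Ω} [NumberField F]
    (A : LF p ζ S F) (w : Pl F) : Gal(Ω/F) := if h : w ∉ A.D.S then (A.ld w h).t else 1

/-- the chosen primes of the ring of all integers -/
def LF.P {p : ℕ} {ζ : K} {S : Finset (Pl K)} {F : IntermediateField K Ω} [NumberField F]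
    (A : LF p ζ S F) (w : Pl F) : Ideal (𝓞 Ω) := if h : w ∉ A.D.S then (A.ld w h).P else ⊤

end fields

/-- arithmetic data of a fibre -/
structure AD {p u w N : ℕ} {R Q : Type} [Group R] [Group Q] (Dg : MG p u w N R Q) (K : Type)
    [Field K] [NumberField K] (Ω : Type) [Field Ω] [Algebra K Ω] (ζ : K) where
  φQ : Gal(Ω/K) →* Q
  ft : H38.ML.FT φQ
  sur : Function.Surjective φQ
  D : RD0 K p ζ
  L : LDs D Ω
  Fr : FR L
  P : DP K Ω
  ur : ∀ v, v ∉ D.S0 → ∀ τ ∈ inr L v, φQ τ = 1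
  F : Fin N → IntermediateField K Ω
  nf : ∀ j, NumberField (F j)
  fix : ∀ j σ, σ ∈ (F j).fixingSubgroup ↔ φQ σ ∈ Dg.H j
  A : ∀ j, LF p ζ D.S0 (F j)
  rep : ∀ j, Q ⧸ Dg.H j → Gal(Ω/K)
  rep_mk : ∀ j (c : Q ⧸ Dg.H j), (QuotientGroup.mk (φQ (rep j c)) : Q ⧸ Dg.H j) = c
  rep_one : ∀ j, rep j (QuotientGroup.mk 1) = 1

attribute [instance] AD.nf

namespace AD

variable {p u w N : ℕ} {R Q : Type} [Group R] [Group Q] {Dg : MG p u w N R Q} {K : Type}
  [Field K] [NumberField K] {Ω : Type} [Field Ω] [Algebra K Ω] {ζ : K} (X : AD Dg K Ω ζ)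

/-- labels -/
abbrev Lb : Type := Σ j : Fin N, Pl (X.F j)

/-- good labels -/
def Gd (a : X.Lb) : Prop := a.2 ∉ (X.A a.1).D.S ∧ (nm a.2).Prime

/-- the prime of `K` under a label -/
def un (a : X.Lb) : Pl K := (exists_below (K := K) a.2).choose

theorem un_over (a : X.Lb) : Over a.2 (X.un a) := (exists_below (K := K) a.2).choose_spec

/-- the inertia generator of a label, as an element of `Gal(Ω/K)` -/
def t (a : X.Lb) : Gal(Ω/K) := rsK K (X.F a.1) Ω ((X.A a.1).t a.2)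

/-- the Frobenius element of a label, as an element of `Gal(Ω/K)` -/
def fb (a : X.Lb) : Gal(Ω/K) := rsK K (X.F a.1) Ω ((X.A a.1).Fr a.2)

/-- the Kummer character of `x ∈ F j`, extended by `0` to `Gal(Ω/K)` -/
def kx (j : Fin N) (x : (X.F j)ˣ) (σ : Gal(Ω/K)) : ZMod p :=
  if h : ∃ σ' : Gal(Ω/(X.F j)), rsK K (X.F j) Ω σ' = σ then
    kk p (algebraMap K (X.F j) ζ) x h.choose else 0

/-- the corestriction of the Kummer character of `x` times `y j` -/
def cor [Fintype Q] (j : Fin N) (x : (X.F j)ˣ) (σ : Gal(Ω/K)) : Fin u → ZMod p :=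
  ∑ c : Q ⧸ Dg.H j, X.kx j x ((X.rep j c)⁻¹ * σ * X.rep j ((X.φQ σ)⁻¹ • c)) •
    Dg.act (X.φQ (X.rep j c)) (Dg.y j)

/-- the cocycle of a label -/
def bt [Fintype Q] (a : X.Lb) (σ : Gal(Ω/K)) : Fin u → ZMod p :=
  X.cor a.1 ((X.A a.1).D.pi a.2) σ

/-- the cocycle of a family -/
def bet [Fintype Q] (g : Finset X.Lb) (σ : Gal(Ω/K)) : Fin u → ZMod p := ∑ a ∈ g, X.bt a σ

/-- cocycles with values in `V` -/
structure Cy (b : Gal(Ω/K) → Fin u → ZMod p) : Prop where
  lev : Lev b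
  co : ∀ σ τ, b (σ * τ) = b σ + Dg.act (X.φQ σ) (b τ)

/-- homomorphisms over `φQ` -/
structure IsL (φ : Gal(Ω/K) →* R) : Prop where
  ft : H38.ML.FT φ
  pi : ∀ σ, Dg.π (φ σ) = X.φQ σ

/-- the homomorphisms over `φQ` which are unramified outside `S` -/
structure IsC (φ : Gal(Ω/K) →* R) : Prop extends X.IsL φ where
  ur : ∀ v, v ∉ X.D.S0 → ∀ τ ∈ inr X.L v, φ τ = 1

/-- good labels over different primes of `K` -/
def Ok (g : Finset X.Lb) : Prop :=
  (∀ a ∈ g, X.Gd a) ∧ ∀ a ∈ g, ∀ b ∈ g, a ≠ b → X.un a ≠ X.un b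

/-- the total class of a family in class `j` -/
def qt (g : Finset X.Lb) (j : Fin N) : Fin (X.A j).D.r → ZMod p :=
  ∑ a ∈ g, if h : a.1 = j then (X.A j).D.q (h ▸ a.2) else 0

/-- the pairing of labels -/
def sy [Fintype Q] (a b : X.Lb) : Fin w → ZMod p := Dg.om (Dg.y a.1) (X.bt b (X.fb a))

/-- the local value of a homomorphism at a label -/
def ev (φ : Gal(Ω/K) →* R) (a : X.Lb) : Fin w → ZMod p :=
  Dg.cm (Dg.e (Dg.y a.1)) (φ (X.fb a))

/-- the surjectivity condition -/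
def Sp (φ : Gal(Ω/K) →* R) (J : Finset (Fin N)) : Prop :=
  ∀ M : Submodule (ZMod p) (Fin u → ZMod p), (∀ q, ∀ x ∈ M, Dg.act q x ∈ M) → M ≠ ⊤ →
    (∀ j ∈ J, Dg.y j ∈ M) → ∃ σ, X.φQ σ = 1 ∧ ∀ x ∈ M, Dg.e x ≠ φ σ

end AD

end H1.AR
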