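import Pool.Agent.H1.AR.RMc
import Pool.Agent.H1.AR.ChD
import Pool.Agent.H57.BRA.Fro
import Pool.Agent.H63.MC.CLkC
import Pool.Agent.H63.MA.GTw
import Pool.Agent.H38.ML.Factor
import Pool.Agent.H38.AS.PDef

/-!
# [H1 AR EXA] existence of arithmetic data with given `φQ` and `D`, 80-130 lines. File Pool/Agent/H1/AR/ExA.lean

* `F j = fixedField ((Dg.H j).comap φQ)`: finite over `K` with `fixingSubgroup = (Dg.H j).comap φQ` (`H38.ML.fixing_fixedField` in H38/ML/Factor.lean needs `ker φQ ≤`, finite type; see `fd_ex` in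
  H48/KV/FldA.lean); `NumberField` by `NumberField.of_module_finite K _`. The two hypotheses `hF`, `hcl` of `exa` are about any family `F`, so `F` is an argument of the theorem.
* `L` from `lds_of` (H38/AS/PDef.lean: `LQ L P`, the primes of `L` are the `P.P v`), `Fr` from `exists_FR`. `ur`: `inr L v` is the inertia group of `(L.ld v hv).P = P.P v` (`dif_pos`).
* `A j`: over `F j` (`IsAlgClosure`: `bca_clo`; `ζ`: `hζ.map_of_injective`; `mone_map`, `z2_map`): `D` from `exists_RM` with `S = ovf (F j) D.S0` (`above`: `above_over`; `hcl`), `hS` by `mem_ovf`, `ld` from `exists_LD`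
  (`w` not above `p` by `D.above`; `D.pi_self`), `Fr` from `frob_univ` (choice; `1` on `D.S`).
* `rep j c = if c = mk 1 then 1 else` a chosen `σ` with `mk (φQ σ) = c` (`sur`, `QuotientGroup.mk_surjective`).
-/

set_option autoImplicit false
set_option linter.dupNamespace false

open scoped NumberField Pointwise
open IsDedekindDomain
open scoped Classical

noncomputable section

namespace H1.AR

open H63.MA H38.BB H38.BG H38.AS H57.PC H57.BRA H89.BRG

variable {p u w N : ℕ} {R Q : Type} [Group R] [Group Q]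

theorem exa_fix {K : Type} [Field K] [NumberField K] {Ω : Type} [Field Ω] [Algebra K Ω]
    [IsAlgClosure K Ω] {H : Type} [Group H] (φ : Gal(Ω/K) →* H) (hφ : H38.ML.FT φ)
    (W : Subgroup H) : ∃ F : IntermediateField K Ω, FiniteDimensional K F ∧
      F.fixingSubgroup = W.comap φ := by
  obtain ⟨E, hE, hle⟩ := hφ
  have h1 : E.fixingSubgroup ≤ W.comap φ := by
    intro σ hσ
    have h2 := hle hσ
    rw [MonoidHom.mem_ker] at h2
    rw [Subgroup.mem_comap, h2]
    exact W.one_mem
  obtain ⟨h2, h3⟩ := H38.ML.fixing_fixedField (W.comap φ) E h1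
  exact ⟨IntermediateField.fixedField (W.comap φ), h3, h2⟩

private theorem exa_A {K : Type} [Field K] [NumberField K] {Ω : Type} [Field Ω] [Algebra K Ω]
    [IsAlgClosure K Ω] {ζ : K} (hp : p.Prime) (hp2 : MOne p K) (hζ : IsPrimitiveRoot ζ p)
    (hz : Z2 p K) (S0 : Finset (Pl K)) (hS0 : ∀ v, Above p v → v ∈ S0)
    (F : IntermediateField K Ω) [NumberField F] (hcl : ClP p (ovf F S0)) :
    Nonempty (LF p ζ S0 F) := by
  have hcl2 : IsAlgClosure F Ω := bca_clo K F Ω
  have hζF : IsPrimitiveRoot (algebraMap K F ζ) p :=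
    hζ.map_of_injective (algebraMap K F).injective
  have hS : ∀ v : Pl F, Above p v → v ∈ ovf F S0 := by
    intro v hv
    obtain ⟨v', hv'⟩ := exists_below (K := K) v
    exact (mem_ovf F S0 v).2 ⟨v', hS0 v' ((above_over hv' p).1 hv), hv'⟩
  obtain ⟨D, hD⟩ := exists_RM hp (mone_map hp2 F) hζF (ovf F S0) hS hcl
  have hld : ∀ w : Pl F, w ∉ D.S → Nonempty (LD p (algebraMap K F ζ) Ω w (D.pi w)) := fun w hw =>
    exists_LD Ω hp hζF (fun h => hw (D.above w h)) (D.pi_self w hw)
  have hfr : ∀ w : Pl F, ∃ f : Gal(Ω/F), ∀ hw : w ∉ D.S, IsFr (Classical.choice (hld w hw)) f := by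
    intro w
    by_cases hw : w ∉ D.S
    · obtain ⟨f, -, hf⟩ := frob_univ hp hζF (z2_map hz F) (fun h => hw (D.above w h))
        (D.pi_self w hw) (Classical.choice (hld w hw))
      exact ⟨f, fun _ => hf⟩
    · exact ⟨1, fun h => absurd h hw⟩
  choose Fr hFr using hfr
  exact ⟨⟨D, fun w => by rw [hD, mem_ovf], fun w hw => Classical.choice (hld w hw), Fr, hFr⟩⟩

theorem exa (Dg : MG p u w N R Q) {K : Type} [Field K] [NumberField K] {Ω : Type} [Field Ω]
    [Algebra K Ω] [IsAlgClosure K Ω] {ζ : K} (hp : p.Prime) (hp2 : MOne p K)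
    (hζ : IsPrimitiveRoot ζ p) (hz : Z2 p K) (φQ : Gal(Ω/K) →* Q) (ft : H38.ML.FT φQ)
    (sur : Function.Surjective φQ) (D : RD0 K p ζ)
    (P : DP K Ω) (hur : ∀ v, v ∉ D.S0 → ∀ τ ∈ (P.P v).inertia Gal(Ω/K), φQ τ = 1)
    (F : Fin N → IntermediateField K Ω) (nf : ∀ j, NumberField (F j))
    (hF : ∀ j, (F j).fixingSubgroup = (Dg.H j).comap φQ) (hcl : ∀ j, ClP p (ovf (F j) D.S0)) :
    ∃ X : AD Dg K Ω ζ, X.φQ = φQ ∧ X.D = D ∧ (∀ j, X.F j = F j) ∧ X.P = P ∧ LQ X.L X.P := by
  obtain ⟨L, hL⟩ := lds_of hp hζ D P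
  obtain ⟨Fr⟩ := exists_FR hp hζ L
  have hA : ∀ j, Nonempty (LF p ζ D.S0 (F j)) := fun j =>
    exa_A hp hp2 hζ hz D.S0 D.above (F j) (hcl j)
  have hrep : ∀ j, ∃ r : Q ⧸ Dg.H j → Gal(Ω/K),
      (∀ c, (QuotientGroup.mk (φQ (r c)) : Q ⧸ Dg.H j) = c) ∧ r (QuotientGroup.mk 1) = 1 := by
    intro j
    have h1 : ∀ c : Q ⧸ Dg.H j, ∃ σ : Gal(Ω/K), (QuotientGroup.mk (φQ σ) : Q ⧸ Dg.H j) = c := by
      intro c
      obtain ⟨q, rfl⟩ := QuotientGroup.mk_surjective c
      obtain ⟨σ, rfl⟩ := sur q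
      exact ⟨σ, rfl⟩
    choose r hr using h1
    refine ⟨fun c => if c = QuotientGroup.mk 1 then 1 else r c, fun c => ?_, if_pos rfl⟩
    by_cases hc : c = QuotientGroup.mk 1
    · simp only [if_pos hc, map_one]
      exact hc.symm
    · simp only [if_neg hc]
      exact hr c
  choose rep hrep1 hrep2 using hrep
  refine ⟨{ φQ := φQ
            ft := ft
            sur := sur
            D := D
            L := L
            Fr := Fr
            P := P
            ur := ?_
            F := F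
            nf := nf
            fix := ?_
            A := fun j => Classical.choice (hA j)
            rep := rep
            rep_mk := hrep1
            rep_one := hrep2 }, rfl, rfl, fun j => rfl, rfl, hL⟩
  · intro v hv τ hτ
    unfold inr at hτ
    rw [dif_pos hv] at hτ
    rw [hL v hv] at hτ
    exact hur v hv τ hτ
  · intro j σ
    rw [hF j, Subgroup.mem_comap]

end H1.AR
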