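import Pool.Agent.H1.AR.Axs
import Pool.Agent.H1.AR.ExA
import Pool.Agent.H1.AR.CoC
import Pool.Agent.H48.KV.Rdx
import Pool.Agent.H57.BRA.Ltr
import Pool.Agent.H38.BB.CFld

/-!
# [H1 AR EXI] arithmetic data with bounded sizes, 150-220 lines. File Pool/Agent/H1/AR/Exi.lean

Replace `P0` by the range of `f` (`f.rangeRestrict`; `IsPGroup.to_subgroup`), so `f` is surjective. `ψ = f ∘ φQ` is surjective, of finite type. `T00` from `H48.KV.rdx` (`ClOne`, above `p`, `RD` with `S0 = S1` for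
every `S1 ≥ T00`).
* Given `φQ`, `E ≥ T00`: `S ≥ E` from `axs` (`S00 = T00`); `D : RD K p ζ` with `D.S0 = S` from `rdx` (`D.toRD0`). `F j` from `exa_fix` (`W = Dg.H j`, `φQ`); `Dg.H j = (f (Dg.H j)).comap f` because `ker f ≤ Dg.H j`, so
  `(F j).fixingSubgroup = (Dg.H j).comap φQ = (map f (Dg.H j)).comap ψ` and `ClP p (ovf (F j) S)` by `axs`. `exa` gives `X`.
* Sizes: `d = Nat.card Q ≥ [F j : K] =` index of `Dg.H j` (`X.fix`; grep how the degree is computed in H48/KV/FldA.lean: `IntermediateField.finrank_eq_fixingSubgroup_index`).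
  `D = C₁ * p^(3 d n) * (∏ S nm)^d` with `C₁` from `dsf K Ω d` (`dd (F j) ≤ C₁ (∏ S nm)^d`, `φ = φQ`, `E = S`), so `log D ≤ log (C₁ p^(3dn)) + d * log ∏ S nm`, `log ∏ S nm ≤ A (k + 1) (log A + log ∏ E nm)` with
  `k = #E ≤ log (∏ E nm) / log 2` (`nm ≥ 2`), so `log D ≤ A' (1 + log ∏ E nm)^2`.
  `qq`: the maximum of the three quantities; `#Co X ≤ p^(u m + u #P0)`, `m = (2p)^(#P0) (2 #S + n + 1)` by `coc`, `rk_base`, `rk_chain` (`I = InS S`, `W = ⊥`); `∑ r_j ≤ ∑ (#S_j + n_j / 2)` (`two_r`;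
  `D.S = ovf (F j) S` has at most `[F j : K] #S ≤ d #S` elements: `over_card`-type bound, grep `Σ e f = n`; `LF.hS` and `mem_ovf`) `≤ N (d #S + d n)`; `2 ^ #S`. All `≤ A'^(#S + 1) ≤ A''^(k + 1)`.
-/

set_option autoImplicit false
set_option linter.dupNamespace false

open scoped NumberField Pointwise
open IsDedekindDomain
open scoped Classical

noncomputable section

namespace H1.AR

open H63.MA H38.BB H38.BG H38.AS H57.PC H57.BRA H89.BRG H36.QA

/-- the degree of a field `F j` -/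
private theorem exi_deg {p u w N : ℕ} {R Q : Type} [Group R] [Group Q] [Fintype Q]
    {Dg : MG p u w N R Q} {K : Type} [Field K] [NumberField K] {Ω : Type} [Field Ω]
    [Algebra K Ω] [IsAlgClosure K Ω] {ζ : K} (X : AD Dg K Ω ζ) (j : Fin N) :
    Module.finrank K (X.F j) ≤ Fintype.card Q := by
  have hg : IsGalois K Ω := IsAlgClosure.isGalois K Ω
  have h1 : (X.F j).fixingSubgroup = (Dg.H j).comap X.φQ := by
    ext σ
    rw [X.fix j σ, Subgroup.mem_comap]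
  rw [IntermediateField.finrank_eq_fixingSubgroup_index, h1,
    Subgroup.index_comap_of_surjective _ X.sur, ← Nat.card_eq_fintype_card]
  exact Nat.le_of_dvd Nat.card_pos (Subgroup.index_dvd_card _)

/-- the number of primes of `F j` over `S` -/
private theorem exi_r {p u w N : ℕ} {R Q : Type} [Group R] [Group Q] [Fintype Q]
    {Dg : MG p u w N R Q} {K : Type} [Field K] [NumberField K] {Ω : Type} [Field Ω]
    [Algebra K Ω] [IsAlgClosure K Ω] {ζ : K} (X : AD Dg K Ω ζ) (j : Fin N) :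
    (X.A j).D.r ≤ Fintype.card Q * X.D.S0.card + Fintype.card Q * Module.finrank ℚ K := by
  have h1 := (X.A j).D.two_r
  have h2 : Module.finrank ℚ (X.F j) ≤ Fintype.card Q * Module.finrank ℚ K := by
    rw [← Module.finrank_mul_finrank ℚ K (X.F j), mul_comm]
    exact Nat.mul_le_mul_right _ (exi_deg X j)
  have h3 : (X.A j).D.S.card ≤ Fintype.card Q * X.D.S0.card := by
    have h4 : (X.A j).D.S ⊆ ovf (X.F j) X.D.S0 := by
      intro x hx
      rw [mem_ovf]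
      exact ((X.A j).hS x).1 hx
    refine (Finset.card_le_card h4).trans ?_
    unfold ovf
    refine Finset.card_biUnion_le.trans ?_
    have h5 : ∀ v ∈ X.D.S0, (over_finite (L := X.F j) v).toFinset.card ≤ Fintype.card Q := by
      intro v _
      refine (over_card v _ fun w hw => ?_).trans (exi_deg X j)
      exact (Set.Finite.mem_toFinset (over_finite (L := X.F j) v)).1 hw
    refine (Finset.sum_le_card_nsmul _ _ _ h5).trans ?_
    rw [smul_eq_mul, mul_comm]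
  omega

private theorem exi0 {p u w N : ℕ} {R Q : Type} [Group R] [Group Q] [Finite R] [Fintype Q]
    (Dg : MG p u w N R Q) {P0 : Type} [Group P0] [Finite P0] (hP : IsPGroup p P0) (f : Q →* P0)
    (hfs : Function.Surjective f) (hf : ∀ j, f.ker ≤ Dg.H j) (K : Type) [Field K] [NumberField K] (Ω : Type) [Field Ω]
    [Algebra K Ω] [IsAlgClosure K Ω] {ζ : K} (hp : p.Prime) (hp2 : MOne p K)
    (hζ : IsPrimitiveRoot ζ p) (hz : Z2 p K) :
    ∃ (T00 : Finset (Pl K)) (A : ℕ), (∀ v, Above p v → v ∈ T00) ∧ 1 ≤ A ∧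
      ∀ (φQ : Gal(Ω/K) →* Q), H38.ML.FT φQ → Function.Surjective φQ →
      ∀ (P : DP K Ω) (E : Finset (Pl K)), T00 ⊆ E →
      (∀ v, v ∉ E → ∀ τ ∈ (P.P v).inertia Gal(Ω/K), φQ τ = 1) →
      ∃ (X : AD Dg K Ω ζ) (_ : Fintype (Co X)) (D qq : ℝ), X.φQ = φQ ∧ X.P = P ∧
        LQ X.L X.P ∧ E ⊆ X.D.S0 ∧
        X.D.S0.card ≤ A * (E.card + 1) ∧
        (∏ v ∈ X.D.S0, nm v) ≤ (A * ∏ v ∈ E, nm v) ^ (A * (E.card + 1)) ∧
        FI X (Fintype.card Q) D qq ∧
        Real.log D ≤ A * (1 + Real.log (∏ v ∈ E, (nm v : ℝ))) ^ 2 ∧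
        qq ≤ (A : ℝ) ^ (E.card + 1) := by
  classical
  obtain ⟨T00, hcl0, hab0, hrdx⟩ := H48.KV.rdx K hp hp2 hζ
  obtain ⟨A1, hA1, haxs⟩ := axs K Ω hp hp2 hζ T00 hcl0 hab0 P0 hP
  obtain ⟨d, hd⟩ : ∃ d, d = Fintype.card Q := ⟨_, rfl⟩
  obtain ⟨n, hn⟩ : ∃ n, n = Module.finrank ℚ K := ⟨_, rfl⟩
  obtain ⟨C1, hC1, hdsf⟩ := dsf K Ω d
  obtain ⟨c0, hc0⟩ : ∃ c0, c0 = Nat.card P0 := ⟨_, rfl⟩
  obtain ⟨e0, he0⟩ : ∃ e0, e0 = u * ((2 * p) ^ c0 * (2 * A1 + n + 1)) + u * c0 +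
    N * (d * A1 + d * n) + A1 := ⟨_, rfl⟩
  obtain ⟨A, hA⟩ : ∃ A, A = A1 + (2 * p) ^ e0 + ⌈Real.log C1⌉₊ + 3 * (d * n) * p +
    2 * (d * (A1 * A1)) := ⟨_, rfl⟩
  have hp1 : 1 ≤ p := hp.one_lt.le
  have hAA1 : A1 ≤ A := by omega
  refine ⟨T00, A, hab0, by omega, ?_⟩
  intro φQ hft hsur P₀ E hTE hur₀
  have hur : ∀ v, v ∉ E → ∀ P : Ideal (𝓞 Ω), P.IsPrime →
      P.under (𝓞 K) = v.asIdeal → ∀ τ ∈ P.inertia Gal(Ω/K), φQ τ = 1 := by
    intro v hv P' hP' hPv τ hτ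
    obtain ⟨g, hg⟩ := ltr_conj (P₀.prime v) hP' (P₀.under v) hPv
    have h1 : g⁻¹ * τ * g ∈ (P₀.P v).inertia Gal(Ω/K) := by
      intro x
      have h2 : (g⁻¹ * τ * g) • x - x = g⁻¹ • (τ • (g • x) - g • x) := by
        rw [smul_sub, mul_smul, mul_smul, inv_smul_smul]
      rw [h2]
      exact (hg _).1 (hτ (g • x))
    have h3 := hur₀ v hv _ h1
    have h4 : φQ τ = φQ g * φQ (g⁻¹ * τ * g) * (φQ g)⁻¹ := by
      rw [← map_inv, ← map_mul, ← map_mul]
      congr 1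
      group
    rw [h4, h3, mul_one, mul_inv_cancel]
  have hftψ : H38.ML.FT (f.comp φQ) := by
    obtain ⟨E', hE', hle⟩ := hft
    refine ⟨E', hE', fun σ hσ => ?_⟩
    have h1 := MonoidHom.mem_ker.1 (hle hσ)
    rw [MonoidHom.mem_ker, MonoidHom.comp_apply, h1, map_one]
  have hsurψ : Function.Surjective (f.comp φQ) := hfs.comp hsur
  obtain ⟨S, hES, hScard, hSprod, hclp⟩ := haxs (f.comp φQ) hftψ hsurψ E hTE
    (fun v hv P hP' hPv τ hτ => by
      rw [MonoidHom.comp_apply, hur v hv P hP' hPv τ hτ, map_one])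
  obtain ⟨D0, hD0⟩ := hrdx S (fun v hv => hES (hTE hv))
  have hFex : ∀ j, ∃ F : IntermediateField K Ω, FiniteDimensional K F ∧
      F.fixingSubgroup = (Dg.H j).comap φQ := fun j => exa_fix φQ hft (Dg.H j)
  choose F hFfd hFfix using hFex
  have nf : ∀ j, NumberField (F j) := fun j => by
    have := hFfd j
    exact NumberField.of_module_finite K (F j)
  have hcl : ∀ j, ClP p (ovf (F j) D0.toRD0.S0) := by
    intro j
    have hS0 : D0.toRD0.S0 = S := hD0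
    rw [hS0]
    refine hclp ((Dg.H j).map f) (F j) ?_
    rw [hFfix j, ← Subgroup.comap_comap, Subgroup.comap_map_eq_self (hf j)]
  obtain ⟨X, hXφ, hXD, hXF, hXP, hXL⟩ := exa Dg hp hp2 hζ hz φQ hft hsur D0.toRD0 P₀
    (fun v hv τ hτ => hur₀ v (fun h => hv (by
      have hS0 : D0.toRD0.S0 = S := hD0
      rw [hS0]
      exact hES h)) τ hτ) F nf hFfix hcl
  have hXS : X.D.S0 = S := by
    rw [hXD]
    exact hD0
  -- rank bounds
  have hclS : ClP p S := clp_mono (clp_one hcl0) (hTE.trans hES)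
  have habS : ∀ v, Above p v → v ∈ S := fun v hv => hES (hTE (hab0 v hv))
  have hInS : ∀ τ ∈ InS (Ω := Ω) S, φQ τ = 1 := by
    rintro τ ⟨v, hv, P, hP', hPv, hτ⟩
    exact hur v (fun h => hv (hES h)) P hP' hPv τ hτ
  obtain ⟨hb1, hb2⟩ := rk_base (Ω := Ω) hp hp2 hζ S habS hclS
  obtain ⟨hc1, hc2⟩ := rk_chain hp hP (f.comp φQ) hftψ hsurψ (I := InS (Ω := Ω) S)
    (fun τ hτ => by rw [MonoidHom.comp_apply, hInS τ hτ, map_one])
    (fun τ hτ g => ins_conj S hτ g) hb1 hb2 ⊥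
  rw [← hc0, ← hn] at hc2
  have hcoc := coc X hp f hf (m := (2 * p) ^ c0 * (2 * S.card + n + 1)) (by
      rw [hXφ, hXS]
      exact hc1) (by
      rw [hXφ, hXS]
      omega)
  obtain ⟨hcof, hcoc2⟩ := hcoc
  rw [← hc0] at hcoc2
  obtain ⟨Dd, hDd⟩ : ∃ Dd : ℝ, Dd = C1 * ((p ^ (3 * (d * n)) * (∏ v ∈ S, nm v) ^ d : ℕ) : ℝ) :=
    ⟨_, rfl⟩
  obtain ⟨qn, hqn⟩ : ∃ qn : ℕ, qn = p ^ (u * ((2 * p) ^ c0 * (2 * S.card + n + 1)) + u * c0) *
    p ^ (N * (d * S.card + d * n)) * 2 ^ S.card := ⟨_, rfl⟩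
  have hpp : ∀ k, 1 ≤ p ^ k := fun k => Nat.one_le_pow _ _ hp1
  have hnmS : 1 ≤ ∏ v ∈ S, nm v := Nat.one_le_iff_ne_zero.2 (Finset.prod_ne_zero_iff.2 fun v _ => by
    have := one_lt_nm v
    omega)
  have hnmE : 1 ≤ ∏ v ∈ E, nm v := Nat.one_le_iff_ne_zero.2 (Finset.prod_ne_zero_iff.2 fun v _ => by
    have := one_lt_nm v
    omega)
  have hMn : 1 ≤ p ^ (3 * (d * n)) * (∏ v ∈ S, nm v) ^ d :=
    Nat.one_le_iff_ne_zero.2 (Nat.mul_ne_zero (by have := hpp (3 * (d * n)); omega)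
      (pow_ne_zero _ (by omega)))
  have hMr : (1 : ℝ) ≤ ((p ^ (3 * (d * n)) * (∏ v ∈ S, nm v) ^ d : ℕ) : ℝ) := by
    exact_mod_cast hMn
  have hD1 : ((p ^ (3 * (d * n)) * (∏ v ∈ S, nm v) ^ d : ℕ) : ℝ) ≤ Dd := by
    rw [hDd]
    nlinarith
  letI : Fintype (Co X) := Fintype.ofFinite _
  have h2k : 1 ≤ 2 ^ S.card := Nat.one_le_two_pow
  have hqa : p ^ (u * ((2 * p) ^ c0 * (2 * S.card + n + 1)) + u * c0) ≤ qn := by
    rw [hqn, mul_assoc]
    exact Nat.le_mul_of_pos_right _ (Nat.mul_pos (hpp _) h2k)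
  have hqb : p ^ (N * (d * S.card + d * n)) ≤ qn := by
    rw [hqn]
    refine le_trans ?_ (Nat.le_mul_of_pos_right _ h2k)
    exact Nat.le_mul_of_pos_left _ (hpp _)
  have hqc : 2 ^ S.card ≤ qn := by
    rw [hqn]
    exact Nat.le_mul_of_pos_left _ (Nat.mul_pos (hpp _) (hpp _))
  refine ⟨X, inferInstance, Dd, qn, hXφ, hXP, hXL, ?_, ?_, ?_, ?_, ?_, ?_⟩
  · rw [hXS]
    exact hES
  · rw [hXS]
    exact hScard.trans (Nat.mul_le_mul_right _ hAA1)
  · rw [hXS]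
    refine hSprod.trans ?_
    refine (Nat.pow_le_pow_left (Nat.mul_le_mul_right _ hAA1) _).trans ?_
    exact Nat.pow_le_pow_right (Nat.mul_pos (by omega) hnmE) (Nat.mul_le_mul_right _ hAA1)
  · refine ⟨hp, hp2, hζ, hz, hMr.trans hD1, ?_, fun i => exi_deg X i, ?_, ?_, ?_, ?_, ?_⟩
    · exact_mod_cast h2k.trans hqc
    · intro i
      have h1 := hdsf (X.F i) (by rw [hd]; exact exi_deg X i) X.φQ (fun σ hσ => by
        rw [X.fix i σ, hσ]
        exact one_mem _) S (fun v hv P hP' hPv τ hτ => by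
        rw [hXφ]
        exact hInS τ ⟨v, hv, P, hP', hPv, hτ⟩)
      refine h1.trans ?_
      rw [hDd]
      refine mul_le_mul_of_nonneg_left ?_ (by linarith)
      push_cast
      refine le_mul_of_one_le_left (by positivity) ?_
      exact_mod_cast hpp (3 * (d * n))
    · rw [← hd, ← hn, hXS]
      exact hD1
    · rw [← Nat.card_eq_fintype_card]
      exact_mod_cast hcoc2.trans hqa
    · have hXc : X.D.S0.card = S.card := by rw [hXS]
      have h1 : ∑ j, (X.A j).D.r ≤ N * (d * S.card + d * n) := by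
        have h2 : ∀ j ∈ (Finset.univ : Finset (Fin N)), (X.A j).D.r ≤ d * S.card + d * n := by
          intro j _
          have := exi_r X j
          rwa [hXc, ← hd, ← hn] at this
        refine (Finset.sum_le_card_nsmul _ _ _ h2).trans ?_
        rw [Finset.card_univ, Fintype.card_fin, smul_eq_mul]
      exact_mod_cast (Nat.pow_le_pow_right hp1 h1).trans hqb
    · rw [hXS]
      exact_mod_cast hqc
  · -- the size of `D`
    obtain ⟨L, hL⟩ : ∃ L : ℝ, L = Real.log (∏ v ∈ E, (nm v : ℝ)) := ⟨_, rfl⟩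
    have hnmEr : (1 : ℝ) ≤ ∏ v ∈ E, (nm v : ℝ) := by exact_mod_cast hnmE
    have hL0 : 0 ≤ L := by rw [hL]; exact Real.log_nonneg hnmEr
    have hEL : (E.card : ℝ) + 1 ≤ 2 * (L + 1) := by
      have h1 : (2 : ℝ) ^ E.card ≤ ∏ v ∈ E, (nm v : ℝ) := by
        rw [← Finset.prod_const]
        refine Finset.prod_le_prod (fun _ _ => by norm_num) fun v _ => ?_
        have := one_lt_nm v
        exact_mod_cast this
      have h2 : (E.card : ℝ) * Real.log 2 ≤ L := by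
        rw [hL, ← Real.log_pow]
        exact Real.log_le_log (by positivity) h1
      have h3 : (1 : ℝ) / 2 ≤ Real.log 2 := by
        have := Real.log_two_gt_d9
        linarith
      have h4 : (E.card : ℝ) * (1 / 2) ≤ (E.card : ℝ) * Real.log 2 :=
        mul_le_mul_of_nonneg_left h3 (Nat.cast_nonneg _)
      linarith
    have hA1r : (1 : ℝ) ≤ (A1 : ℝ) := by exact_mod_cast hA1
    have hSl : Real.log ((∏ v ∈ S, nm v : ℕ) : ℝ) ≤ 2 * (A1 * A1) * (1 + L) ^ 2 := by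
      have h1 : ((∏ v ∈ S, nm v : ℕ) : ℝ) ≤
          ((A1 : ℝ) * ∏ v ∈ E, (nm v : ℝ)) ^ (A1 * (E.card + 1)) := by
        exact_mod_cast hSprod
      have h2 : Real.log ((∏ v ∈ S, nm v : ℕ) : ℝ) ≤
          ((A1 * (E.card + 1) : ℕ) : ℝ) * (Real.log A1 + L) := by
        have h3 := Real.log_le_log (by exact_mod_cast hnmS) h1
        rw [Real.log_pow, Real.log_mul (by linarith) (by linarith), ← hL] at h3
        exact h3
      have h4 : Real.log A1 ≤ A1 := by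
        have := Real.log_le_sub_one_of_pos (show (0 : ℝ) < (A1 : ℝ) by linarith)
        linarith
      have h5 : Real.log A1 + L ≤ A1 * (1 + L) := by nlinarith
      have h6 : 0 ≤ Real.log A1 + L := add_nonneg (Real.log_nonneg hA1r) hL0
      have h7 : ((A1 * (E.card + 1) : ℕ) : ℝ) ≤ A1 * (2 * (L + 1)) := by
        push_cast
        exact mul_le_mul_of_nonneg_left hEL (by linarith)
      calc Real.log ((∏ v ∈ S, nm v : ℕ) : ℝ) ≤ _ := h2
        _ ≤ (A1 * (2 * (L + 1))) * (Real.log A1 + L) := mul_le_mul_of_nonneg_right h7 h6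
        _ ≤ (A1 * (2 * (L + 1))) * (A1 * (1 + L)) :=
            mul_le_mul_of_nonneg_left h5 (by positivity)
        _ = 2 * (A1 * A1) * (1 + L) ^ 2 := by ring
    rw [← hL]
    have hlogD : Real.log Dd = Real.log C1 + (((3 * (d * n) : ℕ) : ℝ) * Real.log p +
        (d : ℝ) * Real.log ((∏ v ∈ S, nm v : ℕ) : ℝ)) := by
      have hpr : ((p : ℕ) : ℝ) ≠ 0 := by exact_mod_cast hp.ne_zero
      have hsr : ((∏ v ∈ S, nm v : ℕ) : ℝ) ≠ 0 := by
        have : (∏ v ∈ S, nm v) ≠ 0 := by omega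
        exact_mod_cast this
      rw [hDd, Real.log_mul (by linarith) (by linarith)]
      congr 1
      rw [Nat.cast_mul, Nat.cast_pow, Nat.cast_pow, Real.log_mul (pow_ne_zero _ hpr)
        (pow_ne_zero _ hsr), Real.log_pow, Real.log_pow]
    have hlp : Real.log p ≤ p := by
      have := Real.log_le_sub_one_of_pos (show (0 : ℝ) < (p : ℝ) by exact_mod_cast hp.pos)
      linarith
    have h1L : (1 : ℝ) ≤ (1 + L) ^ 2 := by nlinarith
    have hceil : Real.log C1 ≤ (⌈Real.log C1⌉₊ : ℝ) := Nat.le_ceil _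
    have hd0 : (0 : ℝ) ≤ (d : ℝ) := Nat.cast_nonneg _
    have hS2 : (d : ℝ) * Real.log ((∏ v ∈ S, nm v : ℕ) : ℝ) ≤
        (d : ℝ) * (2 * (A1 * A1) * (1 + L) ^ 2) := mul_le_mul_of_nonneg_left hSl hd0
    have hAr : (A : ℝ) = A1 + (2 * p) ^ e0 + ⌈Real.log C1⌉₊ + 3 * (d * n) * p +
        2 * (d * (A1 * A1)) := by
      rw [hA]
      push_cast
      ring
    have hq1 : ((3 * (d * n) : ℕ) : ℝ) * Real.log p ≤ 3 * (d * n) * p := by
      push_cast
      exact mul_le_mul_of_nonneg_left hlp (by positivity)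
    have hx1 : (⌈Real.log C1⌉₊ : ℝ) ≤ (⌈Real.log C1⌉₊ : ℝ) * (1 + L) ^ 2 :=
      le_mul_of_one_le_right (Nat.cast_nonneg _) h1L
    have hx2 : (3 * (d * n) * p : ℝ) ≤ (3 * (d * n) * p) * (1 + L) ^ 2 :=
      le_mul_of_one_le_right (by positivity) h1L
    have hx3 : 0 ≤ ((A1 : ℝ) + (2 * p) ^ e0) * (1 + L) ^ 2 := by positivity
    rw [hlogD, hAr]
    nlinarith
  · -- the size of `qq`
    have h1 : qn ≤ (2 * p) ^ (e0 * (E.card + 1)) := by
      have h2 : ∀ k, p ^ k ≤ (2 * p) ^ k := fun k => Nat.pow_le_pow_left (by omega) k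
      have h3 : 2 ^ S.card ≤ (2 * p) ^ S.card := Nat.pow_le_pow_left (by omega) _
      have h4 : qn ≤ (2 * p) ^ (u * ((2 * p) ^ c0 * (2 * S.card + n + 1)) + u * c0) *
          (2 * p) ^ (N * (d * S.card + d * n)) * (2 * p) ^ S.card := by
        rw [hqn]
        exact Nat.mul_le_mul (Nat.mul_le_mul (h2 _) (h2 _)) h3
      refine h4.trans ?_
      rw [← pow_add, ← pow_add]
      refine Nat.pow_le_pow_right (by omega) ?_
      obtain ⟨k, hk⟩ : ∃ k, k = E.card + 1 := ⟨_, rfl⟩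
      rw [← hk] at hScard ⊢
      have hk1 : 1 ≤ k := by omega
      have h5 : 2 * S.card + n + 1 ≤ (2 * A1 + n + 1) * k := by nlinarith
      have h6 : u * ((2 * p) ^ c0 * (2 * S.card + n + 1)) ≤
          u * ((2 * p) ^ c0 * ((2 * A1 + n + 1) * k)) :=
        Nat.mul_le_mul_left _ (Nat.mul_le_mul_left _ h5)
      have h7 : u * c0 ≤ u * c0 * k := Nat.le_mul_of_pos_right _ hk1
      have h8 : d * S.card + d * n ≤ (d * A1 + d * n) * k := by
        have h9 : d * S.card ≤ d * (A1 * k) := Nat.mul_le_mul_left _ hScard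
        have h10 : d * n ≤ d * n * k := Nat.le_mul_of_pos_right _ hk1
        calc d * S.card + d * n ≤ d * (A1 * k) + d * n * k := Nat.add_le_add h9 h10
          _ = (d * A1 + d * n) * k := by ring
      have h9 : N * (d * S.card + d * n) ≤ N * ((d * A1 + d * n) * k) := Nat.mul_le_mul_left _ h8
      calc u * ((2 * p) ^ c0 * (2 * S.card + n + 1)) + u * c0 + N * (d * S.card + d * n) + S.card ≤
          u * ((2 * p) ^ c0 * ((2 * A1 + n + 1) * k)) + u * c0 * k +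
            N * ((d * A1 + d * n) * k) + A1 * k := by omega
        _ = e0 * k := by rw [he0]; ring
    have h2 : qn ≤ A ^ (E.card + 1) := by
      refine h1.trans ?_
      rw [pow_mul]
      exact Nat.pow_le_pow_left (by omega) _
    exact_mod_cast h2

theorem exi {p u w N : ℕ} {R Q : Type} [Group R] [Group Q] [Finite R] [Fintype Q]
    (Dg : MG p u w N R Q) {P0 : Type} [Group P0] [Finite P0] (hP : IsPGroup p P0) (f : Q →* P0)
    (hf : ∀ j, f.ker ≤ Dg.H j) (K : Type) [Field K] [NumberField K] (Ω : Type) [Field Ω]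
    [Algebra K Ω] [IsAlgClosure K Ω] {ζ : K} (hp : p.Prime) (hp2 : MOne p K)
    (hζ : IsPrimitiveRoot ζ p) (hz : Z2 p K) :
    ∃ (T00 : Finset (Pl K)) (A : ℕ), (∀ v, Above p v → v ∈ T00) ∧ 1 ≤ A ∧
      ∀ (φQ : Gal(Ω/K) →* Q), H38.ML.FT φQ → Function.Surjective φQ →
      ∀ (P : DP K Ω) (E : Finset (Pl K)), T00 ⊆ E →
      (∀ v, v ∉ E → ∀ τ ∈ (P.P v).inertia Gal(Ω/K), φQ τ = 1) →
      ∃ (X : AD Dg K Ω ζ) (_ : Fintype (Co X)) (D qq : ℝ), X.φQ = φQ ∧ X.P = P ∧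
        LQ X.L X.P ∧ E ⊆ X.D.S0 ∧
        X.D.S0.card ≤ A * (E.card + 1) ∧
        (∏ v ∈ X.D.S0, nm v) ≤ (A * ∏ v ∈ E, nm v) ^ (A * (E.card + 1)) ∧
        FI X (Fintype.card Q) D qq ∧
        Real.log D ≤ A * (1 + Real.log (∏ v ∈ E, (nm v : ℝ))) ^ 2 ∧
        qq ≤ (A : ℝ) ^ (E.card + 1) := by
  refine exi0 Dg (hP.to_subgroup f.range) f.rangeRestrict f.rangeRestrict_surjective ?_ K Ω hp hp2 hζ hz
  intro j
  rw [MonoidHom.ker_rangeRestrict]
  exact hf j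

end H1.AR
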