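import Pool.Agent.H1.AR.Defs

/-!
# [H1 AR FLD] the fields `F j`, Kummer characters extended by zero, 80-150 lines. File Pool/Agent/H1/AR/Fld.lean

* `fld_range`: `rsK` is `AlgEquiv.restrictScalarsHom`; an element of `Gal(Ω/K)` is the restriction of scalars of an element of `Gal(Ω/F)` iff it fixes `F` pointwise
  (`IntermediateField.mem_fixingSubgroup_iff`; build the `F`-linear automorphism from `σ` by `AlgEquiv.ofRingEquiv`, see `bca_range`, `bca_lin` in H57/BRA/Bca.lean), then `X.fix`.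
* `fld_clo`: `bca_clo K (X.F j) Ω`.
* `fld_zeta`: `hζ.map_of_injective`. `fld_mone`: `mone_map`. `fld_z2`: `z2_map` (H57/BRA, used in H89/BRG/BRG.lean).
* `kx_apply`: `dif_pos`, `rsK_inj`. `kx_mul`: by `fld_range` both are restrictions, `kk_mul`. `kx_arg`: if `σ` is in the range: `kk_mul_arg` (instance `fld_clo`), else `0`.
  `kx_pow`: `kk_eq_zero_iff`. `kx_lev`: `kk p ζ x : Gal(Ω/F j) → ZMod p` is of finite level (`kc_is`, `FT`), `bca_lev'` gives `f` on `Gal(Ω/K)`; then `kx σ = if φQ σ ∈ H then f σ else 0` is of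
  finite level because `φQ` is of finite type (`X.ft`; compositum of the two fields, see the proof of `brg3d` in H89/BRG/BR3.lean).
-/

set_option autoImplicit false
set_option linter.dupNamespace false

open scoped NumberField
open IsDedekindDomain
open scoped Classical

noncomputable section

namespace H1.AR

open H63.MA H38.BB H38.BG H57.PC H57.BRA H89.BRG

variable {p u w N : ℕ} {R Q : Type} [Group R] [Group Q] {Dg : MG p u w N R Q} {K : Type}
  [Field K] [NumberField K] {Ω : Type} [Field Ω] [Algebra K Ω] [IsAlgClosure K Ω] {ζ : K}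
  (X : AD Dg K Ω ζ)

private theorem fld_lin (E : IntermediateField K Ω) (u : Gal(Ω/K))
    (hu : ∀ x : E, u (algebraMap E Ω x) = algebraMap E Ω x) : ∃ u' : Gal(Ω/E), rsK K E Ω u' = u := by
  refine ⟨AlgEquiv.ofRingEquiv (f := (u : Ω ≃+* Ω)) hu, ?_⟩
  ext x
  rw [rsK_apply]
  rfl

private theorem fld_iff (E : IntermediateField K Ω) (u : Gal(Ω/K)) :
    (∃ u' : Gal(Ω/E), rsK K E Ω u' = u) ↔ u ∈ E.fixingSubgroup := by
  rw [IntermediateField.mem_fixingSubgroup_iff]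
  constructor
  · rintro ⟨u', rfl⟩ x hx
    rw [rsK_apply]
    exact u'.commutes (⟨x, hx⟩ : E)
  · intro h
    exact fld_lin E u fun x => h _ x.2

theorem fld_range (j : Fin N) (σ : Gal(Ω/K)) :
    (∃ σ' : Gal(Ω/(X.F j)), rsK K (X.F j) Ω σ' = σ) ↔ X.φQ σ ∈ Dg.H j :=
  (fld_iff (X.F j) σ).trans (X.fix j σ)

theorem fld_phi (j : Fin N) (σ' : Gal(Ω/(X.F j))) : X.φQ (rsK K (X.F j) Ω σ') ∈ Dg.H j :=
  (fld_range X j _).1 ⟨σ', rfl⟩

theorem fld_clo (j : Fin N) : IsAlgClosure (X.F j) Ω := bca_clo K (X.F j) Ω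

theorem fld_zeta (hζ : IsPrimitiveRoot ζ p) (j : Fin N) :
    IsPrimitiveRoot (algebraMap K (X.F j) ζ) p :=
  hζ.map_of_injective (algebraMap K (X.F j)).injective

theorem fld_mone (hp2 : MOne p K) (j : Fin N) : MOne p (X.F j) := mone_map hp2 _

theorem fld_z2 (hz : Z2 p K) (j : Fin N) : Z2 p (X.F j) := z2_map hz _

theorem kx_apply (j : Fin N) (x : (X.F j)ˣ) (σ' : Gal(Ω/(X.F j))) :
    X.kx j x (rsK K (X.F j) Ω σ') = kk p (algebraMap K (X.F j) ζ) x σ' := by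
  have hex : ∃ τ : Gal(Ω/(X.F j)), rsK K (X.F j) Ω τ = rsK K (X.F j) Ω σ' := ⟨σ', rfl⟩
  unfold AD.kx
  rw [dif_pos hex, rsK_inj hex.choose_spec]

private theorem kx_zero (j : Fin N) (x : (X.F j)ˣ) (σ : Gal(Ω/K))
    (h : ¬ ∃ σ' : Gal(Ω/(X.F j)), rsK K (X.F j) Ω σ' = σ) : X.kx j x σ = 0 := by
  unfold AD.kx
  rw [dif_neg h]

theorem kx_mul (j : Fin N) (x : (X.F j)ˣ) {σ τ : Gal(Ω/K)} (hσ : X.φQ σ ∈ Dg.H j)
    (hτ : X.φQ τ ∈ Dg.H j) : X.kx j x (σ * τ) = X.kx j x σ + X.kx j x τ := by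
  have hc := fld_clo X j
  obtain ⟨σ', rfl⟩ := (fld_range X j σ).2 hσ
  obtain ⟨τ', rfl⟩ := (fld_range X j τ).2 hτ
  rw [← map_mul, kx_apply, kx_apply, kx_apply, kk_mul]

theorem kx_arg (hp : p.Prime) (hζ : IsPrimitiveRoot ζ p) (j : Fin N) (x y : (X.F j)ˣ)
    (σ : Gal(Ω/K)) : X.kx j (x * y) σ = X.kx j x σ + X.kx j y σ := by
  have hc := fld_clo X j
  by_cases h : ∃ σ' : Gal(Ω/(X.F j)), rsK K (X.F j) Ω σ' = σ
  · obtain ⟨σ', rfl⟩ := h
    rw [kx_apply, kx_apply, kx_apply]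
    exact kk_mul_arg hp (fld_zeta X hζ j) x y σ'
  · rw [kx_zero X j _ σ h, kx_zero X j _ σ h, kx_zero X j _ σ h, add_zero]

theorem kx_pow (hp : p.Prime) (hζ : IsPrimitiveRoot ζ p) (j : Fin N) (x : (X.F j)ˣ)
    (σ : Gal(Ω/K)) : X.kx j (x ^ p) σ = 0 := by
  have hc := fld_clo X j
  by_cases h : ∃ σ' : Gal(Ω/(X.F j)), rsK K (X.F j) Ω σ' = σ
  · obtain ⟨σ', rfl⟩ := h
    rw [kx_apply]
    exact (kk_eq_zero_iff hp (fld_zeta X hζ j) (x ^ p)).2 ⟨x, rfl⟩ σ'
  · exact kx_zero X j _ σ h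

theorem kx_lev (hp : p.Prime) (hζ : IsPrimitiveRoot ζ p) (j : Fin N) (x : (X.F j)ˣ) :
    Lev (X.kx j x) := by
  have hc := fld_clo X j
  obtain ⟨M, hM, hMk⟩ := (kc_is (Ω := Ω) hp (fld_zeta X hζ j) x).1
  refine ⟨M.restrictScalars K, ?_, ?_⟩
  · have h1 : FiniteDimensional K (X.F j) := Module.Finite.of_restrictScalars_finite ℚ K (X.F j)
    have h2 : FiniteDimensional K M := Module.Finite.trans (X.F j) M
    exact h2
  · intro σ u hu
    rw [IntermediateField.mem_fixingSubgroup_iff] at hu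
    obtain ⟨u', rfl⟩ := fld_lin (X.F j) u fun y => hu _ (M.algebraMap_mem y)
    have hu' : u' ∈ M.fixingSubgroup := by
      rw [IntermediateField.mem_fixingSubgroup_iff]
      intro y hy
      exact hu y hy
    have hk : kk p (algebraMap K (X.F j) ζ) x u' = 0 := by
      have h3 := hMk hu'
      rw [MonoidHom.mem_ker] at h3
      unfold kk
      rw [h3, toAdd_one]
    by_cases h : ∃ σ' : Gal(Ω/(X.F j)), rsK K (X.F j) Ω σ' = σ
    · obtain ⟨σ', rfl⟩ := h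
      rw [← map_mul, kx_apply, kx_apply, kk_mul, hk, add_zero]
    · rw [kx_zero X j _ σ h, kx_zero X j _ _ ?_]
      rintro ⟨τ, hτ⟩
      apply h
      refine ⟨τ * u'⁻¹, ?_⟩
      rw [map_mul, hτ, map_inv, mul_inv_cancel_right]

end H1.AR
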