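import Pool.Agent.H1.AR.Nta

/-!
# [H1 AR NTB] nontriviality of the phase functions (2): a ramified label, 100-150 lines. File Pool/Agent/H1/AR/Ntb.lean

* `nt1`: `kk Y γ = 0` for all `γ` if `Y` is a `p`-th power (`kk_eq_zero_iff` or `kk_zpow_arg`). Let `b` be as in the hypothesis and `q` with `θ_b . om y_i (act q y_b) ≠ 0` (`¬ Van`), `g` with `φQ g = q` (`X.sur`),
  `τ = g * X.t b * g⁻¹`. `φQ (X.t b) = 1` (`ine_phi`), so `φQ τ = 1` and `τ = rsK γ` (`ine_res` or `fld_range`). `τ` is in the inertia group of `g • PL X b`, a prime over `un b`. So `φ τ = 1` (`isc_all`),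
  `bt b' τ = 0` for `b' ∈ σ`, `b' ≠ b` (`ine_bt`, `un b' ≠ un b`), `bt b τ = act (φQ g) (bt b (t b)) = act q y_b` (`cy_conj`, `ltb_y`). `hh τ = θ_b . om y_i (act q y_b) ≠ 0`. And `kk z γ = ord x z * .. = 0`
  (`ine_kk` at the place `x` of `F i` under `g • PL X b`, which is not in `(X.A i).D.S`: it is over `un b ∉ S0`). `kk_mul_arg`: `kk Y γ ≠ 0`.
-/

set_option autoImplicit false
set_option linter.dupNamespace false

open scoped NumberField Pointwise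
open IsDedekindDomain
open scoped Classical

noncomputable section

namespace H1.AR

open H63.MA H38.BB H38.BG H57.PC H57.BRA H89.BRG

variable {p u w N : ℕ} {R Q : Type} [Group R] [Group Q]
variable [Fintype Q] {Dg : MG p u w N R Q} {K : Type} [Field K] [NumberField K] {Ω : Type}
  [Field Ω] [Algebra K Ω] [IsAlgClosure K Ω] {ζ : K} (X : AD Dg K Ω ζ)

theorem nt1 (hp : p.Prime) (hp2 : MOne p K) (hζ : IsPrimitiveRoot ζ p) {φ : Gal(Ω/K) →* R}
    (hφ : X.IsC φ) (i : Fin N) (κ : Fin (X.A i).D.r → ZMod p) {θ₀ : Fin w → ZMod p}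
    (hθ₀ : Van Dg i i θ₀) (σ : Finset X.Lb) (hσ : ∀ b ∈ σ, X.Gd b)
    (θ : X.Lb → Fin w → ZMod p)
    (h : ∃ b ∈ σ, (∀ b' ∈ σ, X.un b' = X.un b → b' = b) ∧ ¬ Van Dg i b.1 (θ b)) :
    Ntr X i (cf X i κ φ θ₀ σ θ) := by
  obtain ⟨y, z, hy, hz, -, -, hcf⟩ := chc X hp hp2 hζ hφ i κ hθ₀ σ θ
  refine nta X hp hp2 hζ i (Y := y * z) (fun hY => ?_) hcf
  have := fld_clo X i
  obtain ⟨b, hb, hbu, hV⟩ := h
  unfold Van at hV
  push Not at hV
  obtain ⟨q, hq⟩ := hV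
  obtain ⟨g, hg⟩ := X.sur q
  have hGb := hσ b hb
  have hv := un_not X hGb.1
  have hP := ltb_prime X hGb
  have ht := ltb_t X hGb
  have hφt : X.φQ (X.t b) = 1 := ine_phi X hv hP (ltb_under X hGb) ht
  have hP' : (g • PL X b).IsPrime := Ideal.IsPrime.smul g
  have hmem : ∀ x : 𝓞 Ω, x ∈ g • PL X b ↔ g⁻¹ • x ∈ PL X b := fun x =>
    Ideal.mem_pointwise_smul_iff_inv_smul_mem
  have hu : (g • PL X b).under (𝓞 K) = (X.un b).asIdeal := by
    rw [← ltb_under X hGb]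
    ext x
    change algebraMap (𝓞 K) (𝓞 Ω) x ∈ g • PL X b ↔ algebraMap (𝓞 K) (𝓞 Ω) x ∈ PL X b
    rw [hmem]
    have h1 : g⁻¹ • algebraMap (𝓞 K) (𝓞 Ω) x = algebraMap (𝓞 K) (𝓞 Ω) x := by
      apply NumberField.RingOfIntegers.ext
      exact g⁻¹.commutes (x : K)
    rw [h1]
  have hin : g * X.t b * g⁻¹ ∈ (g • PL X b).inertia Gal(Ω/K) := by
    intro x
    change (g * X.t b * g⁻¹) • x - x ∈ g • PL X b
    rw [hmem, smul_sub, mul_smul, mul_smul, inv_smul_smul]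
    exact ht (g⁻¹ • x)
  obtain ⟨γ, hγ, hγin⟩ := ine_res X hv hP' hu hin i
  -- the value of `hh`
  have hbt : X.bt b (g * X.t b * g⁻¹) = Dg.act q (Dg.y b.1) := by
    rw [cy_conj X (bt_cy X hp hζ b) g hφt, ltb_y X hp hζ hGb, hg]
  have hval : hh X φ i θ₀ σ θ (rsK K (X.F i) Ω γ) = dt (θ b) (Dg.om (Dg.y i) (Dg.act q (Dg.y b.1))) := by
    have h3 : Dg.cm (Dg.e (Dg.y i)) 1 = 0 := by
      funext k
      change iv (Dg.c k) (Dg.e (Dg.y i)) 1 = 0
      rw [iv_swap, iv_one_left (Dg.coc k), neg_zero]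
    have h4 : ∀ η : Fin w → ZMod p, dt η 0 = 0 := fun η => by
      unfold dt
      simp
    unfold hh
    rw [hγ, isc_all X hφ hv hP' hu hin, h3, h4, zero_add, Finset.sum_eq_single b]
    · rw [hbt]
    · intro b' hb' hne
      rw [ine_bt X hp hζ hv (hσ b' hb').1 (fun h => hne (hbu b' hb' h)) hP' hu hin, map_zero, h4]
    · intro h
      exact absurd hb h
  -- the character of `z`
  obtain ⟨x, hx, hxv⟩ : ∃ x : Pl (X.F i), (g • PL X b).under (𝓞 (X.F i)) = x.asIdeal ∧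
      Over x (X.un b) := by
    have htow : ∀ a : 𝓞 K, algebraMap (𝓞 K) (𝓞 (X.F i)) a ∈ (g • PL X b).under (𝓞 (X.F i)) ↔
        a ∈ (g • PL X b).under (𝓞 K) := by
      intro a
      change algebraMap (𝓞 (X.F i)) (𝓞 Ω) (algebraMap (𝓞 K) (𝓞 (X.F i)) a) ∈ g • PL X b ↔
        algebraMap (𝓞 K) (𝓞 Ω) a ∈ g • PL X b
      have h1 : algebraMap (𝓞 K) (𝓞 Ω) a =
          algebraMap (𝓞 (X.F i)) (𝓞 Ω) (algebraMap (𝓞 K) (𝓞 (X.F i)) a) := by
        apply NumberField.RingOfIntegers.ext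
        exact IsScalarTower.algebraMap_apply K (X.F i) Ω (a : K)
      rw [h1]
    have hb0 : (g • PL X b).under (𝓞 (X.F i)) ≠ ⊥ := by
      intro h0
      obtain ⟨a, ha, ha0⟩ := Submodule.exists_mem_ne_zero_of_ne_bot (X.un b).ne_bot
      have h1 := (htow a).2 (by rw [hu]; exact ha)
      rw [h0, Ideal.mem_bot] at h1
      exact ha0 (FaithfulSMul.algebraMap_injective (𝓞 K) (𝓞 (X.F i)) (h1.trans (map_zero _).symm))
    refine ⟨⟨(g • PL X b).under (𝓞 (X.F i)), Ideal.IsPrime.under (𝓞 (X.F i)) _, hb0⟩, rfl, ?_⟩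
    unfold Over
    rw [← hu]
    ext a
    exact htow a
  have hxS : x ∉ (X.A i).D.S := by
    intro h
    obtain ⟨v', hv', hxv'⟩ := ((X.A i).hS x).1 h
    rw [below_unique hxv' hxv] at hv'
    exact hv hv'
  have hkz : kk p (algebraMap K (X.F i) ζ) z γ = 0 := by
    rw [ine_kk hp (fld_zeta X hζ i) (fun h => hxS ((X.A i).D.above x h))
      ((X.A i).D.pi_self x hxS) hP' hx hγin, hz x hxS, Int.cast_zero, zero_mul]
  have h5 := (kk_eq_zero_iff (Ω := Ω) hp (fld_zeta X hζ i) (y * z)).2 hY γ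
  rw [kk_mul_arg hp (fld_zeta X hζ i), hkz, add_zero, hy, hval] at h5
  exact hq h5

end H1.AR
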