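import Pool.Agent.H1.AR.ParA

/-!
# [H1 AR PARC] surjectivity of the homomorphism of a family, 60-110 lines. File Pool/Agent/H1/AR/ParC.lean

`I = {x : ∃ σ, φQ σ = 1 ∧ ρ σ = e x}` is a subgroup of `V`, stable under `Q` (conjugate by `ρ γ`, `φQ γ = q`: `X.sur`), so a `ZMod p`-submodule. `ρ` is surjective iff `I = ⊤`: for `r : R` take `γ` with
`φQ γ = π r`; `r (ρ γ)⁻¹ ∈ ker π = e (V)`.
* `par_sur`: (⇐) if `I ≠ ⊤`: `I` contains `y a.1` for `a ∈ g` (`par_t`, `φQ (t a) = 1` by `ine_phi`, `ltb_t`), so `Sp` with `M = I` gives `σ` with `φQ σ = 1` and `φ σ ∉ e (I)`; but `ρ σ = e (bet g σ) φ σ`,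
  `bet g σ ∈ I` (`par_mem`) and `ρ σ = e x` with `x ∈ I` (as `π (ρ σ) = φQ σ = 1`, `Dg.eker`), so `φ σ = e (x - bet g σ) ∈ e (I)`, a contradiction. (⇒) let `M` be as in `Sp`, `M ≠ ⊤`, `y ∈ M` for the classes of
  `g`. Take `x ∉ M` and `σ` with `φQ σ = 1`, `ρ σ = e x` (surjectivity: `σ` with `ρ σ = e x` has `φQ σ = π (e x) = 1`): `φ σ = e (x - bet g σ)`, `x - bet g σ ∉ M` (`par_mem`), `Dg.einj`.
-/

set_option autoImplicit false
set_option linter.dupNamespace false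

open scoped NumberField
open IsDedekindDomain
open scoped Classical

noncomputable section

namespace H1.AR

open H63.MA H38.BB H38.BG H57.PC H57.BRA H89.BRG

variable {p u w N : ℕ} {R Q : Type} [Group R] [Group Q] [Fintype Q]
  {Dg : MG p u w N R Q} {K : Type} [Field K] [NumberField K] {Ω : Type} [Field Ω] [Algebra K Ω]
  [IsAlgClosure K Ω] {ζ : K} (X : AD Dg K Ω ζ)

private theorem pc_neg (x : Fin u → ZMod p) : Dg.e (-x) = (Dg.e x)⁻¹ := by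
  apply eq_inv_of_mul_eq_one_left
  rw [← Dg.eadd, neg_add_cancel, e_zero]

private theorem pc_pi (x : Fin u → ZMod p) : Dg.π (Dg.e x) = 1 := (Dg.eker _).2 ⟨x, rfl⟩

private theorem pc_rho {φ ρ : Gal(Ω/K) →* R} (hφ : X.IsC φ) {g : Finset X.Lb}
    (hρ : Dg.Tw φ (X.bet g) ρ) (σ : Gal(Ω/K)) : Dg.π (ρ σ) = X.φQ σ := by
  rw [hρ σ, map_mul, pc_pi, one_mul, hφ.pi]

private theorem pc_sub {φ ρ : Gal(Ω/K) →* R} {g : Finset X.Lb} (hρ : Dg.Tw φ (X.bet g) ρ)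
    {σ : Gal(Ω/K)} {x : Fin u → ZMod p} (h : ρ σ = Dg.e x) : φ σ = Dg.e (x - X.bet g σ) := by
  have h1 := hρ σ
  rw [h] at h1
  have h2 : φ σ = (Dg.e (X.bet g σ))⁻¹ * Dg.e x := by
    rw [h1, inv_mul_cancel_left]
  rw [h2, ← pc_neg, ← Dg.eadd]
  congr 1
  abel

private theorem pc_I (hp : p.Prime) (hζ : IsPrimitiveRoot ζ p) {φ ρ : Gal(Ω/K) →* R} (hφ : X.IsC φ)
    {g : Finset X.Lb} (hg : X.Ok g) (hρ : Dg.Tw φ (X.bet g) ρ) :
    ∃ I : Submodule (ZMod p) (Fin u → ZMod p), (∀ x, x ∈ I ↔ ∃ σ, X.φQ σ = 1 ∧ ρ σ = Dg.e x) ∧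
      (∀ q, ∀ x ∈ I, Dg.act q x ∈ I) ∧ (∀ a ∈ g, Dg.y a.1 ∈ I) ∧
      ∀ σ, X.φQ σ = 1 → ∃ z ∈ I, φ σ = Dg.e z := by
  obtain ⟨S, hS⟩ : ∃ S : AddSubgroup (Fin u → ZMod p),
      ∀ x, x ∈ S ↔ ∃ σ, X.φQ σ = 1 ∧ ρ σ = Dg.e x := by
    refine ⟨{ carrier := {x | ∃ σ, X.φQ σ = 1 ∧ ρ σ = Dg.e x}
              add_mem' := ?_
              zero_mem' := ?_
              neg_mem' := ?_ }, fun x => Iff.rfl⟩
    · rintro a b ⟨σ, h1, h2⟩ ⟨τ, h3, h4⟩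
      exact ⟨σ * τ, by rw [map_mul, h1, h3, one_mul], by rw [map_mul, h2, h4, Dg.eadd]⟩
    · exact ⟨1, map_one _, by rw [map_one, e_zero]⟩
    · rintro a ⟨σ, h1, h2⟩
      exact ⟨σ⁻¹, by rw [map_inv, h1, inv_one], by rw [map_inv, h2, pc_neg]⟩
  have hI : ∀ x, x ∈ AddSubgroup.toZModSubmodule p S ↔ ∃ σ, X.φQ σ = 1 ∧ ρ σ = Dg.e x := fun x => by
    rw [AddSubgroup.mem_toZModSubmodule]
    exact hS x
  have hQ : ∀ q, ∀ x ∈ AddSubgroup.toZModSubmodule p S, Dg.act q x ∈ AddSubgroup.toZModSubmodule p S := by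
    intro q x hx
    rw [hI] at hx ⊢
    obtain ⟨σ, h1, h2⟩ := hx
    obtain ⟨γ, hγ⟩ := X.sur q
    refine ⟨γ * σ * γ⁻¹, ?_, ?_⟩
    · rw [map_mul, map_mul, h1, mul_one, map_inv, mul_inv_cancel]
    · rw [map_mul, map_mul, h2, map_inv, Dg.conj, pc_rho X hφ hρ, hγ]
  have hy : ∀ a ∈ g, Dg.y a.1 ∈ AddSubgroup.toZModSubmodule p S := by
    intro a ha
    rw [hI]
    have hGd := hg.1 a ha
    exact ⟨X.t a, ine_phi X (un_not X hGd.1) (ltb_prime X hGd) (ltb_under X hGd) (ltb_t X hGd),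
      par_t X hp hζ hφ hg hρ ha⟩
  refine ⟨AddSubgroup.toZModSubmodule p S, hI, hQ, hy, fun σ hσ => ?_⟩
  obtain ⟨x, hx⟩ := (Dg.eker (ρ σ)).1 (by rw [pc_rho X hφ hρ, hσ])
  refine ⟨x - X.bet g σ, sub_mem ?_ (par_mem X g _ hQ hy σ), pc_sub X hρ hx.symm⟩
  rw [hI]
  exact ⟨σ, hσ, hx.symm⟩

theorem par_sur (hp : p.Prime) (hζ : IsPrimitiveRoot ζ p) {φ ρ : Gal(Ω/K) →* R} (hφ : X.IsC φ)
    {g : Finset X.Lb} (hg : X.Ok g) (hρ : Dg.Tw φ (X.bet g) ρ) :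
    Function.Surjective ρ ↔ X.Sp φ (g.image Sigma.fst) := by
  constructor
  · intro hs M hM hMt hj
    obtain ⟨x, hx⟩ : ∃ x, x ∉ M := by
      by_contra hcon
      push Not at hcon
      exact hMt (Submodule.eq_top_iff'.2 hcon)
    obtain ⟨σ, hσ⟩ := hs (Dg.e x)
    have h1 : X.φQ σ = 1 := by
      rw [← pc_rho X hφ hρ σ, hσ, pc_pi]
    refine ⟨σ, h1, fun m hm hem => hx ?_⟩
    rw [pc_sub X hρ hσ] at hem
    have h2 := Dg.einj hem
    have h3 : x = m + X.bet g σ := by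
      rw [h2]
      abel
    rw [h3]
    exact add_mem hm (par_mem X g M hM (fun a ha => hj _ (Finset.mem_image_of_mem _ ha)) σ)
  · intro hSp
    obtain ⟨I, hI, hQ, hy, hφI⟩ := pc_I X hp hζ hφ hg hρ
    have htop : I = ⊤ := by
      by_contra hne
      obtain ⟨σ, h1, h2⟩ := hSp I hQ hne (fun j hj => by
        obtain ⟨a, ha, rfl⟩ := Finset.mem_image.1 hj
        exact hy a ha)
      obtain ⟨z, hz, hz2⟩ := hφI σ h1
      exact h2 z hz hz2.symm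
    intro r
    obtain ⟨γ, hγ⟩ := X.sur (Dg.π r)
    obtain ⟨x, hx⟩ := (Dg.eker (r * (ρ γ)⁻¹)).1 (by
      rw [map_mul, map_inv, pc_rho X hφ hρ, hγ, mul_inv_cancel])
    obtain ⟨σ, h1, h2⟩ := (hI x).1 (by rw [htop]; exact Submodule.mem_top)
    refine ⟨σ * γ, ?_⟩
    rw [map_mul, h2, hx, inv_mul_cancel_right]

/-- (N2'): a small family and classes which generate -/
theorem par_n2 (hp : p.Prime) (hζ : IsPrimitiveRoot ζ p) {φ ρ : Gal(Ω/K) →* R} (hφ : X.IsC φ)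
    {g : Finset X.Lb} (hg : X.Ok g) (hρ : Dg.Tw φ (X.bet g) ρ) (J : Finset (Fin N))
    (hs : X.Sp φ (g.image Sigma.fst ∪ J)) (i : Fin N) (θ : Fin w → ZMod p)
    (hJ : ∀ j ∈ J, ∀ q, dt θ (Dg.om (Dg.y i) (Dg.act q (Dg.y j))) = 0)
    (hθ : ∃ x, dt θ (Dg.om (Dg.y i) x) ≠ 0) :
    ∃ σ x, X.φQ σ = 1 ∧ ρ σ = Dg.e x ∧ dt θ (Dg.om (Dg.y i) x) ≠ 0 := by
  by_contra hcon
  push Not at hcon
  obtain ⟨I, hI, hQ, hy, hφI⟩ := pc_I X hp hζ hφ hg hρ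
  have hadd : ∀ a b : Fin w → ZMod p, dt θ (a + b) = dt θ a + dt θ b := by
    intro a b
    unfold dt
    rw [← Finset.sum_add_distrib]
    exact Finset.sum_congr rfl fun k _ => by rw [Pi.add_apply, mul_add]
  have hsmul : ∀ (c : ZMod p) (a : Fin w → ZMod p), dt θ (c • a) = c * dt θ a := by
    intro c a
    unfold dt
    rw [Finset.mul_sum]
    exact Finset.sum_congr rfl fun k _ => by rw [Pi.smul_apply, smul_eq_mul, mul_left_comm]
  obtain ⟨M, hM⟩ : ∃ M : Submodule (ZMod p) (Fin u → ZMod p),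
      ∀ x, x ∈ M ↔ ∀ q, dt θ (Dg.om (Dg.y i) (Dg.act q x)) = 0 := by
    refine ⟨{ carrier := {x | ∀ q, dt θ (Dg.om (Dg.y i) (Dg.act q x)) = 0}
              add_mem' := ?_
              zero_mem' := ?_
              smul_mem' := ?_ }, fun x => Iff.rfl⟩
    · intro a b ha hb q
      rw [map_add, map_add, hadd, ha q, hb q, add_zero]
    · intro q
      rw [map_zero, map_zero]
      unfold dt
      simp
    · intro c a ha q
      rw [map_smul, map_smul, hsmul, ha q, mul_zero]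
  have hIM : ∀ x ∈ I, x ∈ M := by
    intro x hx
    rw [hM]
    intro q
    obtain ⟨σ, h1, h2⟩ := (hI _).1 (hQ q x hx)
    exact hcon σ _ h1 h2
  obtain ⟨σ, h1, h2⟩ := hs M (fun q x hx => by
    rw [hM] at hx ⊢
    intro q'
    rw [← Dg.act_mul]
    exact hx _) (fun htop => by
    obtain ⟨x, hx⟩ := hθ
    have h1 := (hM x).1 (by rw [htop]; exact Submodule.mem_top) 1
    rw [Dg.act_one] at h1
    exact hx h1) (fun j hj => by
    rcases Finset.mem_union.1 hj with hj | hj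
    · obtain ⟨a, ha, rfl⟩ := Finset.mem_image.1 hj
      exact hIM _ (hy a ha)
    · rw [hM]
      exact hJ j hj)
  obtain ⟨z, hz, hz2⟩ := hφI σ h1
  exact h2 z (hIM z hz) hz2.symm

end H1.AR
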