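import Pool.Agent.H1.AR.Nta
import Pool.Agent.H1.AR.ParC

/-!
# [H1 AR NTC] nontriviality of the phase functions (3): surjectivity, 80-120 lines. File Pool/Agent/H1/AR/Ntc.lean

* `nt2` (`κ = 0`, so `z = 1`): `ρ` the twist of `φ` by `bet σ` (`tws`); `hh γ = θ₀ . cm (e y_i) (ρ γ)` for `γ ∈ Gal(Ω/F i)`: `cm (e y_i) (e x * r) = om y_i x + cm (e y_i) r` (`cm_mul`, `cm_e`,
  `π (e x) = 1`), `x = bet σ γ = ∑ bt b γ`. `par_n2` with `J` gives `γ₀, x` with `φQ γ₀ = 1`, `ρ γ₀ = e x`, `θ₀ . om y_i x ≠ 0`: `hh γ₀ ≠ 0` (`γ₀` is a restriction by `fld_range`), so `y` is not a `p`-th power.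
-/

set_option autoImplicit false
set_option linter.dupNamespace false

open scoped NumberField Pointwise
open IsDedekindDomain
open scoped Classical

noncomputable section

namespace H1.AR

open H63.MA H38.BB H38.BG H57.PC H57.BRA H89.BRG

variable {p u w N : ℕ} {R Q : Type} [Group R] [Group Q]
variable [Fintype Q] {Dg : MG p u w N R Q} {K : Type} [Field K] [NumberField K] {Ω : Type}
  [Field Ω] [Algebra K Ω] [IsAlgClosure K Ω] {ζ : K} (X : AD Dg K Ω ζ)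

private theorem ntc_add (θ a b : Fin w → ZMod p) : dt θ (a + b) = dt θ a + dt θ b := by
  unfold dt
  rw [← Finset.sum_add_distrib]
  exact Finset.sum_congr rfl fun k _ => by rw [Pi.add_apply, mul_add]

private theorem ntc_sum {ι : Type} (θ : Fin w → ZMod p) (s : Finset ι) (f : ι → Fin w → ZMod p) :
    dt θ (∑ b ∈ s, f b) = ∑ b ∈ s, dt θ (f b) := by
  induction s using Finset.induction_on with
  | empty => simp [dt]
  | insert a s ha ih => rw [Finset.sum_insert ha, Finset.sum_insert ha, ntc_add, ih]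

private theorem ntc_pi (Dg : MG p u w N R Q) (x : Fin u → ZMod p) : Dg.π (Dg.e x) = 1 :=
  (Dg.eker _).2 ⟨x, rfl⟩

private theorem ntc_hh {φ ρ : Gal(Ω/K) →* R} (hφ : X.IsL φ) (i : Fin N) (θ₀ : Fin w → ZMod p)
    (σ : Finset X.Lb) (hρ : Dg.Tw φ (X.bet σ) ρ) {γ : Gal(Ω/K)} (hγ : X.φQ γ ∈ Dg.H i) :
    hh X φ i θ₀ σ (fun _ => θ₀) γ = dt θ₀ (Dg.cm (Dg.e (Dg.y i)) (ρ γ)) := by
  rw [hρ γ, cm_mul Dg i (by rw [ntc_pi]; exact one_mem _) (by rw [hφ.pi]; exact hγ), cm_e,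
    ntc_add]
  unfold hh AD.bet
  rw [map_sum, ntc_sum, add_comm]

theorem nt2 (hp : p.Prime) (hp2 : MOne p K) (hζ : IsPrimitiveRoot ζ p) {φ : Gal(Ω/K) →* R}
    (hφ : X.IsC φ) (i : Fin N) {θ₀ : Fin w → ZMod p} (hθ : ∃ x, dt θ₀ (Dg.om (Dg.y i) x) ≠ 0)
    (σ : Finset X.Lb) (hσ : X.Ok σ) (J : Finset (Fin N)) (hiJ : i ∈ J)
    (hJ : ∀ j ∈ J, Van Dg i j θ₀) (hs : X.Sp φ (σ.image Sigma.fst ∪ J)) :
    Ntr X i (cf X i 0 φ θ₀ σ fun _ => θ₀) := by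
  have hc := fld_clo X i
  obtain ⟨y, z, hy, -, -, hz, hf⟩ := chc X hp hp2 hζ hφ i 0 (hJ i hiJ) σ (fun _ => θ₀)
  obtain ⟨ρ, hρ, -⟩ := tws X hφ.toIsL (bet_cy X hp hζ σ)
  obtain ⟨γ, x, h1, h2, h3⟩ := par_n2 X hp hζ hφ hσ hρ J hs i θ₀ hJ hθ
  have hγ : X.φQ γ ∈ Dg.H i := by
    rw [h1]
    exact one_mem _
  obtain ⟨γ', hγ'⟩ := (fld_range X i γ).2 hγ
  refine nta X hp hp2 hζ i (Y := y * z) ?_ hf
  rw [hz rfl, mul_one]
  intro hpow
  apply h3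
  have h4 := hy γ'
  rw [hγ', ntc_hh X hφ.toIsL i θ₀ σ hρ hγ, h2, cm_e,
    (kk_eq_zero_iff hp (fld_zeta X hζ i) y).2 hpow γ'] at h4
  exact h4.symm

end H1.AR
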