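import Pool.Agent.H57.BRA.Ltr

/-!
# [H1 AR LT2] commutators of a Frobenius element and an inertia element at any prime over `v`, 80-120 lines. File Pool/Agent/H1/AR/Lt2.lean

Refinement of `ltr` (H57/BRA/Ltr.lean): the proof of `ltr` with `k = 1` (`F'` is a Frobenius element, not only a power) and with the exponent `j` known: in `ltr`, `ρ (g⁻¹ τ' g) = ρ L.t ^ j`
with `j = (kk p ζ π (g⁻¹ τ' g)).val` (`tm`, H38/BG), and `kk p ζ π (g⁻¹ τ' g) = kk p ζ π τ'` (`kk` is a homomorphism into a commutative group: `kk_mul`, `kk_one`), so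
`iv e (ρ F') (ρ τ') = 1 * j * iv e (ρ F) (ρ L.t)` and `(j : ZMod p) = kk p ζ π τ'` (`ZMod.natCast_zmod_val`, needs `NeZero p`). Copy the proof of `ltr` (its private lemmas are not needed: `ltr_conj`,
`ltr_pow` are public).
* `lt2_pow`: the same for the value: `ρ τ' = (ρ g) (ρ L.t) ^ (kk p ζ π τ').val (ρ g)⁻¹` with one `g` for all finite groups: `g` depends only on `P'`.
-/

set_option autoImplicit false

open scoped NumberField Pointwise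
open IsDedekindDomain

noncomputable section

namespace H1.AR

open H63.MA H38.BB H38.BG H57.PC H57.BRA

variable {K : Type} [Field K] [NumberField K] {Ω : Type} [Field Ω] [Algebra K Ω] [IsAlgClosure K Ω]
  {p : ℕ} {ζ : K}

theorem lt2 (hp : p.Prime) (hζ : IsPrimitiveRoot ζ p) {R : Type} [Group R]
    [Finite R] {e : R → R → ZMod p} (he : Coc p e) {ρ : Gal(Ω/K) →* R} (hρ : H38.ML.FT ρ)
    {v : Pl K} (hv : ¬ Above p v) {π : Kˣ} (hπ : ord v π = 1) (L : LD p ζ Ω v π) {F : Gal(Ω/K)}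
    (hF : IsFr L F) (htm : Tm e ρ L.P) {P' : Ideal (𝓞 Ω)} (hP' : P'.IsPrime)
    (h' : P'.under (𝓞 K) = v.asIdeal) {F' : Gal(Ω/K)} (hF' : ∀ x : 𝓞 Ω, F' • x - x ^ nm v ∈ P')
    {τ' : Gal(Ω/K)} (hτ' : τ' ∈ P'.inertia Gal(Ω/K)) :
    ρ F' * ρ τ' = ρ τ' * ρ F' ∧
      iv e (ρ F') (ρ τ') = kk p ζ π τ' * iv e (ρ F) (ρ L.t) := by
  obtain ⟨g, hg⟩ := ltr_conj L.prime hP' L.under h'
  have hinr : ∀ τ' ∈ P'.inertia Gal(Ω/K), g⁻¹ * τ' * g ∈ L.P.inertia Gal(Ω/K) := by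
    intro τ' hτ' x
    have h1 : (g⁻¹ * τ' * g) • x - x = g⁻¹ • (τ' • (g • x) - g • x) := by
      rw [smul_sub, mul_smul, mul_smul, inv_smul_smul]
    rw [h1]
    exact (hg _).1 (hτ' (g • x))
  have hco : ∀ σ : Gal(Ω/K), ρ σ = ρ g * ρ (g⁻¹ * σ * g) * (ρ g)⁻¹ := by
    intro σ
    rw [← map_inv, ← map_mul, ← map_mul]
    congr 1
    group
  have hF2 : ∀ x : 𝓞 Ω, (g⁻¹ * F' * g) • x - x ^ (nm v ^ 1) ∈ L.P := by
    intro x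
    have h1 : (g⁻¹ * F' * g) • x - x ^ (nm v ^ 1) =
        g⁻¹ • (F' • (g • x) - (g • x) ^ nm v) := by
      rw [smul_sub, mul_smul, mul_smul, smul_pow', inv_smul_smul, pow_one]
    rw [h1]
    exact (hg _).1 (hF' (g • x))
  have hτ1 := ltr_pow L.prime hF.1 1 hF2
  have hpp : ∀ τ ∈ L.P.inertia Gal(Ω/K), ρ τ ^ p = 1 := htm
  obtain ⟨j, hjd, hj⟩ : ∃ j, j = (kk p ζ π (g⁻¹ * τ' * g)).val ∧ ρ (g⁻¹ * τ' * g) = ρ L.t ^ j :=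
    ⟨_, rfl, tm hp hζ hv hπ L ρ hρ hpp _ (hinr τ' hτ')⟩
  obtain ⟨i, hi⟩ : ∃ i, ρ ((F ^ 1)⁻¹ * (g⁻¹ * F' * g)) = ρ L.t ^ i :=
    ⟨_, tm hp hζ hv hπ L ρ hρ hpp _ hτ1⟩
  have hjk : (j : ZMod p) = kk p ζ π τ' := by
    have hp0 : NeZero p := ⟨hp.ne_zero⟩
    have h0 : kk p ζ π g⁻¹ + kk p ζ π g = 0 := by
      rw [← kk_mul, inv_mul_cancel, kk_one]
    rw [hjd, ZMod.natCast_zmod_val, kk_mul, kk_mul]
    linear_combination h0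
  have hc : ρ F * ρ L.t = ρ L.t * ρ F := hF.2.2 R ρ hρ
    (fun τ hτ => by rw [pow_two, pow_mul, hpp τ hτ, one_pow])
  have hF3 : ρ (g⁻¹ * F' * g) = ρ F ^ 1 * ρ L.t ^ i := by
    rw [← hi, ← map_pow, ← map_mul, mul_inv_cancel_left]
  have hC : Commute (ρ F) (ρ L.t) := hc
  have hC1 : Commute (ρ F ^ 1) (ρ L.t ^ j) := (hC.pow_left 1).pow_right j
  have hC2 : Commute (ρ L.t ^ i) (ρ L.t ^ j) := (Commute.refl _).pow_pow i j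
  have hC3 : Commute (ρ F ^ 1 * ρ L.t ^ i) (ρ L.t ^ j) := hC1.mul_left hC2
  have hC4 : Commute (ρ F) (ρ L.t ^ j) := hC.pow_right j
  have hiv : iv e (ρ F ^ 1 * ρ L.t ^ i) (ρ L.t ^ j) = kk p ζ π τ' * iv e (ρ F) (ρ L.t) := by
    rw [iv_mul_left he hC1 hC2, iv_self_pow he, add_zero, iv_pow_left he hC4,
      iv_pow_right he hc, Nat.cast_one, one_mul, hjk]
  refine ⟨?_, ?_⟩
  · rw [hco F', hco τ', hF3, hj]
    have h1 : (ρ F ^ 1 * ρ L.t ^ i) * ρ L.t ^ j = ρ L.t ^ j * (ρ F ^ 1 * ρ L.t ^ i) := hC3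
    calc ρ g * (ρ F ^ 1 * ρ L.t ^ i) * (ρ g)⁻¹ * (ρ g * ρ L.t ^ j * (ρ g)⁻¹)
        = ρ g * ((ρ F ^ 1 * ρ L.t ^ i) * ρ L.t ^ j) * (ρ g)⁻¹ := by group
      _ = ρ g * (ρ L.t ^ j * (ρ F ^ 1 * ρ L.t ^ i)) * (ρ g)⁻¹ := by rw [h1]
      _ = _ := by group
  · rw [hco F', hco τ', hF3, hj, iv_conj he hC3, hiv]

theorem lt2_pow (hp : p.Prime) (hζ : IsPrimitiveRoot ζ p) {v : Pl K} (hv : ¬ Above p v) {π : Kˣ}
    (hπ : ord v π = 1) (L : LD p ζ Ω v π) {P' : Ideal (𝓞 Ω)} (hP' : P'.IsPrime)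
    (h' : P'.under (𝓞 K) = v.asIdeal) : ∃ g : Gal(Ω/K), (∀ x : 𝓞 Ω, x ∈ P' ↔ g⁻¹ • x ∈ L.P) ∧
    ∀ (R : Type) [Group R] [Finite R] (ρ : Gal(Ω/K) →* R), H38.ML.FT ρ →
      (∀ τ ∈ L.P.inertia Gal(Ω/K), ρ τ ^ p = 1) → ∀ τ' ∈ P'.inertia Gal(Ω/K),
        ρ τ' = ρ g * ρ L.t ^ (kk p ζ π τ').val * (ρ g)⁻¹ := by
  obtain ⟨g, hg⟩ := ltr_conj L.prime hP' L.under h'
  refine ⟨g, hg, ?_⟩
  intro R _ _ ρ hρ hpp τ' hτ'
  have hinr : g⁻¹ * τ' * g ∈ L.P.inertia Gal(Ω/K) := by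
    intro x
    have h1 : (g⁻¹ * τ' * g) • x - x = g⁻¹ • (τ' • (g • x) - g • x) := by
      rw [smul_sub, mul_smul, mul_smul, inv_smul_smul]
    rw [h1]
    exact (hg _).1 (hτ' (g • x))
  have h0 : kk p ζ π g⁻¹ + kk p ζ π g = 0 := by
    rw [← kk_mul, inv_mul_cancel, kk_one]
  have h1 : kk p ζ π (g⁻¹ * τ' * g) = kk p ζ π τ' := by
    rw [kk_mul, kk_mul]
    linear_combination h0
  have h2 := tm hp hζ hv hπ L ρ hρ hpp _ hinr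
  rw [h1] at h2
  rw [← h2, ← map_inv, ← map_mul, ← map_mul]
  congr 1
  group

end H1.AR
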