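import Pool.Agent.H1.AR.Sty
import Pool.Agent.H1.AR.Ltb
import Pool.Agent.H1.AR.Lt2
import Pool.Agent.H1.AR.Tws
import Pool.Agent.H48.MF.Brf

/-!
# [H1 AR RES] the reciprocity law (R): the sum of the local values depends only on the total classes, 120-180 lines. File Pool/Agent/H1/AR/Res.lean

* `res_loc`: `a ∈ g`, `v = un a` (`v ∉ S0`: `un_not`), `P' = PL X a` over `v` (`ltb_prime`, `ltb_under`). `lt2` with `e = Dg.c k`, `L = X.L.ld v _`, `π = X.D.pi v` (`X.D.pi_self`), `F = X.Fr.F v`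
  (`isFr_of hp hζ hz X.Fr v _`, see brg3f), `htm` from `par_pow`, `F' = X.fb a` (`ltb_fb`), `τ' = X.t a` (`ltb_t`); `kk p ζ π (X.t a) = ord v π = 1` (`ltb_pik`), `ρ (X.t a) = e y` (`par_t`). So
  `iv (ρ (fb a)) (e y) = iv (ρ (F v)) (ρ (t v))`, and `ev ρ a k = iv (c k) (e y) (ρ (fb a)) = - iv (ρ (fb a)) (e y)` (`iv_swap`).
* `res`: `funext k`. `lam` from `exists_rec_one K hp hp2 hζ`. `brg3df` with `Q = X.P`, `Fr = X.Fr`, `T = g.image un ∪ g'.image un`: `hS` from `sty` (`r = e m`), `htm` from `par_pow` (for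
  `τ ∈ inr X.L v`: `inr` is the inertia group of `(X.L.ld v hv).P`, `dif_pos`), `hT` from `un_not`, `hur` from `par_ur` for `X.L.t v` (it is in the inertia group of `(X.L.ld v hv).P`).
  In `∑ v ∈ T, lam v * iv (ρ (F v)) (ρ (t v))` the terms with `v ∉ g.image un` are `0` (`ρ (t v) = 1`, `iv e r 1 = 0` by `Dg.coc`: `l1, r1`); `un` is injective on `g` (`X.Ok`), `lam (un a) = 1`
  because `nm (un a) = nm a.2` is prime (`ltb_nm`, `ltb_na`): the sum is `∑ a ∈ g, iv (ρ (F (un a))) (ρ (t (un a))) = - ∑ a ∈ g, ev ρ a k`.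
-/

set_option autoImplicit false
set_option linter.dupNamespace false

open scoped NumberField Pointwise
open IsDedekindDomain
open scoped Classical

noncomputable section

namespace H1.AR

open H63.MA H38.BB H38.BG H57.PC H57.BRA H89.BRG

variable {p u w N : ℕ} {R Q : Type} [Group R] [Group Q] [Fintype Q] {Dg : MG p u w N R Q}
  {K : Type} [Field K] [NumberField K] {Ω : Type} [Field Ω] [Algebra K Ω] [IsAlgClosure K Ω]
  {ζ : K} (X : AD Dg K Ω ζ)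

theorem res_loc [Finite R] (hp : p.Prime) (hζ : IsPrimitiveRoot ζ p) (hz : Z2 p K)
    {φ ρ : Gal(Ω/K) →* R} (hφ : X.IsC φ) {g : Finset X.Lb} (hg : X.Ok g)
    (hρ : Dg.Tw φ (X.bet g) ρ) {a : X.Lb} (ha : a ∈ g) (k : Fin w) :
    X.ev ρ a k = -iv (Dg.c k) (ρ (X.Fr.F (X.un a))) (ρ (X.L.t (X.un a))) := by
  have hG := hg.1 a ha
  have hv := un_not X hG.1
  have hft : H38.ML.FT ρ := (tws_isL X hφ.toIsL (bet_cy X hp hζ g) hρ).ft
  have htm : Tm (Dg.c k) ρ (X.L.ld (X.un a) hv).P := fun τ hτ =>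
    par_pow X hp hζ hφ hρ hv (X.L.ld _ hv).prime (X.L.ld _ hv).under hτ
  obtain ⟨h1, h2⟩ := lt2 hp hζ (Dg.coc k) hft (ltb_na X hG).2 (X.D.pi_self _ hv) (X.L.ld _ hv)
    (isFr_of hp hζ hz X.Fr _ hv) htm (ltb_prime X hG) (ltb_under X hG) (ltb_fb X hG) (ltb_t X hG)
  rw [ltb_pik X hp hζ hG, X.D.pi_self _ hv, Int.cast_one, one_mul,
    par_t X hp hζ hφ hg hρ ha] at h2
  change iv (Dg.c k) (Dg.e (Dg.y a.1)) (ρ (X.fb a)) = _
  rw [iv_swap, h2, LDs.t, dif_pos hv]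

private theorem res_sum [Finite R] (hp : p.Prime) (hζ : IsPrimitiveRoot ζ p) (hz : Z2 p K)
    {φ ρ : Gal(Ω/K) →* R} (hφ : X.IsC φ) {g : Finset X.Lb} (hg : X.Ok g)
    (hρ : Dg.Tw φ (X.bet g) ρ) {lam : Pl K → ZMod p}
    (hone : ∀ v : Pl K, ¬ Above p v → (nm v).Prime → lam v = 1) (T : Finset (Pl K))
    (hT : ∀ v ∈ T, v ∉ X.D.S0) (hgT : ∀ a ∈ g, X.un a ∈ T) (k : Fin w) :
    ∑ v ∈ T, lam v * iv (Dg.c k) (ρ (X.Fr.F v)) (ρ (X.L.t v)) = -∑ a ∈ g, X.ev ρ a k := by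
  rw [← Finset.sum_subset (s₁ := g.image X.un) (fun v hv => by
    obtain ⟨a, ha, rfl⟩ := Finset.mem_image.1 hv
    exact hgT a ha) (fun v hv hvg => by
    have h1 : ρ (X.L.t v) = 1 := by
      rw [LDs.t, dif_pos (hT v hv)]
      exact par_ur X hp hζ hφ hg hρ (hT v hv)
        (fun a ha h => hvg (Finset.mem_image.2 ⟨a, ha, h⟩)) (X.L.ld v (hT v hv)).prime
        (X.L.ld v (hT v hv)).under (X.L.ld v (hT v hv)).ht
    rw [h1, iv_swap, iv_one_left (Dg.coc k), neg_zero, mul_zero])]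
  rw [Finset.sum_image (fun a ha b hb h => by
    by_contra hne
    exact hg.2 a ha b hb hne h), ← Finset.sum_neg_distrib]
  refine Finset.sum_congr rfl fun a ha => ?_
  rw [res_loc X hp hζ hz hφ hg hρ ha k, neg_neg, hone _ (ltb_na X (hg.1 a ha)).2 (by
    rw [← ltb_nm X (hg.1 a ha)]
    exact (hg.1 a ha).2), one_mul]

theorem res [Finite R] (hp : p.Prime) (hp2 : MOne p K) (hζ : IsPrimitiveRoot ζ p) (hz : Z2 p K)
    {φ ρ ρ' : Gal(Ω/K) →* R} (hφ : X.IsC φ) {g g' : Finset X.Lb} (hg : X.Ok g) (hg' : X.Ok g')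
    (hq : ∀ j, X.qt g j = X.qt g' j) (hρ : Dg.Tw φ (X.bet g) ρ) (hρ' : Dg.Tw φ (X.bet g') ρ') :
    ∑ a ∈ g, X.ev ρ a = ∑ a ∈ g', X.ev ρ' a := by
  funext k
  rw [Finset.sum_apply, Finset.sum_apply]
  obtain ⟨lam, hlam, hone⟩ := exists_rec_one K hp hp2 hζ
  have hft : H38.ML.FT ρ := (tws_isL X hφ.toIsL (bet_cy X hp hζ g) hρ).ft
  have hft' : H38.ML.FT ρ' := (tws_isL X hφ.toIsL (bet_cy X hp hζ g') hρ').ft
  have hTn : ∀ v ∈ g.image X.un ∪ g'.image X.un, v ∉ X.D.S0 := by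
    intro v hv
    rcases Finset.mem_union.1 hv with h | h
    · obtain ⟨a, ha, rfl⟩ := Finset.mem_image.1 h
      exact un_not X (hg.1 a ha).1
    · obtain ⟨a, ha, rfl⟩ := Finset.mem_image.1 h
      exact un_not X (hg'.1 a ha).1
  have key := H48.MF.brg3df hp hp2 hζ hz (D := X.D) (L := X.L) X.P X.Fr (Dg.coc k) hft hft'
    (fun v hv => by
      obtain ⟨m, hm⟩ := sty X hp hp2 hζ hφ hg hg' hq hρ hρ' v hv
      exact ⟨Dg.e m, hm⟩)
    (fun v hv τ hτ => by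
      rw [inr, dif_pos hv] at hτ
      exact ⟨par_pow X hp hζ hφ hρ hv (X.L.ld v hv).prime (X.L.ld v hv).under hτ,
        par_pow X hp hζ hφ hρ' hv (X.L.ld v hv).prime (X.L.ld v hv).under hτ⟩)
    (g.image X.un ∪ g'.image X.un) hTn
    (fun v hv hvT => by
      rw [LDs.t, dif_pos hv]
      exact ⟨par_ur X hp hζ hφ hg hρ hv (fun a ha h => hvT (Finset.mem_union_left _
          (Finset.mem_image.2 ⟨a, ha, h⟩))) (X.L.ld v hv).prime (X.L.ld v hv).under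
          (X.L.ld v hv).ht,
        par_ur X hp hζ hφ hg' hρ' hv (fun a ha h => hvT (Finset.mem_union_right _
          (Finset.mem_image.2 ⟨a, ha, h⟩))) (X.L.ld v hv).prime (X.L.ld v hv).under
          (X.L.ld v hv).ht⟩) hlam
  rw [res_sum X hp hζ hz hφ hg hρ hone _ hTn (fun a ha => Finset.mem_union_left _
      (Finset.mem_image.2 ⟨a, ha, rfl⟩)) k,
    res_sum X hp hζ hz hφ hg' hρ' hone _ hTn (fun a ha => Finset.mem_union_right _
      (Finset.mem_image.2 ⟨a, ha, rfl⟩)) k] at key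
  exact neg_injective key

end H1.AR
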