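import Pool.Agent.H1.AR.FrA
import Pool.Agent.H1.AR.Res
import Pool.Agent.H1.AR.ChD
import Pool.Agent.H1.AR.Ntb
import Pool.Agent.H1.AR.Ntc

/-!
# [H1 AR FRM] the frame of `X : AD Dg K Ω ζ` (a term of `H51.MM.Fr`), 120-180 lines. File Pool/Agent/H1/AR/Frm.lean

`FI` are the standing hypotheses and the sizes. `frm0` is the data, the theorems `frm_..` are the axioms (fields of `H51.MM.Fr`), `frm` puts them together (done).
* `frm_rcp`: `tws` gives the twists `ρ, ρ'`; `res`; `frm_E`; `dt` is additive.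
* `frm_chr`: `chd` with `d`; `frm_ch`; the bound by `FI.mod` and `nr (und σ) = ∏ v ∈ und σ, nm v` (real numbers; `H57/LI/Defs.lean`), `und σ = σ.image un`.
* `frm_nt1`, `frm_nt2`, `frm_nt3`: `nt1`, `nt2` (`∃ x` by `th_ann`), `nt3` (`κ ≠ 0` gives `i` with `κ ⟨i, ·⟩ ≠ 0`), `frm_ch`, `frm_gd`.
-/

set_option autoImplicit false
set_option linter.dupNamespace false

open scoped NumberField Pointwise
open IsDedekindDomain NumberField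
open scoped Classical

noncomputable section

namespace H1.AR

open H63.MA H38.BB H38.BG H57.PC H57.BRA H89.BRG H36.QA

variable {p u w N : ℕ} {R Q : Type} [Group R] [Group Q]
variable [Fintype Q] {Dg : MG p u w N R Q} {K : Type} [Field K] [NumberField K] {Ω : Type}
  [Field Ω] [Algebra K Ω] {ζ : K} (X : AD Dg K Ω ζ)

variable [Fintype (Co X)] {d : ℕ} {D qq : ℝ} [IsAlgClosure K Ω]

theorem frm_rcp [Finite R] (hI : FI X d D qq) (c : Co X) (ψ : Fin w → ZMod p)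
    (g g' : Finset X.Lb) (hg : (frm0 X hI.hp d D qq).Ok g) (hg' : (frm0 X hI.hp d D qq).Ok g')
    (h : (frm0 X hI.hp d D qq).tot g = (frm0 X hI.hp d D qq).tot g') :
    ∑ a ∈ g, ψ ⬝ᵥ (frm0 X hI.hp d D qq).E c g a = ∑ a ∈ g', ψ ⬝ᵥ (frm0 X hI.hp d D qq).E c g' a := by
  obtain ⟨ρ, hρ, -⟩ := tws X c.2.toIsL (bet_cy X hI.hp hI.hζ g)
  obtain ⟨ρ', hρ', -⟩ := tws X c.2.toIsL (bet_cy X hI.hp hI.hζ g')
  have h1 := res X hI.hp hI.hp2 hI.hζ hI.hz c.2 ((frm_ok X hI.hp g).1 hg) ((frm_ok X hI.hp g').1 hg')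
    (frm_tot X hI.hp h) hρ hρ'
  have h2 : ∀ (g : Finset X.Lb) (ρ : Gal(Ω/K) →* R), Dg.Tw c.1 (X.bet g) ρ →
      ∑ a ∈ g, ψ ⬝ᵥ (frm0 X hI.hp d D qq).E c g a = dt ψ (∑ a ∈ g, X.ev ρ a) := by
    intro g ρ hρ
    have h3 : dt ψ (∑ a ∈ g, X.ev ρ a) = ∑ a ∈ g, ψ ⬝ᵥ X.ev ρ a := dotProduct_sum _ _ _
    rw [h3]
    exact Finset.sum_congr rfl fun a ha => by
      rw [frm_E X hI.hp c hρ ha]
  rw [h2 g ρ hρ, h2 g' ρ' hρ', h1]

theorem frm_chr (hI : FI X d D qq) (i : Fin N)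
    (κ : (Σ j : Fin N, Fin (X.A j).D.r) → ZMod p) (c : Co X) (θ₀ : Fin w → ZMod p)
    (σ : Finset X.Lb) (θ : X.Lb → Fin w → ZMod p) (hθ : Van Dg i i θ₀)
    (hσ : ∀ b ∈ σ, (frm0 X hI.hp d D qq).Gd b) :
    ∃ (𝔣 : Ideal (𝓞 (X.F i))) (χ : RC (X.F i) 𝔣), 𝔣 ≠ ⊥ ∧
      (Ideal.absNorm 𝔣 : ℝ) ≤ D * nr ((frm0 X hI.hp d D qq).und σ) ^ d ∧
      ∀ a : Pl (X.F i), (frm0 X hI.hp d D qq).Gd ⟨i, a⟩ →
        X.un ⟨i, a⟩ ∉ (frm0 X hI.hp d D qq).und σ →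
        χ.χ a.asIdeal = ep p ((frm0 X hI.hp d D qq).ch κ c θ₀ σ θ ⟨i, a⟩) := by
  obtain ⟨𝔣, χ, h1, h2, h3⟩ := chd X hI.hp hI.hp2 hI.hζ c.2 i (fun k => κ ⟨i, k⟩) hθ σ
    (fun b hb => (frm_gd X hI.hp b).1 (hσ b hb)) θ d (hI.deg i)
  refine ⟨𝔣, χ, h1, ?_, fun a ha hu => ?_⟩
  · have h4 : (Ideal.absNorm 𝔣 : ℝ) ≤ ((p ^ (3 * (d * Module.finrank ℚ K)) * (∏ v ∈ X.D.S0, nm v) ^ d : ℕ) : ℝ) *
        ((∏ v ∈ σ.image X.un, nm v : ℕ) : ℝ) ^ d := by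
      exact_mod_cast h2
    refine h4.trans ?_
    have h5 : ((∏ v ∈ σ.image X.un, nm v : ℕ) : ℝ) = nr ((frm0 X hI.hp d D qq).und σ) := by
      unfold nr
      push_cast
      rfl
    rw [h5]
    refine mul_le_mul_of_nonneg_right hI.mod ?_
    rw [← h5]
    positivity
  · rw [frm_ch X hI.hp κ c θ₀ σ θ i a]
    exact h3 a ((frm_gd X hI.hp ⟨i, a⟩).1 ha) hu

theorem frm_nt1 (hI : FI X d D qq) (i : Fin N)
    (κ : (Σ j : Fin N, Fin (X.A j).D.r) → ZMod p) (c : Co X) (θ₀ : Fin w → ZMod p)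
    (σ : Finset X.Lb) (θ : X.Lb → Fin w → ZMod p) (hθ : Van Dg i i θ₀)
    (hσ : ∀ b ∈ σ, (frm0 X hI.hp d D qq).Gd b)
    (h : ∃ b ∈ σ, (∀ b' ∈ σ, X.un b' = X.un b → b' = b) ∧ ¬ Van Dg i b.1 (θ b)) :
    (frm0 X hI.hp d D qq).NT i ((frm0 X hI.hp d D qq).ch κ c θ₀ σ θ) := by
  refine (frm_nt X hI.hp i _).2 ?_
  have h1 := nt1 X hI.hp hI.hp2 hI.hζ c.2 i (fun k => κ ⟨i, k⟩) hθ σ
    (fun b hb => (frm_gd X hI.hp b).1 (hσ b hb)) θ h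
  have h2 : (fun z => (frm0 X hI.hp d D qq).ch κ c θ₀ σ θ ⟨i, z⟩) =
      cf X i (fun k => κ ⟨i, k⟩) c.1 θ₀ σ θ := funext fun z => frm_ch X hI.hp κ c θ₀ σ θ i z
  exact (congrArg (Ntr X i) h2).mpr h1

theorem frm_nt2 (hI : FI X d D qq) (i : Fin N) (c : Co X) (θ₀ : Fin w → ZMod p)
    (σ : Finset X.Lb) (J : Finset (Fin N)) (h1 : θ₀ ∈ thS Dg hI.hp i) (h2 : θ₀ ≠ 0) (h3 : i ∈ J)
    (h4 : ∀ j ∈ J, Van Dg i j θ₀) (h5 : (frm0 X hI.hp d D qq).Ok σ)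
    (h6 : X.Sp c.1 ((frm0 X hI.hp d D qq).cls σ ∪ J)) :
    (frm0 X hI.hp d D qq).NT i ((frm0 X hI.hp d D qq).ch 0 c θ₀ σ fun _ => θ₀) := by
  refine (frm_nt X hI.hp i _).2 ?_
  have hx : ∃ x, dt θ₀ (Dg.om (Dg.y i) x) ≠ 0 := by
    by_contra hno
    push Not at hno
    exact h2 (th_ann Dg hI.hp i h1 hno)
  have h7 := nt2 X hI.hp hI.hp2 hI.hζ c.2 i hx σ ((frm_ok X hI.hp σ).1 h5) J h3 h4 h6
  have h8 : (fun z => (frm0 X hI.hp d D qq).ch 0 c θ₀ σ (fun _ => θ₀) ⟨i, z⟩) =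
      cf X i 0 c.1 θ₀ σ fun _ => θ₀ := funext fun z => frm_ch X hI.hp 0 c θ₀ σ (fun _ => θ₀) i z
  exact (congrArg (Ntr X i) h8).mpr h7

theorem frm_nt3 (hI : FI X d D qq) (i : Fin N) (κ : (Σ j : Fin N, Fin (X.A j).D.r) → ZMod p) :
    (∀ a : Pl (X.F i), (frm0 X hI.hp d D qq).Gd ⟨i, a⟩ → κ ⬝ᵥ (frm0 X hI.hp d D qq).qv ⟨i, a⟩ = 0) ∨
      (frm0 X hI.hp d D qq).NT i fun a => κ ⬝ᵥ (frm0 X hI.hp d D qq).qv a := by
  have hk : ∀ z : Pl (X.F i), κ ⬝ᵥ (frm0 X hI.hp d D qq).qv ⟨i, z⟩ = ∑ k, κ ⟨i, k⟩ * (X.A i).D.q z k := by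
    intro z
    change ∑ r, κ r * qvec X ⟨i, z⟩ r = _
    rw [Fintype.sum_sigma, Finset.sum_eq_single i]
    · refine Finset.sum_congr rfl fun k _ => ?_
      unfold qvec
      rw [dif_pos rfl]
    · intro j _ hj
      refine Finset.sum_eq_zero fun k _ => ?_
      unfold qvec
      rw [dif_neg (fun h => hj h.symm), mul_zero]
    · intro h
      exact absurd (Finset.mem_univ i) h
  by_cases h : (fun k => κ ⟨i, k⟩) = 0
  · left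
    intro a _
    rw [hk]
    exact Finset.sum_eq_zero fun k _ => by
      have h1 := congrFun h k
      rw [Pi.zero_apply] at h1
      rw [h1, zero_mul]
  · right
    refine (frm_nt X hI.hp i _).2 ?_
    have h1 := nt3 X hI.hp hI.hp2 hI.hζ i h
    have h2 : (fun z => κ ⬝ᵥ (frm0 X hI.hp d D qq).qv ⟨i, z⟩) =
        fun z => ∑ k, κ ⟨i, k⟩ * (X.A i).D.q z k := funext hk
    exact (congrArg (Ntr X i) h2).mpr h1

/-- the frame -/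
def frm [Finite R] (hI : FI X d D qq) : H51.MM.Fr (cdg Dg hI.hp) K where
  toFr0 := frm0 X hI.hp d D qq
  un_over := X.un_over
  Sp_mono := fun c J J' hJ h M hM hMt hj => h M hM hMt fun j hj' => hj j (hJ hj')
  Sp_univ := fun c M hM hMt hj => absurd (Dg.gen M hM fun j => hj j (Finset.mem_univ j)) hMt
  rcp := frm_rcp X hI
  van_s := fun a b θ h => chc_van X a b h
  chr := frm_chr X hI
  nt1 := frm_nt1 X hI
  nt2 := fun i c θ₀ σ J h1 h2 h3 h4 h5 _ h6 => frm_nt2 X hI i c θ₀ σ J h1 h2 h3 h4 h5 h6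
  nt3 := frm_nt3 X hI
  one_le_D := hI.one_le_D
  one_le_qq := hI.one_le_qq
  tc := frm_tc X hI
  deg := hI.deg
  dis := hI.dis
  card_C := hI.card_C
  card_R := by
    have h := hI.card_R
    have h2 : Fintype.card (Σ j : Fin N, Fin (X.A j).D.r) = ∑ j, (X.A j).D.r := by
      rw [Fintype.card_sigma]
      simp
    rw [← h2] at h
    exact h
  card_bad := hI.card_bad

end H1.AR
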