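import Pool.Agent.H1.AR.Cor
import Pool.Agent.H63.BU.UOrd
import Pool.Agent.H57.BRA.Ltr
import Pool.Agent.H57.BRA.Bcp

/-!
# [H1 AR INE] the corestriction on inertia groups, 120-200 lines. File Pool/Agent/H1/AR/Ine.lean

`v ∉ S0`, `P'` a prime of `𝓞 Ω` over `v`, `τ ∈ P'.inertia Gal(Ω/K)`.
* `ine_phi`: `ltr_conj` (H57/BRA/Ltr.lean) with `(X.L.ld v hv).P`: `P' = g P`, `g⁻¹ τ g ∈ inr L v` (`inr` by `dif_pos`), `X.ur`.
* `ine_res`: `τ` fixes `F j` (`fld_range`, `φQ τ = 1`), so `τ = rsK τ'` with `τ' ∈ P'.inertia Gal(Ω/F j)` (`bcp_smul`).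
* `ine_kk` (over any number field `L`, `Ω` an algebraic closure): for a prime `w ∤ p` of `L`, `P'` over `w`, `τ'` in the inertia group of `P'`: `kk x τ' = ord w x * kk π τ'`, `ord w π = 1`:
  this is `ld_kk` (H63/MA/GLoc.lean) for the local data at `P'` (`H63.BU.uord_at` gives `LD` at a given prime `P'`; see H48/KV/LocA.lean).
* `ine_cor`: `r = X.rep j c`: `φQ τ = 1`, so `τ⁻¹ • c = c` and the summand of `cor` is `kx (r⁻¹ τ r) • ..`; `r⁻¹ τ r` is in the inertia group of `P'' = r⁻¹ • P'` (a prime over `v`), `= rsK τ''`, `τ''` in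
  the inertia group of `P''` over `F j`; let `w = P''.under (𝓞 (F j))`, a prime over `v`: `kx = kk x τ'' = ord w x * .. = 0`.
* `ine_bt`: for `b.2 ∉ S`, `un b ≠ v`: `ord w (pi b.2) = 0 mod p` for all `w` over `v` (`RM.pi_ne`: `w ∉ S` by `hS` because `v ∉ S0` (`below_unique`), `w ≠ b.2`).
* `un_not`: `b.2 ∉ S` implies `un b ∉ S0` (`hS`, `un_over`).
-/

set_option autoImplicit false
set_option linter.dupNamespace false

open scoped NumberField Pointwise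
open IsDedekindDomain
open scoped Classical

noncomputable section

namespace H1.AR

open H63.MA H38.BB H38.BG H57.PC H57.BRA H89.BRG

variable {p u w N : ℕ} {R Q : Type} [Group R] [Group Q] {Dg : MG p u w N R Q}
  {K : Type} [Field K] [NumberField K] {Ω : Type} [Field Ω] [Algebra K Ω] [IsAlgClosure K Ω]
  {ζ : K} (X : AD Dg K Ω ζ)

theorem un_not {b : X.Lb} (hb : b.2 ∉ (X.A b.1).D.S) : X.un b ∉ X.D.S0 := by
  intro h
  exact hb (((X.A b.1).hS b.2).2 ⟨X.un b, h, X.un_over b⟩)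

theorem ine_phi {v : Pl K} (hv : v ∉ X.D.S0) {P' : Ideal (𝓞 Ω)} (hP' : P'.IsPrime)
    (h' : P'.under (𝓞 K) = v.asIdeal) {τ : Gal(Ω/K)} (hτ : τ ∈ P'.inertia Gal(Ω/K)) :
    X.φQ τ = 1 := by
  obtain ⟨g, hg⟩ := ltr_conj (X.L.ld v hv).prime hP' (X.L.ld v hv).under h'
  have h1 : g⁻¹ * τ * g ∈ (X.L.ld v hv).P.inertia Gal(Ω/K) := by
    intro x
    have h2 : (g⁻¹ * τ * g) • x - x = g⁻¹ • (τ • (g • x) - g • x) := by
      rw [smul_sub, mul_smul, mul_smul, inv_smul_smul]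
    rw [h2]
    exact (hg _).1 (hτ (g • x))
  have h3 : g⁻¹ * τ * g ∈ inr X.L v := by
    unfold inr
    rw [dif_pos hv]
    exact h1
  have h4 := X.ur v hv _ h3
  rw [map_mul, map_mul, map_inv] at h4
  have h5 : X.φQ τ = X.φQ g * ((X.φQ g)⁻¹ * X.φQ τ * X.φQ g) * (X.φQ g)⁻¹ := by group
  rw [h5, h4]
  group

theorem ine_res {v : Pl K} (hv : v ∉ X.D.S0) {P' : Ideal (𝓞 Ω)} (hP' : P'.IsPrime)
    (h' : P'.under (𝓞 K) = v.asIdeal) {τ : Gal(Ω/K)} (hτ : τ ∈ P'.inertia Gal(Ω/K)) (j : Fin N) :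
    ∃ τ' : Gal(Ω/(X.F j)), rsK K (X.F j) Ω τ' = τ ∧ τ' ∈ P'.inertia Gal(Ω/(X.F j)) := by
  have h1 : X.φQ τ ∈ Dg.H j := by
    rw [ine_phi X hv hP' h' hτ]
    exact Subgroup.one_mem _
  obtain ⟨τ', h2⟩ := (fld_range X j τ).2 h1
  refine ⟨τ', h2, ?_⟩
  intro x
  have h3 := hτ x
  rw [← h2] at h3
  have h4 := bcp_smul (K := K) (L := X.F j) τ' x
  rw [h4] at h3
  exact h3

theorem ine_kk {L : Type} [Field L] [NumberField L] [Algebra L Ω] [IsAlgClosure L Ω]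
    (hp : p.Prime) {ξ : L} (hξ : IsPrimitiveRoot ξ p) {w : Pl L} (hw : ¬ Above p w) {π : Lˣ}
    (hπ : ord w π = 1) {P' : Ideal (𝓞 Ω)} (hP' : P'.IsPrime) (h' : P'.under (𝓞 L) = w.asIdeal)
    {τ : Gal(Ω/L)} (hτ : τ ∈ P'.inertia Gal(Ω/L)) (x : Lˣ) :
    kk p ξ x τ = ord w x * kk p ξ π τ := by
  obtain ⟨L', hL'⟩ := H63.BU.uord_at Ω hp hξ hw hπ P' hP' h'
  exact ld_kk hp hξ hw hπ L' τ (by rw [hL']; exact hτ) x

variable [Fintype Q]

theorem ine_cor (hp : p.Prime) (hζ : IsPrimitiveRoot ζ p) {v : Pl K} (hv : v ∉ X.D.S0)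
    (j : Fin N) (x : (X.F j)ˣ) (hx : ∀ z : Pl (X.F j), Over z v → ((ord z x : ℤ) : ZMod p) = 0)
    {P' : Ideal (𝓞 Ω)} (hP' : P'.IsPrime) (h' : P'.under (𝓞 K) = v.asIdeal) {τ : Gal(Ω/K)}
    (hτ : τ ∈ P'.inertia Gal(Ω/K)) : X.cor j x τ = 0 := by
  have hclo : IsAlgClosure (X.F j) Ω := fld_clo X j
  have hφ := ine_phi X hv hP' h' hτ
  have hpv : ¬ Above p v := fun h => hv (X.D.above v h)
  have key : ∀ r : Gal(Ω/K), X.kx j x (r⁻¹ * τ * r) = 0 := by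
    intro r
    obtain ⟨P2, hP2⟩ : ∃ P2 : Ideal (𝓞 Ω), P2 = P'.comap (MulSemiringAction.toRingHom Gal(Ω/K) (𝓞 Ω) r) := ⟨_, rfl⟩
    have hmem : ∀ y : 𝓞 Ω, y ∈ P2 ↔ r • y ∈ P' := by
      intro y
      rw [hP2, Ideal.mem_comap]
      exact Iff.rfl
    have hpr : P2.IsPrime := by
      rw [hP2]
      exact Ideal.IsPrime.comap _
    have hun : P2.under (𝓞 K) = v.asIdeal := by
      rw [← h']
      ext y
      rw [Ideal.under_def, Ideal.under_def, Ideal.mem_comap, Ideal.mem_comap, hmem, smul_algebraMap]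
    have hin : r⁻¹ * τ * r ∈ P2.inertia Gal(Ω/K) := by
      intro y
      have h2 : (r⁻¹ * τ * r) • y - y ∈ P2 := by
        rw [hmem, smul_sub, mul_smul, mul_smul, smul_inv_smul]
        exact hτ (r • y)
      exact h2
    obtain ⟨τ', h1, h2⟩ := ine_res X hv hpr hun hin j
    -- the prime of `F j`
    have hover : (P2.under (𝓞 (X.F j))).comap (algebraMap (𝓞 K) (𝓞 (X.F j))) = v.asIdeal := by
      rw [← hun]
      ext y
      exact Iff.rfl
    have hne : P2.under (𝓞 (X.F j)) ≠ ⊥ := by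
      intro h0
      apply v.ne_bot
      rw [← hover, h0]
      rw [← RingHom.ker_eq_comap_bot, RingHom.ker_eq_bot_iff_eq_zero]
      intro y hy
      apply NumberField.RingOfIntegers.ext
      have h3 := congrArg (fun z : 𝓞 (X.F j) => (z : X.F j)) hy
      have h4 : algebraMap K (X.F j) (y : K) = 0 := h3
      exact (map_eq_zero _).1 h4
    have hpr2 : (P2.under (𝓞 (X.F j))).IsPrime := Ideal.IsPrime.comap _
    obtain ⟨z, hz⟩ : ∃ z : Pl (X.F j), z.asIdeal = P2.under (𝓞 (X.F j)) := ⟨⟨_, hpr2, hne⟩, rfl⟩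
    have hzv : Over z v := by
      unfold Over
      rw [hz]
      exact hover
    have hpz : ¬ Above p z := fun h => hpv ((above_over hzv p).1 h)
    obtain ⟨π, hπ⟩ := exists_unif z
    have h5 := ine_kk (Ω := Ω) hp (fld_zeta X hζ j) hpz hπ hpr hz.symm h2 x
    rw [← h1, kx_apply, h5, hx z hzv, zero_mul]
  unfold AD.cor
  refine Finset.sum_eq_zero fun c _ => ?_
  rw [hφ, inv_one, one_smul, key, zero_smul]

theorem ine_bt (hp : p.Prime) (hζ : IsPrimitiveRoot ζ p) {v : Pl K} (hv : v ∉ X.D.S0) {b : X.Lb}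
    (hb : b.2 ∉ (X.A b.1).D.S) (hbv : X.un b ≠ v) {P' : Ideal (𝓞 Ω)} (hP' : P'.IsPrime)
    (h' : P'.under (𝓞 K) = v.asIdeal) {τ : Gal(Ω/K)} (hτ : τ ∈ P'.inertia Gal(Ω/K)) :
    X.bt b τ = 0 := by
  unfold AD.bt
  refine ine_cor X hp hζ hv b.1 _ ?_ hP' h' hτ
  intro z hz
  refine (X.A b.1).D.pi_ne b.2 z hb ?_ ?_
  · intro h
    obtain ⟨v', hv', h1⟩ := ((X.A b.1).hS z).1 h
    have h2 := below_unique hz h1
    rw [h2] at hv
    exact hv hv'
  · rintro rfl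
    exact hbv (below_unique (X.un_over b) hz)

end H1.AR
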