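import Pool.Agent.H1.AR.Defs
import Pool.Agent.H63.MA.RMkC

/-!
# [H1 AR KNN] a number which is not a `p`-th power has nontrivial symbols at primes of prime norm outside every finite set, 30-60 lines. File Pool/Agent/H1/AR/Knn.lean

`exists_RD F hp hp2 hζ` (H63/MA/RMkC.lean) gives `D : RD F p ζ`; `D.non b hb E` gives `v` with `D.Gd v` (so `v ∉ D.S0`, prime norm, not above `p` by `D.above`), `v ∉ E`, `ord v b = 0` and
`D.LL v b ≠ 0`; `D.LL v b = lg p ζ v (b * D.pi v ^ (-ord v b)) = lg p ζ v b` (`ord v b = 0`).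
-/

set_option autoImplicit false
set_option linter.dupNamespace false

open scoped NumberField
open IsDedekindDomain
open scoped Classical

noncomputable section

namespace H1.AR

open H63.MA

variable {F : Type} [Field F] [NumberField F] {p : ℕ} {ζ : F}

theorem knn (hp : p.Prime) (hp2 : MOne p F) (hζ : IsPrimitiveRoot ζ p) {b : Fˣ} (hb : ¬ IsPow p b)
    (E : Finset (Pl F)) : ∃ v : Pl F, v ∉ E ∧ ¬ Above p v ∧ (nm v).Prime ∧ ord v b = 0 ∧
      lg p ζ v b ≠ 0 := by
  obtain ⟨D⟩ := exists_RD F hp hp2 hζ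
  obtain ⟨v, hv, hvE, ho, hL⟩ := D.non b hb E
  refine ⟨v, hvE, fun h => hv.1 (D.above v h), hv.2, ho, ?_⟩
  have h1 : D.toRD0.LL v b = lg p ζ v b := by
    unfold RD0.LL
    rw [ho, neg_zero, zpow_zero, mul_one]
  rwa [h1] at hL

end H1.AR
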