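import Pool.Agent.H1.AR.Ltb
import Pool.Agent.H1.AR.Lt2

/-!
# [H1 AR LBL] the labels over a prime `v` of prime norm and the fixed points of the Frobenius element on `Q ⧸ H j`, 180-260 lines. File Pool/Agent/H1/AR/Lbl.lean

`v ∉ S0`, `P = (X.L.ld v hv).P`, `F = X.Fr.F v`, `t = X.L.t v` (`LDs.t`, `dif_pos`). For a good label `a` over `v`: `Pa = PL X a` is a prime over `v` (`ltb_prime`, `ltb_under`).
`Cn X a hv g` says `Pa = g P`.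
* `lbl_ex`: `ltr_conj` (H57/BRA/Ltr.lean).
* `lbl_t`: `lt2_pow`-like: apply the proof of `lt2_pow` to this `g` (only `g⁻¹ τ' g ∈ P.inertia`, `tm` and `kk π (g⁻¹ τ' g) = kk π τ'` are used), `τ' = X.t a`, `kk π (X.t a) = ord v π = 1`
  (`ltb_pik`, `X.D.pi_self`), `(1 : ZMod p).val = 1`.
* `lbl_f`: `(F)⁻¹ * (g⁻¹ * X.fb a * g) ∈ P.inertia` (`ltr_pow` with `k = 1`, `ltb_fb`, Frobenius property of `F`: `(isFr_of ..).1` or the field of `FR`), so `ρ` of it is a power of `ρ t` (`tm`); conjugate.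
* `lbl_fix`: the same element with `φQ` (trivial on `P.inertia` by `X.ur`, `inr` by `dif_pos`): `φQ (X.fb a) = φQ g * φQ F * (φQ g)⁻¹ ∈ H j` (`fld_phi`).
* `lbl_uni`: `Cn g`, `Cn g'` for labels `⟨j, w⟩`, `⟨j, w'⟩` over `v`. If `w = w'`: `γ = g' g⁻¹ ∈ dec Pa`, so `γ` fixes `F j` by `stb` (`φ = X.φQ`, `hI` by `ine_phi`, `ltb_nm`), `φQ γ ∈ H j` (`X.fix`),
  same coset. Conversely, if `mk (φQ g)⁻¹ = mk (φQ g')⁻¹`, then `γ = g' g⁻¹` has `φQ γ ∈ H j`, it fixes `F j` and maps `Pa` to `Pa'`, so `w = w'` (`ltb_underF`).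
-/

set_option autoImplicit false
set_option linter.dupNamespace false

open scoped NumberField Pointwise
open IsDedekindDomain
open scoped Classical

noncomputable section

namespace H1.AR

open H63.MA H38.BB H38.BG H57.PC H57.BRA H89.BRG

variable {p u w N : ℕ} {R Q : Type} [Group R] [Group Q] {Dg : MG p u w N R Q}
  {K : Type} [Field K] [NumberField K] {Ω : Type} [Field Ω] [Algebra K Ω] [IsAlgClosure K Ω]
  {ζ : K} (X : AD Dg K Ω ζ)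

/-- `g` maps the prime of `v` to the prime of the label `a` -/
def Cn (a : X.Lb) {v : Pl K} (hv : v ∉ X.D.S0) (g : Gal(Ω/K)) : Prop :=
  ∀ x : 𝓞 Ω, x ∈ PL X a ↔ g⁻¹ • x ∈ (X.L.ld v hv).P

theorem lbl_ex {a : X.Lb} (ha : X.Gd a) {v : Pl K} (hv : v ∉ X.D.S0) (hav : X.un a = v) :
    ∃ g, Cn X a hv g := by
  have h := ltb_under X ha
  rw [hav] at h
  exact ltr_conj (X.L.ld v hv).prime (ltb_prime X ha) (X.L.ld v hv).under h

omit [IsAlgClosure K Ω] in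
/-- conjugation into the inertia group -/
private theorem lbl_in {a : X.Lb} {v : Pl K} {hv : v ∉ X.D.S0} {g : Gal(Ω/K)}
    (hg : Cn X a hv g) {τ : Gal(Ω/K)} (hτ : τ ∈ (PL X a).inertia Gal(Ω/K)) :
    g⁻¹ * τ * g ∈ (X.L.ld v hv).P.inertia Gal(Ω/K) := by
  intro x
  have h1 : (g⁻¹ * τ * g) • x - x = g⁻¹ • (τ • (g • x) - g • x) := by
    rw [smul_sub, mul_smul, mul_smul, inv_smul_smul]
  rw [h1]
  exact (hg _).1 (hτ (g • x))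

/-- the Frobenius element up to inertia -/
private theorem lbl_fr {a : X.Lb} (ha : X.Gd a) {v : Pl K} {hv : v ∉ X.D.S0} (hav : X.un a = v)
    {g : Gal(Ω/K)} (hg : Cn X a hv g) :
    (X.Fr.F v)⁻¹ * (g⁻¹ * X.fb a * g) ∈ (X.L.ld v hv).P.inertia Gal(Ω/K) := by
  have h1 := ltr_pow (K := K) (v := v) (X.L.ld v hv).prime (X.Fr.fr v hv) 1
    (F' := g⁻¹ * X.fb a * g) (fun x => by
      have h2 : (g⁻¹ * X.fb a * g) • x - x ^ (nm v ^ 1) =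
          g⁻¹ • (X.fb a • (g • x) - (g • x) ^ nm v) := by
        rw [smul_sub, mul_smul, mul_smul, pow_one, smul_pow', inv_smul_smul]
      rw [h2]
      have h3 := ltb_fb X ha (g • x)
      rw [hav] at h3
      exact (hg _).1 h3)
  rw [pow_one] at h1
  exact h1

variable [Finite Q]

theorem lbl_t (hp : p.Prime) (hζ : IsPrimitiveRoot ζ p) {a : X.Lb} (ha : X.Gd a) {v : Pl K}
    (hv : v ∉ X.D.S0) (hav : X.un a = v) {g : Gal(Ω/K)} (hg : Cn X a hv g) {G : Type} [Group G]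
    [Finite G] (ρ : Gal(Ω/K) →* G) (hρ : H38.ML.FT ρ) (h : ∀ τ ∈ inr X.L v, ρ τ ^ p = 1) :
    ρ (X.t a) = ρ g * ρ (X.L.t v) * (ρ g)⁻¹ := by
  have hna : ¬ Above p v := by
    rw [← hav]
    exact (ltb_na X ha).2
  have h1 := lbl_in X hg (ltb_t X ha)
  have h2 := tm hp hζ hna (X.D.pi_self v hv) (X.L.ld v hv) ρ hρ (fun τ hτ => h τ (by
    rw [inr, dif_pos hv]
    exact hτ)) _ h1
  have h3 : kk p ζ (X.D.pi v) (g⁻¹ * X.t a * g) = 1 := by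
    have h4 : kk p ζ (X.D.pi v) (g⁻¹ * X.t a * g) = kk p ζ (X.D.pi v) (X.t a) := by
      have h5 : kk p ζ (X.D.pi v) g⁻¹ + kk p ζ (X.D.pi v) g = 0 := by
        rw [← kk_mul, inv_mul_cancel, kk_one]
      rw [kk_mul, kk_mul]
      linear_combination h5
    rw [h4, ltb_pik X hp hζ ha, hav, X.D.pi_self v hv, Int.cast_one]
  have hp1 : Fact (1 < p) := ⟨hp.one_lt⟩
  rw [h3, ZMod.val_one, pow_one] at h2
  have h6 : X.L.t v = (X.L.ld v hv).t := by rw [LDs.t, dif_pos hv]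
  rw [h6, ← h2, ← map_inv, ← map_mul, ← map_mul]
  congr 1
  group

theorem lbl_f (hp : p.Prime) (hζ : IsPrimitiveRoot ζ p) (hz : Z2 p K) {a : X.Lb} (ha : X.Gd a)
    {v : Pl K} (hv : v ∉ X.D.S0) (hav : X.un a = v) {g : Gal(Ω/K)} (hg : Cn X a hv g) {G : Type}
    [Group G] [Finite G] (ρ : Gal(Ω/K) →* G) (hρ : H38.ML.FT ρ)
    (h : ∀ τ ∈ inr X.L v, ρ τ ^ p = 1) :
    ∃ k : ℕ, ρ (X.fb a) = ρ g * ρ (X.Fr.F v) * (ρ g)⁻¹ * ρ (X.t a) ^ k := by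
  have hna : ¬ Above p v := by
    rw [← hav]
    exact (ltb_na X ha).2
  have h2 := tm hp hζ hna (X.D.pi_self v hv) (X.L.ld v hv) ρ hρ (fun τ hτ => h τ (by
    rw [inr, dif_pos hv]
    exact hτ)) _ (lbl_fr X ha hav hg)
  have h6 : X.L.t v = (X.L.ld v hv).t := by rw [LDs.t, dif_pos hv]
  refine ⟨(kk p ζ (X.D.pi v) ((X.Fr.F v)⁻¹ * (g⁻¹ * X.fb a * g))).val, ?_⟩
  rw [lbl_t X hp hζ ha hv hav hg ρ hρ h, h6, conj_pow, ← h2, map_mul, map_inv, map_mul, map_mul,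
    map_inv]
  group

theorem lbl_fix (hp : p.Prime) (hζ : IsPrimitiveRoot ζ p) (hz : Z2 p K) {a : X.Lb} (ha : X.Gd a)
    {v : Pl K} (hv : v ∉ X.D.S0) (hav : X.un a = v) {g : Gal(Ω/K)} (hg : Cn X a hv g) :
    X.φQ (X.Fr.F v) • (QuotientGroup.mk (X.φQ g)⁻¹ : Q ⧸ Dg.H a.1) =
      QuotientGroup.mk (X.φQ g)⁻¹ := by
  have h1 := X.ur v hv _ (show (X.Fr.F v)⁻¹ * (g⁻¹ * X.fb a * g) ∈ inr X.L v by
    rw [inr, dif_pos hv]
    exact lbl_fr X ha hav hg)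
  have h2 : X.φQ (X.fb a) ∈ Dg.H a.1 := fld_phi X a.1 _
  rw [map_mul, map_mul, map_mul, map_inv, map_inv, inv_mul_eq_one] at h1
  change (QuotientGroup.mk (X.φQ (X.Fr.F v) * (X.φQ g)⁻¹) : Q ⧸ Dg.H a.1) = _
  rw [QuotientGroup.eq, h1]
  have h3 : ((X.φQ g)⁻¹ * X.φQ (X.fb a) * X.φQ g * (X.φQ g)⁻¹)⁻¹ * (X.φQ g)⁻¹ =
      (X.φQ (X.fb a))⁻¹ := by group
  rw [h3]
  exact inv_mem h2

theorem lbl_uni (j : Fin N) {w₁ w₂ : Pl (X.F j)} (h₁ : X.Gd ⟨j, w₁⟩) (h₂ : X.Gd ⟨j, w₂⟩)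
    {v : Pl K} (hv : v ∉ X.D.S0) (hv₁ : X.un ⟨j, w₁⟩ = v) (hv₂ : X.un ⟨j, w₂⟩ = v)
    {g₁ g₂ : Gal(Ω/K)} (hg₁ : Cn X ⟨j, w₁⟩ hv g₁) (hg₂ : Cn X ⟨j, w₂⟩ hv g₂) :
    w₁ = w₂ ↔ (QuotientGroup.mk (X.φQ g₁)⁻¹ : Q ⧸ Dg.H j) = QuotientGroup.mk (X.φQ g₂)⁻¹ := by
  have key : (QuotientGroup.mk (X.φQ g₁)⁻¹ : Q ⧸ Dg.H j) = QuotientGroup.mk (X.φQ g₂)⁻¹ ↔
      X.φQ (g₂ * g₁⁻¹) ∈ Dg.H j := by
    rw [QuotientGroup.eq, ← inv_mem_iff (x := X.φQ (g₂ * g₁⁻¹)), ← map_inv, ← map_inv, ← map_inv,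
      ← map_inv, ← map_mul]
    rw [inv_inv, mul_inv_rev, inv_inv]
  rw [key, ← X.fix j]
  constructor
  · rintro rfl
    have hd : g₂ * g₁⁻¹ ∈ dec (K := K) (PL X ⟨j, w₁⟩) := by
      intro x
      rw [hg₂, hg₁, mul_smul, inv_smul_smul]
    exact stb X.φQ X.ft (X.F j) (fun σ hσ => (X.fix j σ).2 (by rw [hσ]; exact one_mem _))
      (ltb_prime X h₁) (ltb_under X h₁) (ltb_underF X h₁)
      (fun τ hτ => ine_phi X (un_not X h₁.1) (ltb_prime X h₁) (ltb_under X h₁) hτ)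
      (ltb_nm X h₁) _ hd
  · intro hγ
    apply HeightOneSpectrum.ext
    have e1 := ltb_underF X h₁
    have e2 := ltb_underF X h₂
    change _ = w₁.asIdeal at e1
    change _ = w₂.asIdeal at e2
    rw [← e1, ← e2]
    ext x
    change algebraMap (𝓞 (X.F j)) (𝓞 Ω) x ∈ PL X ⟨j, w₁⟩ ↔
      algebraMap (𝓞 (X.F j)) (𝓞 Ω) x ∈ PL X ⟨j, w₂⟩
    rw [hg₁, hg₂]
    have h3 : (g₂ * g₁⁻¹) • algebraMap (𝓞 (X.F j)) (𝓞 Ω) x = algebraMap (𝓞 (X.F j)) (𝓞 Ω) x := by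
      apply NumberField.RingOfIntegers.ext
      exact (mem_fixingSubgroup_iff _).1 hγ ((x : X.F j) : Ω) (x : X.F j).2
    have h4 : g₁⁻¹ • algebraMap (𝓞 (X.F j)) (𝓞 Ω) x = g₂⁻¹ • algebraMap (𝓞 (X.F j)) (𝓞 Ω) x := by
      conv_rhs => rw [← h3]
      rw [mul_smul, inv_smul_smul]
    rw [h4]

end H1.AR
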