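import Pool.Agent.H1.AR.Lbl

/-!
# [H1 AR LBM] the bijection: labels over `v`, fixed points of the Frobenius element on `Q ⧸ H j`, 120-200 lines. File Pool/Agent/H1/AR/Lbm.lean

* `lbl`: map: `w ↦ mk (φQ g)⁻¹` for a chosen `g` (`lbl_ex`, `lbl_fix`), injective by `lbl_uni`. Surjective: `c = mk q` with `φQ F • c = c`, `g` with `φQ g = q⁻¹` (`X.sur`), `P' = g P`
  (`P' := (P).comap` of the action of `g⁻¹`, or `g • P`), `w` the place of `F j` under `P'`. `F' = g F g⁻¹` has `φQ F' ∈ H j`, so it fixes `F j`, and `F' x ≡ x ^ nm v` modulo `P'`: for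
  `x ∈ 𝓞 (F j)`: `x ^ nm v - x ∈ w`. So the field `𝓞 (F j) ⧸ w` has at most `nm v` elements (roots of `X ^ nm v - X`), `nm w ≤ nm v`, and `nm v ∣ nm w`-ish (`w` over `v`: the residue field
  of `v` embeds; `nm w = nm v ^ f`, `f ≥ 1`), so `nm w = nm v` is prime: `w` is good (`w ∉ (X.A j).D.S` by `hS` and `v ∉ S0`, `below_unique`), `un ⟨j, w⟩ = v` (`below_unique`). `P'` and `Pa` are both
  over `w`: `Pa = γ P'` with `γ` from `Gal(Ω/F j)` (`ltr_conj` over `F j`, `fld_clo`), so `Cn (γ g)` and `mk (φQ (γ g))⁻¹ = mk (q * h) = mk q`. Last clause: `lbl_uni`.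
-/

set_option autoImplicit false
set_option linter.dupNamespace false

open scoped NumberField Pointwise
open IsDedekindDomain
open scoped Classical

noncomputable section

namespace H1.AR

open H63.MA H38.BB H38.BG H57.PC H57.BRA H89.BRG

variable {p u w N : ℕ} {R Q : Type} [Group R] [Group Q] {Dg : MG p u w N R Q}
  {K : Type} [Field K] [NumberField K] {Ω : Type} [Field Ω] [Algebra K Ω] [IsAlgClosure K Ω]
  {ζ : K} (X : AD Dg K Ω ζ)

omit [NumberField K] [IsAlgClosure K Ω] in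
private theorem lbm_tow (F : IntermediateField K Ω) [NumberField F] (P : Ideal (𝓞 Ω)) (x : 𝓞 K) :
    algebraMap (𝓞 K) (𝓞 F) x ∈ P.under (𝓞 F) ↔ x ∈ P.under (𝓞 K) := by
  change algebraMap (𝓞 F) (𝓞 Ω) (algebraMap (𝓞 K) (𝓞 F) x) ∈ P ↔ algebraMap (𝓞 K) (𝓞 Ω) x ∈ P
  have h1 : algebraMap (𝓞 K) (𝓞 Ω) x = algebraMap (𝓞 F) (𝓞 Ω) (algebraMap (𝓞 K) (𝓞 F) x) := by
    apply NumberField.RingOfIntegers.ext
    exact IsScalarTower.algebraMap_apply K F Ω (x : K)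
  rw [h1]

omit [IsAlgClosure K Ω] in
private theorem lbm_z (F : IntermediateField K Ω) [NumberField F] {v : Pl K} {P : Ideal (𝓞 Ω)}
    (hP : P.IsPrime) (h : P.under (𝓞 K) = v.asIdeal) :
    ∃ z : Pl F, P.under (𝓞 F) = z.asIdeal ∧ Over z v := by
  have hb : P.under (𝓞 F) ≠ ⊥ := by
    intro h0
    obtain ⟨x, hx, hx0⟩ := Submodule.exists_mem_ne_zero_of_ne_bot v.ne_bot
    have h1 : algebraMap (𝓞 K) (𝓞 F) x ∈ P.under (𝓞 F) := (lbm_tow F P x).2 (by rw [h]; exact hx)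
    rw [h0, Ideal.mem_bot] at h1
    exact hx0 (FaithfulSMul.algebraMap_injective (𝓞 K) (𝓞 F) (h1.trans (map_zero _).symm))
  have hpr : (P.under (𝓞 F)).IsPrime := Ideal.IsPrime.under (𝓞 F) P
  refine ⟨⟨P.under (𝓞 F), hpr, hb⟩, rfl, ?_⟩
  unfold Over
  rw [← h]
  ext x
  exact lbm_tow F P x

omit [NumberField K] [IsAlgClosure K Ω] in
private theorem lbm_gact (g : Gal(Ω/K)) (x : 𝓞 K) :
    g • algebraMap (𝓞 K) (𝓞 Ω) x = algebraMap (𝓞 K) (𝓞 Ω) x := by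
  apply NumberField.RingOfIntegers.ext
  exact g.commutes (x : K)

/-- a residue field on which `x ↦ x ^ n` is the identity has at most `n` elements -/
private theorem lbm_nm {F : Type} [Field F] [NumberField F] (z : Pl F) {n : ℕ} (hn : 1 < n)
    (h : ∀ x : 𝓞 F, x - x ^ n ∈ z.asIdeal) : nm z ≤ n := by
  have : z.asIdeal.IsMaximal := z.isMaximal
  let _ := Ideal.Quotient.field z.asIdeal
  have : Finite (𝓞 F ⧸ z.asIdeal) := Ideal.finiteQuotientOfFreeOfNeBot z.asIdeal z.ne_bot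
  let _ := Fintype.ofFinite (𝓞 F ⧸ z.asIdeal)
  have h1 : ∀ x : (𝓞 F ⧸ z.asIdeal), x ^ n = x := by
    intro x
    obtain ⟨y, rfl⟩ := Ideal.Quotient.mk_surjective x
    rw [← map_pow]
    exact ((Ideal.Quotient.eq).2 (h y)).symm
  have h2 : ∀ x : (𝓞 F ⧸ z.asIdeal)ˣ, x ^ (n - 1) = 1 := by
    intro x
    have h3 : x * x ^ (n - 1) = x := by
      rw [← pow_succ', Nat.sub_add_cancel hn.le]
      exact Units.ext (by rw [Units.val_pow_eq_pow_val]; exact h1 _)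
    exact mul_eq_left.1 h3
  have h3 := (FiniteField.forall_pow_eq_one_iff (𝓞 F ⧸ z.asIdeal) (n - 1)).1 h2
  have h4 := Nat.le_of_dvd (by omega) h3
  have h5 : nm z = Fintype.card (𝓞 F ⧸ z.asIdeal) := by
    unfold nm
    rw [Ideal.absNorm_apply, Submodule.cardQuot_apply, Nat.card_eq_fintype_card]
  omega

variable [Finite Q]

/-- every fixed point comes from a label -/
private theorem lbm_sur {v : Pl K} (hv : v ∉ X.D.S0) (hn : (nm v).Prime) (j : Fin N)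
    (c : Q ⧸ Dg.H j) (hc : X.φQ (X.Fr.F v) • c = c) :
    ∃ z : Pl (X.F j), ∃ (_ : X.Gd ⟨j, z⟩) (_ : X.un ⟨j, z⟩ = v), ∃ g, Cn X ⟨j, z⟩ hv g ∧
      QuotientGroup.mk (X.φQ g)⁻¹ = c := by
  obtain ⟨q, rfl⟩ := QuotientGroup.mk_surjective c
  obtain ⟨g, hg⟩ := X.sur q⁻¹
  have := fld_clo X j
  set P := (X.L.ld v hv).P with hPdef
  have hP : P.IsPrime := (X.L.ld v hv).prime
  have hP' : (g • P).IsPrime := Ideal.IsPrime.smul g
  have hmem : ∀ x : 𝓞 Ω, x ∈ g • P ↔ g⁻¹ • x ∈ P := fun x =>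
    Ideal.mem_pointwise_smul_iff_inv_smul_mem
  have hu : (g • P).under (𝓞 K) = v.asIdeal := by
    rw [← (X.L.ld v hv).under]
    ext x
    change algebraMap (𝓞 K) (𝓞 Ω) x ∈ g • P ↔ algebraMap (𝓞 K) (𝓞 Ω) x ∈ P
    rw [hmem, lbm_gact]
  obtain ⟨z, hz, hzv⟩ := lbm_z (X.F j) hP' hu
  -- the conjugate Frobenius element fixes `F j`
  have hF : g * X.Fr.F v * g⁻¹ ∈ (X.F j).fixingSubgroup := by
    rw [X.fix, map_mul, map_mul, map_inv, hg, inv_inv]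
    have h1 : (QuotientGroup.mk (X.φQ (X.Fr.F v) * q) : Q ⧸ Dg.H j) = QuotientGroup.mk q := hc
    have h2 := inv_mem (QuotientGroup.eq.1 h1)
    have h3 : ((X.φQ (X.Fr.F v) * q)⁻¹ * q)⁻¹ = q⁻¹ * X.φQ (X.Fr.F v) * q := by group
    rw [h3] at h2
    exact h2
  have hle : nm z ≤ nm v := by
    refine lbm_nm z hn.one_lt fun x => ?_
    rw [← hz]
    change algebraMap (𝓞 (X.F j)) (𝓞 Ω) (x - x ^ nm v) ∈ g • P
    rw [hmem, map_sub, map_pow]
    have h3 : (g * X.Fr.F v * g⁻¹) • algebraMap (𝓞 (X.F j)) (𝓞 Ω) x =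
        algebraMap (𝓞 (X.F j)) (𝓞 Ω) x := by
      apply NumberField.RingOfIntegers.ext
      exact (mem_fixingSubgroup_iff _).1 hF ((x : X.F j) : Ω) (x : X.F j).2
    have h4 : g⁻¹ • algebraMap (𝓞 (X.F j)) (𝓞 Ω) x =
        X.Fr.F v • (g⁻¹ • algebraMap (𝓞 (X.F j)) (𝓞 Ω) x) := by
      conv_lhs => rw [← h3]
      rw [mul_smul, mul_smul, inv_smul_smul]
    have h5 := X.Fr.fr v hv (g⁻¹ • algebraMap (𝓞 (X.F j)) (𝓞 Ω) x)
    rw [← h4] at h5
    rw [smul_sub, smul_pow']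
    exact h5
  have hv1 : nm z = nm v := by
    obtain ⟨f, hf1, hf⟩ := nm_over hzv
    rcases Nat.lt_or_ge 1 f with h | h
    · exfalso
      have h6 : nm v ^ 1 < nm v ^ f := Nat.pow_lt_pow_right hn.one_lt h
      rw [pow_one, ← hf] at h6
      omega
    · have h6 : f = 1 := by omega
      rw [hf, h6, pow_one]
  have hzS : z ∉ (X.A j).D.S := fun h => by
    obtain ⟨v', hv', hzv'⟩ := ((X.A j).hS z).1 h
    rw [below_unique hzv' hzv] at hv'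
    exact hv hv'
  have hG : X.Gd ⟨j, z⟩ := ⟨hzS, by
    change (nm z).Prime
    rw [hv1]
    exact hn⟩
  have hun : X.un ⟨j, z⟩ = v := below_unique (X.un_over ⟨j, z⟩) hzv
  obtain ⟨γ, hγ⟩ := ltr_conj (K := X.F j) hP' (ltb_prime X hG) hz (ltb_underF X hG)
  refine ⟨z, hG, hun, rsK K (X.F j) Ω γ * g, fun x => ?_, ?_⟩
  · rw [hγ, hmem, mul_inv_rev, mul_smul, ← map_inv, bcp_smul]
  · rw [map_mul, hg, mul_inv_rev, inv_inv, QuotientGroup.eq]
    have h6 : (q * (X.φQ (rsK K (X.F j) Ω γ))⁻¹)⁻¹ * q = X.φQ (rsK K (X.F j) Ω γ) := by group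
    rw [h6]
    exact fld_phi X j γ

theorem lbl (hp : p.Prime) (hζ : IsPrimitiveRoot ζ p) (hz : Z2 p K) {v : Pl K}
    (hv : v ∉ X.D.S0) (hn : (nm v).Prime) (j : Fin N) :
    ∃ E : {w : Pl (X.F j) // X.Gd ⟨j, w⟩ ∧ X.un ⟨j, w⟩ = v} ≃
        {c : Q ⧸ Dg.H j // X.φQ (X.Fr.F v) • c = c},
      ∀ w g, Cn X ⟨j, w.1⟩ hv g → QuotientGroup.mk (X.φQ g)⁻¹ = (E w).1 := by
  choose gg hgg using fun w : {w : Pl (X.F j) // X.Gd ⟨j, w⟩ ∧ X.un ⟨j, w⟩ = v} =>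
    lbl_ex X w.2.1 hv w.2.2
  let E0 : {w : Pl (X.F j) // X.Gd ⟨j, w⟩ ∧ X.un ⟨j, w⟩ = v} →
      {c : Q ⧸ Dg.H j // X.φQ (X.Fr.F v) • c = c} := fun w =>
    ⟨QuotientGroup.mk (X.φQ (gg w))⁻¹, lbl_fix X hp hζ hz w.2.1 hv w.2.2 (hgg w)⟩
  have hb : Function.Bijective E0 := by
    constructor
    · intro w w' h
      apply Subtype.ext
      exact (lbl_uni X j w.2.1 w'.2.1 hv w.2.2 w'.2.2 (hgg w) (hgg w')).2 (Subtype.ext_iff.1 h)
    · intro c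
      obtain ⟨z, hG, hun, g, hg, hgc⟩ := lbm_sur X hv hn j c.1 c.2
      refine ⟨⟨z, hG, hun⟩, Subtype.ext ?_⟩
      change QuotientGroup.mk (X.φQ (gg ⟨z, hG, hun⟩))⁻¹ = c.1
      rw [← hgc]
      exact (lbl_uni X j hG hG hv hun hun (hgg ⟨z, hG, hun⟩) hg).1 rfl
  refine ⟨Equiv.ofBijective E0 hb, fun w g hg => ?_⟩
  exact (lbl_uni X j w.2.1 w.2.1 hv w.2.2 w.2.2 hg (hgg w)).1 rfl

end H1.AR
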