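import Pool.Agent.H1.AR.ParA

/-!
# [H1 AR PARB] every homomorphism over `φQ` with prescribed inertia at a family is a twist, 80-140 lines. File Pool/Agent/H1/AR/ParB.lean

Let `φ = e (-bet g) ρ` (`tws` with the cocycle `-bet g`, `bet_cy`, `cy_smul`), a homomorphism over `φQ`, `Tw φ (bet g) ρ` by `tws_back`. To show: `φ τ = 1` for `τ ∈ inr L v`, `v ∉ S0`.
* `v` not under `g`: `ρ τ = 1` and `bet g τ = 0` (`bet_ur` with the prime `(X.L.ld v hv).P`).
* `v = un a`, `a ∈ g`: it is enough to show `φ τ = 1` for all `τ` in the inertia group of `PL a` in `Gal(Ω/K)` (conjugation, `ltr_conj`, `ltb_prime`, `ltb_under`). `τ = rsK τ'` (`ine_res`), `τ'` in the inertia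
  group of `PL a` over `F j`. `ρ' = ρ.comp rsK` has exponent `p` on this inertia group (`hp`: the inertia groups of `PL a` and `(X.L.ld v hv).P` are conjugate), so by `tm` (H38/BG/TTam.lean, over the
  field `F j` with the local data `(X.A a.1).ld a.2 _`): `ρ τ = ρ (t a) ^ k`, `k = (kk (pi w) τ').val`, `= e (y) ^ k = e (k • y)`. `bet g τ = bt a τ = kk (pi w) τ' • y` (`ltb_self`, `ine_bt` for the other labels). So
  `φ τ = e (-kk • y) e (k • y) = 1` (`(k : ZMod p) = kk`, `ZMod.natCast_zmod_val`).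
* `par_uniq`: `tws_back`, `tws_uniq`.
-/

set_option autoImplicit false
set_option linter.dupNamespace false

open scoped NumberField
open IsDedekindDomain
open scoped Classical

noncomputable section

namespace H1.AR

open H63.MA H38.BB H38.BG H57.PC H57.BRA H89.BRG

variable {p u w N : ℕ} {R Q : Type} [Group R] [Group Q] [Finite R] [Fintype Q]
  {Dg : MG p u w N R Q} {K : Type} [Field K] [NumberField K] {Ω : Type} [Field Ω] [Algebra K Ω]
  [IsAlgClosure K Ω] {ζ : K} (X : AD Dg K Ω ζ)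

omit [Finite R] [Fintype Q] in
private theorem pb_e_nsmul (Dg : MG p u w N R Q) (n : ℕ) (x : Fin u → ZMod p) :
    Dg.e (n • x) = Dg.e x ^ n := by
  induction n with
  | zero => rw [zero_smul, pow_zero, e_zero]
  | succ n ih => rw [succ_nsmul, Dg.eadd, ih, pow_succ]

omit [NumberField K] [IsAlgClosure K Ω] in
/-- inertia elements of conjugate primes -/
private theorem pb_conj {P P' : Ideal (𝓞 Ω)} {g : Gal(Ω/K)} (h : ∀ x : 𝓞 Ω, x ∈ P' ↔ g⁻¹ • x ∈ P)
    {τ : Gal(Ω/K)} (hτ : τ ∈ P'.inertia Gal(Ω/K)) : g⁻¹ * τ * g ∈ P.inertia Gal(Ω/K) := by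
  intro x
  have h1 : τ • (g • x) - g • x ∈ P' := hτ (g • x)
  rw [h] at h1
  have h2 : g⁻¹ • (τ • (g • x) - g • x) = (g⁻¹ * τ * g) • x - x := by
    rw [smul_sub, inv_smul_smul, mul_smul, mul_smul]
  rw [h2] at h1
  exact h1

theorem par_back (hp : p.Prime) (hζ : IsPrimitiveRoot ζ p) {ρ : Gal(Ω/K) →* R} (hρ : X.IsL ρ)
    {g : Finset X.Lb} (hg : X.Ok g) (ht : ∀ a ∈ g, ρ (X.t a) = Dg.e (Dg.y a.1))
    (hu : ∀ v, v ∉ X.D.S0 → (∀ a ∈ g, X.un a ≠ v) → ∀ τ ∈ inr X.L v, ρ τ = 1)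
    (he : ∀ a ∈ g, ∀ τ ∈ inr X.L (X.un a), ρ τ ^ p = 1) :
    ∃ φ, X.IsC φ ∧ Dg.Tw φ (X.bet g) ρ := by
  have hp0 : NeZero p := ⟨hp.ne_zero⟩
  obtain ⟨φ, hφ, hφL⟩ := tws X hρ (cy_smul X (-1) (bet_cy X hp hζ g))
  have hφ' : ∀ τ, φ τ = Dg.e ((-1 : ZMod p) • X.bet g τ) * ρ τ := hφ
  have htw : Dg.Tw φ (X.bet g) ρ := by
    have h1 := tws_back hφ
    have h2 : (fun σ => -((-1 : ZMod p) • X.bet g σ)) = X.bet g := by
      funext σ
      rw [neg_one_smul, neg_neg]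
    rw [h2] at h1
    exact h1
  refine ⟨φ, ⟨hφL, ?_⟩, htw⟩
  intro v hv τ hτ
  have hinr : inr X.L v = (X.L.ld v hv).P.inertia Gal(Ω/K) := dif_pos hv
  by_cases hvg : ∀ a ∈ g, X.un a ≠ v
  · have h1 := hu v hv hvg τ hτ
    have h2 := bet_ur X hp hζ hg hv hvg (X.L.ld v hv).prime (X.L.ld v hv).under (by
      rw [← hinr]
      exact hτ)
    rw [hφ', h1, h2, smul_zero, e_zero, mul_one]
  · push Not at hvg
    obtain ⟨a, ha, rfl⟩ := hvg
    have hGd := hg.1 a ha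
    have hclo : IsAlgClosure (X.F a.1) Ω := fld_clo X a.1
    -- the exponent of `ρ` on the inertia group of `PL a`
    have hexp : ∀ σ ∈ (PL X a).inertia Gal(Ω/K), ρ σ ^ p = 1 := by
      intro σ hσ
      obtain ⟨g₁, hg₁⟩ := ltr_conj (X.L.ld _ hv).prime (ltb_prime X hGd) (X.L.ld _ hv).under
        (ltb_under X hGd)
      have h1 := he a ha _ (by
        rw [hinr]
        exact pb_conj hg₁ hσ)
      rw [map_mul, map_mul, map_inv] at h1
      have h2 : ((ρ g₁)⁻¹ * ρ σ * ρ g₁) ^ p = (ρ g₁)⁻¹ * ρ σ ^ p * ρ g₁ := by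
        have h3 := conj_pow (i := p) (a := (ρ g₁)⁻¹) (b := ρ σ)
        rwa [inv_inv] at h3
      rw [h2] at h1
      have h3 : ρ σ ^ p = ρ g₁ * ((ρ g₁)⁻¹ * ρ σ ^ p * ρ g₁) * (ρ g₁)⁻¹ := by group
      rw [h3, h1, mul_one, mul_inv_cancel]
    -- the claim for the prime `PL a`
    have hcl : ∀ σ ∈ (PL X a).inertia Gal(Ω/K), φ σ = 1 := by
      intro σ hσ
      obtain ⟨σ', rfl, hσ'⟩ := ine_res X hv (ltb_prime X hGd) (ltb_under X hGd) hσ a.1
      have hP : PL X a = ((X.A a.1).ld a.2 hGd.1).P := dif_pos hGd.1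
      have hT : (X.A a.1).t a.2 = ((X.A a.1).ld a.2 hGd.1).t := dif_pos hGd.1
      have h1 := tm hp (fld_zeta X hζ a.1) (ltb_na X hGd).1 ((X.A a.1).D.pi_self a.2 hGd.1)
        ((X.A a.1).ld a.2 hGd.1) (ρ.comp (rsK K (X.F a.1) Ω)) (bca_ft hρ.ft) (by
          intro τ₁ hτ₁
          rw [← hP] at hτ₁
          exact hexp _ (bcp_inertia hτ₁)) σ' (by
          rw [← hP]
          exact hσ')
      have h2 : ρ (rsK K (X.F a.1) Ω ((X.A a.1).ld a.2 hGd.1).t) = Dg.e (Dg.y a.1) := by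
        rw [← hT]
        exact ht a ha
      rw [MonoidHom.comp_apply, MonoidHom.comp_apply, h2, ← pb_e_nsmul] at h1
      have h3 : X.bet g (rsK K (X.F a.1) Ω σ') =
          kk p (algebraMap K (X.F a.1) ζ) ((X.A a.1).D.pi a.2) σ' • Dg.y a.1 := by
        unfold AD.bet
        rw [Finset.sum_eq_single_of_mem a ha]
        · exact ltb_self X hp hζ hGd hσ'
        · intro b hb hba
          exact ine_bt X hp hζ hv (hg.1 b hb).1 (hg.2 b hb a ha hba) (ltb_prime X hGd)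
            (ltb_under X hGd) hσ
      rw [hφ', h1, h3, ← Dg.eadd]
      have h4 : (kk p (algebraMap K (X.F a.1) ζ) ((X.A a.1).D.pi a.2) σ').val • Dg.y a.1 =
          kk p (algebraMap K (X.F a.1) ζ) ((X.A a.1).D.pi a.2) σ' • Dg.y a.1 := by
        rw [← Nat.cast_smul_eq_nsmul (ZMod p), ZMod.natCast_zmod_val]
      rw [h4, neg_one_smul, neg_add_cancel, e_zero]
    obtain ⟨g₀, hg₀⟩ := ltr_conj (ltb_prime X hGd) (X.L.ld _ hv).prime (ltb_under X hGd)
      (X.L.ld _ hv).under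
    have h1 := hcl _ (pb_conj hg₀ (by
      rw [← hinr]
      exact hτ))
    rw [map_mul, map_mul, map_inv] at h1
    have h3 : φ τ = φ g₀ * ((φ g₀)⁻¹ * φ τ * φ g₀) * (φ g₀)⁻¹ := by group
    rw [h3, h1, mul_one, mul_inv_cancel]

omit [Finite R] in
theorem par_uniq {φ φ' ρ : Gal(Ω/K) →* R} {g : Finset X.Lb} (h : Dg.Tw φ (X.bet g) ρ)
    (h' : Dg.Tw φ' (X.bet g) ρ) : φ = φ' := 
  tws_uniq (tws_back h) (tws_back h')

end H1.AR
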