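import Pool.Agent.H63.MA.RMkA

/-!
# [H1 AR RMB] linear algebra: `RMkA_lin` with a bound for the number of classes, 80-140 lines. File Pool/Agent/H1/AR/RMb.lean

Copy the proofs of `RMkA_lin0` and `RMkA_lin` (H63/MA/RMkA.lean). New: `r ≤ k`. There `A = G ⧸ P` (additive, vector space over `ZMod p`), `W` the image of `U`, `r = finrank (A ⧸ W)`
(`Module.finBasis`; `r` is this number by definition). `finrank A + 0 = finrank W + finrank (A ⧸ W)` (`Submodule.finrank_quotient_add_finrank`). `p ^ finrank A = Nat.card A ≤ p ^ (2 * k)`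
(`hR`: the classes of the elements of the finite set `T` are everything), so `finrank A ≤ 2 * k`. The images of `b i` in `W` are linearly independent: `∑ a i • [b i] = [∏ b i ^ (a i).val] = 0` gives
`∏ b i ^ (a i).val ∈ P`, so `p ∣ (a i).val`, `a i = 0` (`hind`); so `k ≤ finrank W` (`LinearIndependent.fintype_card_le_finrank`).
-/

set_option autoImplicit false
set_option linter.dupNamespace false

open scoped NumberField
open IsDedekindDomain
open scoped Classical

noncomputable section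

namespace H1.AR

open H63.MA

private theorem rmb_lin0 {p : ℕ} (hp : p.Prime) {G A : Type} [CommGroup G] [AddCommGroup A]
    [Module (ZMod p) A] [Finite A] (cl : G → A) (hmul : ∀ x y, cl (x * y) = cl x + cl y)
    (P U : Subgroup G) (hzero : ∀ x, cl x = 0 ↔ x ∈ P) (hsurj : Function.Surjective cl)
    {ι : Type} (g : ι → G) (Q : ι → Prop)
    (hQ : ∀ x : G, ∃ (m : ι →₀ ℤ) (w : G), w ∈ U ∧ (∀ i ∈ m.support, Q i) ∧
      x = (m.prod fun v n => g v ^ n) * w) {k : ℕ} (hcard : Nat.card A ≤ p ^ (2 * k))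
    (b : Fin k → G) (hb : ∀ i, b i ∈ U)
    (hind : ∀ a : Fin k → ℕ, ∏ i, b i ^ a i ∈ P → ∀ i, p ∣ a i) :
    ∃ (u : ι → G) (r : ℕ) (q : ι → Fin r → ZMod p), r ≤ k ∧ (∀ i, u i ∈ U) ∧
      (∀ m : ι →₀ ℤ, (m.sum fun v n => (n : ZMod p) • q v) = 0 →
        (m.prod fun v n => (g v * u v) ^ n) ∈ P) ∧
      (∀ m : ι →₀ ℤ, ∀ w ∈ U, (m.prod fun v n => g v ^ n) * w ∈ P →
        (m.sum fun v n => (n : ZMod p) • q v) = 0) ∧
      ∀ κ : Fin r → ZMod p, κ ≠ 0 → ∃ v, Q v ∧ ∑ i, κ i * q v i ≠ 0 := by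
  classical
  have : Fact p.Prime := ⟨hp⟩
  have hone : cl 1 = 0 := by
    have h1 := hmul 1 1
    rw [mul_one] at h1
    exact left_eq_add.mp h1
  have hinv : ∀ x, cl x⁻¹ = -cl x := by
    intro x
    have h1 := hmul x x⁻¹
    rw [mul_inv_cancel, hone] at h1
    exact (neg_eq_of_add_eq_zero_right h1.symm).symm
  have hpow : ∀ (x : G) (n : ℕ), cl (x ^ n) = n • cl x := by
    intro x n
    induction n with
    | zero => rw [pow_zero, hone, zero_smul]
    | succ n ih => rw [pow_succ, hmul, ih, succ_nsmul]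
  have hzpow : ∀ (x : G) (n : ℤ), cl (x ^ n) = n • cl x := by
    intro x n
    obtain ⟨m, rfl | rfl⟩ := n.eq_nat_or_neg
    · rw [zpow_natCast, hpow, natCast_zsmul]
    · rw [zpow_neg, zpow_natCast, hinv, hpow, neg_smul, natCast_zsmul]
  have hprod : ∀ (s : Finset ι) (f : ι → G), cl (∏ i ∈ s, f i) = ∑ i ∈ s, cl (f i) := by
    intro s f
    induction s using Finset.induction_on with
    | empty => rw [Finset.prod_empty, Finset.sum_empty, hone]
    | insert a s ha ih => rw [Finset.prod_insert ha, Finset.sum_insert ha, hmul, ih]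
  obtain ⟨W, hW⟩ : ∃ W : Submodule (ZMod p) A, ∀ z : A, z ∈ W ↔ ∃ x ∈ U, cl x = z := by
    let W0 : AddSubgroup A :=
      { carrier := cl '' (U : Set G)
        add_mem' := by
          rintro _ _ ⟨x, hx, rfl⟩ ⟨y, hy, rfl⟩
          exact ⟨x * y, U.mul_mem hx hy, hmul x y⟩
        zero_mem' := ⟨1, U.one_mem, hone⟩
        neg_mem' := by
          rintro _ ⟨x, hx, rfl⟩
          exact ⟨x⁻¹, U.inv_mem hx, hinv x⟩ }
    refine ⟨AddSubgroup.toZModSubmodule p W0, fun z => ?_⟩
    rw [AddSubgroup.mem_toZModSubmodule]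
    exact Iff.rfl
  obtain ⟨s, hs⟩ := W.mkQ.exists_rightInverse_of_surjective (Submodule.range_mkQ W)
  have hs' : ∀ z, W.mkQ (s z) = z := fun z => LinearMap.congr_fun hs z
  have hfinM : Module.Finite (ZMod p) A := Module.Finite.of_finite
  let e := (Module.finBasis (ZMod p) (A ⧸ W)).equivFun
  have hu : ∀ i, ∃ u ∈ U, cl u = s (W.mkQ (cl (g i))) - cl (g i) := by
    intro i
    rw [← hW, ← Submodule.Quotient.mk_eq_zero W, Submodule.Quotient.mk_sub, sub_eq_zero]
    exact hs' _
  choose u huU hu using hu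
  have hgu : ∀ i, cl (g i * u i) = s (W.mkQ (cl (g i))) := by
    intro i
    rw [hmul, hu]
    abel
  refine ⟨u, _, fun i => e (W.mkQ (cl (g i))), ?_, huU, ?_, ?_, ?_⟩
  · have h1 := Submodule.finrank_quotient_add_finrank W
    have h2 : p ^ Module.finrank (ZMod p) A ≤ p ^ (2 * k) := by
      have h3 : Nat.card A = Nat.card (ZMod p) ^ Module.finrank (ZMod p) A :=
        Module.natCard_eq_pow_finrank (K := ZMod p) (V := A)
      rw [Nat.card_zmod] at h3
      rw [← h3]
      exact hcard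
    have h3 : Module.finrank (ZMod p) A ≤ 2 * k := (Nat.pow_le_pow_iff_right hp.one_lt).1 h2
    have hprod' : ∀ (s : Finset (Fin k)) (f : Fin k → G), cl (∏ i ∈ s, f i) = ∑ i ∈ s, cl (f i) := by
      intro s f
      induction s using Finset.induction_on with
      | empty => rw [Finset.prod_empty, Finset.sum_empty, hone]
      | insert a s ha ih => rw [Finset.prod_insert ha, Finset.sum_insert ha, hmul, ih]
    have hli : LinearIndependent (ZMod p) (fun i : Fin k => (⟨cl (b i), (hW _).2 ⟨b i, hb i, rfl⟩⟩ : W)) := by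
      rw [Fintype.linearIndependent_iff]
      intro a ha i
      have h4 : cl (∏ i, b i ^ (a i).val) = 0 := by
        rw [hprod']
        have h5 := congrArg (Submodule.subtype W) ha
        rw [map_sum, map_zero] at h5
        rw [← h5]
        refine Finset.sum_congr rfl fun j _ => ?_
        rw [hpow, map_smul]
        show (a j).val • cl (b j) = a j • cl (b j)
        rw [← Nat.cast_smul_eq_nsmul (ZMod p), ZMod.natCast_zmod_val]
      have h6 := hind (fun i => (a i).val) ((hzero _).1 h4) i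
      have h7 : (a i).val = 0 := Nat.eq_zero_of_dvd_of_lt h6 (ZMod.val_lt (a i))
      exact (ZMod.val_eq_zero (a i)).1 h7
    have h5 := hli.fintype_card_le_finrank
    rw [Fintype.card_fin] at h5
    omega
  · intro m hm
    rw [← hzero, Finsupp.prod, hprod]
    have h1 : ∑ i ∈ m.support, cl ((g i * u i) ^ m i) =
        s (e.symm (m.sum fun v n => (n : ZMod p) • e (W.mkQ (cl (g v))))) := by
      rw [Finsupp.sum, map_sum, map_sum]
      apply Finset.sum_congr rfl
      intro i _
      rw [hzpow, hgu, map_smul, map_smul, LinearEquiv.symm_apply_apply, Int.cast_smul_eq_zsmul]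
    rw [h1, hm, map_zero, map_zero]
  · intro m w hw hmw
    rw [← hzero, hmul, Finsupp.prod, hprod] at hmw
    have h1 : W.mkQ (cl w) = 0 := by
      rw [Submodule.mkQ_apply, Submodule.Quotient.mk_eq_zero, hW]
      exact ⟨w, hw, rfl⟩
    have h2 := congrArg W.mkQ hmw
    rw [map_add, h1, add_zero, map_zero, map_sum] at h2
    have h3 : (m.sum fun v n => (n : ZMod p) • e (W.mkQ (cl (g v)))) =
        e (∑ i ∈ m.support, W.mkQ (cl (g i ^ m i))) := by
      rw [Finsupp.sum, map_sum]
      apply Finset.sum_congr rfl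
      intro i _
      rw [hzpow, ← Int.cast_smul_eq_zsmul (ZMod p), map_smul, map_smul]
    rw [h3, h2, map_zero]
  · intro κ hκ
    by_contra hcon
    push Not at hcon
    apply hκ
    funext j
    obtain ⟨z, hz⟩ := W.mkQ_surjective (e.symm (Pi.single j 1))
    obtain ⟨x, rfl⟩ := hsurj z
    obtain ⟨m, w, hw, hmQ, hx⟩ := hQ x
    have h1 : W.mkQ (cl w) = 0 := by
      rw [Submodule.mkQ_apply, Submodule.Quotient.mk_eq_zero, hW]
      exact ⟨w, hw, rfl⟩
    rw [hx, hmul, Finsupp.prod, hprod, map_add, h1, add_zero, map_sum] at hz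
    have h4 : ∑ i ∈ m.support, (m i : ZMod p) • e (W.mkQ (cl (g i))) = Pi.single j 1 := by
      have h5 := congrArg e hz
      rw [LinearEquiv.apply_symm_apply, map_sum] at h5
      rw [← h5]
      apply Finset.sum_congr rfl
      intro i _
      rw [hzpow, ← Int.cast_smul_eq_zsmul (ZMod p), map_smul, map_smul]
    have h6 : ∑ i, κ i * (Pi.single j (1 : ZMod p) : Fin _ → ZMod p) i = κ j := by
      rw [Finset.sum_eq_single j]
      · rw [Pi.single_eq_same, mul_one]
      · intro b _ hb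
        rw [Pi.single_eq_of_ne hb, mul_zero]
      · intro h
        exact absurd (Finset.mem_univ j) h
    rw [Pi.zero_apply, ← h6, ← h4]
    simp only [Finset.sum_apply, Pi.smul_apply, smul_eq_mul, Finset.mul_sum]
    rw [Finset.sum_comm]
    apply Finset.sum_eq_zero
    intro i hi
    have h7 := hcon i (hmQ i hi)
    calc ∑ y, κ y * ((m i : ZMod p) * e (W.mkQ (cl (g i))) y)
        = (m i : ZMod p) * ∑ y, κ y * e (W.mkQ (cl (g i))) y := by
          rw [Finset.mul_sum]
          apply Finset.sum_congr rfl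
          intro y _
          ring
      _ = 0 := by rw [h7, mul_zero]

theorem rmb {p : ℕ} (hp : p.Prime) {G : Type} [CommGroup G] (P U : Subgroup G)
    (hP : ∀ y : G, y ^ p ∈ P) {ι : Type} (g : ι → G) (Q : ι → Prop)
    (hQ : ∀ x : G, ∃ (m : ι →₀ ℤ) (w : G), w ∈ U ∧ (∀ i ∈ m.support, Q i) ∧
      x = (m.prod fun v n => g v ^ n) * w) {k : ℕ} (T : Finset G) (hT : T.card ≤ p ^ (2 * k))
    (hR : ∀ x, ∃ y ∈ T, x * y⁻¹ ∈ P) (b : Fin k → G) (hb : ∀ i, b i ∈ U)
    (hind : ∀ a : Fin k → ℕ, ∏ i, b i ^ a i ∈ P → ∀ i, p ∣ a i) :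
    ∃ (u : ι → G) (r : ℕ) (q : ι → Fin r → ZMod p), r ≤ k ∧ (∀ i, u i ∈ U) ∧
      (∀ m : ι →₀ ℤ, (m.sum fun v n => (n : ZMod p) • q v) = 0 →
        (m.prod fun v n => (g v * u v) ^ n) ∈ P) ∧
      (∀ m : ι →₀ ℤ, ∀ w ∈ U, (m.prod fun v n => g v ^ n) * w ∈ P →
        (m.sum fun v n => (n : ZMod p) • q v) = 0) ∧
      ∀ κ : Fin r → ZMod p, κ ≠ 0 → ∃ v, Q v ∧ ∑ i, κ i * q v i ≠ 0 := by
  have hx : ∀ z : Additive (G ⧸ P), p • z = 0 := by
    intro z
    obtain ⟨x, hx⟩ := QuotientGroup.mk_surjective (Additive.toMul z)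
    have h1 : (QuotientGroup.mk (x ^ p) : G ⧸ P) = 1 := (QuotientGroup.eq_one_iff _).2 (hP x)
    have h2 : z = Additive.ofMul (QuotientGroup.mk x) := by rw [hx]; rfl
    rw [h2]
    exact congrArg Additive.ofMul h1
  have hsurj : Function.Surjective (fun y : T => (QuotientGroup.mk y.1 : G ⧸ P)) := by
    intro z
    obtain ⟨x, rfl⟩ := QuotientGroup.mk_surjective z
    obtain ⟨y, hy, hxy⟩ := hR x
    refine ⟨⟨y, hy⟩, ?_⟩
    show (QuotientGroup.mk y : G ⧸ P) = QuotientGroup.mk x
    rw [QuotientGroup.eq, mul_comm]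
    exact hxy
  have hfin : Finite (G ⧸ P) := Finite.of_surjective _ hsurj
  have hfin' : Finite (Additive (G ⧸ P)) := hfin
  have hcard : Nat.card (Additive (G ⧸ P)) ≤ p ^ (2 * k) := by
    have h1 : Nat.card (G ⧸ P) ≤ Nat.card T := Nat.card_le_card_of_surjective _ hsurj
    rw [(Nat.card_eq_fintype_card (α := T)).trans (Fintype.card_coe T)] at h1
    exact h1.trans hT
  exact @rmb_lin0 p hp G (Additive (G ⧸ P)) _ _ (AddCommGroup.zmodModule hx) hfin'
    (fun x => Additive.ofMul (QuotientGroup.mk x)) (fun x y => rfl) P U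
    (fun x => (QuotientGroup.eq_one_iff x)) QuotientGroup.mk_surjective ι g Q hQ k hcard b hb hind

end H1.AR
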