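import Pool.Agent.H1.AR.RMa
import Pool.Agent.H1.AR.RMb
import Pool.Agent.H51.CUB.DUB
import Pool.Agent.H51.CUB.DUC

/-!
# [H1 AR RMC] existence of the reciprocity data modulo `p`, 150-220 lines. File Pool/Agent/H1/AR/RMc.lean

Copy of the proof of `exists_RD0` (H63/MA/RMkA.lean) with `UT S0` replaced by `VS p S`, `ClOne` by `ClP p S`, modulus `M = span {p} ^ 3 * ∏ w ∈ S, w.asIdeal`.
* `g v` from `hcl`; `hgen` from `vs_gen`. `P = RMkA_G hp hp2 hζ S` (`PS`), `U = VS p S`, `Q v = v ∉ S`.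
* `rmb` with `k, b` from `H51.CUB.duc hp hp2 hζ S` (`2 * k = 2 * #S + n`, `b i ∈ UT S ≤ VS p S`), `T` from `H51.CUB.dub hp hp2 hζ S hS` (`#T ≤ p ^ (2 * #S + n) = p ^ (2 * k)`). `hind`: `∏ b i ^ a i` is in
  `VS` and `PS`, so a `p`-th power by `vs_pow`, then `p ∣ a i` by `duc`.
* `rmc_ray` (`PS` for integral `x ≡ 1` modulo `M`): for `v ∣ p`: `LocP` with `y = 1`: `v.valuation (x - 1) ≤ v.valuation (p ^ 3) < v.valuation (p ^ 2)` (`x - 1 ∈ span {p ^ 3}`, `v.valuation p < 1`); for
  `v ∈ S` not above `p`: `spl_iff` with `y = 1`, `x - 1 ∈ v`. (Compare `RMkA_near`.)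
* `pi v = g v * u v`, `q v = if v ∈ S then 0 else q v`; `pi_self`: `ord v (u v) = 0` is NOT true, only `0` mod `p`: correct it: `pi v := g v * u v * c ^ p` with `c` of order `- ord v (u v) / p` at `v`
  (`c = g v ^ (..)`): `PS` contains the `p`-th powers, so `prim_of` stays true, and all other orders change by multiples of `p`.
* `ray_q`: as in `exists_RD0` (`m v = ord v x` outside `S`, `w ∈ VS` by `vs_gen`; `hB`). `zero`: a prime `v` dividing `M` is in `S` (above `p` or one of the `w`).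
-/

set_option autoImplicit false
set_option linter.dupNamespace false

open scoped NumberField
open IsDedekindDomain
open scoped Classical

noncomputable section

namespace H1.AR

open H63.MA

variable {F : Type} [Field F] [NumberField F] {p : ℕ} {ζ : F}

theorem rmc_ray (hp : p.Prime) (hζ : IsPrimitiveRoot ζ p) (S : Finset (Pl F))
    (hS : ∀ v, Above p v → v ∈ S) (x : Fˣ) (a : 𝓞 F) (hx : (x : F) = algebraMap (𝓞 F) F a)
    (ha : a - 1 ∈ Ideal.span {(p : 𝓞 F)} ^ 3 * ∏ v ∈ S, v.asIdeal) : PS p ζ S x := by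
  have hx1 : (x : F) - 1 = algebraMap (𝓞 F) F (a - 1) := by rw [hx, map_sub, map_one]
  refine ⟨fun v hv => ⟨1, ?_⟩, fun v hv hna => ?_⟩
  · rw [one_pow, inv_one, mul_one, hx1]
    have h0 : Ideal.span {(p : 𝓞 F)} ^ 3 * ∏ v ∈ S, v.asIdeal ≤ Ideal.span {(p : 𝓞 F)} ^ 3 :=
      Ideal.mul_le_left
    have h1 : a - 1 ∈ Ideal.span {(p : 𝓞 F) ^ 3} := by
      rw [← Ideal.span_singleton_pow]
      exact h0 ha
    obtain ⟨c, hc⟩ := Ideal.mem_span_singleton'.1 h1
    have h2 : v.valuation F (p : F) < 1 := by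
      have h3 : (p : F) = algebraMap (𝓞 F) F (p : 𝓞 F) := by simp
      rw [h3, HeightOneSpectrum.valuation_lt_one_iff_mem]
      exact hv
    have h3 : 0 < v.valuation F (p : F) := by
      rw [zero_lt_iff, Valuation.ne_zero_iff]
      exact_mod_cast hp.ne_zero
    have h4 : algebraMap (𝓞 F) F (a - 1) = algebraMap (𝓞 F) F c * (p : F) ^ 3 := by
      rw [← hc, map_mul, map_pow, map_natCast]
    rw [h4, map_mul, map_pow, map_pow]
    calc v.valuation F (algebraMap (𝓞 F) F c) * v.valuation F (p : F) ^ 3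
        ≤ 1 * v.valuation F (p : F) ^ 3 := mul_le_mul_left (v.valuation_le_one c) _
      _ = v.valuation F (p : F) ^ 3 := one_mul _
      _ < v.valuation F (p : F) ^ 2 := pow_lt_pow_right_of_lt_one₀ h3 h2 (by norm_num)
  · rw [spl_iff hp hζ hna]
    refine ⟨1, ?_⟩
    rw [one_pow, inv_one, mul_one]
    show v.valuation F ((x : F) - 1) < 1
    rw [hx1, HeightOneSpectrum.valuation_lt_one_iff_mem]
    have h0 : Ideal.span {(p : 𝓞 F)} ^ 3 * ∏ v ∈ S, v.asIdeal ≤ ∏ v ∈ S, v.asIdeal :=
      Ideal.mul_le_right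
    have h5 : ∏ v ∈ S, v.asIdeal ≤ v.asIdeal := Ideal.le_of_dvd (Finset.dvd_prod_of_mem _ hv)
    exact h5 (h0 ha)

private theorem rmc_dvd (S : Finset (Pl F)) (hS : ∀ v, Above p v → v ∈ S) (v : Pl F)
    (hv : v.asIdeal ∣ Ideal.span {(p : 𝓞 F)} ^ 3 * ∏ v ∈ S, v.asIdeal) : v ∈ S := by
  rcases (HeightOneSpectrum.prime v).dvd_or_dvd hv with h | h
  · have h2 : v.asIdeal ∣ Ideal.span {(p : 𝓞 F)} := (HeightOneSpectrum.prime v).dvd_of_dvd_pow h
    exact hS v (Ideal.dvd_span_singleton.1 h2)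
  · obtain ⟨w, hw, h1⟩ := (HeightOneSpectrum.prime v).exists_mem_finset_dvd h
    have h3 : w.asIdeal ≤ v.asIdeal := Ideal.le_of_dvd h1
    have h4 : w = v := HeightOneSpectrum.ext (w.isMaximal.eq_of_le v.isPrime.ne_top h3)
    rw [← h4]
    exact hw

theorem exists_RM (hp : p.Prime) (hp2 : MOne p F) (hζ : IsPrimitiveRoot ζ p) (S : Finset (Pl F))
    (hS : ∀ v, Above p v → v ∈ S) (hcl : ClP p S) : ∃ D : RM F p ζ, D.S = S := by
  have : Fact p.Prime := ⟨hp⟩
  have hgex : ∀ v : Pl F, ∃ x : Fˣ, v ∉ S → ord v x = 1 ∧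
      ∀ w, w ∉ S → w ≠ v → ((ord w x : ℤ) : ZMod p) = 0 := by
    intro v
    by_cases hv : v ∈ S
    · exact ⟨1, fun h => absurd hv h⟩
    · obtain ⟨x, hx⟩ := hcl v hv
      exact ⟨x, fun _ => hx⟩
  choose g hg using hgex
  have hgen : ∀ x : Fˣ, ∃ (m : Pl F →₀ ℤ) (w : Fˣ), w ∈ VS p S ∧ (∀ i ∈ m.support, i ∉ S) ∧
      x = (m.prod fun v n => g v ^ n) * w := by
    intro x
    obtain ⟨m, w, hw, hm, hx⟩ := vs_gen S g hg x
    refine ⟨m, w, hw, fun i hi his => ?_, hx⟩
    rw [Finsupp.mem_support_iff, hm, if_pos his] at hi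
    exact hi rfl
  obtain ⟨k, b, hk, hb, hbi⟩ := H51.CUB.duc hp hp2 hζ S
  obtain ⟨T, hT, hTR⟩ := H51.CUB.dub hp hp2 hζ S hS
  rw [← hk] at hT
  have hbV : ∀ i, b i ∈ VS p S := fun i v hv => by rw [hb i v hv, Int.cast_zero]
  have hind : ∀ a : Fin k → ℕ, ∏ i, b i ^ a i ∈ RMkA_G hp hp2 hζ S → ∀ i, p ∣ a i := by
    intro a ha
    exact hbi a (vs_pow hp hp2 hζ S hS hcl _
      (Subgroup.prod_mem _ fun i _ => Subgroup.pow_mem _ (hbV i) _) ha)
  obtain ⟨u, r, q, hrk, hu, hA, hB, hnon⟩ := rmb hp (RMkA_G hp hp2 hζ S) (VS p S)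
    (fun y => RMkA_pow hp hp2 hζ S y) g (fun v => v ∉ S) hgen T hT hTR b hbV hind
  obtain ⟨c, hc⟩ : ∃ c : Pl F → Fˣ, ∀ v, c v = g v ^ (-(ord v (u v) / p)) := ⟨_, fun v => rfl⟩
  refine ⟨{ S := S
            above := hS
            pi := fun v => g v * u v * c v ^ p
            pi_self := ?_
            pi_ne := ?_
            r := r
            q := fun v => if v ∈ S then 0 else q v
            q_zero := ?_
            prim_of := ?_
            ray_q := ?_
            q_non := ?_
            two_r := ?_ }, rfl⟩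
  · intro v hv
    have h1 : (p : ℤ) ∣ ord v (u v) := (ZMod.intCast_zmod_eq_zero_iff_dvd _ _).1 (hu v v hv)
    rw [ord_mul, ord_mul, (hg v hv).1, ord_pow, hc, ord_zpow, (hg v hv).1, mul_one, mul_neg,
      Int.mul_ediv_cancel' h1]
    ring
  · intro v w hv hw hwv
    rw [ord_mul, ord_mul, ord_pow, Int.cast_add, Int.cast_add, Int.cast_mul, (hg v hv).2 w hw hwv,
      hu v w hw, Int.cast_natCast, ZMod.natCast_self, zero_mul, add_zero, add_zero]
  · intro v hv
    exact if_pos hv
  · intro m hm hsum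
    have h1 : (m.prod fun v n => (g v * u v) ^ n) ∈ RMkA_G hp hp2 hζ S := by
      apply hA m
      rw [← hsum]
      apply Finset.sum_congr rfl
      intro v hv
      have hvS : v ∉ S := fun h => (Finsupp.mem_support_iff.1 hv) (hm v h)
      simp only [if_neg hvS]
    have h2 : (m.prod fun v n => (g v * u v * c v ^ p) ^ n) =
        (m.prod fun v n => (g v * u v) ^ n) * (m.prod fun v n => c v ^ n) ^ p := by
      rw [Finsupp.prod, Finsupp.prod, Finsupp.prod, ← Finset.prod_pow, ← Finset.prod_mul_distrib]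
      refine Finset.prod_congr rfl fun v _ => ?_
      rw [mul_zpow (g v * u v)]
      congr 1
      rw [← zpow_natCast, ← zpow_natCast, ← zpow_mul, ← zpow_mul, mul_comm]
    rw [h2]
    exact RMkA_mul hp hp2 hζ h1 (RMkA_pow hp hp2 hζ S _)
  · intro κ
    constructor
    · intro v hv
      have hvS : v ∈ S := rmc_dvd S hS v hv
      simp only [if_pos hvS, Pi.zero_apply, mul_zero, Finset.sum_const_zero]
    · intro x a hxa ha
      have hPS := rmc_ray hp hζ S hS x a hxa ha
      obtain ⟨m, w, hw, hm, hx⟩ := vs_gen S g hg x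
      have hmS : ∀ v ∈ m.support, v ∉ S := by
        intro v hv hvS
        rw [Finsupp.mem_support_iff, hm, if_pos hvS] at hv
        exact hv rfl
      have h1 := hB m w hw (by
        rw [← hx]
        exact hPS)
      have hsupp : (Function.support fun v : Pl F =>
          (∑ i, κ i * (if v ∈ S then (0 : Fin r → ZMod p) else q v) i) * (ord v x : ZMod p)) ⊆
          ((m.support : Finset (Pl F)) : Set (Pl F)) := by
        intro v hv
        rw [Function.mem_support] at hv
        rw [Finset.mem_coe, Finsupp.mem_support_iff, hm]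
        by_cases hvS : v ∈ S
        · exfalso
          apply hv
          simp only [if_pos hvS, Pi.zero_apply, mul_zero, Finset.sum_const_zero, zero_mul]
        · rw [if_neg hvS]
          intro h0
          apply hv
          rw [h0, Int.cast_zero, mul_zero]
      rw [finsum_eq_sum_of_support_subset _ hsupp]
      have h2 : ∀ v ∈ m.support,
          (∑ i, κ i * (if v ∈ S then (0 : Fin r → ZMod p) else q v) i) * (ord v x : ZMod p) =
          ∑ i, κ i * (((m v : ZMod p) • q v) i) := by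
        intro v hv
        have hvS := hmS v hv
        rw [hm, if_neg hvS, if_neg hvS, Finset.sum_mul]
        apply Finset.sum_congr rfl
        intro i _
        rw [Pi.smul_apply, smul_eq_mul]
        ring
      rw [Finset.sum_congr rfl h2, Finset.sum_comm]
      have h3 : ∀ i, ∑ v ∈ m.support, κ i * (((m v : ZMod p) • q v) i) = 0 := by
        intro i
        rw [← Finset.mul_sum]
        have h5 := congrFun h1 i
        rw [Finsupp.sum, Finset.sum_apply, Pi.zero_apply] at h5
        rw [h5, mul_zero]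
      exact Finset.sum_eq_zero fun i _ => h3 i
  · intro κ hκ
    obtain ⟨v, hv, h1⟩ := hnon κ hκ
    exact ⟨v, by simpa only [if_neg hv] using h1⟩
  · omega

end H1.AR
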