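import Pool.Agent.H1.AR.Defs

/-!
# [H1 AR RKA] characters of open subgroups unramified outside `S`; extension of invariant characters, 120-180 lines. File Pool/Agent/H1/AR/RkA.lean

`AU p I U`: the characters `χ : U → ZMod p` of finite level, extended by `0` to `Γ = Gal(Ω/K)`, which vanish on `I`. `InS S`: the union of the inertia groups of the primes of `𝓞 Ω` over places `v ∉ S`.
`Stp p U' U s`: `U'` is normal in `U`, `U = U' ⟨s⟩`, `s ∉ U'`, `s ^ p ∈ U'` (index `p`).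
* `ins_conj`: `P` over `v`, `τ ∈ P.inertia`: `g τ g⁻¹` is in the inertia group of `g • P` (or the ideal `{x : g⁻¹ x ∈ P}`), also a prime over `v`.
* `rka_lev`: `E` from `hop` and the level of `χ`; a finite Galois extension containing both (`normalClosure`, see `bqa` in H57/BRA/BQa.lean) has a normal fixing subgroup `V ≤ U'` with `χ (σ u) = χ σ` for `u ∈ V`.
* `rka_ext`: (1) if `s ^ k ∈ U'` then `p ∣ k` (otherwise `s ∈ U'`: Bezout with `s ^ p ∈ U'`), so `χ (s ^ k) = (k / p) χ (s ^ p) = 0`. (2) `χ' (x * s ^ i) := χ x` (`x ∈ U'`), `0` outside `U`: well defined: if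
  `x s ^ i = x' s ^ j`, `i ≤ j`: `x'⁻¹ x = s ^ (j - i) ∈ U'`, so `χ x = χ x'` by (1). (3) additive: `(x s^i)(x' s^j) = x (s^i x' s^(-i)) s^(i+j)` and `χ (s^i x' s^(-i)) = χ x'` by `hinv` (induction on `i`).
  (4) finite level: for `u` in the normal subgroup `V` of `rka_lev`: `x s^i u = x (s^i u s^(-i)) s^i`, `χ (x v) = χ x` for `v ∈ V`; `σ u ∈ U ↔ σ ∈ U`. (5) `0` on `I` (`I ⊆ U'`, `χ' = χ` on `U'`).
-/

set_option autoImplicit false
set_option linter.dupNamespace false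

open scoped NumberField Pointwise
open IsDedekindDomain
open scoped Classical

noncomputable section

namespace H1.AR

open H63.MA H38.BB H38.BG H57.PC H57.BRA H89.BRG

variable {K : Type} [Field K] [NumberField K] {Ω : Type} [Field Ω] [Algebra K Ω]

/-- the inertia elements outside `S` -/
def InS (S : Finset (Pl K)) : Set Gal(Ω/K) :=
  {τ | ∃ v, v ∉ S ∧ ∃ P : Ideal (𝓞 Ω), P.IsPrime ∧ P.under (𝓞 K) = v.asIdeal ∧
    τ ∈ P.inertia Gal(Ω/K)}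

/-- the characters of `U` which vanish on `I`, extended by `0` -/
def AU (p : ℕ) (I : Set Gal(Ω/K)) (U : Subgroup Gal(Ω/K)) :
    Submodule (ZMod p) (Gal(Ω/K) → ZMod p) where
  carrier := {χ | Lev χ ∧ (∀ σ, σ ∉ U → χ σ = 0) ∧
    (∀ σ ∈ U, ∀ τ ∈ U, χ (σ * τ) = χ σ + χ τ) ∧ ∀ σ ∈ I, χ σ = 0}
  add_mem' := by
    rintro χ χ' ⟨⟨E, hE, h1⟩, h2, h3, h4⟩ ⟨⟨E', hE', h1'⟩, h2', h3', h4'⟩
    refine ⟨⟨E ⊔ E', IntermediateField.finiteDimensional_sup E E', fun σ u hu => ?_⟩,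
      fun σ hσ => ?_, fun σ hσ τ hτ => ?_, fun σ hσ => ?_⟩
    · rw [Pi.add_apply, Pi.add_apply,
        h1 σ u (IntermediateField.fixingSubgroup_antitone le_sup_left hu),
        h1' σ u (IntermediateField.fixingSubgroup_antitone le_sup_right hu)]
    · rw [Pi.add_apply, h2 σ hσ, h2' σ hσ, add_zero]
    · rw [Pi.add_apply, Pi.add_apply, Pi.add_apply, h3 σ hσ τ hτ, h3' σ hσ τ hτ]
      ring
    · rw [Pi.add_apply, h4 σ hσ, h4' σ hσ, add_zero]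
  zero_mem' := ⟨⟨⊥, inferInstance, fun _ _ _ => rfl⟩, fun _ _ => rfl,
    fun _ _ _ _ => (add_zero _).symm, fun _ _ => rfl⟩
  smul_mem' := by
    rintro c χ ⟨⟨E, hE, h1⟩, h2, h3, h4⟩
    refine ⟨⟨E, hE, fun σ u hu => ?_⟩, fun σ hσ => ?_, fun σ hσ τ hτ => ?_, fun σ hσ => ?_⟩
    · rw [Pi.smul_apply, Pi.smul_apply, h1 σ u hu]
    · rw [Pi.smul_apply, h2 σ hσ, smul_zero]
    · rw [Pi.smul_apply, Pi.smul_apply, Pi.smul_apply, h3 σ hσ τ hτ, smul_add]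
    · rw [Pi.smul_apply, h4 σ hσ, smul_zero]

/-- `U'` is normal of index `p` in `U`, generated by `s` over `U'` -/
structure Stp {Γ : Type} [Group Γ] (p : ℕ) (U' U : Subgroup Γ) (s : Γ) : Prop where
  le : U' ≤ U
  nor : ∀ u ∈ U, ∀ x ∈ U', u * x * u⁻¹ ∈ U'
  mem : s ∈ U
  nmem : s ∉ U'
  pow : s ^ p ∈ U'
  gen : ∀ u ∈ U, ∃ x ∈ U', ∃ i : ℕ, u = x * s ^ i

theorem ins_conj (S : Finset (Pl K)) {τ : Gal(Ω/K)} (h : τ ∈ InS S) (g : Gal(Ω/K)) :
    g * τ * g⁻¹ ∈ InS (Ω := Ω) S := by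
  obtain ⟨v, hv, P, hP, hPv, hτ⟩ := h
  have hmem : ∀ x : 𝓞 Ω, x ∈ P.comap (MulSemiringAction.toRingHom Gal(Ω/K) (𝓞 Ω) g⁻¹) ↔
      g⁻¹ • x ∈ P := fun x => Iff.rfl
  refine ⟨v, hv, P.comap (MulSemiringAction.toRingHom Gal(Ω/K) (𝓞 Ω) g⁻¹),
    Ideal.comap_isPrime _ _, ?_, ?_⟩
  · rw [← hPv]
    ext x
    have h1 : g⁻¹ • algebraMap (𝓞 K) (𝓞 Ω) x = algebraMap (𝓞 K) (𝓞 Ω) x := by
      apply NumberField.RingOfIntegers.ext
      exact (g⁻¹).commutes (x : K)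
    change g⁻¹ • algebraMap (𝓞 K) (𝓞 Ω) x ∈ P ↔ algebraMap (𝓞 K) (𝓞 Ω) x ∈ P
    rw [h1]
  · intro x
    change (g * τ * g⁻¹) • x - x ∈ P.comap (MulSemiringAction.toRingHom Gal(Ω/K) (𝓞 Ω) g⁻¹)
    rw [hmem, smul_sub, mul_smul, mul_smul, inv_smul_smul]
    exact hτ (g⁻¹ • x)

variable [IsAlgClosure K Ω]

theorem rka_lev {X : Type} (f : Gal(Ω/K) → X) (hf : Lev f) (U' : Subgroup Gal(Ω/K))
    (hop : ∃ E : IntermediateField K Ω, FiniteDimensional K E ∧ E.fixingSubgroup ≤ U') :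
    ∃ E : IntermediateField K Ω, FiniteDimensional K E ∧ E.fixingSubgroup ≤ U' ∧
      (∀ g, ∀ u ∈ E.fixingSubgroup, g * u * g⁻¹ ∈ E.fixingSubgroup) ∧
      ∀ σ, ∀ u ∈ E.fixingSubgroup, f (σ * u) = f σ := by
  obtain ⟨E1, hE1, h1⟩ := hop
  obtain ⟨E2, hE2, h2⟩ := hf
  have hfd : FiniteDimensional K (E1 ⊔ E2 : IntermediateField K Ω) :=
    IntermediateField.finiteDimensional_sup E1 E2
  obtain ⟨M, hMf, hMn, hM, -⟩ := gtriv_field (E1 ⊔ E2) (fun _ => (0 : Ω)) fun _ _ _ => rfl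
  refine ⟨M, hMf, ?_, ?_, ?_⟩
  · exact (IntermediateField.fixingSubgroup_antitone (le_sup_left.trans hM)).trans h1
  · intro g u hu
    rw [← IntermediateField.restrictNormalHom_ker] at hu ⊢
    exact (MonoidHom.normal_ker (AlgEquiv.restrictNormalHom (F := K) (K₁ := Ω) M)).conj_mem
      u hu g
  · intro σ u hu
    exact h2 σ u (IntermediateField.fixingSubgroup_antitone (le_sup_right.trans hM) hu)

theorem rka_ext {p : ℕ} (hp : p.Prime) {I : Set Gal(Ω/K)} {U' U : Subgroup Gal(Ω/K)}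
    {s : Gal(Ω/K)} (hS : Stp p U' U s) (hI : I ⊆ U')
    (hop : ∃ E : IntermediateField K Ω, FiniteDimensional K E ∧ E.fixingSubgroup ≤ U')
    {χ : Gal(Ω/K) → ZMod p} (hχ : χ ∈ AU p I U') (hinv : ∀ x ∈ U', χ (s⁻¹ * x * s) = χ x)
    (h0 : χ (s ^ p) = 0) : ∃ χ' ∈ AU p I U, ∀ x ∈ U', χ' x = χ x := by
  obtain ⟨hlev, hz, hadd, hv⟩ := hχ
  have hdvd : ∀ k : ℕ, s ^ k ∈ U' → p ∣ k := by
    intro k hk
    by_contra hpk
    have hcop : Nat.Coprime p k := (hp.coprime_iff_not_dvd).2 hpk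
    have hb := Nat.gcd_eq_gcd_ab p k
    rw [hcop.gcd_eq_one, Nat.cast_one] at hb
    apply hS.nmem
    have h1 : s = (s ^ p) ^ (Nat.gcdA p k) * (s ^ k) ^ (Nat.gcdB p k) := by
      rw [← zpow_natCast, ← zpow_natCast, ← zpow_mul, ← zpow_mul, ← zpow_add, ← hb, zpow_one]
    rw [h1]
    exact mul_mem (zpow_mem hS.pow _) (zpow_mem hk _)
  have hχ1 : χ 1 = 0 := by
    have h1 := hadd 1 (one_mem _) 1 (one_mem _)
    rw [mul_one] at h1
    exact left_eq_add.1 h1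
  have hpm : ∀ m : ℕ, χ ((s ^ p) ^ m) = 0 := by
    intro m
    induction m with
    | zero => rw [pow_zero, hχ1]
    | succ m ih => rw [pow_succ, hadd _ (pow_mem hS.pow m) _ hS.pow, ih, h0, add_zero]
  have hsk : ∀ k : ℕ, s ^ k ∈ U' → χ (s ^ k) = 0 := by
    intro k hk
    obtain ⟨m, rfl⟩ := hdvd k hk
    rw [pow_mul]
    exact hpm m
  have hle : ∀ x ∈ U', ∀ x' ∈ U', ∀ i j : ℕ, i ≤ j → x * s ^ i = x' * s ^ j → χ x = χ x' := by
    intro x hx x' hx' i j hij h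
    obtain ⟨k, rfl⟩ := Nat.exists_eq_add_of_le' hij
    rw [pow_add, ← mul_assoc] at h
    have h1 : x = x' * s ^ k := mul_right_cancel h
    have h2 : s ^ k ∈ U' := by
      have h3 : s ^ k = x'⁻¹ * x := by rw [h1, inv_mul_cancel_left]
      rw [h3]
      exact mul_mem (inv_mem hx') hx
    rw [h1, hadd _ hx' _ h2, hsk k h2, add_zero]
  have hwd : ∀ x ∈ U', ∀ x' ∈ U', ∀ i j : ℕ, x * s ^ i = x' * s ^ j → χ x = χ x' := by
    intro x hx x' hx' i j h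
    rcases le_total i j with hij | hij
    · exact hle x hx x' hx' i j hij h
    · exact (hle x' hx' x hx j i hij h.symm).symm
  have hcj : ∀ i : ℕ, ∀ x ∈ U', s ^ i * x * (s ^ i)⁻¹ ∈ U' ∧ χ (s ^ i * x * (s ^ i)⁻¹) = χ x := by
    intro i
    induction i with
    | zero =>
      intro x hx
      rw [pow_zero, one_mul, inv_one, mul_one]
      exact ⟨hx, rfl⟩
    | succ i ih =>
      intro x hx
      obtain ⟨h1, h2⟩ := ih x hx
      have h3 : s ^ (i + 1) * x * (s ^ (i + 1))⁻¹ = s * (s ^ i * x * (s ^ i)⁻¹) * s⁻¹ := by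
        rw [pow_succ', mul_inv_rev]
        simp only [mul_assoc]
      rw [h3]
      have h4 := hS.nor s hS.mem _ h1
      refine ⟨h4, ?_⟩
      have h5 := hinv _ h4
      have h6 : s⁻¹ * (s * (s ^ i * x * (s ^ i)⁻¹) * s⁻¹) * s = s ^ i * x * (s ^ i)⁻¹ := by
        group
      rw [h6] at h5
      rw [← h5, h2]
  obtain ⟨χ', hχ'⟩ : ∃ χ' : Gal(Ω/K) → ZMod p, ∀ σ, χ' σ =
      if h : ∃ x ∈ U', ∃ i : ℕ, σ = x * s ^ i then χ h.choose else 0 := ⟨_, fun _ => rfl⟩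
  have hval : ∀ x ∈ U', ∀ i : ℕ, χ' (x * s ^ i) = χ x := by
    intro x hx i
    have hex : ∃ y ∈ U', ∃ j : ℕ, x * s ^ i = y * s ^ j := ⟨x, hx, i, rfl⟩
    rw [hχ', dif_pos hex]
    obtain ⟨h1, j, h2⟩ := hex.choose_spec
    exact (hwd x hx _ h1 i j h2).symm
  have hval1 : ∀ x ∈ U', χ' x = χ x := by
    intro x hx
    have h1 := hval x hx 0
    rwa [pow_zero, mul_one] at h1
  have hout : ∀ σ, σ ∉ U → χ' σ = 0 := by
    intro σ hσ
    rw [hχ', dif_neg]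
    rintro ⟨x, hx, i, rfl⟩
    exact hσ (mul_mem (hS.le hx) (pow_mem hS.mem i))
  refine ⟨χ', ⟨?_, hout, ?_, ?_⟩, hval1⟩
  · obtain ⟨E, hE, hE1, hE2, hE3⟩ := rka_lev χ hlev U' hop
    refine ⟨E, hE, fun σ u hu => ?_⟩
    by_cases hσ : σ ∈ U
    · obtain ⟨x, hx, i, rfl⟩ := hS.gen σ hσ
      have h1 := hE2 (s ^ i) u hu
      have h2 : x * s ^ i * u = x * (s ^ i * u * (s ^ i)⁻¹) * s ^ i := by
        group
      rw [h2, hval _ (mul_mem hx (hE1 h1)), hval x hx, hE3 x _ h1]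
    · rw [hout σ hσ, hout]
      intro h
      apply hσ
      have h1 : σ = σ * u * u⁻¹ := by rw [mul_inv_cancel_right]
      rw [h1]
      exact mul_mem h (inv_mem (hS.le (hE1 hu)))
  · intro σ hσ τ hτ
    obtain ⟨x, hx, i, rfl⟩ := hS.gen σ hσ
    obtain ⟨y, hy, j, rfl⟩ := hS.gen τ hτ
    obtain ⟨h1, h2⟩ := hcj i y hy
    have h3 : x * s ^ i * (y * s ^ j) = x * (s ^ i * y * (s ^ i)⁻¹) * s ^ (i + j) := by
      rw [pow_add]
      group
    rw [h3, hval _ (mul_mem hx h1), hval x hx, hval y hy, hadd x hx _ h1, h2]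
  · intro σ hσ
    rw [hval1 σ (hI hσ), hv σ hσ]

end H1.AR
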