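import Mathlib

/-!
# [H1 AR RKB] nilpotent operators, 60-100 lines. File Pool/Agent/H1/AR/RkB.lean

* `rkb`: by induction on `i`: `ker (T ^ i)` is finite dimensional of dimension at most `i * m`. Step: `T` maps `ker (T ^ (i + 1))` into `ker (T ^ i)` with kernel `ker T ⊓ ..`: finite generation by
  `Submodule.fg_of_fg_map_of_fg_inf_ker`, dimension by `LinearMap.finrank_range_add_finrank_ker` for the restriction of `T` to `ker (T ^ (i + 1))`. At `i = n`: `ker (T ^ n) = ⊤`.
* `rkb_pow`: `(C - 1) ^ p = C ^ p - 1` for an endomorphism `C` of a `ZMod p`-module: `(X - 1) ^ p = X ^ p - 1` in `(ZMod p)[X]` (`sub_pow_char`), apply `Polynomial.aeval C`.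
* `rkb_one`: a subspace `W` with a linear form `f` such that `W ⊓ ker f` is contained in the range of a linear map from a finite dimensional space of dimension `m` is finite dimensional of
  dimension at most `m + 1`.
-/

set_option autoImplicit false
set_option linter.dupNamespace false

noncomputable section

namespace H1.AR

private theorem rk_gen {k : Type} [Field k] {A B : Type} [AddCommGroup A] [Module k A]
    [AddCommGroup B] [Module k B] (g : A →ₗ[k] B) (a b : ℕ) (hB : Module.Finite k B)
    (hb : Module.finrank k B ≤ b) (hA : Module.Finite k (LinearMap.ker g))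
    (ha : Module.finrank k (LinearMap.ker g) ≤ a) :
    Module.Finite k A ∧ Module.finrank k A ≤ a + b := by
  have h1 : (⊤ : Submodule k A).FG := by
    refine Submodule.fg_of_fg_map_of_fg_inf_ker g ?_ ?_
    · exact Module.Finite.iff_fg.1 (FiniteDimensional.finiteDimensional_submodule _)
    · rw [top_inf_eq]
      exact Module.Finite.iff_fg.1 hA
  have h2 : Module.Finite k A := ⟨h1⟩
  refine ⟨h2, ?_⟩
  have h3 := LinearMap.finrank_range_add_finrank_ker g
  have h4 := Submodule.finrank_le (LinearMap.range g)
  omega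

private theorem rk_sub {k : Type} [Field k] {A : Type} [AddCommGroup A] [Module k A]
    {P Q : Submodule k A} (h : P ≤ Q) (a : ℕ) (hQ : Module.Finite k Q)
    (ha : Module.finrank k Q ≤ a) : Module.Finite k P ∧ Module.finrank k P ≤ a := by
  have h1 : Module.Finite k P := Submodule.finiteDimensional_of_le h
  exact ⟨h1, (Submodule.finrank_mono h).trans ha⟩

/-- the same for the kernel of the restriction of a linear map -/
private theorem rk_res {k : Type} [Field k] {A B : Type} [AddCommGroup A] [Module k A]
    [AddCommGroup B] [Module k B] (W : Submodule k A) (g : W →ₗ[k] B) (Q : Submodule k A)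
    (h : ∀ x : W, g x = 0 → (x : A) ∈ Q) (a : ℕ) (hQ : Module.Finite k Q)
    (ha : Module.finrank k Q ≤ a) :
    Module.Finite k (LinearMap.ker g) ∧ Module.finrank k (LinearMap.ker g) ≤ a := by
  have h1 : (LinearMap.ker g).map W.subtype ≤ Q := by
    rintro _ ⟨x, hx, rfl⟩
    exact h x hx
  obtain ⟨h2, h3⟩ := rk_sub h1 a hQ ha
  have e := (LinearMap.ker g).equivMapOfInjective W.subtype W.injective_subtype
  refine ⟨Module.Finite.equiv e.symm, ?_⟩
  rw [e.finrank_eq]
  exact h3

theorem rkb {k : Type} [Field k] {M : Type} [AddCommGroup M] [Module k M] (T : M →ₗ[k] M)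
    (n m : ℕ) (hT : T ^ n = 0) (hf : Module.Finite k (LinearMap.ker T))
    (hm : Module.finrank k (LinearMap.ker T) ≤ m) :
    Module.Finite k M ∧ Module.finrank k M ≤ n * m := by
  have key : ∀ i : ℕ, Module.Finite k (LinearMap.ker (T ^ i)) ∧
      Module.finrank k (LinearMap.ker (T ^ i)) ≤ i * m := by
    intro i
    induction i with
    | zero =>
      have h : LinearMap.ker (T ^ 0) = ⊥ := by
        rw [pow_zero]
        exact LinearMap.ker_eq_bot.2 fun _ _ h => h
      rw [h]
      exact ⟨inferInstance, by simp⟩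
    | succ i ih =>
      obtain ⟨h1, h2⟩ := ih
      have h3 : ∀ x : LinearMap.ker (T ^ (i + 1)), T x ∈ LinearMap.ker (T ^ i) := by
        rintro ⟨x, hx⟩
        have h4 : (T ^ (i + 1)) x = 0 := hx
        rw [LinearMap.mem_ker]
        rw [pow_succ] at h4
        exact h4
      have h5 := rk_res (LinearMap.ker (T ^ (i + 1)))
        ((T.comp (LinearMap.ker (T ^ (i + 1))).subtype).codRestrict (LinearMap.ker (T ^ i)) h3)
        (LinearMap.ker T) (by
          intro x hx
          rw [LinearMap.mem_ker]
          exact congrArg Subtype.val hx) m hf hm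
      have h6 := rk_gen _ m (i * m) h1 h2 h5.1 h5.2
      refine ⟨h6.1, h6.2.trans (le_of_eq ?_)⟩
      ring
  obtain ⟨h1, h2⟩ := key n
  have h3 : LinearMap.ker (T ^ n) = ⊤ := by
    rw [hT]
    exact LinearMap.ker_zero
  rw [h3] at h1 h2
  refine ⟨Module.Finite.equiv (Submodule.topEquiv : (⊤ : Submodule k M) ≃ₗ[k] M), ?_⟩
  rw [← finrank_top k M]
  exact h2

theorem rkb_pow {p : ℕ} [Fact p.Prime] {M : Type} [AddCommGroup M] [Module (ZMod p) M]
    (C : M →ₗ[ZMod p] M) : (C - 1) ^ p = C ^ p - 1 := by
  have h : ((Polynomial.X - 1 : Polynomial (ZMod p)) ^ p) = Polynomial.X ^ p - 1 := by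
    rw [sub_pow_char, one_pow]
  have h1 := congrArg (Polynomial.aeval (R := ZMod p) (C : Module.End (ZMod p) M)) h
  rw [map_pow, map_sub, map_sub, map_pow, Polynomial.aeval_X, map_one] at h1
  exact h1

theorem rkb_one {k : Type} [Field k] {M M' : Type} [AddCommGroup M] [Module k M]
    [AddCommGroup M'] [Module k M'] (W : Submodule k M) (f : M →ₗ[k] k) (r : M' →ₗ[k] M) (m : ℕ)
    (hf : Module.Finite k M') (hm : Module.finrank k M' ≤ m)
    (h : ∀ x ∈ W, f x = 0 → x ∈ LinearMap.range r) :
    Module.Finite k W ∧ Module.finrank k W ≤ m + 1 := by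
  have h1 : Module.finrank k (LinearMap.range r) ≤ m := (LinearMap.finrank_range_le r).trans hm
  have h2 := rk_res W (f.comp W.subtype) (LinearMap.range r) (fun x hx => h x x.2 hx) m
    inferInstance h1
  exact rk_gen (f.comp W.subtype) m 1 inferInstance (le_of_eq (Module.finrank_self k)) h2.1 h2.2

end H1.AR
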