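import Pool.Agent.H1.AR.RkA
import Pool.Agent.H1.AR.RkB

/-!
# [H1 AR RKC] the step: `dim AU I U' ≤ p (dim AU I U + 1)`, 100-150 lines. File Pool/Agent/H1/AR/RkC.lean

`M = AU p I U'` (a `ZMod p`-space), `C : M → M`, `(C χ) σ = χ (s⁻¹ * σ * s)`: again in `AU p I U'`: `s` normalises `U'` (`Stp.nor`; for `s⁻¹`: `s⁻¹ x s = s^(p-1) (s^(-p) x s^p) ..` or use
`s⁻¹ = s^(p-1) * (s^p)⁻¹`, so `s⁻¹ ∈ U` as `U` is a subgroup: `Stp.nor` with `u = s⁻¹ ∈ U`), finite level by `rka_lev` (normal level), `I` is stable under conjugation (`hIc`).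
`C ^ p = 1`: `(C ^ p χ) σ = χ (s^(-p) σ s^p) = χ σ` for `σ ∈ U'` because `s ^ p ∈ U'` and `χ` is additive on `U'`; for `σ ∉ U'` both are `0`.
`T = C - 1`: `T ^ p = 0` (`rkb_pow`). `ker T` = invariant characters. `rkb_one` for `ker T` with `f χ = χ (s ^ p)`, `r : AU p I U → M`, `χ' ↦ χ'` restricted to `U'` (`0` outside `U'`; finite level by `hop`):
`rka_ext` gives `ker T ⊓ ker f ≤ range r`. So `dim ker T ≤ m + 1`, and `rkb` with `n = p`.
-/

set_option autoImplicit false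
set_option linter.dupNamespace false

open scoped NumberField Pointwise
open IsDedekindDomain
open scoped Classical

noncomputable section

namespace H1.AR

open H63.MA H38.BB H38.BG H57.PC H57.BRA H89.BRG

variable {K : Type} [Field K] [NumberField K] {Ω : Type} [Field Ω] [Algebra K Ω]
  [IsAlgClosure K Ω]

private theorem rkc_conj {p : ℕ} {U' U : Subgroup Gal(Ω/K)} {s : Gal(Ω/K)} (hS : Stp p U' U s)
    (σ : Gal(Ω/K)) : s⁻¹ * σ * s ∈ U' ↔ σ ∈ U' := by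
  constructor
  · intro h
    have h1 := hS.nor s hS.mem _ h
    have h2 : s * (s⁻¹ * σ * s) * s⁻¹ = σ := by group
    rwa [h2] at h1
  · intro h
    have h1 := hS.nor s⁻¹ (U.inv_mem hS.mem) _ h
    rwa [inv_inv] at h1

private theorem rkc_C {p : ℕ} {I : Set Gal(Ω/K)} {U' U : Subgroup Gal(Ω/K)}
    {s : Gal(Ω/K)} (hS : Stp p U' U s) (hIc : ∀ τ ∈ I, ∀ g, g * τ * g⁻¹ ∈ I)
    (hop : ∃ E : IntermediateField K Ω, FiniteDimensional K E ∧ E.fixingSubgroup ≤ U')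
    (χ : Gal(Ω/K) → ZMod p) (hχ : χ ∈ AU p I U') :
    (fun σ => χ (s⁻¹ * σ * s)) ∈ AU p I U' := by
  obtain ⟨h1, h2, h3, h4⟩ := hχ
  obtain ⟨E, hE, -, hn, hE2⟩ := rka_lev χ h1 U' hop
  refine ⟨⟨E, hE, fun σ u hu => ?_⟩, fun σ hσ => ?_, fun σ hσ τ hτ => ?_, fun σ hσ => ?_⟩
  · have h5 : s⁻¹ * (σ * u) * s = (s⁻¹ * σ * s) * (s⁻¹ * u * s⁻¹⁻¹) := by group
    change χ (s⁻¹ * (σ * u) * s) = χ (s⁻¹ * σ * s)
    rw [h5]
    exact hE2 _ _ (hn s⁻¹ u hu)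
  · exact h2 _ fun h => hσ ((rkc_conj hS σ).1 h)
  · have h5 : s⁻¹ * (σ * τ) * s = (s⁻¹ * σ * s) * (s⁻¹ * τ * s) := by group
    change χ (s⁻¹ * (σ * τ) * s) = χ (s⁻¹ * σ * s) + χ (s⁻¹ * τ * s)
    rw [h5]
    exact h3 _ ((rkc_conj hS σ).2 hσ) _ ((rkc_conj hS τ).2 hτ)
  · have h5 := hIc σ hσ s⁻¹
    rw [inv_inv] at h5
    exact h4 _ h5

private theorem rkc_r {p : ℕ} {I : Set Gal(Ω/K)} {U' U : Subgroup Gal(Ω/K)} (hle : U' ≤ U)
    (hop : ∃ E : IntermediateField K Ω, FiniteDimensional K E ∧ E.fixingSubgroup ≤ U')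
    (χ : Gal(Ω/K) → ZMod p) (hχ : χ ∈ AU p I U) :
    (fun σ => if σ ∈ U' then χ σ else 0) ∈ AU p I U' := by
  obtain ⟨h1, h2, h3, h4⟩ := hχ
  obtain ⟨E, hE, hEU, hn, hE2⟩ := rka_lev χ h1 U' hop
  refine ⟨⟨E, hE, fun σ u hu => ?_⟩, fun σ hσ => if_neg hσ, fun σ hσ τ hτ => ?_, fun σ hσ => ?_⟩
  · have h5 : σ * u ∈ U' ↔ σ ∈ U' := Subgroup.mul_mem_cancel_right U' (hEU hu)
    change (if σ * u ∈ U' then χ (σ * u) else 0) = if σ ∈ U' then χ σ else 0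
    by_cases h6 : σ ∈ U'
    · rw [if_pos (h5.2 h6), if_pos h6, hE2 σ u hu]
    · rw [if_neg fun h => h6 (h5.1 h), if_neg h6]
  · change (if σ * τ ∈ U' then χ (σ * τ) else 0) =
      (if σ ∈ U' then χ σ else 0) + if τ ∈ U' then χ τ else 0
    rw [if_pos (U'.mul_mem hσ hτ), if_pos hσ, if_pos hτ, h3 σ (hle hσ) τ (hle hτ)]
  · change (if σ ∈ U' then χ σ else 0) = 0
    rw [h4 σ hσ, ite_self]

theorem rk_step {p : ℕ} (hp : p.Prime) {I : Set Gal(Ω/K)} {U' U : Subgroup Gal(Ω/K)}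
    {s : Gal(Ω/K)} (hS : Stp p U' U s) (hI : I ⊆ U') (hIc : ∀ τ ∈ I, ∀ g, g * τ * g⁻¹ ∈ I)
    (hop : ∃ E : IntermediateField K Ω, FiniteDimensional K E ∧ E.fixingSubgroup ≤ U')
    (hf : Module.Finite (ZMod p) (AU p I U)) {m : ℕ}
    (hm : Module.finrank (ZMod p) (AU p I U) ≤ m) :
    Module.Finite (ZMod p) (AU p I U') ∧ Module.finrank (ZMod p) (AU p I U') ≤ p * (m + 1) := by
  haveI : Fact p.Prime := ⟨hp⟩
  let C : AU p I U' →ₗ[ZMod p] AU p I U' :=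
    { toFun := fun χ => ⟨fun σ => χ.1 (s⁻¹ * σ * s), rkc_C hS hIc hop χ.1 χ.2⟩
      map_add' := fun χ χ' => rfl
      map_smul' := fun c χ => rfl }
  let r : AU p I U →ₗ[ZMod p] AU p I U' :=
    { toFun := fun χ => ⟨fun σ => if σ ∈ U' then χ.1 σ else 0, rkc_r hS.le hop χ.1 χ.2⟩
      map_add' := fun χ χ' => by
        apply Subtype.ext
        funext σ
        change (if σ ∈ U' then χ.1 σ + χ'.1 σ else 0) =
          (if σ ∈ U' then χ.1 σ else 0) + if σ ∈ U' then χ'.1 σ else 0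
        split_ifs
        · rfl
        · rw [add_zero]
      map_smul' := fun c χ => by
        apply Subtype.ext
        funext σ
        change (if σ ∈ U' then c • χ.1 σ else 0) = c • (if σ ∈ U' then χ.1 σ else 0)
        split_ifs
        · rfl
        · rw [smul_zero] }
  let f : AU p I U' →ₗ[ZMod p] ZMod p :=
    { toFun := fun χ => χ.1 (s ^ p)
      map_add' := fun χ χ' => rfl
      map_smul' := fun c χ => rfl }
  have hC : ∀ (k : ℕ) (χ : AU p I U') (σ : Gal(Ω/K)),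
      ((C ^ k) χ).1 σ = χ.1 ((s ^ k)⁻¹ * σ * s ^ k) := by
    intro k
    induction k with
    | zero =>
      intro χ σ
      rw [pow_zero, pow_zero, inv_one, one_mul, mul_one]
      rfl
    | succ k ih =>
      intro χ σ
      rw [pow_succ]
      change ((C ^ k) (C χ)).1 σ = _
      rw [ih (C χ) σ]
      change χ.1 (s⁻¹ * ((s ^ k)⁻¹ * σ * s ^ k) * s) = _
      have h5 : s⁻¹ * ((s ^ k)⁻¹ * σ * s ^ k) * s = (s ^ (k + 1))⁻¹ * σ * s ^ (k + 1) := by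
        rw [pow_succ, mul_inv_rev]
        simp only [mul_assoc]
      rw [h5]
  have hCp : C ^ p = 1 := by
    apply LinearMap.ext
    intro χ
    apply Subtype.ext
    funext σ
    change ((C ^ p) χ).1 σ = χ.1 σ
    by_cases hσ : σ ∈ U'
    · rw [hC]
      obtain ⟨h1, h2, h3, h4⟩ := χ.2
      have e1 : χ.1 1 = 0 := by
        have := h3 1 U'.one_mem 1 U'.one_mem
        rw [one_mul] at this
        exact left_eq_add.1 this
      have e2 : χ.1 (s ^ p)⁻¹ + χ.1 (s ^ p) = 0 := by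
        rw [← h3 _ (U'.inv_mem hS.pow) _ hS.pow, inv_mul_cancel, e1]
      rw [h3 _ (U'.mul_mem (U'.inv_mem hS.pow) hσ) _ hS.pow, h3 _ (U'.inv_mem hS.pow) _ hσ,
        add_right_comm, e2, zero_add]
    · rw [((C ^ p) χ).2.2.1 σ hσ, χ.2.2.1 σ hσ]
  have hT : (C - 1) ^ p = 0 := by
    rw [rkb_pow, hCp, sub_self]
  obtain ⟨h1, h2⟩ := rkb_one (LinearMap.ker (C - 1)) f r m hf hm (by
    intro χ hχ hf0
    rw [LinearMap.mem_ker, LinearMap.sub_apply, sub_eq_zero] at hχ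
    have hinv : ∀ x ∈ U', χ.1 (s⁻¹ * x * s) = χ.1 x := by
      intro x _
      have := congrFun (congrArg Subtype.val hχ) x
      exact this
    obtain ⟨χ', hχ', he⟩ := rka_ext hp hS hI hop χ.2 hinv hf0
    refine ⟨⟨χ', hχ'⟩, ?_⟩
    apply Subtype.ext
    funext σ
    change (if σ ∈ U' then χ' σ else 0) = χ.1 σ
    by_cases hσ : σ ∈ U'
    · rw [if_pos hσ, he σ hσ]
    · rw [if_neg hσ, χ.2.2.1 σ hσ])
  exact rkb (C - 1) p (m + 1) hT h1 h2

end H1.AR
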