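import Pool.Agent.H1.AR.RkA
import Pool.Agent.H1.AR.RMa
import Pool.Agent.H1.AR.Ine

/-!
# [H1 AR SEL] the elements of `F` with orders divisible by `p` outside `S`, modulo `p`-th powers, 100-150 lines. File Pool/Agent/H1/AR/Sel.lean

`F` between `K` and `Ω`, `U = F.fixingSubgroup`. For `x ∈ Fˣ` let `kf x : Γ → ZMod p`: `kf x σ = kk x σ'` if `σ = rsK σ'` (`σ ∈ U`), `0` otherwise (as `AD.kx`).
* `kf_mem`: for `x ∈ VS p SF` (`SF` the places over `S`): `kf x ∈ AU p (InS S) U`: finite level (`bca_lev'` for `kk x`, then cut off by `U`, which is open: `F` is finite over `K`), additive on `U` (`kk_mul`,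
  `rsK` injective), `0` on `InS S`: `τ ∈ InS S`: if `τ ∉ U` it is `0`; if `τ = rsK τ'`: `τ'` is in the inertia group of `P` over `F` (`bcp_smul`), `P` is over a place `w` of `F` (nonzero, `Ideal.under`), `w` over
  `v ∉ S`, so `w ∉ SF` (`hSF`, `below_unique`) and `kk x τ' = ord w x * kk π τ' = 0` (`ine_kk`; `w` is not above `p` because `v ∉ S` is not, `hS`, `above_over`).
* `kf_zero`: `kf x = kf y` implies `IsPow p (x * y⁻¹)`: `kk x = kk y` on `Gal(Ω/F)`; `kk (x y⁻¹) = 0`; `kk_eq_zero_iff` (grep; used in `kx_pow`), over `F`.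
* `sel`: `AU p (InS S) U` is a finite set with at most `p ^ m` elements (`Module.card_eq_pow_finrank`); for every element of it of the form `kf y`, `y ∈ VS p SF`, choose one `y`; `T` = the set of the chosen
  elements.
-/

set_option autoImplicit false
set_option linter.dupNamespace false

open scoped NumberField Pointwise
open IsDedekindDomain
open scoped Classical

noncomputable section

namespace H1.AR

open H63.MA H38.BB H38.BG H57.PC H57.BRA H89.BRG

variable {K : Type} [Field K] [NumberField K] {Ω : Type} [Field Ω] [Algebra K Ω]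
  [IsAlgClosure K Ω] {p : ℕ} {ζ : K}

omit [NumberField K] [IsAlgClosure K Ω] in
private theorem sel_lin (E : IntermediateField K Ω) (u : Gal(Ω/K))
    (hu : ∀ x : E, u (algebraMap E Ω x) = algebraMap E Ω x) : ∃ u' : Gal(Ω/E), rsK K E Ω u' = u := by
  refine ⟨AlgEquiv.ofRingEquiv (f := (u : Ω ≃+* Ω)) hu, ?_⟩
  ext x
  rw [rsK_apply]
  rfl

omit [NumberField K] [IsAlgClosure K Ω] in
private theorem sel_iff (E : IntermediateField K Ω) (u : Gal(Ω/K)) :
    (∃ u' : Gal(Ω/E), rsK K E Ω u' = u) ↔ u ∈ E.fixingSubgroup := by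
  rw [IntermediateField.mem_fixingSubgroup_iff]
  constructor
  · rintro ⟨u', rfl⟩ x hx
    rw [rsK_apply]
    exact u'.commutes (⟨x, hx⟩ : E)
  · intro h
    exact sel_lin E u fun x => h _ x.2

/-- the Kummer character of `x ∈ F`, extended by zero -/
private def kf (p : ℕ) (ζ : K) (F : IntermediateField K Ω) [NumberField F] (x : Fˣ)
    (σ : Gal(Ω/K)) : ZMod p :=
  if h : ∃ σ' : Gal(Ω/F), rsK K F Ω σ' = σ then kk p (algebraMap K F ζ) x h.choose else 0

omit [NumberField K] [IsAlgClosure K Ω] in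
private theorem kf_apply (F : IntermediateField K Ω) [NumberField F] (x : Fˣ) (σ' : Gal(Ω/F)) :
    kf p ζ F x (rsK K F Ω σ') = kk p (algebraMap K F ζ) x σ' := by
  have hex : ∃ τ : Gal(Ω/F), rsK K F Ω τ = rsK K F Ω σ' := ⟨σ', rfl⟩
  unfold kf
  rw [dif_pos hex, rsK_inj hex.choose_spec]

omit [NumberField K] [IsAlgClosure K Ω] in
private theorem kf_zero (F : IntermediateField K Ω) [NumberField F] (x : Fˣ) (σ : Gal(Ω/K))
    (h : ¬ ∃ σ' : Gal(Ω/F), rsK K F Ω σ' = σ) : kf p ζ F x σ = 0 := by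
  unfold kf
  rw [dif_neg h]

private theorem kf_lev (hp : p.Prime) (hζ : IsPrimitiveRoot ζ p) (F : IntermediateField K Ω)
    [NumberField F] (x : Fˣ) : Lev (kf p ζ F x) := by
  have hc : IsAlgClosure F Ω := bca_clo K F Ω
  have hζF : IsPrimitiveRoot (algebraMap K F ζ) p := hζ.map_of_injective (algebraMap K F).injective
  obtain ⟨M, hM, hMk⟩ := (kc_is (Ω := Ω) hp hζF x).1
  refine ⟨M.restrictScalars K, ?_, ?_⟩
  · have h1 : FiniteDimensional K F := Module.Finite.of_restrictScalars_finite ℚ K F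
    have h2 : FiniteDimensional K M := Module.Finite.trans F M
    exact h2
  · intro σ u hu
    rw [IntermediateField.mem_fixingSubgroup_iff] at hu
    obtain ⟨u', rfl⟩ := sel_lin F u fun y => hu _ (M.algebraMap_mem y)
    have hu' : u' ∈ M.fixingSubgroup := by
      rw [IntermediateField.mem_fixingSubgroup_iff]
      intro y hy
      exact hu y hy
    have hk : kk p (algebraMap K F ζ) x u' = 0 := by
      have h3 := hMk hu'
      rw [MonoidHom.mem_ker] at h3
      unfold kk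
      rw [h3, toAdd_one]
    by_cases h : ∃ σ' : Gal(Ω/F), rsK K F Ω σ' = σ
    · obtain ⟨σ', rfl⟩ := h
      rw [← map_mul, kf_apply, kf_apply, kk_mul, hk, add_zero]
    · rw [kf_zero F _ σ h, kf_zero F _ _ ?_]
      rintro ⟨τ, hτ⟩
      apply h
      refine ⟨τ * u'⁻¹, ?_⟩
      rw [map_mul, hτ, map_inv, mul_inv_cancel_right]

private theorem kf_ins (hp : p.Prime) (hζ : IsPrimitiveRoot ζ p) (F : IntermediateField K Ω)
    [NumberField F] (S : Finset (Pl K)) (hS : ∀ v, Above p v → v ∈ S) (SF : Finset (Pl F))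
    (hSF : ∀ z, z ∈ SF ↔ ∃ v ∈ S, Over z v) {x : Fˣ} (hx : x ∈ VS p SF) {σ : Gal(Ω/K)}
    (hσ : σ ∈ InS (Ω := Ω) S) : kf p ζ F x σ = 0 := by
  have hc : IsAlgClosure F Ω := bca_clo K F Ω
  have hζF : IsPrimitiveRoot (algebraMap K F ζ) p := hζ.map_of_injective (algebraMap K F).injective
  obtain ⟨v, hv, P, hP, hPv, hin⟩ := hσ
  by_cases h : ∃ σ' : Gal(Ω/F), rsK K F Ω σ' = σ
  · obtain ⟨τ, rfl⟩ := h
    have h2 : τ ∈ P.inertia Gal(Ω/F) := by
      intro y
      have h3 := hin y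
      have h4 := bcp_smul (K := K) (L := F) τ y
      rw [h4] at h3
      exact h3
    have hover : (P.under (𝓞 F)).comap (algebraMap (𝓞 K) (𝓞 F)) = v.asIdeal := by
      rw [← hPv]
      ext y
      exact Iff.rfl
    have hne : P.under (𝓞 F) ≠ ⊥ := by
      intro h0
      apply v.ne_bot
      rw [← hover, h0]
      rw [← RingHom.ker_eq_comap_bot, RingHom.ker_eq_bot_iff_eq_zero]
      intro y hy
      apply NumberField.RingOfIntegers.ext
      have h3 := congrArg (fun z : 𝓞 F => (z : F)) hy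
      have h4 : algebraMap K F (y : K) = 0 := h3
      exact (map_eq_zero _).1 h4
    have hpr2 : (P.under (𝓞 F)).IsPrime := Ideal.IsPrime.comap _
    obtain ⟨z, hz⟩ : ∃ z : Pl F, z.asIdeal = P.under (𝓞 F) := ⟨⟨_, hpr2, hne⟩, rfl⟩
    have hzv : Over z v := by
      unfold Over
      rw [hz]
      exact hover
    have hpv : ¬ Above p v := fun h => hv (hS v h)
    have hpz : ¬ Above p z := fun h => hpv ((above_over hzv p).1 h)
    have hzS : z ∉ SF := by
      intro h5
      obtain ⟨v', hv', h6⟩ := (hSF z).1 h5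
      rw [below_unique hzv h6] at hv
      exact hv hv'
    obtain ⟨π, hπ⟩ := exists_unif z
    have h5 := ine_kk (Ω := Ω) hp hζF hpz hπ hP hz.symm h2 x
    rw [kf_apply, h5, hx z hzS, zero_mul]
  · exact kf_zero F x σ h

private theorem kf_mem (hp : p.Prime) (hζ : IsPrimitiveRoot ζ p) (F : IntermediateField K Ω)
    [NumberField F] (S : Finset (Pl K)) (hS : ∀ v, Above p v → v ∈ S) (SF : Finset (Pl F))
    (hSF : ∀ z, z ∈ SF ↔ ∃ v ∈ S, Over z v) {x : Fˣ} (hx : x ∈ VS p SF) :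
    kf p ζ F x ∈ AU p (InS (Ω := Ω) S) F.fixingSubgroup := by
  have hc : IsAlgClosure F Ω := bca_clo K F Ω
  have hζF : IsPrimitiveRoot (algebraMap K F ζ) p := hζ.map_of_injective (algebraMap K F).injective
  refine ⟨kf_lev hp hζ F x, fun σ hσ => ?_, fun σ hσ τ hτ => ?_, fun σ hσ => ?_⟩
  · exact kf_zero F x σ fun h => hσ ((sel_iff F σ).1 h)
  · obtain ⟨σ', rfl⟩ := (sel_iff F σ).2 hσ
    obtain ⟨τ', rfl⟩ := (sel_iff F τ).2 hτ
    rw [← map_mul, kf_apply, kf_apply, kf_apply, kk_mul]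
  · exact kf_ins hp hζ F S hS SF hSF hx hσ

omit [NumberField K] in
private theorem kf_pow (hp : p.Prime) (hζ : IsPrimitiveRoot ζ p) (F : IntermediateField K Ω)
    [NumberField F] {x y : Fˣ} (h : kf p ζ F x = kf p ζ F y) : IsPow p (x * y⁻¹) := by
  have hc : IsAlgClosure F Ω := bca_clo K F Ω
  have hζF : IsPrimitiveRoot (algebraMap K F ζ) p := hζ.map_of_injective (algebraMap K F).injective
  refine (kk_eq_zero_iff (Ω := Ω) hp hζF (x * y⁻¹)).1 fun σ => ?_
  have h1 := congrFun h (rsK K F Ω σ)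
  rw [kf_apply, kf_apply] at h1
  have h2 := kk_mul_arg (Ω := Ω) hp hζF (x * y⁻¹) y σ
  rw [inv_mul_cancel_right, h1] at h2
  exact add_eq_right.1 h2.symm

theorem sel (hp : p.Prime) (hζ : IsPrimitiveRoot ζ p) (F : IntermediateField K Ω) [NumberField F]
    (S : Finset (Pl K)) (hS : ∀ v, Above p v → v ∈ S) (SF : Finset (Pl F))
    (hSF : ∀ z, z ∈ SF ↔ ∃ v ∈ S, Over z v) {m : ℕ}
    (hf : Module.Finite (ZMod p) (AU p (InS (Ω := Ω) S) F.fixingSubgroup))
    (hm : Module.finrank (ZMod p) (AU p (InS (Ω := Ω) S) F.fixingSubgroup) ≤ m) :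
    ∃ T : Finset Fˣ, T.card ≤ p ^ m ∧ ∀ x ∈ VS p SF, ∃ y ∈ T, IsPow p (x * y⁻¹) := by
  have : Fact p.Prime := ⟨hp⟩
  have hfin : Finite (AU p (InS (Ω := Ω) S) F.fixingSubgroup) := Module.finite_of_finite (ZMod p)
  have hft : Fintype (AU p (InS (Ω := Ω) S) F.fixingSubgroup) := Fintype.ofFinite _
  have hcard : Fintype.card (AU p (InS (Ω := Ω) S) F.fixingSubgroup) ≤ p ^ m := by
    rw [Module.card_eq_pow_finrank (K := ZMod p), ZMod.card]
    exact Nat.pow_le_pow_right hp.pos hm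
  obtain ⟨g, hg⟩ : ∃ g : AU p (InS (Ω := Ω) S) F.fixingSubgroup → Fˣ,
      ∀ a, (∃ y ∈ VS p SF, kf p ζ F y = a.1) → kf p ζ F (g a) = a.1 := by
    refine ⟨fun a => if h : ∃ y ∈ VS p SF, kf p ζ F y = a.1 then h.choose else 1, fun a h => ?_⟩
    simp only [dif_pos h]
    exact h.choose_spec.2
  refine ⟨Finset.univ.image g, Finset.card_image_le.trans hcard, fun x hx => ?_⟩
  refine ⟨g ⟨kf p ζ F x, kf_mem hp hζ F S hS SF hSF hx⟩, Finset.mem_image.2 ⟨_, Finset.mem_univ _, rfl⟩, ?_⟩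
  exact kf_pow hp hζ F (hg ⟨kf p ζ F x, kf_mem hp hζ F S hS SF hSF hx⟩ ⟨x, hx, rfl⟩).symm

end H1.AR
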