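import Pool.Agent.H1.AR.Cor
import Pool.Agent.H63.MC.CLkC

/-!
# [H1 AR STA] locally trivial elements, corestriction on decomposition groups over `S0`, 150-220 lines. File Pool/Agent/H1/AR/Sta.lean

* `ps_dec`: the proof of `ps_triv` (H63/MC/CLkC.lean) word by word for one prime `P` over `w ∈ S` (there `D.S0`, `Q.P v`; only `PS`, `prime`, `under` and `P ≠ ⊥` are used; the private lemma
  `clkc_ne` proves `P ≠ ⊥`, copy it).
* `cor_dec`: Let `D = dec P ≤ Γ = Gal(Ω/K)`, `r c = X.rep j c`, `Γ` acts on `C = Q ⧸ Dg.H j` through `X.φQ`, `η = X.kx j x`.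
  (1) `η δ = 0` for `δ ∈ g⁻¹ D g` with `φQ δ ∈ H j`: `δ = rsK δ'` (`fld_range`), `δ' ∈ dec (g⁻¹ • P)` over `F j` (the action of `δ'` on `𝓞 Ω` is that of `δ`: `bcp_smul`-type lemma in
  H57/BRA/Bcp.lean; `dec` is defined by `σ • x ∈ P ↔ x ∈ P`), the prime `g⁻¹ • P` (`Ideal` pointwise action, or use the ideal `P.comap` of the ring automorphism `g`; it is prime and over `v`
  over `K`), its place `w` in `F j` (`Ideal.under`, nonzero) is over `v ∈ S0`, so `w ∈ (X.A j).D.S` by `hS`; hypothesis `hx`.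
  (2) For `c ∈ C` let `b c` be a base point of the orbit of `c` under `D` (`Quotient.out` for the relation `∃ δ ∈ D, φQ δ • c' = c`), `δ c ∈ D` with `φQ (δ c) • b c = c` (`choose`), and
  `m c = η ((r c)⁻¹ * δ c * r (b c))`. For every `δ ∈ D` with `φQ δ • b c = c`: `η ((r c)⁻¹ * δ * r (b c)) = m c`: the quotient is `(r (b c))⁻¹ ((δ c)⁻¹ δ) r (b c)`, (1), `kx_mul`.
  (3) For `σ ∈ D`: `d = φQ σ⁻¹ • c` has the same base point, `σ⁻¹ * δ c ∈ D` maps `b c` to `d`, and `(r c)⁻¹ σ (r d) = ((r c)⁻¹ (δ c) r (b c)) * ((r d)⁻¹ σ⁻¹ (δ c) r (b c))⁻¹`, so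
  `η ((r c)⁻¹ σ r d) = m c - m d` (`kx_mul`, inverse).
  (4) `M := ∑ c, m c • act (φQ (r c)) y`. `cor j x σ = ∑ c, (m c - m (σ⁻¹ c)) • act (φQ (r c)) y = M - act (φQ σ) M`: substitute `c = σ • d` in the second sum; `act (φQ (r (σ • d))) y =
  act (φQ σ) (act (φQ (r d)) y)` (same coset, `Dg.fixy`; as in the proof of `cor_co`).
-/

set_option autoImplicit false
set_option linter.dupNamespace false

open scoped NumberField Pointwise
open IsDedekindDomain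
open scoped Classical

noncomputable section

namespace H1.AR

open H63.MA H38.BB H38.BG H57.PC H57.BRA H89.BRG

private theorem sta_ne {F : Type} [Field F] [NumberField F] {Ω : Type} [Field Ω] [Algebra F Ω]
    {w : Pl F} {P : Ideal (𝓞 Ω)} (hPw : P.under (𝓞 F) = w.asIdeal) : P ≠ ⊥ := by
  intro h
  rw [h] at hPw
  apply w.ne_bot
  rw [← hPw]
  have hinj : Function.Injective (algebraMap (𝓞 F) (𝓞 Ω)) :=
    NumberField.RingOfIntegers.algebraMap.injective F Ω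
  rw [Ideal.under, ← RingHom.ker_eq_comap_bot, (RingHom.injective_iff_ker_eq_bot _).mp hinj]

theorem ps_dec {F : Type} [Field F] [NumberField F] {Ω : Type} [Field Ω] [Algebra F Ω]
    [IsAlgClosure F Ω] {p : ℕ} {ζ : F} (hp : p.Prime) (hp2 : MOne p F) (hζ : IsPrimitiveRoot ζ p)
    {S : Finset (Pl F)} {s : Fˣ} (hs : PS p ζ S s) {w : Pl F} (hw : w ∈ S) {P : Ideal (𝓞 Ω)}
    (hP : P.IsPrime) (hPw : P.under (𝓞 F) = w.asIdeal) {σ : Gal(Ω/F)} (hσ : σ ∈ dec (K := F) P) :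
    kk p ζ s σ = 0 := by
  have key : ∃ y : Fˣ, w.valuation F (((s * (y ^ p)⁻¹ : Fˣ) : F) - 1) <
      w.valuation F ((p : F) ^ 2) := by
    by_cases ha : Above p w
    · exact hs.1 w ha
    · obtain ⟨y, hy⟩ := (spl_iff hp hζ ha s).1 (hs.2 w hw ha)
      refine ⟨y, ?_⟩
      have h1 : w.valuation F (p : F) = 1 := by
        apply le_antisymm
        · have h2 := w.valuation_le_one (K := F) (p : 𝓞 F)
          simpa using h2
        · rw [← not_lt]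
          intro h
          exact ha ((above_iff p w).2 h)
      rw [map_pow, h1, one_pow]
      exact hy
  obtain ⟨y, hy⟩ := key
  have h1 := cl_of_val w P hP hPw (s * (y ^ p)⁻¹) hy
  have h2 := cl_kk hp hζ P hP (sta_ne hPw) (s * (y ^ p)⁻¹) h1 σ hσ
  have h3 : s = s * (y ^ p)⁻¹ * y ^ (p : ℤ) := by
    rw [zpow_natCast, inv_mul_cancel_right]
  rw [h3, kk_mul_arg hp hζ, h2, kk_zpow_arg hp hζ, zero_add, Int.cast_natCast, CharP.cast_eq_zero,
    zero_mul]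

variable {p u w N : ℕ} {R Q : Type} [Group R] [Group Q] [Fintype Q] {Dg : MG p u w N R Q}
  {K : Type} [Field K] [NumberField K] {Ω : Type} [Field Ω] [Algebra K Ω] [IsAlgClosure K Ω]
  {ζ : K} (X : AD Dg K Ω ζ)

private theorem kx_dec {j : Fin N} {x : (X.F j)ˣ}
    (hx : ∀ w ∈ (X.A j).D.S, ∀ P : Ideal (𝓞 Ω), P.IsPrime → P.under (𝓞 (X.F j)) = w.asIdeal →
      ∀ δ ∈ dec (K := X.F j) P, kk p (algebraMap K (X.F j) ζ) x δ = 0)
    {v : Pl K} (hv : v ∈ X.D.S0) {P : Ideal (𝓞 Ω)} (hP : P.IsPrime)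
    (hPv : P.under (𝓞 K) = v.asIdeal) {g δ : Gal(Ω/K)} (hδ : g * δ * g⁻¹ ∈ dec (K := K) P)
    (hH : X.φQ δ ∈ Dg.H j) : X.kx j x δ = 0 := by
  obtain ⟨δ', rfl⟩ := (fld_range X j δ).2 hH
  rw [kx_apply]
  obtain ⟨P', hP'⟩ : ∃ P' : Ideal (𝓞 Ω),
      P' = P.comap (MulSemiringAction.toRingHom Gal(Ω/K) (𝓞 Ω) g) := ⟨_, rfl⟩
  have hmem : ∀ z : 𝓞 Ω, z ∈ P' ↔ g • z ∈ P := by
    intro z
    rw [hP']
    exact Iff.rfl
  have hprime : P'.IsPrime := by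
    rw [hP']
    exact Ideal.comap_isPrime _ P
  have hund : P'.under (𝓞 K) = v.asIdeal := by
    rw [← hPv]
    ext z
    change algebraMap (𝓞 K) (𝓞 Ω) z ∈ P' ↔ algebraMap (𝓞 K) (𝓞 Ω) z ∈ P
    rw [hmem]
    have h1 : g • algebraMap (𝓞 K) (𝓞 Ω) z = algebraMap (𝓞 K) (𝓞 Ω) z := by
      apply NumberField.RingOfIntegers.ext
      exact g.commutes (z : K)
    rw [h1]
  have h1 : ∀ z : 𝓞 K, algebraMap (𝓞 K) (𝓞 Ω) z =
      algebraMap (𝓞 (X.F j)) (𝓞 Ω) (algebraMap (𝓞 K) (𝓞 (X.F j)) z) := by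
    intro z
    apply NumberField.RingOfIntegers.ext
    exact IsScalarTower.algebraMap_apply K (X.F j) Ω (z : K)
  have hover : (P'.under (𝓞 (X.F j))).comap (algebraMap (𝓞 K) (𝓞 (X.F j))) = v.asIdeal := by
    rw [← hund]
    ext z
    change algebraMap (𝓞 (X.F j)) (𝓞 Ω) (algebraMap (𝓞 K) (𝓞 (X.F j)) z) ∈ P' ↔
      algebraMap (𝓞 K) (𝓞 Ω) z ∈ P'
    rw [h1]
  have hne : P'.under (𝓞 (X.F j)) ≠ ⊥ := by
    intro h
    rw [h] at hover
    apply v.ne_bot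
    rw [← hover]
    have hinj : Function.Injective (algebraMap (𝓞 K) (𝓞 (X.F j))) :=
      NumberField.RingOfIntegers.algebraMap.injective K (X.F j)
    rw [← RingHom.ker_eq_comap_bot, (RingHom.injective_iff_ker_eq_bot _).mp hinj]
  have hpr : (P'.under (𝓞 (X.F j))).IsPrime := Ideal.comap_isPrime _ P'
  obtain ⟨w, hw⟩ : ∃ w : Pl (X.F j), w.asIdeal = P'.under (𝓞 (X.F j)) := ⟨⟨_, hpr, hne⟩, rfl⟩
  have hwv : Over w v := by
    change w.asIdeal.comap (algebraMap (𝓞 K) (𝓞 (X.F j))) = v.asIdeal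
    rw [hw]
    exact hover
  have hwS : w ∈ (X.A j).D.S := ((X.A j).hS w).2 ⟨v, hv, hwv⟩
  refine hx w hwS P' hprime hw.symm δ' fun z => ?_
  have h2 : δ' • z = rsK K (X.F j) Ω δ' • z := (bcp_smul (K := K) δ' z).symm
  rw [hmem, hmem, h2, ← hδ (g • z), mul_smul, mul_smul, inv_smul_smul]

omit [Fintype Q] in
private theorem act_coset {j : Fin N} {q q' : Q}
    (h : (QuotientGroup.mk q : Q ⧸ Dg.H j) = QuotientGroup.mk q') :
    Dg.act q (Dg.y j) = Dg.act q' (Dg.y j) := by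
  have h1 := QuotientGroup.eq.1 h
  have h2 : q' = q * (q⁻¹ * q') := by group
  rw [h2, Dg.act_mul, Dg.fixy j _ h1]

theorem cor_dec (hp : p.Prime) (hζ : IsPrimitiveRoot ζ p) (j : Fin N) (x : (X.F j)ˣ)
    (hx : ∀ w ∈ (X.A j).D.S, ∀ P : Ideal (𝓞 Ω), P.IsPrime → P.under (𝓞 (X.F j)) = w.asIdeal →
      ∀ δ ∈ dec (K := X.F j) P, kk p (algebraMap K (X.F j) ζ) x δ = 0)
    {v : Pl K} (hv : v ∈ X.D.S0) {P : Ideal (𝓞 Ω)} (hP : P.IsPrime)
    (hPv : P.under (𝓞 K) = v.asIdeal) :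
    ∃ M : Fin u → ZMod p, ∀ σ ∈ dec (K := K) P, X.cor j x σ = M - Dg.act (X.φQ σ) M := by
  obtain ⟨r, hr⟩ : ∃ r : Q ⧸ Dg.H j → Gal(Ω/K), r = X.rep j := ⟨_, rfl⟩
  have hrm : ∀ c, (QuotientGroup.mk (X.φQ (r c)) : Q ⧸ Dg.H j) = c := by
    intro c
    rw [hr]
    exact X.rep_mk j c
  have hq : ∀ (q : Q) (c : Q ⧸ Dg.H j), q • c = QuotientGroup.mk (q * X.φQ (r c)) := by
    intro q c
    conv_lhs => rw [← hrm c]
    rfl
  let s : Setoid (Q ⧸ Dg.H j) :=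
    { r := fun c d => ∃ δ ∈ dec (K := K) P, X.φQ δ • c = d
      iseqv := by
        refine ⟨fun c => ⟨1, one_mem _, ?_⟩, ?_, ?_⟩
        · rw [map_one, one_smul]
        · rintro c d ⟨δ, hδ, rfl⟩
          exact ⟨δ⁻¹, inv_mem hδ, by rw [map_inv, inv_smul_smul]⟩
        · rintro c d e ⟨δ, hδ, rfl⟩ ⟨δ', hδ', rfl⟩
          exact ⟨δ' * δ, mul_mem hδ' hδ, by rw [map_mul, mul_smul]⟩ }
  obtain ⟨b, hb⟩ : ∃ b : Q ⧸ Dg.H j → Q ⧸ Dg.H j, b = fun c => (Quotient.mk s c).out := ⟨_, rfl⟩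
  have hb1 : ∀ c, ∃ δ ∈ dec (K := K) P, X.φQ δ • b c = c := by
    intro c
    rw [hb]
    exact Quotient.mk_out (s := s) c
  have hb2 : ∀ c d, (∃ δ ∈ dec (K := K) P, X.φQ δ • c = d) → b c = b d := by
    intro c d h
    have h1 : Quotient.mk s c = Quotient.mk s d := Quotient.sound h
    rw [hb]
    change (Quotient.mk s c).out = (Quotient.mk s d).out
    rw [h1]
  choose dl hdl1 hdl2 using hb1
  obtain ⟨m, hm⟩ : ∃ m : Q ⧸ Dg.H j → ZMod p, ∀ c, m c = X.kx j x ((r c)⁻¹ * dl c * r (b c)) :=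
    ⟨_, fun _ => rfl⟩
  have hAH : ∀ c, X.φQ ((r c)⁻¹ * dl c * r (b c)) ∈ Dg.H j := by
    intro c
    have h1 := hdl2 c
    rw [hq] at h1
    have h2 := QuotientGroup.eq.1 ((hrm c).trans h1.symm)
    rw [map_mul, map_mul, map_inv, mul_assoc]
    exact h2
  have key : ∀ σ ∈ dec (K := K) P, ∀ c,
      X.kx j x ((r c)⁻¹ * σ * r ((X.φQ σ)⁻¹ • c)) = m c - m ((X.φQ σ)⁻¹ • c) := by
    intro σ hσ c
    obtain ⟨d, hd⟩ : ∃ d, d = (X.φQ σ)⁻¹ • c := ⟨_, rfl⟩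
    rw [← hd]
    have hbd : b d = b c := hb2 d c ⟨σ, hσ, by rw [hd, smul_inv_smul]⟩
    have hE : X.φQ ((r c)⁻¹ * σ * r d) ∈ Dg.H j := by
      rw [hd, hr]
      exact cor_phi X j σ c
    have hB := hAH d
    have hA := hAH c
    have e1 := kx_mul X j x hE hB
    have e2 : (r c)⁻¹ * σ * r d * ((r d)⁻¹ * dl d * r (b d)) =
        ((r c)⁻¹ * dl c * r (b c)) * ((r (b c))⁻¹ * ((dl c)⁻¹ * σ * dl d) * r (b c)) := by
      rw [hbd]
      group
    have hC : X.φQ ((r (b c))⁻¹ * ((dl c)⁻¹ * σ * dl d) * r (b c)) ∈ Dg.H j := by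
      have h1 : (r (b c))⁻¹ * ((dl c)⁻¹ * σ * dl d) * r (b c) =
          ((r c)⁻¹ * dl c * r (b c))⁻¹ * ((r c)⁻¹ * σ * r d * ((r d)⁻¹ * dl d * r (b d))) := by
        rw [e2]
        group
      rw [h1, map_mul, map_inv, map_mul X.φQ ((r c)⁻¹ * σ * r d)]
      exact mul_mem (inv_mem hA) (mul_mem hE hB)
    rw [e2, kx_mul X j x hA hC, kx_dec X hx hv hP hPv (g := r (b c)) ?_ hC, add_zero, ← hm, ← hm]
      at e1
    · rw [e1]
      ring
    · have h1 : r (b c) * ((r (b c))⁻¹ * ((dl c)⁻¹ * σ * dl d) * r (b c)) * (r (b c))⁻¹ =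
          (dl c)⁻¹ * σ * dl d := by group
      rw [h1]
      exact mul_mem (mul_mem (inv_mem (hdl1 c)) hσ) (hdl1 d)
  refine ⟨∑ c, m c • Dg.act (X.φQ (r c)) (Dg.y j), fun σ hσ => ?_⟩
  have e1 : X.cor j x σ = ∑ c, (m c - m ((X.φQ σ)⁻¹ • c)) • Dg.act (X.φQ (r c)) (Dg.y j) := by
    unfold AD.cor
    refine Finset.sum_congr rfl fun c _ => ?_
    rw [← hr, key σ hσ c]
  have e2 : ∑ c, m ((X.φQ σ)⁻¹ • c) • Dg.act (X.φQ (r c)) (Dg.y j) =
      Dg.act (X.φQ σ) (∑ c, m c • Dg.act (X.φQ (r c)) (Dg.y j)) := by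
    rw [map_sum, ← Equiv.sum_comp (MulAction.toPerm (X.φQ σ))]
    refine Finset.sum_congr rfl fun c _ => ?_
    rw [MulAction.toPerm_apply, inv_smul_smul, map_smul, ← Dg.act_mul]
    congr 1
    refine act_coset ?_
    rw [hrm, hq]
  rw [e1, ← e2, ← Finset.sum_sub_distrib]
  refine Finset.sum_congr rfl fun c _ => ?_
  rw [sub_smul]

end H1.AR
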