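import Pool.Agent.H1.AR.Sta
import Pool.Agent.H1.AR.ParA

/-!
# [H1 AR STY] families with the same total classes have conjugate twists at `S0`, 100-150 lines. File Pool/Agent/H1/AR/Sty.lean

* `sty_bet`: for `j` let `x j = (∏ a ∈ g' with a.1 = j, pi a.2) * (∏ a ∈ g with a.1 = j, pi a.2)⁻¹ ∈ (F j)ˣ`. `bet g' σ - bet g σ = ∑ j, cor j (x j) σ` (`bt a = cor a.1 (pi a.2)`, `cor_arg`, so
  `cor j` is additive on products and inverses (`cor j 1 = 0`); regroup the sum over `g` by `a.1`: `Finset.sum_fiberwise` or `Finset.sum_sigma'`; the elements `a = ⟨j, w⟩`).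
* `x j` is `PS` at `(X.A j).D.S`: `RM.prim_of` with `m = ∑ a ∈ g', single a.2 1 - ∑ a ∈ g, single a.2 1` (over the `a` with `a.1 = j`; `m = 0` on `S` because all `a.2 ∉ S` by `X.Gd`), the sum
  `∑ m v • q v = qt g' j - qt g j = 0`, and `m.prod (fun v n => pi v ^ n) = x j` (`Finsupp.prod_add_index'`, or define `m` by a finite sum and induct).
* `ps_dec` gives the hypothesis of `cor_dec` (for `F j`: `fld_clo`, `fld_zeta`, `fld_mone`); add the `M` of all `j` (`map_sum`).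
* `sty`: with `b' σ = b σ + M - act (φQ σ) M` for `σ ∈ dec (X.P.P v)`: `ρ' σ = e (b' σ) φ σ = e M * e (b σ) * e (-(act (φQ σ) M)) * φ σ` and `e (act (φQ σ) M)⁻¹ φ σ = φ σ e (M)⁻¹` (`Dg.conj` with
  `π (φ σ) = φQ σ`), `e (-x) = (e x)⁻¹`, `e_zero`.
-/

set_option autoImplicit false
set_option linter.dupNamespace false

open scoped NumberField Pointwise
open IsDedekindDomain
open scoped Classical

noncomputable section

namespace H1.AR

open H63.MA H38.BB H38.BG H57.PC H57.BRA H89.BRG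

variable {p u w N : ℕ} {R Q : Type} [Group R] [Group Q] [Fintype Q] {Dg : MG p u w N R Q}
  {K : Type} [Field K] [NumberField K] {Ω : Type} [Field Ω] [Algebra K Ω] [IsAlgClosure K Ω]
  {ζ : K} (X : AD Dg K Ω ζ)

/-- the labels of class `j` of a family -/
private def styG (g : Finset X.Lb) (j : Fin N) : Finset (Pl (X.F j)) :=
  g.preimage (fun w => (⟨j, w⟩ : X.Lb)) (fun _ _ _ _ h => eq_of_heq (Sigma.mk.inj_iff.1 h).2)

omit [Fintype Q] [IsAlgClosure K Ω] in
private theorem styG_mem {g : Finset X.Lb} {j : Fin N} {w : Pl (X.F j)} : w ∈ styG X g j ↔ (⟨j, w⟩ : X.Lb) ∈ g := by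
  unfold styG
  rw [Finset.mem_preimage]

omit [Fintype Q] [IsAlgClosure K Ω] in
private theorem styG_sum {V : Type} [AddCommMonoid V] (g : Finset X.Lb) (f : X.Lb → V) :
    ∑ a ∈ g, f a = ∑ j, ∑ w ∈ styG X g j, f ⟨j, w⟩ := by
  have h1 : (Finset.univ.sigma fun j => styG X g j) = g := by
    ext ⟨j, w⟩
    rw [Finset.mem_sigma]
    exact ⟨fun h => (styG_mem X).1 h.2, fun h => ⟨Finset.mem_univ _, (styG_mem X).2 h⟩⟩
  rw [← Finset.sum_sigma Finset.univ (fun j => styG X g j) f, h1]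

omit [Fintype Q] [IsAlgClosure K Ω] in
private theorem styG_qt (g : Finset X.Lb) (j : Fin N) : X.qt g j = ∑ w ∈ styG X g j, (X.A j).D.q w := by
  unfold AD.qt
  rw [styG_sum, Finset.sum_eq_single j]
  · refine Finset.sum_congr rfl fun w _ => ?_
    rw [dif_pos rfl]
  · intro i _ hi
    refine Finset.sum_eq_zero fun w _ => ?_
    rw [dif_neg hi]
  · intro h
    exact absurd (Finset.mem_univ j) h

private theorem sty_cor1 (hp : p.Prime) (hζ : IsPrimitiveRoot ζ p) (j : Fin N) (σ : Gal(Ω/K)) :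
    X.cor j 1 σ = 0 := by
  have h := cor_arg X hp hζ j 1 1 σ
  rw [mul_one] at h
  exact left_eq_add.1 h

private theorem sty_corp (hp : p.Prime) (hζ : IsPrimitiveRoot ζ p) (j : Fin N) (σ : Gal(Ω/K))
    (S : Finset (Pl (X.F j))) (f : Pl (X.F j) → (X.F j)ˣ) :
    X.cor j (∏ w ∈ S, f w) σ = ∑ w ∈ S, X.cor j (f w) σ := by
  induction S using Finset.induction_on with
  | empty => rw [Finset.prod_empty, Finset.sum_empty, sty_cor1 X hp hζ]
  | insert a S ha ih => rw [Finset.prod_insert ha, Finset.sum_insert ha, cor_arg X hp hζ, ih]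

private theorem sty_cori (hp : p.Prime) (hζ : IsPrimitiveRoot ζ p) (j : Fin N) (σ : Gal(Ω/K))
    (x : (X.F j)ˣ) : X.cor j x⁻¹ σ = - X.cor j x σ := by
  have h := cor_arg X hp hζ j x x⁻¹ σ
  rw [mul_inv_cancel, sty_cor1 X hp hζ] at h
  exact (neg_eq_of_add_eq_zero_right h.symm).symm

omit [Fintype Q] [IsAlgClosure K Ω] in
private theorem sty_ps {g g' : Finset X.Lb} (hg : X.Ok g) (hg' : X.Ok g') (j : Fin N)
    (hq : X.qt g j = X.qt g' j) :
    PS p (algebraMap K (X.F j) ζ) (X.A j).D.S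
      ((∏ w ∈ styG X g' j, (X.A j).D.pi w) * (∏ w ∈ styG X g j, (X.A j).D.pi w)⁻¹) := by
  obtain ⟨m, hm⟩ : ∃ m : Pl (X.F j) →₀ ℤ, m = ∑ w ∈ styG X g' j, Finsupp.single w 1 +
      ∑ w ∈ styG X g j, Finsupp.single w (-1) := ⟨_, rfl⟩
  have h1 : m.prod (fun v n => (X.A j).D.pi v ^ n) =
      (∏ w ∈ styG X g' j, (X.A j).D.pi w) * (∏ w ∈ styG X g j, (X.A j).D.pi w)⁻¹ := by
    rw [hm, Finsupp.prod_add_index' (fun a => zpow_zero _) (fun a b c => zpow_add _ _ _),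
      ← Finsupp.prod_finsetSum_index (fun a => zpow_zero _) (fun a b c => zpow_add _ _ _),
      ← Finsupp.prod_finsetSum_index (fun a => zpow_zero _) (fun a b c => zpow_add _ _ _),
      ← Finset.prod_inv_distrib]
    congr 1
    · refine Finset.prod_congr rfl fun w _ => ?_
      rw [Finsupp.prod_single_index (zpow_zero _), zpow_one]
    · refine Finset.prod_congr rfl fun w _ => ?_
      rw [Finsupp.prod_single_index (zpow_zero _), zpow_neg_one]
  rw [← h1]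
  refine (X.A j).D.prim_of m (fun v hv => ?_) ?_
  · rw [hm, Finsupp.add_apply, Finsupp.finsetSum_apply, Finsupp.finsetSum_apply, Finset.sum_eq_zero,
      Finset.sum_eq_zero, add_zero]
    · intro w hw
      rw [Finsupp.single_apply, if_neg]
      rintro rfl
      exact (hg.1 _ ((styG_mem X).1 hw)).1 hv
    · intro w hw
      rw [Finsupp.single_apply, if_neg]
      rintro rfl
      exact (hg'.1 _ ((styG_mem X).1 hw)).1 hv
  · have h2 : ∀ (a : Pl (X.F j)), (((0 : ℤ) : ZMod p)) • (X.A j).D.q a = 0 := fun a => by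
      rw [Int.cast_zero, zero_smul]
    have h3 : ∀ (a : Pl (X.F j)) (b c : ℤ), (((b + c : ℤ) : ZMod p)) • (X.A j).D.q a =
        ((b : ZMod p)) • (X.A j).D.q a + ((c : ZMod p)) • (X.A j).D.q a := fun a b c => by
      rw [Int.cast_add, add_smul]
    rw [hm, Finsupp.sum_add_index' h2 h3, ← Finsupp.sum_finsetSum_index h2 h3,
      ← Finsupp.sum_finsetSum_index h2 h3]
    have h4 : ∑ w ∈ styG X g' j, (Finsupp.single w (1 : ℤ)).sum (fun v n => (n : ZMod p) • (X.A j).D.q v) =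
        X.qt g' j := by
      rw [styG_qt]
      refine Finset.sum_congr rfl fun w _ => ?_
      rw [Finsupp.sum_single_index (h2 w), Int.cast_one, one_smul]
    have h5 : ∑ w ∈ styG X g j, (Finsupp.single w (-1 : ℤ)).sum (fun v n => (n : ZMod p) • (X.A j).D.q v) =
        - X.qt g j := by
      rw [styG_qt, ← Finset.sum_neg_distrib]
      refine Finset.sum_congr rfl fun w _ => ?_
      rw [Finsupp.sum_single_index (h2 w), Int.cast_neg, Int.cast_one, neg_smul, one_smul]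
    rw [h4, h5, hq, add_neg_cancel]

theorem sty_bet (hp : p.Prime) (hp2 : MOne p K) (hζ : IsPrimitiveRoot ζ p) {g g' : Finset X.Lb}
    (hg : X.Ok g) (hg' : X.Ok g') (hq : ∀ j, X.qt g j = X.qt g' j) {v : Pl K} (hv : v ∈ X.D.S0)
    {P : Ideal (𝓞 Ω)} (hP : P.IsPrime) (hPv : P.under (𝓞 K) = v.asIdeal) :
    ∃ M : Fin u → ZMod p, ∀ σ ∈ dec (K := K) P,
      X.bet g' σ = X.bet g σ + M - Dg.act (X.φQ σ) M := by
  have key : ∀ j, ∃ M : Fin u → ZMod p, ∀ σ ∈ dec (K := K) P,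
      X.cor j ((∏ w ∈ styG X g' j, (X.A j).D.pi w) * (∏ w ∈ styG X g j, (X.A j).D.pi w)⁻¹) σ =
        M - Dg.act (X.φQ σ) M := by
    intro j
    refine cor_dec X hp hζ j _ (fun w hw P' hP' hPw δ hδ => ?_) hv hP hPv
    have := fld_clo X j
    exact ps_dec hp (fld_mone X hp2 j) (fld_zeta X hζ j) (sty_ps X hg hg' j (hq j)) hw hP' hPw hδ
  choose M hM using key
  refine ⟨∑ j, M j, fun σ hσ => ?_⟩
  have h1 : X.bet g' σ - X.bet g σ = ∑ j, (M j - Dg.act (X.φQ σ) (M j)) := by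
    unfold AD.bet
    rw [styG_sum, styG_sum, ← Finset.sum_sub_distrib]
    refine Finset.sum_congr rfl fun j _ => ?_
    rw [← hM j σ hσ, cor_arg X hp hζ, sty_cori X hp hζ, sty_corp X hp hζ, sty_corp X hp hζ, ← sub_eq_add_neg]
    rfl
  rw [Finset.sum_sub_distrib, ← map_sum] at h1
  rw [add_sub_assoc, ← h1]
  abel

theorem sty (hp : p.Prime) (hp2 : MOne p K) (hζ : IsPrimitiveRoot ζ p) {φ ρ ρ' : Gal(Ω/K) →* R}
    (hφ : X.IsC φ) {g g' : Finset X.Lb} (hg : X.Ok g) (hg' : X.Ok g')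
    (hq : ∀ j, X.qt g j = X.qt g' j) (hρ : Dg.Tw φ (X.bet g) ρ) (hρ' : Dg.Tw φ (X.bet g') ρ')
    (v : Pl K) (hv : v ∈ X.D.S0) : ∃ m : Fin u → ZMod p, ∀ σ ∈ dec (K := K) (X.P.P v),
      ρ' σ = Dg.e m * ρ σ * (Dg.e m)⁻¹ := by
  obtain ⟨M, hM⟩ := sty_bet X hp hp2 hζ hg hg' hq hv (X.P.prime v) (X.P.under v)
  refine ⟨M, fun σ hσ => ?_⟩
  have h1 : (Dg.e M)⁻¹ = Dg.e (-M) := by
    rw [inv_eq_iff_mul_eq_one, ← Dg.eadd, add_neg_cancel, e_zero]
  have h2 : φ σ * Dg.e (-M) = Dg.e (Dg.act (X.φQ σ) (-M)) * φ σ := by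
    have h3 := Dg.conj (φ σ) (-M)
    rw [hφ.pi σ] at h3
    rw [← h3, inv_mul_cancel_right]
  rw [hρ' σ, hρ σ, hM σ hσ, h1, mul_assoc, mul_assoc, h2, ← mul_assoc, ← mul_assoc, ← Dg.eadd, ← Dg.eadd, map_neg]
  congr 2
  abel

end H1.AR
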